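import Pool.Agent.Lib.EU2.Basic
import Pool.Agent.Lib.EUL.B_ABS

/-! Absorption of the large obstacles, weighted drift. -/

namespace Pool.Agent.Lib.EU2

open MeasureTheory Set Filter Topology Pool.Agent.Lib.EUL
open scoped ContDiff Classical

variable [Al]

open EUL.ABS in
theorem st_ABS (hMAJ : St_MAJ) (hMJ : St_MJ) : St_ABS := by
  obtain ⟨C, hC, -, hmaj⟩ := hMAJ
  obtain ⟨m1, m2, m3, m4, -⟩ := hMJ
  refine ⟨2 * C, by linarith, ?_⟩
  intro v a b l D rho Y Xi Z M l' D' rho' Y' Xi' Z' M' ⟨ι, _, o, V, h⟩ hD hDD hDl hll hl hrho hY hXi hZ hM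
  have hl0 : 0 < l' := by linarith
  obtain ⟨B, hB⟩ : ∃ B : ι → ℝ → ℂ → ℂ,
      B = fun i => if (o i).rho ≤ D' then fun _ _ => 0 else (o i).W := ⟨_, rfl⟩
  obtain ⟨c, hc⟩ : ∃ c : ι → ℝ → ℝ,
      c = fun i => if (o i).rho ≤ D' then fun _ => 0 else fun t => (o i).a t * (o i).u := ⟨_, rfl⟩
  have B1 : ∀ i, (o i).rho ≤ D' → B i = fun _ _ => 0 := fun i hi => by rw [hB]; exact if_pos hi
  have B2 : ∀ i, ¬ (o i).rho ≤ D' → B i = (o i).W := fun i hi => by rw [hB]; exact if_neg hi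
  have c1 : ∀ i, (o i).rho ≤ D' → c i = fun _ => 0 := fun i hi => by rw [hc]; exact if_pos hi
  have c2 : ∀ i, ¬ (o i).rho ≤ D' → c i = fun t => (o i).a t * (o i).u := fun i hi => by
    rw [hc]; exact if_neg hi
  have Bsp : ∀ i, SP (B i) := fun i => by
    by_cases hi : (o i).rho ≤ D'
    · rw [B1 i hi]; exact ⟨contDiff_const, fun _ _ _ => rfl⟩
    · rw [B2 i hi]; exact (h.good i).Wsp
  have Asm : Sm fun t y => ∑ i, B i t y := ContDiff.sum fun i _ => (Bsp i).1
  have mu : ∀ t, Mult (fun i => (o i).a t ≠ 0) (fun i => (o i).x t) l' M := fun t =>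
    mult_comp (h.mult t) id Function.injective_id (fun _ hk => hk) (by linarith) le_rfl
  have hal : 0 ≤ 2 - al := sub_nonneg.2 al_le_two
  have hsum : ∀ t, ∑ i, c i t ^ 2 ≤ D' ^ (al - 2) * Xi := fun t => by
    refine le_trans ?_ (mul_le_mul_of_nonneg_left (h.xi t) (Real.rpow_nonneg hD.le _))
    rw [Finset.mul_sum]
    refine Finset.sum_le_sum fun i _ => ?_
    have r0 := (h.good i).rpos
    by_cases hi : (o i).rho ≤ D'
    · rw [c1 i hi]
      have := Real.rpow_nonneg hD.le (al - 2)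
      have := Real.rpow_nonneg r0.le (2 - al)
      simp only [ne_eq, OfNat.ofNat_ne_zero, not_false_eq_true, zero_pow]
      positivity
    · rw [c2 i hi]
      have a1 : D' ^ (2 - al) ≤ (o i).rho ^ (2 - al) := Real.rpow_le_rpow hD.le (not_le.1 hi).le hal
      have a2 : D' ^ (al - 2) * D' ^ (2 - al) = 1 := by
        rw [← Real.rpow_add hD]; simp
      have a3 := mul_le_mul_of_nonneg_left a1 (Real.rpow_nonneg hD.le (al - 2))
      have a4 := mul_le_mul_of_nonneg_left (a2.symm.le.trans a3) (sq_nonneg ((o i).a t * (o i).u))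
      simp only
      linarith
  have h0 := hmaj ι c (fun i => (o i).x) B l' D' M (D' ^ (al - 2) * Xi) hl0 (hll.trans hl) hD.le
    (fun i => by
      by_cases hi : (o i).rho ≤ D'
      · rw [c1 i hi]; exact continuous_const
      · rw [c2 i hi]; exact (h.good i).acont.mul continuous_const)
    (fun i => (h.good i).xsm.continuous)
    (fun i t => by
      by_cases hi : (o i).rho ≤ D'
      · rw [c1 i hi]
      · rw [c2 i hi]; exact mul_nonneg ((h.good i).a0 t) (h.good i).u0)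
    (fun i => (Bsp i).1)
    (fun t => mult_comp (mu t) id Function.injective_id (fun i hi => by
      by_cases hi' : (o i).rho ≤ D'
      · rw [c1 i hi'] at hi; exact absurd rfl hi
      · rw [c2 i hi'] at hi; exact left_ne_zero_of_mul hi) le_rfl le_rfl)
    hsum
    (fun i t => by
      by_cases hi : (o i).rho ≤ D'
      · rw [B1 i hi, c1 i hi]
        intro j _ y
        simp only [nD_zero, mul_zero, zero_mul, le_refl]
      · rw [B2 i hi, c2 i hi]
        exact dom (h.good i) hD.le (not_le.1 hi).le ((h.size i).2.trans hDl) t)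
  have e4 : D' ^ (al - 4) = D' ^ (al - 2) / D' ^ 2 := by
    rw [show al - 4 = al - 2 - (2 : ℕ) by push_cast; ring, Real.rpow_sub_natCast hD.ne']
  refine ⟨{i // (o i).rho ≤ D'}, inferInstance, fun k => o k.1, fun t y => V t y + ∑ i, B i t y,
    ⟨h.Vsp.1.add Asm, fun t n z => ?_⟩, fun t ht x => ?_, fun t x => ?_, ?_, fun k => h.good k.1,
    fun k => h.life k.1, fun k => ⟨hrho.trans (h.size k.1).1, k.2⟩,
    fun k => hDD.trans (h.long k.1), fun t => ?_, fun t => ?_, fun t => ?_⟩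
  · simp only [h.Vsp.2 t n z, fun i => (Bsp i).2 t n z]
  · rw [h.Vts t ht x, zero_add]
    refine Finset.sum_eq_zero fun i _ => ?_
    by_cases hi : (o i).rho ≤ D'
    · rw [B1 i hi]
    · rw [B2 i hi]
      exact (h.good i).Wts t (fun ht' => ht ⟨(h.life i).1.trans ht'.1, ht'.2.trans (h.life i).2⟩) x
  · rw [h.eq t x, ← Fintype.sum_subtype_add_sum_subtype (fun i => (o i).rho ≤ D') fun i => (o i).W t x,
      ← Fintype.sum_subtype_add_sum_subtype (fun i => (o i).rho ≤ D') fun i => B i t x,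
      Finset.sum_eq_zero (f := fun k : {i // (o i).rho ≤ D'} => B k.1 t x) fun k _ => by
        rw [B1 k.1 k.2],
      Finset.sum_congr rfl (f := fun k : {i // ¬ (o i).rho ≤ D'} => B k.1 t x) fun k _ => by
        rw [B2 k.1 k.2]]
    ring
  · refine m1 _ _ _ _ _ _ _ (m2 V _ l' D' Y _ h.Vsp.1 Asm hl0.le hD.le
      (m1 V l D Y l' D' Y h.maj hll hD.le hDD le_rfl) (m3 _ _ _ _ D' h0 hD hD.le le_rfl))
      le_rfl hD.le le_rfl (le_trans (le_of_eq ?_) hY)
    rw [e4]; ring
  · exact mult_comp (h.mult t) Subtype.val Subtype.val_injective (fun _ hk => hk) (by linarith) hM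
  · refine le_trans (sub_le (fun i => (o i).rho ≤ D')
      (fun i => ((o i).a t * (o i).u) ^ 2 * (o i).rho ^ (2 - al)) fun i => ?_) ((h.xi t).trans hXi)
    exact mul_nonneg (sq_nonneg _) (Real.rpow_nonneg (h.good i).rpos.le _)
  · obtain ⟨g, -, hg⟩ := h0
    have k1 := m4 _ _ _ _ _ M ι (fun i => (o i).a t) (fun i => (o i).x t) (hg t) hl0 (hll.trans hl)
      (fun i => (h.good i).a0 t) (fun i => (h.good i).a1 t) (mu t)
    have k2 := h.drift t
    have p0 : 0 < D' ^ (2 - al) := Real.rpow_pos_of_pos hD _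
    have w0 : ∀ i, 0 ≤ (o i).rho ^ (2 - al) := fun i => Real.rpow_nonneg (h.good i).rpos.le _
    have k3 : ∑ k : {i // (o i).rho ≤ D'}, ((o k.1).a t * ‖deriv (o k.1).x t -
        (V t ((o k.1).x t) + ∑ j, B j t ((o k.1).x t))‖) ^ 2 * (o k.1).rho ^ (2 - al) ≤
        ∑ k : {i // (o i).rho ≤ D'}, (fun i =>
          2 * (((o i).a t * ‖deriv (o i).x t - V t ((o i).x t)‖) ^ 2 * (o i).rho ^ (2 - al)) +
          2 * D' ^ (2 - al) * ((o i).a t * ‖∑ j, B j t ((o i).x t)‖) ^ 2) k.1 := by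
      refine Finset.sum_le_sum fun ⟨i, hi⟩ _ => ?_
      have a0 := (h.good i).a0 t
      have n1 := norm_sub_le (deriv (o i).x t - V t ((o i).x t)) (∑ j, B j t ((o i).x t))
      rw [sub_sub] at n1
      have n2 := pow_le_pow_left₀ (mul_nonneg a0 (norm_nonneg _)) (mul_le_mul_of_nonneg_left n1 a0) 2
      have n3 : ((o i).a t * ‖deriv (o i).x t - (V t ((o i).x t) + ∑ j, B j t ((o i).x t))‖) ^ 2 ≤
          2 * ((o i).a t * ‖deriv (o i).x t - V t ((o i).x t)‖) ^ 2 +
          2 * ((o i).a t * ‖∑ j, B j t ((o i).x t)‖) ^ 2 := by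
        nlinarith [sq_nonneg ((o i).a t * ‖deriv (o i).x t - V t ((o i).x t)‖ -
          (o i).a t * ‖∑ j, B j t ((o i).x t)‖)]
      have n4 := mul_le_mul_of_nonneg_right n3 (w0 i)
      have n5 := mul_le_mul_of_nonneg_left (Real.rpow_le_rpow (h.good i).rpos.le hi hal)
        (sq_nonneg ((o i).a t * ‖∑ j, B j t ((o i).x t)‖))
      simp only
      linarith
    have k5 := sub_le (fun i => (o i).rho ≤ D') (fun i =>
      2 * (((o i).a t * ‖deriv (o i).x t - V t ((o i).x t)‖) ^ 2 * (o i).rho ^ (2 - al)) +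
      2 * D' ^ (2 - al) * ((o i).a t * ‖∑ j, B j t ((o i).x t)‖) ^ 2) fun i => add_nonneg
      (mul_nonneg zero_le_two (mul_nonneg (sq_nonneg _) (w0 i)))
      (mul_nonneg (mul_nonneg zero_le_two p0.le) (sq_nonneg _))
    refine k3.trans (k5.trans ?_)
    rw [Finset.sum_add_distrib, ← Finset.mul_sum, ← Finset.mul_sum]
    have a2 : D' ^ (2 - al) * D' ^ (al - 2) = 1 := by
      rw [← Real.rpow_add hD]; simp
    have e : D' ^ (2 - al) * (M * (C * M * lg l' ^ 2 * l' ^ 2 * (D' ^ (al - 2) * Xi)) / l' ^ 2) =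
        D' ^ (2 - al) * D' ^ (al - 2) * (C * M ^ 2 * lg l' ^ 2 * Xi) := by field_simp
    have k4 := mul_le_mul_of_nonneg_left k1 p0.le
    rw [e, a2, one_mul] at k4
    linarith

end Pool.Agent.Lib.EU2
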