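import Pool.Agent.Lib.EU2.Basic
import Pool.Agent.Lib.EUL.BasicC

/-! Block BUILD: boxes, sources, steered placement and dipoles of one stage. -/

set_option autoImplicit false

namespace Pool.Agent.Lib.EU2

open MeasureTheory Set Filter Topology Pool.Agent.Lib.EUL
open scoped ContDiff Classical

namespace BUILD

theorem int_sqrt {A : ℝ → ℝ} (hA : Continuous A) (h0 : ∀ t, 0 ≤ A t) {c T θ : ℝ} (hT : 0 < T)
    (hθ : 0 < θ) (h : ∫ t in (c - 2 * T)..(c + 2 * T), A t ≤ θ ^ 2 / T) :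
    ∫ t in (c - 2 * T)..(c + 2 * T), √(A t) ≤ 2 * θ := by
  have h1 : ∀ t, √(A t) ≤ T / θ * A t + θ / (4 * T) := fun t => by
    have e := Real.sq_sqrt (h0 t)
    have h2 : 0 ≤ T / θ * (√(A t) - θ / (2 * T)) ^ 2 := by positivity
    have h3 : T / θ * (√(A t) - θ / (2 * T)) ^ 2 = T / θ * √(A t) ^ 2 - √(A t) + θ / (4 * T) := by
      field_simp
      ring
    rw [h3, e] at h2
    linarith
  have c1 : Continuous fun t => T / θ * A t := continuous_const.mul hA
  have c2 : Continuous fun t => T / θ * A t + θ / (4 * T) := c1.add continuous_const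
  refine (intervalIntegral.integral_mono_on (by linarith) (hA.sqrt.intervalIntegrable _ _)
    (c2.intervalIntegrable _ _) fun t _ => h1 t).trans ?_
  rw [intervalIntegral.integral_add (c1.intervalIntegrable _ _)
    (continuous_const.intervalIntegrable _ _), intervalIntegral.integral_const_mul,
    intervalIntegral.integral_const, smul_eq_mul]
  have h4 : T / θ * ∫ t in (c - 2 * T)..(c + 2 * T), A t ≤ T / θ * (θ ^ 2 / T) :=
    mul_le_mul_of_nonneg_left h (by positivity)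
  have h5 : T / θ * (θ ^ 2 / T) = θ := by field_simp
  have h6 : (c + 2 * T - (c - 2 * T)) * (θ / (4 * T)) = θ := by field_simp; ring
  linarith

theorem env_mono {W : ℂ → ℂ} {p : ℂ} {c c' r : ℝ} (h : Env W p c r) (hr : 0 < r) (hc : c ≤ c') :
    Env W p c' r := fun j hj y => (h j hj y).trans (by
  have : 0 < max r (pn (y - p)) := lt_max_of_lt_left hr
  gcongr)

theorem dom_mono {k : ℕ} {W : ℂ → ℂ} {p : ℂ} {c c' r s : ℝ} (h : Dom k W p c r s) (hr : 0 < r)
    (hc : c ≤ c') : Dom k W p c' r s := fun j hj y => (h j hj y).trans (by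
  have : 0 < max r (pn (y - p)) := lt_max_of_lt_left hr
  have : 0 ≤ tau k r (pn (y - p)) := by unfold tau; positivity
  gcongr)

variable [Al]

theorem ok_mono {P : Par} {C C' : ℝ} (h : P.OK C') (hC : C ≤ C') : P.OK C :=
  { h with big := (mul_le_mul_of_nonneg_right hC (lg_pos P.rho).le).trans h.big }

end BUILD

variable [Al]

open BUILD in
theorem st_BUILD (hPREP : St_PREP) (hAVG : St_AVG) (hCOVER : St_COVER) (hPOU : St_POU)
    (hSRC : St_SRC) (hCELL : St_CELL) (hPLACE : St_PLACE) : St_BUILD := by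
  obtain ⟨C1, c1, H1⟩ := hPREP
  obtain ⟨C2, c2, H2⟩ := hCOVER
  obtain ⟨C3, c3, H3⟩ := hSRC
  obtain ⟨C4, c4, H4⟩ := hCELL
  obtain ⟨C5, c5, H5⟩ := hPLACE
  refine ⟨10000 * (C1 + C2 + C3 + C4 + C5), by linarith, ?_⟩
  intro P v q V ι _ o a b hP hq hqt hqS hD
  have hrho := hP.rpos
  have hS := hP.Spos
  have hn := hP.n1
  have hL1 := one_le_lg P.rho
  have hG : 10000 * (C1 + C2 + C3 + C4 + C5) ≤ P.G := le_trans (by nlinarith) hP.big
  have hG1 : 1 ≤ P.G := by linarith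
  have hGL : ∀ c : ℝ, c ≤ C1 + C2 + C3 + C4 + C5 → c * lg P.rho ≤ P.G := fun c hc =>
    le_trans (mul_le_mul_of_nonneg_right (by linarith) (by linarith)) hP.big
  have hLG : lg P.rho ≤ P.G := by simpa using hGL 1 (by linarith)
  have hD0 : 0 < P.D := hrho.trans_le hP.rD
  have hd2 : 0 < P.d2 := by linarith [hP.Dd2]
  have hd : 0 < P.d := hd2.trans_le hP.d2d
  have hGd : P.G * P.d2 ≤ P.h := (mul_le_mul_of_nonneg_left hP.d2d (by linarith)).trans hP.dh
  have hGl : P.G * P.d2 ≤ P.l := hGd.trans hP.hl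
  have hd2l : P.d2 ≤ P.l := le_trans (by nlinarith) hGl
  have hl : 0 < P.l := hd2.trans_le hd2l
  have hDl : P.D ≤ P.l := by linarith [hP.Dd2]
  have hls := hP.lsmall
  have hth := hP.thpos
  have hkap := hP.kpos
  have hf := hP.fpos
  have he1 := hP.e1pos
  have hh : 0 < P.h := lt_of_lt_of_le (by positivity) hGd
  have hG2 : 10000 ≤ P.G ^ 2 := by nlinarith
  have hth1 : P.th0 ≤ 1 / 100 := by
    have h1 : P.G ^ 2 * P.th0 * P.l ≤ 1 * P.l := by linarith [hP.thD]
    have h2 := le_of_mul_le_mul_right h1 hl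
    nlinarith
  have hlg : lg P.l ≤ lg P.rho := lg_anti hrho (hP.rD.trans hDl) (by linarith)
  have hLam : 0 < P.Lam := by unfold Par.Lam; positivity
  have hrs : 0 < P.rs := rad_pos hD0 hrho
  obtain ⟨g, F, lam, hts, gc, gm, hfar, hB, hqF, lc, l0, lb, ls⟩ :=
    H1 P v q V ι o a b (ok_mono hP (by linarith)) hq hqS hD
  obtain ⟨usp, uts, Fc, Fp, F0, FY, FD, -, -, hY⟩ := id hB
  obtain ⟨Ac, -, A0, -, -, -, Alow⟩ := hAVG F P.l Fc Fp F0 hl hls
  obtain ⟨N, tb, Tb, z, b1, b2, b3, b4, b5, b6⟩ := H2 _ F P.l _ P.th0 a b hB hth hth1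
  have hT : ∀ i, 0 < Tb i := fun i => (b1 i).1
  obtain ⟨chi, k1, k2, k3, k4⟩ := hPOU N tb Tb z P.l a b hl (by linarith) hT (fun i => (b2 i).1) b3
  obtain ⟨S, s1, s2⟩ := H3 _ q F P.l P.th0 P.T0 a b _ _ ((P.n * P.rho) ^ 2) (Fin N) tb Tb z chi
    ⟨hT, fun i => (b1 i).2.1, fun i => (b1 i).2.2, fun i => (b2 i).1, fun i => (b2 i).2, k1,
      fun i t y => (k2 i t y).1, fun i t y => (k2 i t y).2, k3, k4, b4, b5, b6⟩
    hl hls (sq_nonneg _) Fc F0 hq hqt hqF
  have huT : ∀ i, P.Lam / Tb i * Tb i = P.Lam := fun i => div_mul_cancel₀ _ (hT i).ne'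
  have hu : ∀ i, 0 < P.Lam / Tb i := fun i => div_pos hLam (hT i)
  have hC4G : C4 ≤ P.G := by linarith
  have hcell := fun i => H4 P.l P.rho P.d P.h P.d2 (P.G * P.d2) (3 * P.d2) P.e1 P.f (P.Lam / Tb i)
    (Tb i) (tb i) (lg P.rho) (S i) hrho
    (le_trans (mul_le_mul_of_nonneg_right (by nlinarith) hrho.le) hP.rd) hd2 hP.d2d
    (le_trans (mul_le_mul_of_nonneg_right hC4G hd.le) hP.dh) hP.hl hls (by positivity)
    (mul_le_mul_of_nonneg_right (by linarith) hd2.le)
    (le_trans (mul_le_mul_of_nonneg_right (by linarith) hd2.le) hGd) hGl he1 hP.e11 hf hP.f4 (hu i)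
    (hT i) (by rw [huT]; exact hP.hl.trans hP.ramp)
    (by rw [huT]; exact le_trans (mul_le_mul_of_nonneg_right hC4G (by positivity)) hP.rounds) le_rfl
    (s1 i).1 (s1 i).2.1 (fun k hk y => by
      have h1 := (s1 i).2.2 k hk y
      have hTi := hT i
      have h2 : P.rho ^ 2 * (P.Lam / Tb i) ^ 2 * Tb i
          = P.G ^ 2 * P.l ^ 2 * ((P.n * P.rho) ^ 2 * P.th0 ^ 2 / Tb i) := by
        unfold Par.Lam; field_simp
      have h3 : C4 * C3 ≤ P.G ^ 2 := by nlinarith
      calc C4 * P.l ^ 2 * (P.l ^ k * ∫ t, nD k (S i t) y)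
          ≤ C4 * P.l ^ 2 * (C3 * (P.n * P.rho) ^ 2 * P.th0 ^ 2 / Tb i) :=
            mul_le_mul_of_nonneg_left h1 (by positivity)
        _ = C4 * C3 * (P.l ^ 2 * ((P.n * P.rho) ^ 2 * P.th0 ^ 2 / Tb i)) := by ring
        _ ≤ P.G ^ 2 * (P.l ^ 2 * ((P.n * P.rho) ^ 2 * P.th0 ^ 2 / Tb i)) :=
            mul_le_mul_of_nonneg_right h3 (by positivity)
        _ = _ := by rw [h2]; ring)
  choose ξ U Nr tk Y s e x1 x2 x3 x4 x5 x6 x7 x8 x9 using hcell
  have hK : (2 + 3 * C4) * P.d2 ≤ P.G * P.d2 := mul_le_mul_of_nonneg_right (by linarith) hd2.le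
  have hlong : ∀ i, P.l ≤ P.Lam / Tb i * (e i - s i) := fun i => by
    have h1 : P.Lam / Tb i * (P.f * Tb i) ≤ P.Lam / Tb i * (e i - s i) :=
      mul_le_mul_of_nonneg_left (by linarith [x5 i]) (hu i).le
    have h2 : P.Lam / Tb i * (P.f * Tb i) = P.f * P.Lam := by
      rw [mul_left_comm, huT]
    linarith [hP.ramp]
  have hAc : ∀ i, Continuous fun t => avg F 500 P.l t (z i t) := fun i =>
    (Ac 500).comp (continuous_id.prodMk (b2 i).1.continuous)
  have hint : ∀ i, ∫ t in (tb i - 2 * Tb i)..(tb i + 2 * Tb i), √(avg F 500 P.l t (z i t))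
      ≤ 2 * P.th0 := fun i => int_sqrt (hAc i) (fun t => A0 _ _ _) (hT i) hth (b4 i)
  have hM : ∀ t, Mult (fun i => |t - tb i| ≤ 2 * Tb i) (fun i => z i t) (110 * P.l) P.G := fun t =>
    (b6 t).mono (fun _ h => h) le_rfl
      ((mul_le_mul_of_nonneg_left hlg (by linarith)).trans (hGL C2 (by linarith)))
  obtain ⟨vs, x, p1, p2, p3, p4⟩ := H5 (Vh v o P.D) ι (Fin N) o (fun j => rad P.D (o j).rho) lam tb Tb
    s e (fun i => P.Lam / Tb i) z Y ξ U Nr tk (fun i t => √(avg F 500 P.l t (z i t)))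
    (fun i t => 3721 * P.rs / P.kap * √(avg F 500 P.l t (z i t))) P.l P.D P.d2 P.rs (2 * P.th0)
    (3721 * P.rs / P.kap * (2 * P.th0)) (40 * P.l) C4 P.Lam P.G usp uts hrs (rad_le hrho hP.rD)
    hP.Dd2 c4 (hK.trans hGl) hls
    (le_trans (by nlinarith [mul_pos hl hth]) hP.thD) (by positivity) hD.good
    (fun j => ⟨rad_mono hD0.le hrho.le (hD.size j).1, rad_le (hD.good j).rpos (hD.size j).2⟩)
    lc l0 lb hD.long hD.mult hT (fun i => ⟨x4 i, x7 i, x8 i, x6 i⟩) (fun i => (b2 i).2) x1 x2 x3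
    (fun i => hDl.trans (hlong i)) (fun i => (huT i).le) (fun i => (hAc i).sqrt)
    (fun i => continuous_const.mul (hAc i).sqrt)
    (fun i t y hy => Real.le_sqrt_of_sq_le
      (Alow 500 t (z i t) y _ (by linarith) fun w hw => FD t w y hw))
    hint (fun i t => ls t (z i t))
    (fun i => by
      rw [intervalIntegral.integral_const_mul]
      exact mul_le_mul_of_nonneg_left (hint i) (by positivity))
    hM (by
      refine le_trans ?_ hP.grid
      have h1 : 7442 * C5 ≤ P.G ^ 3 := by nlinarith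
      have h2 : 40 * (C5 * P.G) ≤ P.G ^ 3 := by nlinarith
      have h3 : C5 * P.G ≤ P.G ^ 3 := by nlinarith
      have a1 := mul_le_mul_of_nonneg_right h1 (show 0 ≤ P.rs * (P.th0 / P.kap) by positivity)
      have a2 := mul_le_mul_of_nonneg_right h2 (show 0 ≤ P.D * P.l by positivity)
      have a3 := mul_le_mul_of_nonneg_right h3 (show 0 ≤ P.D ^ 2 by positivity)
      have a4 := mul_le_mul_of_nonneg_right h3 (show 0 ≤ P.rs * P.Lam by positivity)
      have e1 : C5 * (3721 * P.rs / P.kap * (2 * P.th0) + P.G * P.rs * P.Lam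
          + P.G * P.D * (40 * P.l) + P.G * P.D ^ 2) = 7442 * C5 * (P.rs * (P.th0 / P.kap))
          + C5 * P.G * (P.rs * P.Lam) + 40 * (C5 * P.G) * (P.D * P.l) + C5 * P.G * P.D ^ 2 := by
        ring
      rw [e1]
      linarith)
  have hfin := fun i => x9 i (vs i) (p1 i).1 (x i) (z i) (fun t => Vh v o P.D t (x i t)) (p1 i).2.1
    (b2 i).1 (usp.1.path (p1 i).2.1) (p1 i).2.2
    (fun t ht => (p2 i t (by linarith [hT i])).trans hK)
  choose w wb E y1 y2 y3 y4 y5 y6 y7 y8 y9 y10 y11 using hfin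
  refine ⟨N, ⟨tb, Tb, s, e, z, x, w, wb, E, fun i => mv (S i) (z i), g⟩,
    { Vsp := usp, gcont := gc, gm := gm, far := hfar, Tpos := hT, Tle := fun i => (b1 i).2.1
      tmem := fun i => (b1 i).2.2
      life := fun i => ⟨x4 i, by linarith [x5 i, mul_pos hf (hT i)], x6 i⟩
      long := hlong, zsm := fun i => (b2 i).1, xsm := fun i => (p1 i).2.1
      xdrift := fun i t => ?_, near := fun i t ht => ?_, sumU := fun t => ?_, mult := hM
      sepO := fun i j t ht => ?_, sepN := fun i j t hij => ?_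
      wsp := y1, wbsp := y2, Esp := y3
      Ssp := fun i => (s1 i).1.sp_mv (by linarith) (b2 i).1
      wdiv := y4, wbdiv := y5, wts := y6, wbts := y8, Ets := y9
      env := fun i t => ?_, supp := fun i t => (y10 i t).2.1, dom := fun i t => ?_
      cost := fun i t => ?_, src := s2, eq := fun i => ?_ }⟩
  · show ‖deriv (x i) t - Vh v o P.D t (x i t)‖ ≤ P.Lam / Tb i
    rw [((p1 i).2.2 t).deriv, add_sub_cancel_left]
    exact (((x1 i).sm _ (p1 i).1).2 t).trans (x3 i t).1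
  · show ‖x i t - z i t‖ ≤ 52 * P.l
    have h1 := p2 i t ht
    have h2 := norm_add_le (x i t - z i t - Y i t) (Y i t)
    rw [sub_add_cancel] at h2
    linarith [(x3 i t).2]
  · show ∑ i ∈ Finset.univ.filter (fun i => |t - tb i| ≤ 2 * Tb i), (P.Lam / Tb i) ^ 2
      ≤ P.G ^ 5 * P.S / P.rho ^ 2
    have h1 : ∀ i, (P.Lam / Tb i) ^ 2 = (P.G * P.n * P.l) ^ 2 * (P.th0 / Tb i) ^ 2 := fun i => by
      unfold Par.Lam; ring
    simp only [h1, ← Finset.mul_sum]
    refine (mul_le_mul_of_nonneg_left (b5 t) (sq_nonneg _)).trans ?_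
    have h2 : (P.G * P.n * P.l) ^ 2 * (C2 * lg P.l * (6 * P.Y) / P.l ^ 2)
        = 6 * (C2 * lg P.l) * P.G ^ 2 * P.S / P.rho ^ 2 := by
      unfold Par.Y; field_simp
    have h3 : C2 * lg P.l ≤ P.G :=
      (mul_le_mul_of_nonneg_left hlg (by linarith)).trans (hGL C2 (by linarith))
    have h4 : 6 * (C2 * lg P.l) * P.G ^ 2 ≤ P.G ^ 5 := by
      calc 6 * (C2 * lg P.l) * P.G ^ 2 ≤ P.G ^ 2 * P.G * P.G ^ 2 := by
            have := lg_pos P.l
            gcongr
            linarith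
        _ = _ := by ring
    rw [h2]
    gcongr
  · by_cases h : U i t = 0
    · exact Or.inl (y7 i t h)
    · exact Or.inr (p3 i j t h ht)
  · by_cases h : U i t = 0
    · exact Or.inl (y7 i t h)
    · by_cases h' : U j t = 0
      · exact Or.inr (Or.inl (y7 j t h'))
      · exact Or.inr (Or.inr (p4 i j t hij h h'))
  · refine env_mono (y10 i t).1 hrho (mul_le_mul_of_nonneg_right ?_ (hu i).le)
    nlinarith [hGL C4 (by linarith)]
  · refine dom_mono (y10 i t).2.2.1 hl ?_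
    show _ ≤ P.G * P.bt * (P.Lam / Tb i)
    have h1 : C4 * P.rho ^ 2 * (P.Lam / Tb i) ^ 2 * Tb i * P.l / P.d ^ 4
        = C4 * P.bt * (P.Lam / Tb i) := by
      have := hT i
      unfold Par.bt; field_simp
    have h2 : 0 ≤ P.bt := by unfold Par.bt; positivity
    have := hu i
    rw [h1]
    gcongr
  · have h1 := (y10 i t).2.2.2
    rw [huT] at h1
    refine h1.mono hl ?_
    show _ ≤ P.G ^ 5 * (P.Lam / Tb i) ^ 2 * P.rho ^ 2 * _
    have h2 : 0 ≤ Gam P.l P.rho P.d P.h P.d2 (P.G * P.d2) P.e1 P.f P.Lam := by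
      unfold Gam; positivity
    have h3 : C4 * lg P.rho ^ 3 ≤ P.G ^ 5 := by
      calc C4 * lg P.rho ^ 3 ≤ P.G ^ 2 * P.G ^ 3 := by
            gcongr
            nlinarith
        _ = _ := by ring
    gcongr
  · have h1 : deriv (z i) = fun t => Vh v o P.D t (z i t) := funext fun t => ((b2 i).2 t).deriv
    have h2 := y11 i
    rw [h1] at h2
    exact h2

end Pool.Agent.Lib.EU2
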