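import Pool.Agent.Lib.EU2.Basic
import Pool.Agent.Lib.EUL.B_C13

set_option autoImplicit false

namespace Pool.Agent.Lib.EU2

open MeasureTheory Set Filter Topology Pool.Agent.Lib.EUL
open Pool.Agent.Lib.EUL.C13 (pn_neg_le iq_half mult_mono sp_sm supp_mono lg_one lg_anti env_dom
  env_zero sqrt_le)
open scoped ContDiff Classical

noncomputable section

variable [Al]

namespace C13

theorem half {l c : ℝ} {f : ℂ → ℂ} (h : Cst l f c) : Cst l (fun y => f y / 2) c :=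
  ⟨(iq_half fun _ => rfl).trans h.1, fun y => (iq_half fun x => by ring).trans (h.2 y)⟩

theorem wt_eq {D r : ℝ} (hD : 0 < D) (hr : 0 < r) :
    r ^ (2 - al) / (rad D r ^ 2) ^ 2 = r ^ (2 / 3 - al) / (D ^ (4 / 3 : ℝ)) ^ 2 := by
  have e : r ^ (2 - al) = r ^ (2 / 3 - al) * (r ^ (2 / 3 : ℝ)) ^ 2 := by
    rw [sq, ← Real.rpow_add hr, ← Real.rpow_add hr]
    congr 1
    ring
  have h1 : 0 < r ^ (2 / 3 : ℝ) := Real.rpow_pos_of_pos hr _
  have h2 : 0 < D ^ (4 / 3 : ℝ) := Real.rpow_pos_of_pos hD _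
  rw [rad_sq hD.le hr.le, e]
  field_simp

theorem wt_anti {D r s : ℝ} (hD : 0 < D) (hr : 0 < r) (h : r ≤ s) :
    s ^ (2 - al) / (rad D s ^ 2) ^ 2 ≤ r ^ (2 - al) / (rad D r ^ 2) ^ 2 := by
  rw [wt_eq hD hr, wt_eq hD (hr.trans_le h)]
  exact div_le_div_of_nonneg_right
    (Real.rpow_le_rpow_of_nonpos hr h (by linarith [one_le_al])) (sq_nonneg _)

end C13

theorem st_C13 (hN : St_NMAJ) (hC : St_CORE) (hF : St_FF) (hP : St_PAIR) (hQ : St_PAIR2) :
    St_C13 := by
  obtain ⟨C0, hC0, hN⟩ := hN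
  obtain ⟨C1, hC1, hC⟩ := hC
  obtain ⟨C2, hC2, hF⟩ := hF
  obtain ⟨C3, hC3, hP⟩ := hP
  obtain ⟨C4, hC4, hQ⟩ := hQ
  have q12 : 0 ≤ C1 * C2 := by positivity
  have q14 : 0 ≤ C1 * C4 := by positivity
  refine ⟨C0 + 4 + C1 * C2 + C1 * C4 + C3, by linarith, ?_⟩
  intro P v q V ι _ o a b β _ B hO hD hB t
  have hL := lg_one P.rho
  have hbig := hO.big
  have p12 : 0 ≤ C1 * C2 * lg P.rho := by positivity
  have p14 : 0 ≤ C1 * C4 * lg P.rho := by positivity
  have p3 : 0 ≤ C3 * lg P.rho := by positivity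
  have p0 : 0 ≤ C0 * lg P.rho := by positivity
  have g0 : C0 * lg P.rho ≤ P.G := by linarith
  have g4 : 4 ≤ P.G := by linarith
  have g12 : C1 * C2 * lg P.rho ≤ P.G := by linarith
  have g14 : C1 * C4 * lg P.rho ≤ P.G := by linarith
  have g3 : C3 * lg P.rho ≤ P.G := by linarith
  obtain ⟨⟨g, -, hg⟩, -, hM⟩ := hN P v q ι o a b β B { hO with big := g0 } hB
  have hr := hO.rpos
  have hS := hO.Spos
  have hrD := hO.rD
  have hD0 : 0 < P.D := hr.trans_le hrD
  have hDd : 12 * P.D ≤ P.d := hO.Dd2.trans hO.d2d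
  have hdl : 4 * P.d ≤ P.l :=
    (mul_le_mul_of_nonneg_right g4 (by linarith)).trans (hO.dh.trans hO.hl)
  have hl1 := hO.lsmall
  have hl : 0 < P.l := by linarith
  have hG : 0 < P.G := by linarith
  have hG1 : 1 ≤ P.G := by linarith
  have hLam : 0 ≤ P.Lam := by
    have := hO.n1
    have := hO.thpos
    unfold Par.Lam
    positivity
  have hbt : 0 ≤ P.bt := by
    unfold Par.bt
    positivity
  have hu : ∀ k, 0 ≤ B.u P k := fun k => div_nonneg hLam (hB.Tpos k).le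
  have hal : 0 ≤ 2 - al := by linarith [al_le_two]
  have pR : 0 < P.rho ^ al := Real.rpow_pos_of_pos hr _
  have pD : 0 < P.D ^ (2 - al) := Real.rpow_pos_of_pos hD0 _
  have pl : 0 < P.l ^ al := Real.rpow_pos_of_pos hl _
  have hR1 : ∀ i, (o i).rho ≤ rad P.D (o i).rho := fun i =>
    le_rad (hD.good i).rpos (hD.size i).2
  have hR2 : ∀ i, rad P.D (o i).rho ≤ P.D := fun i => rad_le (hD.good i).rpos (hD.size i).2
  have hs1 : P.rho ≤ P.rs := le_rad hr hrD
  have hs2 : P.rs ≤ P.D := rad_le hr hrD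
  have hs0 : 0 < P.rs := hr.trans_le hs1
  have hs3 : (P.rho / P.rs) ^ 2 = (P.rho / P.D) ^ (4 / 3 : ℝ) := div_rad_sq hD0 hr
  have h3 : P.rho ^ (2 - al) = P.rho ^ 2 / P.rho ^ al := by
    rw [Real.rpow_sub hr, Real.rpow_two]
  have hco := fun i => hC (o i) (rad P.D (o i).rho) P.l (hD.good i) (hR1 i)
    (by linarith [hR2 i]) (by linarith [hR2 i])
  have hc0 : ∀ i, 0 ≤ C1 * ((o i).a t * (o i).u) := fun i =>
    mul_nonneg (by linarith) (mul_nonneg ((hD.good i).a0 t) (hD.good i).u0)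
  have hlg : ∀ i, lg (o i).rho ≤ lg P.rho := fun i =>
    lg_anti hr (hD.size i).1 ((hD.size i).2.trans (by linarith))
  have hMo : Mult (fun i => C1 * ((o i).a t * (o i).u) ≠ 0) (fun i => (o i).x t) P.l P.G :=
    mult_mono (hD.mult t) (fun i hi h => hi (by rw [h, zero_mul, mul_zero])) (by linarith)
  have hOm : ∑ i, (C1 * ((o i).a t * (o i).u) * (o i).rho ^ (2 - al)) ^ 2 ≤
      C1 ^ 2 * P.D ^ (2 - al) * (P.G ^ 10 * P.S / P.rho ^ al) := by
    refine le_trans ?_ (mul_le_mul_of_nonneg_left (hD.xi t) (by positivity))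
    rw [Finset.mul_sum]
    refine Finset.sum_le_sum fun i _ => ?_
    have h1 := (hD.good i).rpos
    have h2 : (o i).rho ^ (2 - al) ≤ P.D ^ (2 - al) := Real.rpow_le_rpow h1.le (hD.size i).2 hal
    have h3 : 0 < (o i).rho ^ (2 - al) := Real.rpow_pos_of_pos h1 _
    calc (C1 * ((o i).a t * (o i).u) * (o i).rho ^ (2 - al)) ^ 2
        = C1 ^ 2 * (o i).rho ^ (2 - al) * (((o i).a t * (o i).u) ^ 2 * (o i).rho ^ (2 - al)) := by
          ring
      _ ≤ _ := by gcongr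
  obtain ⟨c, hc⟩ : ∃ c : β → ℝ, c = fun k => if B.act k t then P.G ^ 2 * B.u P k else 0 := ⟨_, rfl⟩
  have hoff : ∀ k, ¬ B.act k t → ∀ y, B.w k t y = 0 := fun k hk => hB.wts k t fun h => hk (by
    have h1 := hB.life k
    have h2 := hB.Tpos k
    unfold BD.act
    rw [abs_le]
    constructor <;> linarith [h.1, h.2])
  have hcn : ∀ k, 0 ≤ c k := fun k => by
    have := hu k
    rw [hc]
    simp only []
    split_ifs
    · positivity
    · exact le_rfl
  have henv : ∀ k, Env (B.w k t) (B.x k t) (c k) P.rho := fun k => by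
    rw [hc]
    simp only []
    split_ifs with h
    · exact hB.env k t
    · exact env_zero (hoff k h) _ _
  have hMn : Mult (fun k => c k ≠ 0) (fun k => B.x k t) P.l P.G :=
    mult_mono (hM t) (fun k hk => by
      by_contra h
      exact hk (by rw [hc]; exact if_neg h)) le_rfl
  have hZ : ∑ k, c k ^ 2 ≤ P.G ^ 9 * P.S / P.rho ^ 2 := by
    have h1 := mul_le_mul_of_nonneg_left (hB.sumU t) (pow_pos hG 4).le
    rw [Finset.mul_sum, Finset.sum_filter] at h1
    refine le_trans (le_of_eq (Finset.sum_congr rfl fun k _ => ?_)) (h1.trans (le_of_eq (by ring)))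
    rw [hc]
    simp only []
    split_ifs
    · ring
    · ring
  have hw : ∀ k, ContDiff ℝ ∞ (B.w k t) ∧ Peri (B.w k t) ∧ 0 ≤ c k ∧
      Env (B.w k t) (B.x k t) (c k) P.rho ∧ Supp (B.w k t) (B.x k t) (P.l / 2) := fun k =>
    ⟨sp_sm (hB.wsp k) t, (hB.wsp k).2 t, hcn k, henv k, supp_mono (hB.supp k t) (by linarith)⟩
  have pQ : 0 ≤ √(P.D ^ (2 - al) / P.rho ^ al) := Real.sqrt_nonneg _
  refine ⟨?_, ?_, ?_⟩
  · have h1 := hF ι (fun i => (o i).core (rad P.D (o i).rho) t) (fun i => (o i).x t)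
      (fun i => C1 * ((o i).a t * (o i).u)) (fun i => (o i).rho) (B.Wb t) (g t) P.l P.d _ P.G
      (lg P.rho) _ (by linarith) (by linarith) hl (by linarith)
      (ContDiff.sum fun k _ => sp_sm (hB.wbsp k) t)
      (fun n z => Finset.sum_congr rfl fun k _ => (hB.wbsp k).2 t n z) (hg t)
      (fun i => ⟨sp_sm (hco i).1 t, (hco i).1.2 t, hc0 i, (hD.good i).rpos,
        (hD.size i).2.trans (by linarith), hlg i, ((hco i).2 t).2.1,
        supp_mono ((hco i).2 t).1 (by linarith [hR2 i])⟩) hMo hOm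
    refine Cst.mono h1 hl ?_
    have h2 : √(C1 ^ 2 * P.D ^ (2 - al) * (P.G ^ 10 * P.S / P.rho ^ al) * P.G *
        (P.G ^ 12 * P.bt ^ 2 * P.l ^ 2 * P.S / P.rho ^ 2)) ≤
        C1 * P.G ^ 12 * P.S * P.bt * P.l / P.rho * √(P.D ^ (2 - al) / P.rho ^ al) := by
      refine sqrt_le (by positivity) ?_
      calc _ = (C1 * P.S * P.bt * P.l / P.rho) ^ 2 * (P.D ^ (2 - al) / P.rho ^ al) * P.G ^ 23 := by
            ring
        _ ≤ (C1 * P.S * P.bt * P.l / P.rho) ^ 2 * (P.D ^ (2 - al) / P.rho ^ al) * P.G ^ 24 := by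
            gcongr
            norm_num
        _ = _ := by ring
    calc _ ≤ C2 * lg P.rho * P.l ^ al * (C1 * P.G ^ 12 * P.S * P.bt * P.l / P.rho *
          √(P.D ^ (2 - al) / P.rho ^ al)) / P.l := by gcongr
      _ = P.S * (C1 * C2 * lg P.rho * P.G ^ 12) *
          (P.bt * P.l ^ al * √(P.D ^ (2 - al) / P.rho ^ al) / P.rho) := by field_simp
      _ ≤ P.S * (P.G * P.G ^ 14) *
          (P.bt * P.l ^ al * √(P.D ^ (2 - al) / P.rho ^ al) / P.rho) := by
          gcongr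
          norm_num
      _ = _ := by ring
  · have hOm2 : ∑ i, (C1 * ((o i).a t * (o i).u) * (o i).rho ^ (2 - al) /
        rad P.D (o i).rho ^ 2) ^ 2 ≤
        C1 ^ 2 * (P.rho ^ (2 - al) / (P.rs ^ 2) ^ 2) * (P.G ^ 10 * P.S / P.rho ^ al) := by
      refine le_trans ?_ (mul_le_mul_of_nonneg_left (hD.xi t) (by positivity))
      rw [Finset.mul_sum]
      refine Finset.sum_le_sum fun i _ => ?_
      have h1 := (hD.good i).rpos
      have h2 : (o i).rho ^ (2 - al) / (rad P.D (o i).rho ^ 2) ^ 2 ≤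
          P.rho ^ (2 - al) / (P.rs ^ 2) ^ 2 := C13.wt_anti hD0 hr (hD.size i).1
      have h4 : 0 < (o i).rho ^ (2 - al) := Real.rpow_pos_of_pos h1 _
      calc (C1 * ((o i).a t * (o i).u) * (o i).rho ^ (2 - al) / rad P.D (o i).rho ^ 2) ^ 2
          = C1 ^ 2 * ((o i).rho ^ (2 - al) / (rad P.D (o i).rho ^ 2) ^ 2) *
              (((o i).a t * (o i).u) ^ 2 * (o i).rho ^ (2 - al)) := by ring
        _ ≤ _ := by gcongr
    have h1 := hQ ι β (fun i => (o i).core (rad P.D (o i).rho) t) (fun i => (o i).x t)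
      (fun i => C1 * ((o i).a t * (o i).u)) (fun i => (o i).rho) (fun i => rad P.D (o i).rho)
      (fun k => B.w k t) (fun k => B.x k t) c P.l P.rho P.G (lg P.rho) _ _ hr hl (by linarith)
      (by linarith)
      (fun i => ⟨sp_sm (hco i).1 t, (hco i).1.2 t, hc0 i, (hD.good i).rpos, hR1 i,
        (hD.size i).1.trans (hR1 i), by linarith [hR2 i], hlg i, ((hco i).2 t).2.1,
        ((hco i).2 t).1⟩) hw
      (fun i k => by
        by_cases h1 : t ∈ Icc (o i).s (o i).e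
        · refine Or.inr ((hB.sepO k i t h1).imp_right fun h2 => (h2.trans (pn_neg_le _)).trans ?_)
          rw [neg_sub]
        · refine Or.inl fun y => ?_
          unfold Ob.core
          rw [(hD.good i).Wts t h1 y, mul_zero]) hMo hMn hOm2 hZ
    refine Cst.mono h1 hl ?_
    have h2 : √(C1 ^ 2 * (P.rho ^ (2 - al) / (P.rs ^ 2) ^ 2) * (P.G ^ 10 * P.S / P.rho ^ al) *
        (P.G ^ 9 * P.S / P.rho ^ 2)) ≤ C1 * P.G ^ 10 * P.S / (P.rs ^ 2 * P.rho ^ al) := by
      refine Real.sqrt_le_iff.2 ⟨by positivity, ?_⟩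
      rw [h3]
      calc _ = (C1 * P.S / (P.rs ^ 2 * P.rho ^ al)) ^ 2 * P.G ^ 19 := by field_simp
        _ ≤ (C1 * P.S / (P.rs ^ 2 * P.rho ^ al)) ^ 2 * P.G ^ 20 := by
            gcongr
            norm_num
        _ = _ := by ring
    rw [← hs3, Real.div_rpow hl.le hr.le]
    calc _ ≤ C4 * lg P.rho * P.G * P.rho ^ 2 * P.l ^ al *
          (C1 * P.G ^ 10 * P.S / (P.rs ^ 2 * P.rho ^ al)) := by gcongr
      _ = P.S * (C1 * C4 * lg P.rho * P.G ^ 11) *
          ((P.rho / P.rs) ^ 2 * (P.l ^ al / P.rho ^ al)) := by field_simp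
      _ ≤ P.S * (P.G * P.G ^ 14) * ((P.rho / P.rs) ^ 2 * (P.l ^ al / P.rho ^ al)) := by
          gcongr
          norm_num
      _ = _ := by ring
  · have pr : 0 < P.rho ^ (2 - al) := Real.rpow_pos_of_pos hr _
    have hOm' : ∑ k, (c k * P.rho ^ (2 - al)) ^ 2 ≤
        P.G ^ 9 * P.S / P.rho ^ 2 * (P.rho ^ (2 - al)) ^ 2 := by
      simp only [mul_pow]
      rw [← Finset.sum_mul]
      exact mul_le_mul_of_nonneg_right hZ (sq_nonneg _)
    have h1 := hP β β (fun k => B.w k t) (fun k => B.x k t) c (fun _ => P.rho) (fun k => B.w k t)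
      (fun k => B.x k t) c Finset.univ.offDiag P.l P.rs P.rho (P.l / 2) P.G (lg P.rho) _ _ hr hs1
      (by linarith) (by linarith) le_rfl le_rfl
      (fun k => ⟨(hw k).1, (hw k).2.1, hcn k, hr, hs1, le_rfl, env_dom (henv k) hr,
        (hw k).2.2.2.2⟩) hw (Or.inr fun _ => rfl)
      (fun p hp => hB.sepN p.1 p.2 t (Finset.mem_offDiag.1 hp).2.2) hMn hMn hOm' hZ
    have e1 : (fun y => (B.W t y ^ 2 - ∑ i, B.w i t y ^ 2) / 2) =
        fun y => (∑ p ∈ Finset.univ.offDiag, B.w p.1 t y * B.w p.2 t y) / 2 := by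
      funext y
      unfold BD.W
      rw [sq, Finset.sum_mul_sum, ← Finset.sum_product', ← Finset.diag_union_offDiag,
        Finset.sum_union (Finset.disjoint_diag_offDiag _), Finset.sum_diag]
      simp only [sq]
      ring
    rw [e1]
    refine Cst.mono (C13.half h1) hl ?_
    have h2 : √(P.G ^ 9 * P.S / P.rho ^ 2 * (P.rho ^ (2 - al)) ^ 2 * (P.G ^ 9 * P.S / P.rho ^ 2)) =
        P.G ^ 9 * P.S / P.rho ^ al := by
      rw [Real.sqrt_eq_iff_mul_self_eq (by positivity) (by positivity), h3]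
      field_simp
    rw [h2, ← hs3, Real.div_rpow hl.le hr.le]
    calc _ = P.S * (C3 * lg P.rho * P.G ^ 10) *
          ((P.rho / P.rs) ^ 2 * (P.l ^ al / P.rho ^ al)) := by ring
      _ ≤ P.S * (P.G * P.G ^ 14) * ((P.rho / P.rs) ^ 2 * (P.l ^ al / P.rho ^ al)) := by
          gcongr
          norm_num
      _ = _ := by ring

end

end Pool.Agent.Lib.EU2
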