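import Pool.Agent.Lib.EU2.Basic
import Pool.Agent.Lib.EUL.B_C78

/-! Costs of the errors made by the new fields. -/

set_option autoImplicit false

namespace Pool.Agent.Lib.EU2

open MeasureTheory Set Filter Topology Pool.Agent.Lib.EUL
open scoped ContDiff Classical

noncomputable section

variable [Al]

namespace C78

theorem cmono {l c c' : ℝ} {f : ℂ → ℂ} (hl : 0 < l) (h : Cst l f c) (hc : c ≤ c') :
    Cst l f c' := Cst.mono h hl hc

theorem csum {ι : Type} [Fintype ι] {l : ℝ} (hl : 0 < l) {f : ι → ℂ → ℂ} {c : ι → ℝ}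
    (hf : ∀ i, Continuous (f i)) (h : ∀ i, Cst l (f i) (c i)) :
    Cst l (fun x => ∑ i, f i x) (∑ i, c i) :=
  cst_sum Finset.univ hl (fun i _ => hf i) fun i _ => h i

end C78

theorem st_C78 (hN : St_NMAJ) (hSH : St_SHEAR) (hFA : St_FAR) (hSQ : St_SQ) (hFF : St_FF) :
    St_C78 := by
  obtain ⟨C0, c0, hN⟩ := hN
  obtain ⟨C1, c1, hSH⟩ := hSH
  obtain ⟨C2, c2, hFA⟩ := hFA
  obtain ⟨C3, c3, hSQ⟩ := hSQ
  obtain ⟨C4, c4, hFF⟩ := hFF
  refine ⟨C0 + C1 + C2 + C3 + C4, by linarith, ?_⟩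
  intro P v q ι _ o a b β _ B hP hB t
  have r0 := hP.rpos
  have S0 := hP.Spos
  have n1 := hP.n1
  have L1 := EUL.C78.one_le_lg P.rho
  have big : ∀ C, C ≤ C0 + C1 + C2 + C3 + C4 → C * lg P.rho ≤ P.G := fun C h =>
    (mul_le_mul_of_nonneg_right h (by linarith)).trans hP.big
  have G4 : 4 ≤ P.G := le_trans (by linarith) (big 4 (by linarith))
  have G1 : 1 ≤ P.G := by linarith
  have G0 : 0 < P.G := by linarith
  have D0 : 0 < P.D := r0.trans_le hP.rD
  have Dd : P.D ≤ P.d := by linarith [hP.Dd2, hP.d2d]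
  have d0 : 0 < P.d := D0.trans_le Dd
  have dl : 4 * P.d ≤ P.l :=
    ((mul_le_mul_of_nonneg_right G4 d0.le).trans hP.dh).trans hP.hl
  have l0 : 0 < P.l := by linarith
  have l4 : P.l ≤ 1 / 4 := by linarith [hP.lsmall]
  have rl : P.rho ≤ P.l := by linarith [hP.rD]
  have h0 : 0 < P.h := lt_of_lt_of_le (by positivity) hP.dh
  have d20 : 0 < P.d2 := by linarith [hP.Dd2]
  have La0 : 0 < P.Lam := by
    have := hP.thpos
    unfold Par.Lam
    positivity
  have bt0 : 0 < P.bt := by unfold Par.bt; positivity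
  have u0 : ∀ i, 0 < B.u P i := fun i => div_pos La0 (hB.Tpos i)
  have gp : ∀ j k : ℕ, j ≤ k → P.G ^ j ≤ P.G ^ k := fun j k h => pow_le_pow_right₀ G1 h
  obtain ⟨⟨g, -, hg⟩, -, hM⟩ := hN P v q ι o a b β B { hP with big := big C0 (by linarith) } hB
  have out : ∀ i, ¬ B.act i t → t ∉ Icc (B.tb i - B.Tb i) (B.tb i + B.Tb i) := fun i h ht => by
    have := hB.Tpos i
    exact h (abs_le.2 ⟨by linarith [ht.1], by linarith [ht.2]⟩)
  have zw : ∀ i, ¬ B.act i t → B.w i t = fun _ => 0 := fun i h => funext <|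
    hB.wts i t fun ht => out i h ⟨(hB.life i).1.trans ht.1, ht.2.trans (hB.life i).2.2⟩
  have zb : ∀ i, ¬ B.act i t → B.wb i t = fun _ => 0 := fun i h => funext (hB.wbts i t (out i h))
  have zE : ∀ i, ¬ B.act i t → B.E i t = fun _ => 0 := fun i h => funext (hB.Ets i t (out i h))
  have sU := hB.sumU t
  set c : β → ℝ := fun i => if B.act i t then P.G ^ 2 * B.u P i else 0 with hc
  set cb : β → ℝ := fun i => if B.act i t then P.G * P.bt * B.u P i else 0 with hcb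
  have cn : ∀ i, 0 ≤ c i := fun i => by
    have := u0 i
    simp only [hc]; split_ifs <;> positivity
  have cbn : ∀ i, 0 ≤ cb i := fun i => by
    have := u0 i
    simp only [hcb]; split_ifs <;> positivity
  have env : ∀ i, Env (B.w i t) (B.x i t) (c i) P.rho := fun i => by
    simp only [hc]
    split_ifs with h
    · exact hB.env i t
    · intro j _ y; rw [zw i h, EUL.C78.nD_zero]; simp
  have dom : ∀ i, Dom 3 (B.wb i t) (B.z i t) (cb i) P.l P.d := fun i => by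
    simp only [hcb]
    split_ifs with h
    · exact hB.dom i t
    · intro j _ y; rw [zb i h, EUL.C78.nD_zero]; simp
  have sup : ∀ i, Supp (B.w i t) (B.x i t) (P.l / 2) := fun i y hy =>
    hB.supp i t y (by linarith)
  have mx : Mult (fun i => c i ≠ 0) (fun i => B.x i t) P.l P.G :=
    EUL.C78.mult_mono (hM t) (fun i hi => by by_contra h; exact hi (if_neg h)) le_rfl
  have mz : Mult (fun i => cb i ≠ 0) (fun i => B.z i t) P.l P.G :=
    EUL.C78.mult_mono (hB.mult t) (fun i hi => by by_contra h; exact hi (if_neg h)) (by linarith)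
  have sc : ∑ i, c i ^ 2 ≤ P.G ^ 9 * P.S / P.rho ^ 2 := by
    rw [hc, EUL.C78.sq_sum]
    refine (mul_le_mul_of_nonneg_left sU (by positivity)).trans (le_of_eq ?_)
    ring
  have scb : ∑ i, cb i ^ 2 ≤ P.G ^ 7 * P.bt ^ 2 * P.S / P.rho ^ 2 := by
    rw [hcb, EUL.C78.sq_sum]
    refine (mul_le_mul_of_nonneg_left sU (by positivity)).trans (le_of_eq ?_)
    ring
  have Vs := EUL.C78.sm_at hB.Vsp.1 t
  have Ws : ContDiff ℝ ∞ (B.Wb t) := ContDiff.sum fun i _ => EUL.C78.sm_at (hB.wbsp i).1 t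
  have Wp : Peri (B.Wb t) := fun n z => Finset.sum_congr rfl fun i _ => (hB.wbsp i).2 t n z
  refine ⟨?_, ?_, ?_, ?_, ?_⟩
  · set Γ := Gam P.l P.rho P.d P.h P.d2 (P.G * P.d2) P.e1 P.f P.Lam with hΓ
    have Γ0 : 0 ≤ Γ := by
      have := hP.e1pos
      have := hP.fpos
      rw [hΓ]
      unfold Gam
      positivity
    refine C78.cmono l0 (C78.csum l0 (c := fun i => if B.act i t then
      P.G ^ 5 * P.rho ^ 2 * Γ * B.u P i ^ 2 else 0) (fun i => (EUL.C78.sm_at (hB.Esp i).1 t).continuous)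
      fun i => ?_) ?_
    · split_ifs with h
      · exact C78.cmono l0 (hB.cost i t) (le_of_eq (by ring))
      · rw [zE i h]; exact cst_zero l0 le_rfl
    · rw [← Finset.sum_filter, ← Finset.mul_sum]
      refine (mul_le_mul_of_nonneg_left sU (by positivity)).trans ?_
      have e : P.G ^ 5 * P.rho ^ 2 * Γ * (P.G ^ 5 * P.S / P.rho ^ 2) = P.S * P.G ^ 10 * Γ := by
        field_simp
      rw [e]
      gcongr
      norm_num
  · refine C78.cmono l0 (hSH β (fun i => B.w i t) (fun i => B.x i t) c _ (B.g t) P.l P.D (4 * P.Y)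
      P.rho P.G _ r0 hP.rD rl l4 Vs (hB.Vsp.2 t) (hB.gm t)
      (fun i => ⟨EUL.C78.sm_at (hB.wsp i).1 t, (hB.wsp i).2 t, cn i, env i, sup i⟩) mx sc) ?_
    have e : √(P.G * (4 * P.Y) * (P.G ^ 9 * P.S / P.rho ^ 2)) =
        2 * P.G ^ 5 * P.S / (P.n * P.rho ^ 2) := by
      rw [Real.sqrt_eq_iff_mul_self_eq (by unfold Par.Y; positivity) (by positivity)]
      unfold Par.Y
      field_simp
      ring
    rw [e]
    have k1 := big C1 (by linarith)
    have k2 : P.G * 2 * P.G ^ 5 ≤ P.G ^ 15 := by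
      have := gp 7 15 (by norm_num)
      nlinarith [pow_pos G0 6]
    calc C1 * lg P.rho * (2 * P.G ^ 5 * P.S / (P.n * P.rho ^ 2)) * P.rho ^ 2 *
          (P.l / P.rho) ^ (al - 1)
        = P.S * (C1 * lg P.rho * 2 * P.G ^ 5) * ((P.l / P.rho) ^ (al - 1) / P.n) := by
          field_simp
      _ ≤ P.S * (P.G * 2 * P.G ^ 5) * ((P.l / P.rho) ^ (al - 1) / P.n) := by gcongr
      _ ≤ _ := by gcongr
  · refine C78.cmono l0 (hFA β (fun i => B.wb i t) (fun i => B.z i t) cb _ (B.g t) P.l P.d P.D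
      (4 * P.Y) P.G _ D0 Dd (by linarith) l4 Vs (hB.Vsp.2 t) (hB.gm t)
      (fun i => ⟨EUL.C78.sm_at (hB.wbsp i).1 t, (hB.wbsp i).2 t, cbn i, dom i⟩) mz scb) ?_
    have e : √(P.G * (4 * P.Y) * (P.G ^ 7 * P.bt ^ 2 * P.S / P.rho ^ 2)) =
        2 * P.G ^ 4 * P.bt * P.S / (P.n * P.rho ^ 2) := by
      rw [Real.sqrt_eq_iff_mul_self_eq (by unfold Par.Y; positivity) (by positivity)]
      unfold Par.Y
      field_simp
      ring
    rw [e]
    have k1 : C2 * lg P.l ≤ P.G :=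
      (mul_le_mul_of_nonneg_left (EUL.C78.lg_anti r0 rl (by linarith)) (by linarith)).trans
        (big C2 (by linarith))
    have k2 : P.G * 2 * P.G ^ 4 ≤ P.G ^ 15 := by
      have := gp 6 15 (by norm_num)
      nlinarith [pow_pos G0 5]
    calc C2 * lg P.l * P.l ^ 2 * (2 * P.G ^ 4 * P.bt * P.S / (P.n * P.rho ^ 2)) * (P.l / P.d) *
          (P.l / P.D) ^ (al - 1)
        = P.S * (C2 * lg P.l * 2 * P.G ^ 4) *
          (P.bt * (P.l / P.rho) ^ 2 / P.n * (P.l / P.d) * (P.l / P.D) ^ (al - 1)) := by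
          field_simp
      _ ≤ P.S * (P.G * 2 * P.G ^ 4) *
          (P.bt * (P.l / P.rho) ^ 2 / P.n * (P.l / P.d) * (P.l / P.D) ^ (al - 1)) := by gcongr
      _ ≤ _ := by gcongr
  · refine C78.cmono l0 (hSQ (B.Wb t) (g t) P.l P.d _ d0 (by linarith) Ws Wp (hg t)) ?_
    have k1 : C3 ≤ P.G := le_trans (le_mul_of_one_le_right (by linarith) L1) (big C3 (by linarith))
    have k2 : P.G * P.G ^ 12 ≤ P.G ^ 15 := by
      rw [← pow_succ']; exact gp _ _ (by norm_num)
    calc C3 * (P.G ^ 12 * P.bt ^ 2 * P.l ^ 2 * P.S / P.rho ^ 2) * (P.l / P.d) ^ al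
        = P.S * (C3 * P.G ^ 12) * (P.bt ^ 2 * (P.l / P.rho) ^ 2 * (P.l / P.d) ^ al) := by
          field_simp
      _ ≤ P.S * (P.G * P.G ^ 12) * (P.bt ^ 2 * (P.l / P.rho) ^ 2 * (P.l / P.d) ^ al) := by gcongr
      _ ≤ _ := by gcongr
  · have ra : 0 < P.rho ^ al := by positivity
    have e0 : P.rho ^ (2 - al) = P.rho ^ 2 / P.rho ^ al := by
      rw [Real.rpow_sub r0, Real.rpow_two]
    have so : ∑ i, (c i * P.rho ^ (2 - al)) ^ 2 ≤
        P.G ^ 9 * P.S / P.rho ^ 2 * (P.rho ^ 2 / P.rho ^ al) ^ 2 := by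
      simp only [mul_pow]
      rw [← Finset.sum_mul, e0]
      exact mul_le_mul_of_nonneg_right sc (sq_nonneg _)
    refine C78.cmono l0 (hFF β (fun i => B.w i t) (fun i => B.x i t) c (fun _ => P.rho) (B.Wb t)
      (g t) P.l P.d _ P.G (lg P.rho) _ (by linarith) (by linarith) l0 l4 Ws Wp (hg t)
      (fun i => ⟨EUL.C78.sm_at (hB.wsp i).1 t, (hB.wsp i).2 t, cn i, r0, hP.rD.trans Dd, le_rfl,
        EUL.C78.dom_env r0 (cn i) (env i), sup i⟩) mx so) ?_
    have e : √(P.G ^ 9 * P.S / P.rho ^ 2 * (P.rho ^ 2 / P.rho ^ al) ^ 2 * P.G *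
        (P.G ^ 12 * P.bt ^ 2 * P.l ^ 2 * P.S / P.rho ^ 2)) =
        P.G ^ 11 * P.S * P.bt * P.l / P.rho ^ al := by
      rw [Real.sqrt_eq_iff_mul_self_eq (by positivity) (by positivity)]
      field_simp
    rw [e]
    have k1 := big C4 (by linarith)
    have k2 : P.G * P.G ^ 11 ≤ P.G ^ 15 := by
      rw [← pow_succ']; exact gp _ _ (by norm_num)
    calc C4 * lg P.rho * P.l ^ al * (P.G ^ 11 * P.S * P.bt * P.l / P.rho ^ al) / P.l
        = P.S * (C4 * lg P.rho * P.G ^ 11) * (P.bt * (P.l / P.rho) ^ al) := by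
          rw [Real.div_rpow l0.le r0.le]
          field_simp
      _ ≤ P.S * (P.G * P.G ^ 11) * (P.bt * (P.l / P.rho) ^ al) := by gcongr
      _ ≤ _ := by gcongr

end

end Pool.Agent.Lib.EU2
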