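import Pool.Agent.Lib.EU2.Basic
import Pool.Agent.Lib.EUL.B_CELL

/-! Block CELL, second phase: the dipole follows a steered path. -/

set_option autoImplicit false

namespace Pool.Agent.Lib.EU2

open MeasureTheory Set Filter Topology Pool.Agent.Lib.EUL
open scoped ContDiff Classical

noncomputable section

namespace CELL2

open Pool.Agent.Lib.EUL.CELL

lemma ex_sub (a b : ℝ) : ‖ex a - ex b‖ ≤ |a - b| := by
  have e : ex a - ex b = ex b * (Complex.exp (Complex.I * ((a - b : ℝ) : ℂ)) - 1) := by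
    unfold ex
    rw [mul_sub, ← Complex.exp_add]
    push_cast
    ring_nf
  rw [e, norm_mul, norm_ex', one_mul]
  exact Real.norm_exp_I_mul_ofReal_sub_one_le

lemma Nf_diff2 {c0 d u M M' del κ : ℝ} {U φ ψ : ℝ → ℝ} {p q : ℝ → ℂ} (hc : 0 ≤ c0) (hd : 0 ≤ d)
    (hU : ∀ t, 0 ≤ U t ∧ U t ≤ u) (he : ContDiff ℝ ∞ (etas d)) (h0 : ∀ y, d < ‖y‖ → etas d y = 0)
    {k : ℕ} (hM : ∀ y, nD (k + 1) (etas d) y ≤ M) (hM' : ∀ y, nD k (etas d) y ≤ M')
    (hdel : 0 ≤ del) (hpq : ∀ t, U t ≠ 0 → ‖p t - q t‖ ≤ del) (hκ : ∀ t, |φ t - ψ t| ≤ κ) (t : ℝ) :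
    ∫ y, nD k (fun y => Nf c0 d U φ p t y - Nf c0 d U ψ q t y) y ≤
      c0 * u ^ 2 * (M * del + 2 * κ * M') * (8 * d ^ 2) := by
  have M0 : 0 ≤ M := (nD_nn _ _ _).trans (hM 0)
  have M1 : 0 ≤ M' := (nD_nn _ _ _).trans (hM' 0)
  have k0 : 0 ≤ κ := (abs_nonneg _).trans (hκ 0)
  refine int_two (a := p t) (b := q t) hd (fun y h1 h2 => nD_ev ?_ k) (fun y => nD_nn _ _ _)
    fun y => ?_
  · have o : ∀ a : ℂ, IsOpen {y : ℂ | d < ‖y - a‖} := fun a =>
      isOpen_lt continuous_const (by fun_prop)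
    filter_upwards [(o _).eventually_mem h1, (o _).eventually_mem h2] with w a b
    simp [Nf, h0 _ a, h0 _ b]
  · by_cases h : U t = 0
    · rw [nD_ev (Eventually.of_forall fun y => by simp [Nf, h])]
      positivity
    · have sh : ∀ a : ℂ, ContDiff ℝ ∞ fun y => etas d (y - a) := fun a =>
        he.comp (contDiff_id.sub contDiff_const)
      have e : (fun y => Nf c0 d U φ p t y - Nf c0 d U ψ q t y) = fun y =>
          (c0 * (U t ^ 2 * ex (2 * φ t)) : ℂ) * (etas d (y - p t) - etas d (y - q t)) +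
          (c0 * (U t ^ 2 * (ex (2 * φ t) - ex (2 * ψ t))) : ℂ) * etas d (y - q t) := by
        funext y
        simp only [Nf]
        ring
      have n : ‖(c0 * (U t ^ 2 * (ex (2 * φ t) - ex (2 * ψ t))) : ℂ)‖ ≤ c0 * (u ^ 2 * (2 * κ)) := by
        rw [norm_mul, norm_mul, norm_pow, Complex.norm_real, Complex.norm_real,
          Real.norm_of_nonneg hc, Real.norm_of_nonneg (hU t).1]
        refine mul_le_mul_of_nonneg_left (mul_le_mul (pow_le_pow_left₀ (hU t).1 (hU t).2 2)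
          ((ex_sub _ _).trans ?_) (norm_nonneg _) (sq_nonneg _)) hc
        rw [← mul_sub, abs_mul, abs_two]
        linarith [hκ t]
      rw [e]
      refine (nD_add' (contDiff_const.mul ((sh _).sub (sh _))) (contDiff_const.mul (sh _)) k y).trans
        ?_
      rw [nD_mul ((sh _).sub (sh _)), nD_mul (sh _), nD_sh]
      refine (add_le_add (mul_le_mul (coef_le hc hU t) ((nD_diff he k hM _ _ y).trans
        (mul_le_mul_of_nonneg_left (hpq t h) M0)) (nD_nn _ _ _) (by positivity))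
        (mul_le_mul n (hM' _) (nD_nn _ _ _) (by positivity))).trans (le_of_eq (by ring))

variable [Al]

lemma Cst_mul2 {l a b : ℝ} {f : ℂ → ℂ} {c : ℂ} (h : Cst l f a) (hl : 0 < l) (hc : ‖c‖ ≤ b) :
    Cst l (fun y => c * f y) (b * a) :=
  (h.const_mul c).mono hl (mul_le_mul_of_nonneg_right hc h.nonneg)

lemma cst_mv2 (hCS : St_CS) {f : ℝ → ℂ → ℂ} {r l s a : ℝ} {z : ℝ → ℂ} (hf : Loc f r)
    (hz : ContDiff ℝ ∞ z) (hr : r ≤ 1 / 4) (hs : 0 < s) (hl : s ≤ l) (t : ℝ)
    (h0 : ∫ y, nD 0 (f t) y ≤ a) (h2 : ∫ y, nD 2 (f t) y ≤ a / s ^ 2) :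
    Cst l (mv f z t) (4 * a * (l / s) ^ al) :=
  hCS.1 _ l s a (sm_t (hf.sp_mv hr hz).1 t) ((hf.sp_mv hr hz).2 t) hs hl
    ((IQ_nD_Per hr (hf.2 t) 0 (z t)).trans_le h0) ((IQ_nD_Per hr (hf.2 t) 2 (z t)).trans_le h2)

end CELL2

variable [Al]

open Pool.Agent.Lib.EUL.CELL CELL2 in
theorem st_CELL (hKER : St_KER) (hCAU : St_CAU) (hCS : St_CS) (hCSC : St_CSC) (hDIP : St_DIP)
    (hPATH : St_PATH) (hCORR : St_CORR) : St_CELL := by
  obtain ⟨K, CK, hK⟩ := hKER
  obtain ⟨-, cau1, cau2, -⟩ := hCAU K CK hK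
  obtain ⟨CS, hCS1, csc⟩ := hCSC K CK hK
  obtain ⟨CD, M0, hCD, hM1, hM2, dip⟩ := hDIP
  obtain ⟨CP, hCP, path⟩ := hPATH
  obtain ⟨CC, hCC, corr⟩ := hCORR
  obtain ⟨Ce, hCe, eta⟩ := etas_facts
  have hM0 : 0 < M0 := by
    by_contra h
    nlinarith
  obtain ⟨Cf, hCf⟩ : ∃ Cf : ℝ, Cf = Ce * (1 + 2 * CP) := ⟨_, rfl⟩
  have Cf0 : 0 ≤ Cf := by rw [hCf]; positivity
  obtain ⟨J, J0, J1, J2, J3⟩ : ∃ J : ℝ, 0 ≤ J ∧ 2 * CC * CD * (CP + 16 * Cf) ≤ J ∧ 2 * CD ≤ J ∧
      CS * CP * CD ≤ J := by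
    have a : 0 ≤ 2 * CC * CD * (CP + 16 * Cf) := by positivity
    have b : 0 ≤ CS * CP * CD := by positivity
    exact ⟨2 * CC * CD * (CP + 16 * Cf) + 2 * CD + CS * CP * CD, by positivity, by linarith,
      by linarith, by linarith⟩
  obtain ⟨C, C2, C3, C4, C5, C6, C7⟩ : ∃ C : ℝ, 2 ≤ C ∧ CD ≤ C ∧ CP ≤ C ∧ 2 * CP * CD ≤ C ∧
      60 ^ 4 * CC * (1 + CD * Ce) ≤ C ∧ 2 * J ≤ C := by
    have a : 0 ≤ 2 * CP * CD := by positivity
    have b : 0 ≤ 60 ^ 4 * CC * (1 + CD * Ce) := by positivity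
    exact ⟨2 + CD + CP + 2 * CP * CD + 60 ^ 4 * CC * (1 + CD * Ce) + 2 * J, by linarith,
      by linarith, by linarith, by linarith, by linarith, by linarith⟩
  refine ⟨C, by linarith, fun l rho d h d2 del cc e1 f u T tb L S r0 rd d20 d2d dh hl l4 cc0 ccd
    cch dell e0 e11 f0 f4 u0 T0 hf h3 hL Sl St Sb => ?_⟩
  have del0 : 0 ≤ del := cc0.trans ccd
  have d0 : 0 < d := d20.trans_le d2d
  have rd1 : rho ≤ d := by nlinarith
  have dh2 : 2 * d ≤ h := by nlinarith
  have h0 : 0 < h := by linarith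
  have l0 : 0 < l := by linarith
  have dl : d ≤ l := by linarith
  have L1 : 1 ≤ L := (one_le_lg' rho).trans hL
  obtain ⟨es, ez, eb⟩ := eta d d0
  set c0 : ℝ := rho ^ 2 * M0 / 2 with hc0
  have c00 : 0 < c0 := by positivity
  have c01 : c0 ≤ rho ^ 2 * CD / 2 := by rw [hc0]; gcongr
  set A : ℝ := rho ^ 2 * u ^ 2 * T / (C * l ^ 2) with hA
  have SA : ∀ k ≤ 4, ∀ y, l ^ k * ∫ t, nD k (S t) y ≤ A := fun k hk y => by
    rw [hA, le_div_iff₀' (by positivity)]; exact Sb k hk y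
  obtain ⟨msm, mb⟩ := par_int Sl.1 St
  obtain ⟨U, Φ, N, tk, Y, e, R1, R2, Us, ctl, tk0, tkN, Ys, te1, te2, Ub, Uz, Ud1, Φd, YD, Yb, R1s,
      R2s, Rz, Rid, Rb⟩ :=
    path l h d d2 u T (f * T) c0 A (tb - T) cc (fun y => ∫ t, S t y) d20 d2d (by linarith) hl u0
      (by positivity) (by nlinarith) c00 (by linarith) (by
        refine le_trans ?_ h3; gcongr) cc0 cch msm (fun y hy => by simp [Sl.2 _ y hy])
      (fun k hk y => (mul_le_mul_of_nonneg_left (mb k y) (by positivity)).trans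
        (SA k (by omega) y)) (by
        have e : CP * A * l ^ 2 = CP / C * (rho ^ 2 * u ^ 2 * T) := by
          rw [hA]; field_simp
        have e' : c0 * u ^ 2 * T = M0 / 2 * (rho ^ 2 * u ^ 2 * T) := by rw [hc0]; ring
        rw [e, e']
        refine mul_le_mul_of_nonneg_right ?_ (by positivity)
        rw [div_le_div_iff₀ (by linarith) two_pos]
        nlinarith [mul_le_mul_of_nonneg_left C5 hM0.le, mul_le_mul_of_nonneg_left hM1
          (by linarith : (0 : ℝ) ≤ 2 * CP)])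
  have Uz' : ∀ t, t ∉ Icc (tb - T) (tb + T) → U t = 0 := fun t ht =>
    Uz t fun h' => ht ⟨h'.1, by linarith [h'.2]⟩
  refine ⟨fun vs t => (U t : ℂ) * ex (Φ vs t), U, N, tk, Y, tb - T, e,
    ⟨ctl.mono, ctl.Ucont, ctl.U0, ctl.off, ctl.len, ctl.sm, ctl.loc,
      fun vs vs' a a' k hk t ht => (ctl.lip vs vs' a a' k hk t ht).trans
        (mul_le_mul_of_nonneg_right C4 (norm_nonneg _)), ctl.fin⟩, YD, fun t => ⟨(Ub t).2, Yb t⟩,
    le_rfl, te1, by linarith, tk0, tkN, fun vs adm x z c xs zs cs xd xz => ?_⟩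
  obtain ⟨ψs, -⟩ := Φd 0 (adm_zero cc0)
  obtain ⟨φs, φd⟩ := Φd vs adm
  obtain ⟨φ, hφ⟩ : ∃ φ, φ = Φ vs := ⟨_, rfl⟩
  obtain ⟨ψ, hψ⟩ : ∃ ψ, ψ = Φ 0 := ⟨_, rfl⟩
  simp only [← hφ, ← hψ] at ψs φs φd xd Rid
  have Ud : ∀ t, |deriv U t| ≤ CP * u / (f * T) ∧ |deriv φ t| * h ≤ CP * U t ∧
      |deriv (deriv φ) t| ≤ CP * u ^ 2 / h ^ 2 := fun t => ⟨Ud1 t, (φd t).1, (φd t).2.1⟩
  have φz : ∀ t, U t = 0 → deriv φ t = 0 := fun t ht => by
    have := (Ud t).2.1
    rw [ht, mul_zero] at this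
    exact abs_nonpos_iff.1 (nonpos_of_mul_nonpos_left this h0)
  obtain ⟨w1, w0, XA, XB, XC, w1l, w0l, XAl, XBl, XCl, wi, Xi, Xz, wb', did⟩ :=
    dip rho d e1 L U φ r0 (by nlinarith) (by linarith) e0 e11
      ((lg_div r0 rd1 (by linarith)).trans hL) Us φs fun t => by
        have a := (Ud t).2.1
        have b := (Ub t).1
        rw [abs_of_nonneg b]
        have : C * (|deriv φ t| * d) ≤ C * U t := by
          nlinarith [abs_nonneg (deriv φ t), mul_le_mul_of_nonneg_left dh (abs_nonneg (deriv φ t)),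
            mul_le_mul_of_nonneg_right C4 b]
        exact le_of_mul_le_mul_left this (by linarith)
  obtain ⟨dv, G1⟩ := did x c xs cs xd
  have near : ∀ t, U t ≠ 0 → ‖x t - z t - Y t‖ ≤ del := fun t ht => by
    have : t ∈ Icc (tb - T) (tb + T) := by
      by_contra h'
      exact ht (Uz' t h')
    exact xz t (abs_le.2 ⟨by linarith [this.1], by linarith [this.2]⟩)
  have Ml : Loc (Nf c0 d U φ fun t => x t - z t) (60 * l) :=
    Nf_loc (r := 51 * l) Us φs (xs.sub zs) es ez (fun t ht => by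
      have := norm_sub_norm_le (x t - z t) (Y t)
      linarith [near t ht, Yb t]) (by linarith)
  have MYl : Loc (Nf c0 d U ψ Y) (60 * l) :=
    Nf_loc (r := 50 * l) Us ψs Ys es ez (fun t _ => Yb t) (by linarith)
  have Mt : TS (Nf c0 d U φ fun t => x t - z t) (tb - T) (tb + T) := Nf_ts Uz'
  have MYt : TS (Nf c0 d U ψ Y) (tb - T) (tb + T) := Nf_ts Uz'
  have Sl' : Loc S (60 * l) := loc_mono Sl (by linarith)
  set M := Nf c0 d U φ fun t => x t - z t with hM
  have Zl : Loc (fun t y => S t y + M t y) (60 * l) := loc_add Sl' Ml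
  have Zt : TS (fun t y => S t y + M t y) (tb - T) (tb + T) := fun t ht y => by
    simp only [St t ht y, Mt t ht y, add_zero]
  obtain ⟨wb, fb, fs, fbd, fz, rs, wbs, wbd, wbt, wdom, G2⟩ :=
    corr (fun t y => S t y + M t y) z (60 * l) d ((1 + CD * Ce) * (rho ^ 2 * u ^ 2 * T) / d ^ 2) tb T
      Zl Zt T0 d0 (by linarith) (by linarith) zs fun k hk y => by
        have a1 : ∫ t, nD k (fun y => S t y + M t y) y ≤
            (∫ t, nD k (S t) y) + ∫ t, nD k (M t) y := by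
          rw [← integral_add (intg_nD Sl.1 St k y) (intg_nD Ml.1 Mt k y)]
          exact integral_mono (intg_nD Zl.1 Zt k y) ((intg_nD Sl.1 St k y).add (intg_nD Ml.1 Mt k y))
            fun t => nD_add' (sm_t Sl.1 t) (sm_t Ml.1 t) k y
        have a2 : d ^ k * ∫ t, nD k (S t) y ≤ rho ^ 2 * u ^ 2 * T / d ^ 2 := by
          refine (mul_le_mul_of_nonneg_right (pow_le_pow_left₀ d0.le dl k)
            (integral_nonneg fun t => nD_nn _ _ _)).trans ((SA k hk y).trans ?_)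
          refine div_le_div_of_nonneg_left (by positivity) (by positivity) ?_
          nlinarith [pow_le_pow_left₀ d0.le dl 2, sq_nonneg l]
        have a3 : ∫ t, nD k (M t) y ≤ c0 * u ^ 2 * (Ce / d ^ (2 + k)) * (tb + T - (tb - T)) :=
          int_t (by linarith) (fun t ht => nD_ts Mt k ht y) (fun t => nD_nn _ _ _)
            fun t => Nf_nD c00.le Ub es (eb k hk) t y
        have a4 : d ^ k * ∫ t, nD k (M t) y ≤ CD * Ce * (rho ^ 2 * u ^ 2 * T) / d ^ 2 := by
          refine (mul_le_mul_of_nonneg_left a3 (by positivity)).trans ?_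
          calc _ = c0 * (2 * Ce * u ^ 2 * T / d ^ 2) := by rw [pow_add]; field_simp; ring
            _ ≤ rho ^ 2 * CD / 2 * (2 * Ce * u ^ 2 * T / d ^ 2) := by gcongr
            _ = _ := by ring
        calc _ ≤ d ^ k * ((∫ t, nD k (S t) y) + ∫ t, nD k (M t) y) := by gcongr
          _ ≤ rho ^ 2 * u ^ 2 * T / d ^ 2 + CD * Ce * (rho ^ 2 * u ^ 2 * T) / d ^ 2 := by
            rw [mul_add]; exact add_le_add a2 a4
          _ = _ := by ring
  -- the remainder
  have Dl : Loc (fun t y => M t y - Nf c0 d U ψ Y t y) (60 * l) :=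
    ⟨Ml.1.sub MYl.1, fun t y hy => by simp only [Ml.2 t y hy, MYl.2 t y hy, sub_zero]⟩
  have Dt : TS (fun t y => M t y - Nf c0 d U ψ Y t y) (tb - T) (tb + T) := fun t ht y => by
    simp only [Mt t ht y, MYt t ht y, sub_zero]
  obtain ⟨R3, hR3⟩ : ∃ R3 : ℂ → ℂ, R3 = fun y => ∫ t, (M t y - Nf c0 d U ψ Y t y) := ⟨_, rfl⟩
  have R3s : ContDiff ℝ ∞ R3 := hR3 ▸ (par_int Dl.1 Dt).1
  have R3z : ∀ y, 60 * l < ‖y‖ → R3 y = 0 := fun y hy => by
    rw [hR3]; simp only [Ml.2 _ y hy, MYl.2 _ y hy, sub_zero, integral_zero]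
  have R3b : ∀ k ≤ 2, ∫ y, nD k R3 y ≤ 16 * Cf * c0 * u ^ 2 * T * (del / d) / d ^ k := by
    intro k hk
    rw [hR3]
    refine (fub Dl Dt (by linarith) k
      (Nf_diff2 (κ := CP * (del / d)) c00.le d0.le Ub es ez (eb (k + 1) (by omega))
        (eb k (by omega)) del0 near fun t => (φd t).2.2.trans ?_)).trans (le_of_eq ?_)
    · rw [mul_div_assoc]
      gcongr
      linarith
    rw [hCf, pow_add, pow_add, pow_add]; field_simp; ring
  have rid : (fun y => ∫ s, (S s y + M s y)) = fun y => R1 y + (R2 y + R3 y) := by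
    funext y
    have e1 : (c0 : ℂ) * ∫ t, (U t : ℂ) ^ 2 * ex (2 * ψ t) * etas d (y - Y t) =
        ∫ t, Nf c0 d U ψ Y t y := by
      rw [← integral_const_mul]
      refine integral_congr_ae (Eventually.of_forall fun t => ?_)
      simp only [Nf]; ring
    rw [← add_assoc, ← Rid y, e1, hR3, integral_add (intg_D Sl.1 St y) (intg_D Ml.1 Mt y)]
    simp only
    rw [integral_sub (intg_D Ml.1 Mt y) (intg_D MYl.1 MYt y)]
    ring
  simp only [congrFun rid] at G2
  have R1l : Loc (fun (_ : ℝ) y => R1 y) (60 * l) :=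
    ⟨R1s.comp contDiff_snd, fun _ y hy => (Rz y hy).1⟩
  have R2l : Loc (fun (_ : ℝ) y => R2 y + R3 y) (60 * l) :=
    ⟨(R2s.add R3s).comp contDiff_snd, fun _ y hy => by simp only [(Rz y hy).2, R3z y hy, add_zero]⟩
  have Fl : Loc (fun t y => (fb t : ℂ) * (R1 y + (R2 y + R3 y))) (60 * l) :=
    loc_mul (ofr fs) (loc_add R1l R2l)
  have U's : ContDiff ℝ ∞ (deriv U) := Us.iterate_deriv 1
  have φ's : ContDiff ℝ ∞ (deriv φ) := φs.iterate_deriv 1
  have φ''s : ContDiff ℝ ∞ (deriv (deriv φ)) := φs.iterate_deriv 2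
  have Wl : Loc (fun t y => U t * w1 t y + deriv φ t * w0 t y) (2 * d) :=
    loc_add (loc_mul (ofr Us) w1l) (loc_mul (ofr φ's) w0l)
  have F1l : Loc (fun t y => deriv U t * w1 t y) (2 * d) := loc_mul (ofr U's) w1l
  have F0l : Loc (fun t y => deriv (deriv φ) t * w0 t y) (2 * d) := loc_mul (ofr φ''s) w0l
  have q60 : 60 * l ≤ 1 / 4 := by linarith
  have q4 : 4 * d ≤ 1 / 4 := by linarith
  have q2 : 2 * d ≤ 1 / 4 := by linarith
  have sF := Fl.sp_mv q60 zs
  have sA := XAl.sp_mv q4 xs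
  have sB := XBl.sp_mv q4 xs
  have sC := XCl.sp_mv q4 xs
  have s1 := F1l.sp_mv q2 xs
  have s0 := F0l.sp_mv q2 xs
  have k1 := (cau1 _ s1).1
  have k0 := (cau1 _ s0).1
  refine ⟨mv (fun t y => U t * w1 t y + deriv φ t * w0 t y) x, wb, fun t y =>
    mv (fun t y => (fb t : ℂ) * (R1 y + (R2 y + R3 y))) z t y + 1 / 2 *
      (mv XA x t y + mv XB x t y + mv XC x t y + Cau K (mv (fun t y => deriv U t * w1 t y) x t) y +
        Cau K (mv (fun t y => deriv (deriv φ) t * w0 t y) x t) y), Wl.sp_mv q2 xs, wbs,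
    sp_add sF (sp_mul _ (sp_add (sp_add (sp_add (sp_add sA sB) sC) k1) k0)), dv, wbd,
    fun t ht y => Per_zero (fun y => by simp [Uz t ht, φz t (Uz t ht)]) _,
    fun t ht y => Per_zero (fun y => by simp [ht, φz t ht]) _, wbt, fun t ht y => ?_,
    fun t => ⟨fun j hj y => ?_, fun y hy => per_eq_zero q2 (Wl.2 t) hy, fun j hj y => ?_, ?_⟩, fun t => ?_⟩
  · have z1 : mv (fun t y => deriv U t * w1 t y) x t = fun _ => 0 :=
      funext fun y => Per_zero (fun y => by simp [deriv_out Uz' ht]) _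
    have z0 : mv (fun t y => deriv (deriv φ) t * w0 t y) x t = fun _ => 0 :=
      funext fun y => Per_zero (fun y => by simp [deriv_out (fun t ht => φz t (Uz' t ht)) ht]) _
    have zF : mv (fun t y => (fb t : ℂ) * (R1 y + (R2 y + R3 y))) z t y = 0 :=
      Per_zero (fun y => by simp [fz t ht]) _
    have zA : mv XA x t y = 0 := Per_zero (fun y => (Xz t (Uz' t ht) y).1) _
    have zB : mv XB x t y = 0 := Per_zero (fun y => (Xz t (Uz' t ht) y).2.1) _
    have zC : mv XC x t y = 0 := Per_zero (fun y => (Xz t (Uz' t ht) y).2.2) _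
    simp [z1, z0, zF, zA, zB, zC, Cau]
  · obtain ⟨w, hw, hw'⟩ := nD_Per_pn q2 (Wl.2 t) (x t) y
    refine (hw' j).trans_le ((wb' t j hj w).trans ?_)
    rw [hw, abs_of_nonneg (Ub t).1]
    have := (Ub t).1
    have := (Ub t).2
    have : 0 < max rho (pn (y - x t)) := lt_max_of_lt_left r0
    gcongr
  · refine (wdom t j hj y).trans ((mul_le_mul_of_nonneg_left (tau60 l0) (by positivity)).trans ?_)
    have : 0 ≤ tau 3 l (pn (y - z t)) := by
      unfold tau
      have : 0 < max l (pn (y - z t)) := lt_max_of_lt_left l0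
      positivity
    calc _ = 60 ^ 4 * CC * (1 + CD * Ce) * (rho ^ 2 * u ^ 2 * T * l / d ^ 4) *
          tau 3 l (pn (y - z t)) := by field_simp
      _ ≤ C * (rho ^ 2 * u ^ 2 * T * l / d ^ 4) * tau 3 l (pn (y - z t)) := by gcongr
      _ = _ := by ring
  · have al0 : ∀ a b : ℝ, 0 ≤ a → 0 ≤ a ^ b := fun a b h => Real.rpow_nonneg h b
    have U2 : U t ^ 2 ≤ u ^ 2 := pow_le_pow_left₀ (Ub t).1 (Ub t).2 2
    have fbn : ‖(fb t : ℂ)‖ ≤ CC / T := by
      rw [Complex.norm_real, Real.norm_of_nonneg (fbd t).1]; exact (fbd t).2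
    have se : 0 < √e1 := Real.sqrt_pos.2 e0
    have se1 : √e1 ≤ 1 := Real.sqrt_le_one.2 e11
    obtain ⟨-, -, i1, i2, i3, i4⟩ := wi t
    obtain ⟨x1, x2, x3, x4, x5, x6⟩ := Xi t
    obtain ⟨g, hg⟩ : ∃ g : ℝ, g = l ^ 3 / (u * T * d2 ^ 2) + (d2 + del) / d + f + rho / d :=
      ⟨_, rfl⟩
    have g1 : 0 ≤ l ^ 3 / (u * T * d2 ^ 2) := by positivity
    have g2 : 0 ≤ d2 / d := by positivity
    have g3 : 0 ≤ del / d := by positivity
    have g4 : 0 ≤ rho / d := by positivity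
    have g5 : g = l ^ 3 / (u * T * d2 ^ 2) + d2 / d + del / d + f + rho / d := by rw [hg]; ring
    have g0 : 0 ≤ g := by linarith
    -- the slow remainder
    have T1 : Cst l (mv (fun _ y => R1 y) z t)
        (4 * (CP * c0 * u ^ 2 * T * (h / l)) * (l / l) ^ al) :=
      cst_mv2 hCS R1l zs q60 l0 le_rfl t (by simpa using (Rb 0 (Or.inl rfl)).1)
        (Rb 2 (Or.inr rfl)).1
    have b23 : ∀ k : ℕ, k = 0 ∨ k = 2 → ∫ y, nD k (fun y => R2 y + R3 y) y ≤
        (CP + 16 * Cf) * c0 * u ^ 2 * T * g / d ^ k := by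
      intro k hk
      have j2 := intg_y R2s (fun y hy => (Rz y hy).2) k
      have j3 := intg_y R3s R3z k
      have a1 := integral_mono (intg_y (R2s.add R3s) (R2l.2 t) k) (j2.add j3)
        fun y => nD_add' R2s R3s k y
      rw [integral_add' j2 j3] at a1
      have a2 := (Rb k hk).2
      rw [mul_div_assoc f, div_self T0.ne', mul_one] at a2
      refine (a1.trans (add_le_add a2 (R3b k (by omega)))).trans ?_
      rw [← add_div]
      refine div_le_div_of_nonneg_right ?_ (by positivity)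
      calc _ ≤ CP * c0 * u ^ 2 * T * g + 16 * Cf * c0 * u ^ 2 * T * g := by
            gcongr <;> linarith
        _ = _ := by ring
    have T2 : Cst l (mv (fun _ y => R2 y + R3 y) z t)
        (4 * ((CP + 16 * Cf) * c0 * u ^ 2 * T * g) * (l / d) ^ al) :=
      cst_mv2 hCS R2l zs q60 d0 dl t (by simpa using b23 0 (Or.inl rfl)) (b23 2 (Or.inr rfl))
    have TA : Cst l (mv XA x t) (4 * (CD * U t ^ 2 * rho ^ 2 * e1) * (l / (rho * √e1)) ^ al) :=
      cst_mv2 hCS XAl xs q4 (by positivity) (by nlinarith) t x1 (x2.trans (le_of_eq (by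
        rw [mul_pow, Real.sq_sqrt e0.le]; field_simp)))
    have TB : Cst l (mv XB x t)
        (4 * (CD * U t ^ 2 * rho ^ 2 * L ^ 2 * (rho / d) ^ 2) * (l / rho) ^ al) :=
      cst_mv2 hCS XBl xs q4 r0 (by linarith) t x3 (x4.trans (le_of_eq (by field_simp)))
    have TC : Cst l (mv XC x t)
        (4 * (CD * U t ^ 2 * rho ^ 2 * L ^ 2 * (rho / d)) * (l / d) ^ al) :=
      cst_mv2 hCS XCl xs q4 d0 dl t x5 x6
    have n1 : ‖((deriv U t : ℝ) : ℂ)‖ ≤ CP * u / (f * T) := by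
      rw [Complex.norm_real]; exact (Ud t).1
    have n0 : ‖((deriv (deriv φ) t : ℝ) : ℂ)‖ ≤ CP * u ^ 2 / h ^ 2 := by
      rw [Complex.norm_real]; exact (Ud t).2.2
    have T6 := csc _ (2 * d) rho l (CP * u / (f * T) * (CD * rho ^ 2 * L ^ 2)) (x t) (sm_t F1l.1 t)
      (F1l.2 t) r0 (by linarith) (by linarith) (by linarith)
      (by rw [integral_const_mul, (wi t).1, mul_zero]) (int_mul (sm_t w1l.1 t) n1 i1)
      ((int_mul (sm_t w1l.1 t) n1 i2).trans (by
        rw [mul_div_assoc (CP * u / (f * T))]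
        refine mul_le_mul_of_nonneg_left ?_ (by positivity)
        calc CD * rho * L ≤ CD * rho * L ^ 2 := by gcongr; nlinarith
          _ = _ := by field_simp))
    have T7 := csc _ (2 * d) d l (CP * u ^ 2 / h ^ 2 * (CD * rho ^ 2 * d * L)) (x t) (sm_t F0l.1 t)
      (F0l.2 t) d0 (by linarith) (by linarith) (by linarith)
      (by rw [integral_const_mul, (wi t).2.1, mul_zero])
      ((int_mul (sm_t w0l.1 t) n0 i3).trans (mul_le_mul_of_nonneg_left
        (le_mul_of_one_le_right (by positivity) L1) (by positivity)))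
      ((int_mul (sm_t w0l.1 t) n0 i4).trans (le_of_eq (by field_simp)))
    have cA := (sm_t sA.1 t).continuous
    have cB := (sm_t sB.1 t).continuous
    have cC := (sm_t sC.1 t).continuous
    have c1 := (sm_t k1.1 t).continuous
    have c0' := (sm_t k0.1 t).continuous
    have cR1 := (sm_t (R1l.sp_mv q60 zs).1 t).continuous
    have cR2 := (sm_t (R2l.sp_mv q60 zs).1 t).continuous
    have hf' : ‖(1 / 2 : ℂ)‖ ≤ 1 / 2 := by simp
    have TT := Cst.add (continuous_const.mul (cR1.add cR2))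
      (continuous_const.mul ((((cA.add cB).add cC).add c1).add c0'))
      (Cst_mul2 (Cst.add cR1 cR2 T1 T2) l0 fbn)
      (Cst_mul2 (Cst.add (((cA.add cB).add cC).add c1) c0' (Cst.add ((cA.add cB).add cC) c1
        (Cst.add (cA.add cB) cC (Cst.add cA cB TA TB) TC) T6) T7) l0 hf')
    refine (TT.congr fun y => ?_).mono l0 ?_
    · refine congrArg₂ (· + ·) ?_ rfl
      simp only [mv]
      rw [per_const_mul, per_add q60 (R1l.2 t) (R2l.2 t)]
      rfl
    have p1 := al0 (l / d) al (by positivity)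
    have p2 := al0 (l / (rho * √e1)) al (by positivity)
    have p3 := al0 (l / rho) al (by positivity)
    have p4 := al0 (l / rho) (al - 1) (by positivity)
    have p5 := al0 (l / d) (al - 1) (by positivity)
    have lgd : lg d ≤ L := (lg_anti r0 rd1 (by linarith)).trans hL
    have J4 : 2 * CC * CD * CP ≤ J := by
      refine le_trans ?_ J1
      gcongr
      linarith
    have B1 : CC / T * (4 * (CP * c0 * u ^ 2 * T * (h / l)) * (l / l) ^ al) ≤
        J * L ^ 3 * (u ^ 2 * rho ^ 2 * (h / l)) := by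
      refine fin3 0 (by omega) L1 J4 J0 (by positivity) ?_
      rw [div_self l0.ne', Real.one_rpow]
      calc _ ≤ CC / T * (4 * (CP * (rho ^ 2 * CD / 2) * u ^ 2 * T * (h / l)) * 1) := by gcongr
        _ = _ := by field_simp; ring
    have B2 : CC / T * (4 * ((CP + 16 * Cf) * c0 * u ^ 2 * T * g) * (l / d) ^ al) ≤
        J * L ^ 3 * (u ^ 2 * rho ^ 2 * (g * (l / d) ^ al)) := by
      refine fin3 0 (by omega) L1 J1 J0 (by positivity) ?_
      calc _ ≤ CC / T * (4 * ((CP + 16 * Cf) * (rho ^ 2 * CD / 2) * u ^ 2 * T * g) *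
            (l / d) ^ al) := by gcongr
        _ = _ := by field_simp; ring
    have B3 : 1 / 2 * (4 * (CD * U t ^ 2 * rho ^ 2 * e1) * (l / (rho * √e1)) ^ al) ≤
        J * L ^ 3 * (u ^ 2 * rho ^ 2 * (e1 * (l / (rho * √e1)) ^ al)) := by
      refine fin3 0 (by omega) L1 J2 J0 (by positivity) ?_
      calc _ ≤ 1 / 2 * (4 * (CD * u ^ 2 * rho ^ 2 * e1) * (l / (rho * √e1)) ^ al) := by gcongr
        _ = _ := by ring
    have B4 : 1 / 2 * (4 * (CD * U t ^ 2 * rho ^ 2 * L ^ 2 * (rho / d) ^ 2) * (l / rho) ^ al) ≤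
        J * L ^ 3 * (u ^ 2 * rho ^ 2 * ((rho / d) ^ 2 * (l / rho) ^ al)) := by
      refine fin3 2 (by omega) L1 J2 J0 (by positivity) ?_
      calc _ ≤ 1 / 2 * (4 * (CD * u ^ 2 * rho ^ 2 * L ^ 2 * (rho / d) ^ 2) * (l / rho) ^ al) := by
            gcongr
        _ = _ := by ring
    have B5 : 1 / 2 * (4 * (CD * U t ^ 2 * rho ^ 2 * L ^ 2 * (rho / d)) * (l / d) ^ al) ≤
        J * L ^ 3 * (u ^ 2 * rho ^ 2 * (g * (l / d) ^ al)) := by
      refine fin3 2 (by omega) L1 J2 J0 (by positivity) ?_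
      have : rho / d ≤ g := by linarith
      calc _ ≤ 1 / 2 * (4 * (CD * u ^ 2 * rho ^ 2 * L ^ 2 * g) * (l / d) ^ al) := by gcongr
        _ = _ := by ring
    have B6 : CS * (CP * u / (f * T) * (CD * rho ^ 2 * L ^ 2)) * lg rho * l * (l / rho) ^ (al - 1) ≤
        J * L ^ 3 * (u ^ 2 * rho ^ 2 * (l * (l / rho) ^ (al - 1) / (f * (u * T)))) := by
      refine fin3 3 (by omega) L1 J3 J0 (by positivity) ?_
      calc _ ≤ CS * (CP * u / (f * T) * (CD * rho ^ 2 * L ^ 2)) * L * l * (l / rho) ^ (al - 1) := by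
            gcongr
        _ = _ := by field_simp
    have B7 : CS * (CP * u ^ 2 / h ^ 2 * (CD * rho ^ 2 * d * L)) * lg d * l * (l / d) ^ (al - 1) ≤
        J * L ^ 3 * (u ^ 2 * rho ^ 2 * (d * l * (l / d) ^ (al - 1) / h ^ 2)) := by
      refine fin3 2 (by omega) L1 J3 J0 (by positivity) ?_
      calc _ ≤ CS * (CP * u ^ 2 / h ^ 2 * (CD * rho ^ 2 * d * L)) * L * l * (l / d) ^ (al - 1) := by
            gcongr
        _ = _ := by field_simp
    have gam0 : 0 ≤ Gam l rho d h d2 del e1 f (u * T) := by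
      unfold Gam; positivity
    have fin : 2 * J * L ^ 3 * u ^ 2 * rho ^ 2 * Gam l rho d h d2 del e1 f (u * T) ≤
        C * L ^ 3 * u ^ 2 * rho ^ 2 * Gam l rho d h d2 del e1 f (u * T) := by gcongr
    refine le_trans ?_ fin
    unfold Gam
    rw [← hg]
    have n1 : 0 ≤ J * L ^ 3 * (u ^ 2 * rho ^ 2 * (h / l)) := by positivity
    have n3 : 0 ≤ J * L ^ 3 * (u ^ 2 * rho ^ 2 * (e1 * (l / (rho * √e1)) ^ al)) := by positivity
    have n4 : 0 ≤ J * L ^ 3 * (u ^ 2 * rho ^ 2 * ((rho / d) ^ 2 * (l / rho) ^ al)) := by positivity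
    have n6 : 0 ≤ J * L ^ 3 * (u ^ 2 * rho ^ 2 * (l * (l / rho) ^ (al - 1) / (f * (u * T)))) := by
      positivity
    have n7 : 0 ≤ J * L ^ 3 * (u ^ 2 * rho ^ 2 * (d * l * (l / d) ^ (al - 1) / h ^ 2)) := by
      positivity
    linarith
  · have Nl : Loc (Nf c0 d U φ fun _ => 0) (4 * d) :=
      Nf_loc (r := 0) Us φs contDiff_const es ez (fun t _ => by simp) (by linarith)
    have sN := sm_t (Nl.sp_mv q4 xs).1 t
    have sS := sm_t (Sl'.sp_mv q60 zs).1 t
    have e1 : mv (fun t y => S t y + M t y) z t =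
        fun y => mv S z t y + mv (Nf c0 d U φ fun _ => 0) x t y := by
      funext y
      refine (per_add q60 (Sl'.2 t) (Ml.2 t) _).trans (congrArg _ (tsum_congr fun n => ?_))
      simp only [hM, Nf]
      rw [show y - z t - lat n - (x t - z t) = y - x t - lat n - 0 by ring]
    have e2 : mv (fun t y => U t ^ 2 * rho ^ 2 * M0 * ex (2 * φ t) * etas d y
        + XA t y + XB t y + XC t y) x t = fun y => 2 * mv (Nf c0 d U φ fun _ => 0) x t y +
          mv XA x t y + mv XB x t y + mv XC x t y := by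
      funext y
      have n2 := loc_mul (contDiff_const (c := (2 : ℂ))) Nl
      have e : (fun y => (U t : ℂ) ^ 2 * rho ^ 2 * M0 * ex (2 * φ t) * etas d y
          + XA t y + XB t y + XC t y) = fun y => 2 * Nf c0 d U φ (fun _ => 0) t y
          + XA t y + XB t y + XC t y := by
        funext y
        simp only [Nf, hc0, sub_zero]
        push_cast
        ring
      simp only [mv]
      rw [e, per_add q4 ((loc_add (loc_add n2 XAl) XBl).2 t) (XCl.2 t),
        per_add q4 ((loc_add n2 XAl).2 t) (XBl.2 t), per_add q4 (n2.2 t) (XAl.2 t), per_const_mul]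
    have m1 : ∫ y in cell, mv (fun t y => deriv U t * w1 t y) x t y = 0 := by
      refine (integral_cell_Per q2 (F1l.2 t) (x t)).trans ?_
      rw [integral_const_mul, (wi t).1, mul_zero]
    have m0 : ∫ y in cell, mv (fun t y => deriv (deriv φ) t * w0 t y) x t y = 0 := by
      refine (integral_cell_Per q2 (F0l.2 t) (x t)).trans ?_
      rw [integral_const_mul, (wi t).2.1, mul_zero]
    have g := isG_add (G1 t) (G2 t)
    refine (congrArg IsG (funext fun y => ?_)).mp g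
    have tA := sm_t sA.1 t
    have tB := sm_t sB.1 t
    have tC := sm_t sC.1 t
    have t1 := sm_t k1.1 t
    have t0 := sm_t k0.1 t
    have p1 : mv (fun t y => deriv U t * w1 t y) x t y = deriv U t * mv w1 x t y :=
      per_const_mul _ _ _
    have p0 : mv (fun t y => deriv (deriv φ) t * w0 t y) x t y = deriv (deriv φ) t * mv w0 x t y :=
      per_const_mul _ _ _
    simp only []
    rw [e1, e2, dz_add' sS sN, dz_add' (((contDiff_const.mul sN).add tA).add tB) tC,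
      dz_add' ((contDiff_const.mul sN).add tA) tB, dz_add' (contDiff_const.mul sN) tA, dz_mul sN,
      dz_add' (sm_t sF.1 t) (contDiff_const.mul ((((tA.add tB).add tC).add t1).add t0)),
      dz_mul ((((tA.add tB).add tC).add t1).add t0), dz_add' (((tA.add tB).add tC).add t1) t0,
      dz_add' ((tA.add tB).add tC) t1, dz_add' (tA.add tB) tC, dz_add' tA tB,
      (cau2 _ (sm_t s1.1 t) (s1.2 t)).2.2.2.2 y, (cau2 _ (sm_t s0.1 t) (s0.2 t)).2.2.2.2 y, m1, m0,
      p1, p0]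
    ring

end

end Pool.Agent.Lib.EU2
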