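import Pool.Agent.Lib.EUL.B_GR
import Pool.Agent.Lib.EUL.BasicA

/-! Comparison of two perturbed trajectories, and covering of the unsafe start points. -/

set_option autoImplicit false

namespace Pool.Agent.Lib.EUL.H74

open MeasureTheory Set Filter Topology
open scoped ContDiff Classical

theorem gr2 {u : ℝ → ℂ → ℂ} {x y y' z ξ : ℝ → ℂ} {G mu : ℝ → ℝ} {a b s r0 r R : ℝ} (hu : Sm u)
    (hG : Continuous G) (hm : Continuous mu) (m0 : ∀ t ∈ Icc a b, 0 ≤ mu t)
    (hx : ∀ t, HasDerivAt x (u t (x t) + ξ t) t) (hy : ∀ t, HasDerivAt y (y' t) t)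
    (hs : s ∈ Icc a b) (hr : 0 ≤ r) (hR : ∀ t ∈ Icc a b, ‖x t - z t‖ ≤ R)
    (hD : ∀ t ∈ Icc a b, ∀ w, ‖w - z t‖ ≤ R + r → nD 1 (u t) w ≤ G t)
    (hmu : ∀ t ∈ Icc a b, ‖x t - y t‖ ≤ r → ‖y' t - u t (y t) - ξ t‖ ≤ mu t)
    (h0 : ‖x s - y s‖ ≤ r0) (hlt : r0 + (∫ t in a..b, mu t) + r * ∫ t in a..b, G t < r) :
    ∀ t ∈ Icc a b, ‖x t - y t‖ ≤ r0 + (∫ t in a..b, mu t) + r * ∫ t in a..b, G t := by
  have g0 : ∀ t ∈ Icc a b, 0 ≤ G t := fun t ht =>
    (norm_nonneg _).trans (hD t ht (x t) ((hR t ht).trans (by linarith)))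
  have e : ∫ t in a..b, (mu t + r * G t) = (∫ t in a..b, mu t) + r * ∫ t in a..b, G t := by
    have c : Continuous fun t => r * G t := continuous_const.mul hG
    rw [intervalIntegral.integral_add (hm.intervalIntegrable _ _) (c.intervalIntegrable _ _),
      intervalIntegral.integral_const_mul]
  rw [add_assoc, ← e] at hlt ⊢
  refine GR.two (e := fun t => x t - y t) (e' := fun t => u t (x t) + ξ t - y' t) (r := r)
    (fun t => (hx t).sub (hy t)) (hm.add (continuous_const.mul hG))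
    (fun t ht => add_nonneg (m0 t ht) (mul_nonneg hr (g0 t ht))) hs h0 (fun t ht h => ?_) hlt
  have hd : Differentiable ℝ (u t) :=
    (hu.comp (contDiff_const.prodMk contDiff_id)).differentiable (by simp)
  have h2 : ‖y t - z t‖ ≤ R + r := by
    have := norm_sub_le_norm_sub_add_norm_sub (y t) (x t) (z t)
    rw [norm_sub_rev (y t) (x t)] at this
    linarith [hR t ht]
  have h3 := (convex_closedBall (z t) (R + r)).norm_image_sub_le_of_norm_fderiv_le (𝕜 := ℝ)
    (C := G t) (fun w _ => hd w) (fun w hw => by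
      have := hD t ht w (mem_closedBall_iff_norm.1 hw)
      rwa [nD, norm_iteratedFDeriv_one] at this)
    (mem_closedBall_iff_norm.2 h2) (mem_closedBall_iff_norm.2 ((hR t ht).trans (by linarith)))
  have h4 : u t (x t) + ξ t - y' t = (u t (x t) - u t (y t)) - (y' t - u t (y t) - ξ t) := by ring
  show ‖u t (x t) + ξ t - y' t‖ ≤ mu t + r * G t
  rw [h4]
  refine (norm_sub_le _ _).trans ?_
  nlinarith [hmu t ht h, g0 t ht]

/-- uniqueness near a controlled reference path -/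
theorem uniq {u : ℝ → ℂ → ℂ} {x y z ξ η : ℝ → ℂ} {G : ℝ → ℝ} {a b s r R : ℝ} (hu : Sm u)
    (hG : Continuous G) (hx : ∀ t, HasDerivAt x (u t (x t) + ξ t) t)
    (hy : ∀ t, HasDerivAt y (u t (y t) + η t) t) (he : ∀ t ∈ Icc a b, η t = ξ t)
    (hs : s ∈ Icc a b) (hr : 0 < r) (hR : ∀ t ∈ Icc a b, ‖x t - z t‖ ≤ R)
    (hD : ∀ t ∈ Icc a b, ∀ w, ‖w - z t‖ ≤ R + r → nD 1 (u t) w ≤ G t)
    (h0 : x s = y s) (hi : ∫ t in a..b, G t < 1) : ∀ t ∈ Icc a b, x t = y t := by
  intro t ht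
  refine sub_eq_zero.1 (norm_le_zero_iff.1 (le_of_forall_pos_le_add fun ε hε => ?_))
  have hm : 0 < min ε r := lt_min hε hr
  have := gr2 (mu := fun _ => 0) (r0 := 0) (r := min ε r) hu hG continuous_const
    (fun _ _ => le_rfl) hx hy hs hm.le hR
    (fun t ht w hw => hD t ht w (hw.trans (by linarith [min_le_right ε r])))
    (fun t ht _ => by rw [he t ht]; simp) (by rw [h0]; simp)
    (by simp only [intervalIntegral.integral_zero, add_zero, zero_add]; nlinarith) t ht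
  simp only [intervalIntegral.integral_zero, add_zero, zero_add] at this ⊢
  nlinarith [min_le_left ε r]

theorem int_sub {g : ℝ → ℝ} (hg : Continuous g) (a s t : ℝ) :
    (∫ w in a..t, g w) - ∫ w in a..s, g w = ∫ w in s..t, g w :=
  intervalIntegral.integral_interval_sub_left (hg.intervalIntegrable _ _) (hg.intervalIntegrable _ _)

/-- the unsafe start points for one obstacle during one round -/
theorem cov {u : ℝ → ℂ → ℂ} {X : ℂ → ℝ → ℂ} {y y' z ξ : ℝ → ℂ} {G mu : ℝ → ℝ} {p : ℂ}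
    {t0 t1 s e r l d0 : ℝ} (hu : SP u) (hG : Continuous G) (hm : Continuous mu)
    (m0 : ∀ t, 0 ≤ mu t) (hl : l ≤ 1 / 10000) (hr : 0 < r) (hrl : 12 * r ≤ l)
    (h1 : t0 ≤ s) (h2 : s ≤ e) (h3 : e ≤ t1)
    (hX : ∀ a t, ‖a‖ ≤ d0 → HasDerivAt (X a) (u t (X a t) + ξ t) t)
    (hX0 : ∀ a, ‖a‖ ≤ d0 → X a t0 = p + a)
    (hXz : ∀ a, ‖a‖ ≤ d0 → ∀ t ∈ Icc t0 t1, ‖X a t - z t‖ ≤ 51 * l)
    (hD : ∀ t ∈ Icc t0 t1, ∀ w, ‖w - z t‖ ≤ 52 * l → nD 1 (u t) w ≤ G t)
    (hi : ∫ t in t0..t1, G t ≤ 1 / 10) (hy : ∀ t, HasDerivAt y (y' t) t)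
    (hmu : ∀ t ∈ Icc s e, pn (y t - z t) ≤ 52 * l → ‖y' t - u t (y t) - ξ t‖ ≤ mu t) :
    ∃ S : Finset ℂ, (S.card : ℝ) ≤ 1 + (∫ t in s..e, mu t) / r ∧
      (∀ a, ‖a‖ ≤ d0 → (∃ t ∈ Icc s e, pn (X a t - y t) < 4 * r) → ∃ c ∈ S, ‖a - c‖ ≤ 12 * r) ∧
      (S.Nonempty → r ≤ ∫ t in s..e, mu t ∨ ∀ t ∈ Icc s e, pn (y t - z t) ≤ 52 * l) := by
  have g0 : ∀ t ∈ Icc t0 t1, 0 ≤ G t := fun t ht =>
    (norm_nonneg _).trans (hD t ht (z t) (by simp; linarith))
  have sub : ∀ {a b : ℝ}, s ≤ a → b ≤ e → ∀ t ∈ Icc a b, t ∈ Icc t0 t1 := fun ha hb t ht =>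
    ⟨h1.trans (ha.trans ht.1), ht.2.trans (hb.trans h3)⟩
  -- the obstacle stays close to a trajectory that it has hit
  have stay : ∀ (a : ℂ) (n : ℤ × ℤ) (ta α β : ℝ), ‖a‖ ≤ d0 → s ≤ α → β ≤ e → ta ∈ Icc α β →
      ‖X a ta - (y ta + lat n)‖ ≤ 4 * r → ∫ t in α..β, mu t ≤ r →
      ∀ t ∈ Icc α β, ‖X a t - (y t + lat n)‖ ≤ 6 * r := by
    intro a n ta α β ha hα hβ hta h0 hI t ht
    have hαβ := hta.1.trans hta.2
    have iG := (GR.int_mono hG g0 (h1.trans hα) hαβ (hβ.trans h3)).trans hi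
    have := gr2 (y := fun t => y t + lat n) (y' := y') (r := 6 * r) (R := 51 * l) (a := α) (b := β)
      hu.1 hG hm (fun t _ => m0 t) (fun t => hX a t ha) (fun t => (hy t).add_const _) hta
      (by linarith) (fun t ht => hXz a ha t (sub hα hβ t ht))
      (fun t ht w hw => hD t (sub hα hβ t ht) w (by linarith))
      (fun t ht h => by
        rw [hu.2 t n]
        refine hmu t ⟨hα.trans ht.1, ht.2.trans hβ⟩ ?_
        rw [← pn_add_lat _ n]
        refine (pn_le_norm _).trans ?_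
        have := norm_sub_le_norm_sub_add_norm_sub (y t + lat n) (X a t) (z t)
        rw [norm_sub_rev (y t + lat n) (X a t)] at this
        rw [show y t - z t + lat n = y t + lat n - z t by ring]
        linarith [hXz a ha t (sub hα hβ t ht)])
      h0 (by nlinarith) t ht
    nlinarith
  set I := ∫ t in s..e, mu t with hI
  have I0 : 0 ≤ I := intervalIntegral.integral_nonneg h2 fun t _ => m0 t
  set Bad : ℂ → Prop := fun a => ‖a‖ ≤ d0 ∧ ∃ t ∈ Icc s e, pn (X a t - y t) < 4 * r with hB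
  have hit : ∀ a, Bad a → ∃ t ∈ Icc s e, ∃ n, ‖X a t - (y t + lat n)‖ ≤ 4 * r := by
    rintro a ⟨-, t, ht, h⟩
    obtain ⟨n, -, hn⟩ := exists_pn (X a t - y t)
    exact ⟨t, ht, n, by rw [← sub_sub, ← hn]; exact h.le⟩
  choose! T hT N hN using hit
  set F : ℝ → ℝ := fun t => ∫ w in s..t, mu w with hF
  have F0 : ∀ t ∈ Icc s e, 0 ≤ F t := fun t ht =>
    intervalIntegral.integral_nonneg ht.1 fun t _ => m0 t
  have FI : ∀ t ∈ Icc s e, F t ≤ I := fun t ht => GR.int_mono hm (fun t _ => m0 t) le_rfl ht.1 ht.2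
  set k : ℂ → ℕ := fun a => ⌊F (T a) / r⌋₊ with hk
  -- two bad points of the same class are close
  have ord : ∀ a a', Bad a → Bad a' → k a = k a' → T a ≤ T a' → ‖a - a'‖ ≤ 12 * r := by
    intro a a' ha ha' hkk hle
    have b1 : ∫ t in (T a)..(T a'), mu t ≤ r := by
      rw [← int_sub hm s]
      have c1 : (k a : ℝ) ≤ F (T a) / r := Nat.floor_le (div_nonneg (F0 _ (hT a ha)) hr.le)
      have c2 : F (T a') / r < k a' + 1 := Nat.lt_floor_add_one _
      rw [← hkk, div_lt_iff₀ hr] at c2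
      rw [le_div_iff₀ hr] at c1
      show F (T a') - F (T a) ≤ r
      linarith
    have b2 := stay a (N a) (T a) (T a) (T a') ha.1 (hT a ha).1 (hT a' ha').2 ⟨le_rfl, hle⟩
      (hN a ha) b1 (T a') ⟨hle, le_rfl⟩
    have b3 := hN a' ha'
    have m1 : T a' ∈ Icc t0 t1 := sub le_rfl le_rfl _ (hT a' ha')
    have b4 : N a = N a' := by
      by_contra hne
      have c1 := one_le_norm_lat_sub hne
      have c2 : lat (N a) - lat (N a') = (X a (T a') - z (T a')) - (X a' (T a') - z (T a'))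
          - (X a (T a') - (y (T a') + lat (N a))) + (X a' (T a') - (y (T a') + lat (N a'))) := by ring
      have c3 := norm_add_le_of_le (norm_sub_le_of_le (norm_sub_le_of_le (hXz a ha.1 _ m1)
        (hXz a' ha'.1 _ m1)) b2) b3
      rw [← c2] at c3
      linarith
    have b5 : ‖X a (T a') - X a' (T a')‖ ≤ 10 * r := by
      have c3 := norm_sub_le_of_le b2 b3
      rw [b4, sub_sub_sub_cancel_right] at c3
      linarith
    have b6 := gr2 (mu := fun _ => 0) (y := X a') (r := 12 * r) (R := 51 * l) (a := t0) (b := t1)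
      hu.1 hG continuous_const (fun _ _ => le_rfl) (fun t => hX a t ha.1) (fun t => hX a' t ha'.1) m1
      (by linarith) (hXz a ha.1) (fun t ht w hw => hD t ht w (by linarith))
      (fun t _ _ => by simp) b5
      (by simp only [intervalIntegral.integral_zero, add_zero]; nlinarith) t0
      ⟨le_rfl, m1.1.trans m1.2⟩
    rw [hX0 a ha.1, hX0 a' ha'.1, add_sub_add_left_eq_sub] at b6
    simp only [intervalIntegral.integral_zero, add_zero] at b6
    nlinarith
  have cls : ∀ a a', Bad a → Bad a' → k a = k a' → ‖a - a'‖ ≤ 12 * r := fun a a' ha ha' h => by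
    rcases le_total (T a) (T a') with h' | h'
    · exact ord a a' ha ha' h h'
    · rw [norm_sub_rev]; exact ord a' a ha' ha h.symm h'
  have rep : ∀ j : ℕ, (∃ a, Bad a ∧ k a = j) → ∃ a, Bad a ∧ k a = j := fun _ h => h
  choose! c hc using rep
  refine ⟨((Finset.range (⌊I / r⌋₊ + 1)).filter fun j => ∃ a, Bad a ∧ k a = j).image c, ?_,
    fun a ha hb => ?_, fun hS => ?_⟩
  · have b1 := (Finset.card_image_le (f := c)
      (s := (Finset.range (⌊I / r⌋₊ + 1)).filter fun j => ∃ a, Bad a ∧ k a = j)).trans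
      (Finset.card_filter_le _ _)
    rw [Finset.card_range] at b1
    have b2 : (⌊I / r⌋₊ : ℝ) ≤ I / r := Nat.floor_le (div_nonneg I0 hr.le)
    have b3 := (Nat.cast_le (α := ℝ)).2 b1
    push_cast at b3
    linarith
  · have ba : Bad a := ⟨ha, hb⟩
    have b1 := hc (k a) ⟨a, ba, rfl⟩
    refine ⟨c (k a), Finset.mem_image_of_mem c (Finset.mem_filter.2 ⟨Finset.mem_range.2
      (Nat.lt_succ_of_le (Nat.floor_le_floor ?_)), a, ba, rfl⟩), cls a _ ba b1.1 b1.2.symm⟩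
    exact div_le_div_of_nonneg_right (FI _ (hT a ba)) hr.le
  · obtain ⟨_, hc'⟩ := hS
    obtain ⟨j, hj, -⟩ := Finset.mem_image.1 hc'
    obtain ⟨a, ba, -⟩ := (Finset.mem_filter.1 hj).2
    refine (le_total r I).imp_right fun h t ht => ?_
    have b1 := stay a (N a) (T a) s e ba.1 le_rfl le_rfl (hT a ba) (hN a ba) h t ht
    rw [← pn_add_lat _ (N a)]
    refine (pn_le_norm _).trans ?_
    have := norm_sub_le_norm_sub_add_norm_sub (y t + lat (N a)) (X a t) (z t)
    rw [norm_sub_rev (y t + lat (N a)) (X a t)] at this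
    rw [show y t - z t + lat (N a) = y t + lat (N a) - z t by ring]
    linarith [hXz a ba.1 t (sub le_rfl le_rfl t ht)]

end Pool.Agent.Lib.EUL.H74
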