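import Pool.Agent.Lib.EU2.Blue
import Pool.Agent.Lib.EU2.H74Cov

/-! Covering of the unsafe start points. -/

namespace Pool.Agent.Lib.EU2

open Pool.Agent.Lib.EUL

theorem st_COV : St_COV := by
  intro u z y ξ η X G μ p l d0 r t0 t1 s e hu hG hm m0 _ _ hr hrl hl h1 h2 h3 hy hX hD hi hmu
  obtain ⟨S, b1, b2, b3⟩ := H74.cov (p := p) (d0 := d0) (z := z) hu hG hm m0 hl hr hrl h1 h2 h3
    (fun a t ha => (hX a ha).2.1 t) (fun a ha => (hX a ha).1) (fun a ha => (hX a ha).2.2)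
    (fun t _ w hw => hD t w (by linarith)) hi hy
    (fun t ht h => by rw [add_sub_cancel_left]; exact hmu t ht h)
  refine ⟨⟨S, b1, b2⟩, fun ⟨a, ha, hb⟩ => b3 ?_⟩
  obtain ⟨c, hc, -⟩ := b2 a ha hb
  exact ⟨c, hc⟩

end Pool.Agent.Lib.EU2
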