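import Pool.Agent.Lib.EU2.Basic
import Pool.Agent.Lib.EUL.B_CS

set_option autoImplicit false

namespace Pool.Agent.Lib.EU2

open MeasureTheory Set Filter Topology Pool.Agent.Lib.EUL
open scoped ContDiff Classical

variable [Al]

namespace CS

theorem scale {l s : ℝ} (hl : 0 < l) (hs : 0 < s) (c : ℝ) (y : ℂ) :
    c * (l / s) ^ al / l ^ al * ‖y‖ ^ al = c * (‖y‖ / s) ^ al := by
  have h1 : 0 < l ^ al := Real.rpow_pos_of_pos hl _
  have h2 : 0 < s ^ al := Real.rpow_pos_of_pos hs _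
  rw [Real.div_rpow hl.le hs.le, Real.div_rpow (norm_nonneg _) hs.le]
  field_simp

theorem sq_le_al {u : ℝ} (h0 : 0 ≤ u) (h1 : u ≤ 1) : u ^ 2 ≤ u ^ al := by
  have h := Real.rpow_le_rpow_of_exponent_ge' (y := 2) (z := al) h0 h1 (zero_le_one.trans one_le_al)
    al_le_two
  rwa [Real.rpow_two] at h

theorem le_al {u : ℝ} (h1 : 1 ≤ u) : u ≤ u ^ al := by
  have h := Real.rpow_le_rpow_of_exponent_le (y := 1) (z := al) h1 one_le_al
  rwa [Real.rpow_one] at h

end CS

theorem st_CS : St_CS := by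
  refine ⟨fun f l s a hf hp hs hsl h0 h2 => ?_, fun f l s a0 A hf hp hs hl h0 h1 h2 => ?_⟩
  · have hl : 0 < l := hs.trans_le hsl
    have ha : 0 ≤ a := (IQ_nonneg (nD_nonneg 0 f)).trans h0
    have hls : 1 ≤ l / s := (one_le_div hs).2 hsl
    have hone : 1 ≤ (l / s) ^ al := hls.trans (EU2.CS.le_al hls)
    refine ⟨?_, fun y => ?_⟩
    · rw [← EUL.CS.nD0_eq]
      nlinarith
    · rw [EU2.CS.scale hl hs]
      have hu : 0 ≤ ‖y‖ / s := by positivity
      have hp0 : 0 ≤ (‖y‖ / s) ^ al := Real.rpow_nonneg hu _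
      rcases le_total (‖y‖ / s) 1 with h | h
      · have h3 := EUL.CS.d2_two hf hp y
        have h4 := EU2.CS.sq_le_al hu h
        have h5 : ‖y‖ ^ 2 * IQ (nD 2 f) ≤ a * (‖y‖ / s) ^ 2 := by
          refine (mul_le_mul_of_nonneg_left h2 (sq_nonneg _)).trans (le_of_eq ?_)
          field_simp
        nlinarith [mul_le_mul_of_nonneg_left h4 ha, mul_nonneg ha hp0]
      · have h3 := EUL.CS.d2_zero hf hp y
        have h4 := h.trans (EU2.CS.le_al h)
        nlinarith [mul_le_mul_of_nonneg_left h4 ha]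
  · have ha : 0 ≤ a0 := (IQ_nonneg (nD_nonneg 0 f)).trans h0
    have hA : 0 ≤ A := by
      have h := (IQ_nonneg (nD_nonneg 1 f)).trans h1
      exact (div_nonneg_iff.1 h).elim (fun h => h.1) fun h => absurd h.2 (not_le.2 hs)
    have hq : 0 ≤ (l / s) ^ al := Real.rpow_nonneg (by positivity) _
    refine ⟨?_, fun y => ?_⟩
    · rw [← EUL.CS.nD0_eq]
      nlinarith [mul_nonneg hA hq]
    · have hu : 0 ≤ ‖y‖ / s := by positivity
      have hp0 : 0 ≤ (‖y‖ / s) ^ al := Real.rpow_nonneg hu _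
      have hb : 0 ≤ a0 / l ^ al * ‖y‖ ^ al :=
        mul_nonneg (div_nonneg ha (Real.rpow_nonneg hl.le _)) (Real.rpow_nonneg (norm_nonneg _) _)
      rw [add_div, add_mul, EU2.CS.scale hl hs]
      rcases le_total (‖y‖ / s) 1 with h | h
      · have h3 := EUL.CS.d2_two hf hp y
        have h4 := EU2.CS.sq_le_al hu h
        have h5 : ‖y‖ ^ 2 * IQ (nD 2 f) ≤ A * (‖y‖ / s) ^ 2 := by
          refine (mul_le_mul_of_nonneg_left h2 (sq_nonneg _)).trans (le_of_eq ?_)
          field_simp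
        nlinarith [mul_le_mul_of_nonneg_left h4 hA, mul_nonneg hA hp0]
      · have h3 := EUL.CS.d2_one hf hp y
        have h4 := EU2.CS.le_al h
        have h5 : 2 * ‖y‖ * IQ (nD 1 f) ≤ 2 * A * (‖y‖ / s) := by
          refine (mul_le_mul_of_nonneg_left h1 (by positivity)).trans (le_of_eq ?_)
          field_simp
        nlinarith [mul_le_mul_of_nonneg_left h4 hA]

end Pool.Agent.Lib.EU2
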