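import Pool.Agent.Lib.EU2.Basic
import Pool.Agent.Lib.EUL.B_CSC

/-! Block CSC, with the exponent as a parameter. -/

set_option autoImplicit false

namespace Pool.Agent.Lib.EU2

open MeasureTheory Set Filter Topology Pool.Agent.Lib.EUL
open scoped ContDiff Classical

variable [Al]

namespace CSC

open EUL.CSC in
theorem second {s t C A X Y : ℝ} (hs : 0 < s) (h1 : s ≤ 1) (h0 : 0 ≤ t) (hC : 0 ≤ C) (hA : 0 ≤ A)
    (hY0 : 0 ≤ Y) (hX1 : X ≤ C) (hX2 : t ≤ 1 → X ≤ C * t * lg t) (hY1 : Y ≤ 2 * A)
    (hY2 : Y ≤ t * (A / s)) (hX0 : 0 ≤ X) : X * Y ≤ 3 * C * A * lg s * (s * (t / s) ^ al) := by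
  have a1 := one_le_lg s
  have hCA : 0 ≤ C * A := mul_nonneg hC hA
  rcases h0.eq_or_lt with rfl | h0
  · have : Y = 0 := le_antisymm (by simpa using hY2) hY0
    rw [this, mul_zero]
    have : 0 ≤ (0 / s) ^ al := Real.rpow_nonneg (by simp) _
    positivity
  have hu : 0 < t / s := div_pos h0 hs
  have hp : 0 < (t / s) ^ al := Real.rpow_pos_of_pos hu _
  rcases le_total t s with h | h
  · have b1 : 0 < 2 - al := by linarith [al_hi]
    have h2 := lg_small h0 h h1 (e := 2 - al) b1
    have b2 : 1 / (2 - al) ≤ 2 := by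
      rw [div_le_iff₀ b1]
      linarith [al_hi]
    have h3 : (t / s) ^ al * (t / s) ^ (2 - al) = (t / s) ^ 2 := by
      rw [← Real.rpow_add hu, ← Real.rpow_natCast]
      norm_num
    have h4 : X * Y ≤ C * t * lg t * (t * (A / s)) :=
      mul_le_mul (hX2 (h.trans h1)) hY2 hY0 (hX0.trans (hX2 (h.trans h1)))
    have h5 : C * t * lg t * (t * (A / s)) =
        C * A * (s * (t / s) ^ al) * ((t / s) ^ (2 - al) * lg t) := by
      have : C * A * (s * (t / s) ^ al) * ((t / s) ^ (2 - al) * lg t) =
          C * A * s * ((t / s) ^ al * (t / s) ^ (2 - al)) * lg t := by ring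
      rw [this, h3]
      field_simp
    have h6 : (t / s) ^ (2 - al) * lg t ≤ 3 * lg s := by linarith
    have h7 := mul_le_mul_of_nonneg_left h6 (mul_nonneg hCA (mul_pos hs hp).le)
    linarith
  · have h2 : t ≤ s * (t / s) ^ al := by
      have := Real.rpow_le_rpow_of_exponent_le ((one_le_div hs).2 h) one_le_al
      rw [Real.rpow_one, div_le_iff₀ hs] at this
      linarith
    have h3 : X ≤ C * t * lg s := by
      rcases le_total t 1 with h4 | h4
      · exact (hX2 h4).trans (mul_le_mul_of_nonneg_left (lg_anti hs h h4) (mul_nonneg hC h0.le))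
      · have : 1 ≤ t * lg s := one_le_mul_of_one_le_of_one_le h4 a1
        nlinarith
    have h4 : X * Y ≤ C * t * lg s * (2 * A) := mul_le_mul h3 hY1 hY0 (hX0.trans h3)
    have h5 : 0 ≤ C * A * lg s := mul_nonneg hCA (zero_le_one.trans a1)
    have h6 := mul_le_mul_of_nonneg_left h2 h5
    have h7 := mul_nonneg h5 (mul_pos hs hp).le
    nlinarith

end CSC

open EUL.CSC in
theorem st_CSC (hCAU : St_CAU) (hK5 : St_K5) : St_CSC := by
  intro K CK hK
  obtain ⟨C, C1, hC⟩ := hK5 K CK hK
  obtain ⟨hKi, -, -, h4⟩ := hCAU K CK hK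
  have C0 : 0 ≤ C := zero_le_one.trans C1
  refine ⟨3 * C, by linarith, ?_⟩
  intro f r s l A p hf hr hs hsr hrl hl hm hA0 hA1
  have hsl : s ≤ l := hsr.trans hrl
  have hl0 : 0 < l := hs.trans_le hsl
  have hl1 : l ≤ 1 := by linarith
  have hcs : HasCompactSupport f :=
    HasCompactSupport.intro (isCompact_closedBall 0 r) fun y hy =>
      hr y (not_le.1 fun h => hy (mem_closedBall_zero_iff.2 h))
  have hfi : Integrable f := hf.continuous.integrable_of_hasCompactSupport hcs
  have hfm : Measurable f := hf.continuous.measurable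
  simp only [nD, norm_iteratedFDeriv_zero] at hA0
  have A0 : 0 ≤ A := (integral_nonneg fun _ => norm_nonneg _).trans hA0
  have h5 := h4 f r hf.continuous (hrl.trans hl) hr
  have e : ∀ x, Cau K (fun y => Per f (y - p)) x = ∫ w, K (x - p - w) * f w := fun x => by
    rw [← (h5 (x - p)).2]
    exact congrArg _ (funext fun y => by rw [sub_right_comm])
  have hS : ∀ a : ℂ, IntegrableOn (fun x => K (x + a)) cell := fun a => (shift hK.per a).1 hKi
  have hT : ∀ a b : ℂ, IntegrableOn (fun x => K (x + a + b)) cell := fun a b => by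
    rw [show (fun x => K (x + a + b)) = fun x => K (x + (a + b)) from
      funext fun x => by rw [add_assoc]]
    exact hS _
  have hD : ∀ y a : ℂ, IQ (fun x => ‖K (x + a + y) - K (x + a)‖) = IQ fun x => ‖K (x + y) - K x‖ :=
    fun y a => (shift (g := fun x => ‖K (x + y) - K x‖)
      (fun n z => by simp only [add_right_comm z (lat n) y, hK.per n]) a).2
  have a1 := one_le_lg s
  constructor
  · have e1 : ∀ x, Cau K (fun y => Per f (y - p)) x =
        ∫ w, (K (x + -p + -w) - K (x + -p)) * f w := fun x => by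
      simp only [sub_mul, ← sub_eq_add_neg]
      rw [integral_sub (h5 (x - p)).1 (hfi.const_mul _), integral_const_mul, hm, mul_zero, sub_zero, e]
    simp only [e1]
    have hm1 : Measurable fun q : ℂ × ℂ => K (q.1 + -p + -q.2) - K (q.1 + -p) :=
      (hK.meas.comp (by fun_prop)).sub (hK.meas.comp (by fun_prop))
    refine (conv _ hm1 f hfm hfi (C * (2 * (l * lg s))) (fun w => ?_) fun w hw => ?_).trans ?_
    · exact (hT _ _).sub (hS _)
    · have h6 : ‖-w‖ ≤ l := by
        rw [norm_neg]
        exact (not_lt.1 fun h => hw (hr w h)).trans hrl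
      rw [hD]
      refine ((hC (-w)).2 (h6.trans hl1)).trans ?_
      rw [mul_assoc]
      exact mul_le_mul_of_nonneg_left (first hs hsl hl1 (norm_nonneg _) h6) C0
    · have h6 : 1 ≤ (l / s) ^ (al - 1) :=
        Real.one_le_rpow ((one_le_div hs).2 hsl) (sub_nonneg.2 one_le_al)
      have h7 : 0 ≤ C * (l * lg s) := by positivity
      have h8 := mul_le_mul_of_nonneg_left hA0 h7
      have h9 := mul_le_mul_of_nonneg_left h6 (mul_nonneg h7 A0)
      have h10 := mul_nonneg h7 A0
      nlinarith
  · intro y
    have e2 : ∀ x, Cau K (fun y => Per f (y - p)) (x + y) + Cau K (fun y => Per f (y - p)) (x - y)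
        - 2 * Cau K (fun y => Per f (y - p)) x =
        ∫ w, (K (x + (-p - w) + y) - K (x + (-p - w))) * (f w - f (w - y)) := fun x => by
      have i1 := (h5 (x + y - p)).1
      have i2 := (h5 (x - p)).1
      have i3 := (h5 (x - p)).1.comp_sub_right y
      have i4 := (h5 (x - y - p)).1.comp_sub_right y
      have j3 := integral_sub_right_eq_self (μ := volume) (fun w => K (x - p - w) * f w) y
      have j4 := integral_sub_right_eq_self (μ := volume) (fun w => K (x - y - p - w) * f w) y
      have k : (fun w => (K (x + (-p - w) + y) - K (x + (-p - w))) * (f w - f (w - y))) =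
          fun w => (K (x + y - p - w) * f w - K (x - p - w) * f w) -
            (K (x - p - (w - y)) * f (w - y) - K (x - y - p - (w - y)) * f (w - y)) := by
        funext w
        rw [show x + (-p - w) + y = x + y - p - w by ring, show x + (-p - w) = x - p - w by ring,
          show x - p - (w - y) = x + y - p - w by ring, show x - y - p - (w - y) = x - p - w by ring]
        ring
      have i5 : Integrable fun w => K (x + y - p - w) * f w - K (x - p - w) * f w := i1.sub i2
      have i6 : Integrable fun w =>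
          K (x - p - (w - y)) * f (w - y) - K (x - y - p - (w - y)) * f (w - y) := i3.sub i4
      rw [k, integral_sub i5 i6, integral_sub i1 i2, integral_sub i3 i4, j3, j4, e, e, e]
      ring
    simp only [e2]
    have hm1 : Measurable fun q : ℂ × ℂ => K (q.1 + (-p - q.2) + y) - K (q.1 + (-p - q.2)) :=
      (hK.meas.comp (by fun_prop)).sub (hK.meas.comp (by fun_prop))
    have hi2 : Integrable fun w => f w - f (w - y) := hfi.sub (hfi.comp_sub_right y)
    refine (conv _ hm1 _ (hfm.sub (hfm.comp (measurable_sub_const y))) hi2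
      (IQ fun x => ‖K (x + y) - K x‖) (fun w => ?_) fun w _ => (hD y _).le).trans ?_
    · exact (hT _ _).sub (hS _)
    · have y1 : ∫ w, ‖f w - f (w - y)‖ ≤ 2 * A := by
        refine (integral_mono hi2.norm (hfi.norm.add (hfi.comp_sub_right y).norm)
          fun w => norm_sub_le _ _).trans ?_
        rw [integral_add' hfi.norm (hfi.comp_sub_right y).norm,
          integral_sub_right_eq_self (fun w => ‖f w‖)]
        linarith
      have y2 : ∫ w, ‖f w - f (w - y)‖ ≤ ‖y‖ * (A / s) :=
        (trans_le f hf hcs y).trans (mul_le_mul_of_nonneg_left hA1 (norm_nonneg _))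
      refine (EU2.CSC.second hs (hsl.trans hl1) (norm_nonneg y) C0 A0
        (integral_nonneg fun _ => norm_nonneg _) (hC y).1 (hC y).2 y1 y2
        (integral_nonneg fun _ => norm_nonneg _)).trans_eq ?_
      have p1 : 0 < l ^ al := Real.rpow_pos_of_pos hl0 _
      have p2 : 0 < s ^ al := Real.rpow_pos_of_pos hs _
      rw [Real.rpow_sub_one (div_pos hl0 hs).ne', Real.div_rpow hl0.le hs.le,
        Real.div_rpow (norm_nonneg y) hs.le]
      field_simp

end Pool.Agent.Lib.EU2
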