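import Pool.Agent.Lib.EU2.Blue
import Pool.Agent.Lib.EUL.B_FAR

set_option autoImplicit false

namespace Pool.Agent.Lib.EU2

open MeasureTheory Set Filter Topology Pool.Agent.Lib.EUL
open scoped ContDiff Classical

variable [Al]

open Pool.Agent.Lib.EUL.FAR in
theorem st_FAR (hCS : St_CS) (hENV : St_ENV) (hPTS : St_PTS) : St_FAR := by
  obtain ⟨C, hC1, hE⟩ := hENV
  refine ⟨9 * C, by linarith, ?_⟩
  intro ι _ B p c V g l d D Y M Z hD hDd hdl hl4 hV hP hg hB hM hZ
  have hd : 0 < d := hD.trans_le hDd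
  have hl : 0 < l := hd.trans_le hdl
  obtain ⟨-, E3, E4, -⟩ := hE l 0 hl (by linarith)
  simp only [sub_zero] at E3 E4
  set R := √(M * Y * Z) with hR
  have R0 : 0 ≤ R := Real.sqrt_nonneg _
  have hc : ∀ i, 0 ≤ c i := fun i => (hB i).2.2.1
  have hk := key hPTS hl hl4 hg hM hZ
  have hk1 : ∀ y, ∑ i, c i * nD 1 V (y + p i) ≤ R / l := fun y =>
    (Finset.sum_le_sum fun i _ => mul_le_mul_of_nonneg_left (le_max_left _ _) (hc i)).trans (hk y)
  have hdf := diff_le_pn hV hP hc (div_nonneg R0 hl.le) hk1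
  have ct := cont_tau 3 hl
  have cV := hV.continuous
  have ch : Continuous (hh V D) := (cont_nD hV 1).max (continuous_const.mul (cont_nD hV 2))
  have ph : Peri (hh V D) := fun n z => by
    simp only [hh, peri_nD hP 1 n z, peri_nD hP 2 n z]
  have pt : ∀ (q : ℂ) (n : ℤ × ℤ) (z : ℂ), pn (z + lat n - q) = pn (z - q) := fun q n z => by
    rw [← pn_add_lat n (z - q)]
    refine congrArg pn ?_
    ring
  set F0 : ℂ → ℝ := fun y => ∑ i, c i * ‖V y - V (p i)‖ * tau 3 l (pn (y - p i)) with hF0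
  set F1 : ℂ → ℝ := fun y => ∑ i, c i * hh V D y * tau 3 l (pn (y - p i)) with hF1
  have ctp : ∀ i, Continuous fun y : ℂ => tau 3 l (pn (y - p i)) := fun i =>
    ct.comp (continuous_id.sub continuous_const)
  have c0 : ∀ i, Continuous fun y => c i * ‖V y - V (p i)‖ * tau 3 l (pn (y - p i)) := fun i =>
    (continuous_const.mul (cV.sub continuous_const).norm).mul (ctp i)
  have c1 : ∀ i, Continuous fun y => c i * hh V D y * tau 3 l (pn (y - p i)) := fun i =>
    (continuous_const.mul ch).mul (ctp i)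
  have cF0 : Continuous F0 := continuous_finsetSum _ fun i _ => c0 i
  have cF1 : Continuous F1 := continuous_finsetSum _ fun i _ => c1 i
  have lg1 : 1 ≤ lg l := by unfold lg; linarith [abs_nonneg (Real.log l)]
  set a := C * lg l * l ^ 2 * R with ha
  have a0 : 0 ≤ a := by positivity
  have T0 : IQ F0 ≤ a := by
    rw [hF0, IQ_sum_shift _ p c0 (fun i n z => by simp only [hP n z, pt])]
    refine (IQ_mono (G := fun y => R / l * (pn y * tau 3 l (pn y)))
      (continuous_finsetSum _ fun i _ => (c0 i).comp (continuous_add_const (p i)))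
      (continuous_const.mul (cont_pn.mul ct)) fun y => ?_).trans ?_
    · simp only [Function.comp_def, add_sub_cancel_right]
      rw [← Finset.sum_mul, ← mul_assoc]
      exact mul_le_mul_of_nonneg_right (hdf y) (tau_nonneg hl _)
    · rw [IQ_const_mul]
      refine (mul_le_mul_of_nonneg_left E4 (div_nonneg R0 hl.le)).trans (le_of_eq ?_)
      rw [ha]; field_simp
  have T1 : IQ F1 ≤ a / l := by
    rw [hF1, IQ_sum_shift _ p c1 (fun i n z => by simp only [ph n z, pt])]
    refine (IQ_mono (G := fun y => R / l * tau 3 l (pn y))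
      (continuous_finsetSum _ fun i _ => (c1 i).comp (continuous_add_const (p i)))
      (continuous_const.mul ct) fun y => ?_).trans ?_
    · simp only [Function.comp_def, add_sub_cancel_right]
      rw [← Finset.sum_mul]
      exact mul_le_mul_of_nonneg_right (hk y) (tau_nonneg hl _)
    · rw [IQ_const_mul]
      refine (mul_le_mul_of_nonneg_left E3 (div_nonneg R0 hl.le)).trans ?_
      have e : a / l = R / l * (C * l ^ 2) * lg l := by rw [ha]; field_simp
      rw [e]
      exact le_mul_of_one_le_right (by positivity) lg1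
  have sm : ∀ i, ContDiff ℝ ∞ fun y => (V y - V (p i)) * B i y := fun i =>
    (hV.sub contDiff_const).mul (hB i).1
  have smf : ContDiff ℝ ∞ fun y => ∑ i, (V y - V (p i)) * B i y := ContDiff.sum fun i _ => sm i
  have pf : Peri fun y => ∑ i, (V y - V (p i)) * B i y := fun n z => by
    simp only [hP n z, fun i => (hB i).2.1 n z]
  have b0 : ∀ i y, nD 0 (B i) y ≤ c i * tau 3 l (pn (y - p i)) := fun i y => by
    simpa using (hB i).2.2.2 0 (by norm_num) y
  have b1 : ∀ i y, nD 1 (B i) y ≤ c i * tau 3 l (pn (y - p i)) / d := fun i y => by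
    rw [le_div_iff₀ hd, mul_comm]
    simpa using (hB i).2.2.2 1 (by norm_num) y
  have b2 : ∀ i y, nD 2 (B i) y ≤ c i * tau 3 l (pn (y - p i)) / d ^ 2 := fun i y => by
    rw [le_div_iff₀ (by positivity), mul_comm]
    exact (hB i).2.2.2 2 le_rfl y
  have v1 : ∀ y, nD 1 V y ≤ hh V D y := fun y => le_max_left _ _
  have v2 : ∀ y, nD 2 V y ≤ hh V D y / D := fun y => by
    rw [le_div_iff₀ hD, mul_comm]; exact le_max_right _ _
  have n0 : IQ (nD 0 fun y => ∑ i, (V y - V (p i)) * B i y) ≤ a := by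
    refine (IQ_mono (cont_nD smf 0) cF0 fun y => ?_).trans T0
    refine (nD_sum_le _ sm 0 y).trans (Finset.sum_le_sum fun i _ => ?_)
    rw [leib0]
    refine (mul_le_mul_of_nonneg_left (b0 i y) (norm_nonneg _)).trans (le_of_eq (by ring))
  have hal : a / l ≤ a / d := div_le_div_of_nonneg_left a0 hd hdl
  have haD : a / d ≤ a / D := div_le_div_of_nonneg_left a0 hD hDd
  have hiD : 1 / d ≤ 1 / D := one_div_le_one_div_of_le hD hDd
  have ad0 : 0 ≤ a / d := div_nonneg a0 hd.le
  have n1 : IQ (nD 1 fun y => ∑ i, (V y - V (p i)) * B i y) ≤ 4 * a * D / d / D := by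
    refine (IQ_mono (G := fun y => 1 / d * F0 y + 1 * F1 y) (cont_nD smf 1) (by fun_prop)
      fun y => ?_).trans ?_
    · refine (nD_sum_le _ sm 1 y).trans ?_
      simp only [hF0, hF1, Finset.mul_sum, ← Finset.sum_add_distrib]
      refine Finset.sum_le_sum fun i _ => (leib1 hV (hB i).1 _ y).trans ?_
      have h1 := mul_le_mul_of_nonneg_left (b1 i y) (norm_nonneg (V y - V (p i)))
      have h2 := mul_le_mul (v1 y) (b0 i y) (nD_nonneg _ _ _) (hh_nonneg _ _ _)
      refine (add_le_add h1 h2).trans (le_of_eq (by ring))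
    · rw [IQ_comb _ _ cF0 cF1]
      have h1 := mul_le_mul_of_nonneg_left T0 (one_div_pos.2 hd).le
      have e : 4 * a * D / d / D = 4 * (a / d) := by field_simp
      have e2 : 1 / d * a = a / d := by ring
      rw [e]; linarith
  have n2 : IQ (nD 2 fun y => ∑ i, (V y - V (p i)) * B i y) ≤ 4 * a * D / d / D ^ 2 := by
    refine (IQ_mono (G := fun y => 1 / d ^ 2 * F0 y + (2 / d + 1 / D) * F1 y) (cont_nD smf 2)
      (by fun_prop) fun y => ?_).trans ?_
    · refine (nD_sum_le _ sm 2 y).trans ?_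
      simp only [hF0, hF1, Finset.mul_sum, ← Finset.sum_add_distrib]
      refine Finset.sum_le_sum fun i _ => (leib2 hV (hB i).1 _ y).trans ?_
      have h1 := mul_le_mul_of_nonneg_left (b2 i y) (norm_nonneg (V y - V (p i)))
      have h2 := mul_le_mul (v1 y) (b1 i y) (nD_nonneg _ _ _) (hh_nonneg _ _ _)
      have h3 := mul_le_mul (v2 y) (b0 i y) (nD_nonneg _ _ _) (div_nonneg (hh_nonneg _ _ _) hD.le)
      have e : 1 / d ^ 2 * (c i * ‖V y - V (p i)‖ * tau 3 l (pn (y - p i)))
          + (2 / d + 1 / D) * (c i * hh V D y * tau 3 l (pn (y - p i)))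
          = ‖V y - V (p i)‖ * (c i * tau 3 l (pn (y - p i)) / d ^ 2)
            + 2 * (hh V D y * (c i * tau 3 l (pn (y - p i)) / d))
            + hh V D y / D * (c i * tau 3 l (pn (y - p i))) := by ring
      rw [e]; linarith
    · rw [IQ_comb _ _ cF0 cF1]
      have h1 := mul_le_mul_of_nonneg_left T0 (one_div_pos.2 (pow_pos hd 2)).le
      have h2 := mul_le_mul_of_nonneg_left (T1.trans hal)
        (by positivity : (0 : ℝ) ≤ 2 / d + 1 / D)
      have h3 := mul_le_mul_of_nonneg_right hiD ad0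
      have e : 4 * a * D / d / D ^ 2 = 4 * (1 / D * (a / d)) := by field_simp
      have e2 : 1 / d ^ 2 * a = 1 / d * (a / d) := by field_simp
      have e3 : (2 / d + 1 / D) * (a / d) = 2 * (1 / d * (a / d)) + 1 / D * (a / d) := by ring
      rw [e]; linarith
  have hfin := hCS.2 _ l D a (4 * a * D / d) smf pf hD hl n0 n1 n2
  have lD : 1 ≤ l / D := (one_le_div hD).2 (hDd.trans hdl)
  have ld : 1 ≤ l / d := (one_le_div hd).2 hdl
  have hp1 : 1 ≤ (l / D) ^ (al - 1) := Real.one_le_rpow lD (by linarith [al_lo])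
  have hp2 : (l / D) ^ al = (l / D) ^ (al - 1) * (l / D) := by
    rw [Real.rpow_sub_one (by positivity)]; field_simp
  have hle : a + 2 * (4 * a * D / d) * (l / D) ^ al
      ≤ 9 * C * lg l * l ^ 2 * R * (l / d) * (l / D) ^ (al - 1) := by
    have e : 9 * C * lg l * l ^ 2 * R * (l / d) * (l / D) ^ (al - 1)
        = a * ((l / d) * (l / D) ^ (al - 1)) + 2 * (4 * a * D / d) * (l / D) ^ al := by
      rw [hp2, ha]; field_simp; ring
    rw [e]
    have h1 : a ≤ a * ((l / d) * (l / D) ^ (al - 1)) :=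
      le_mul_of_one_le_right a0 (one_le_mul_of_one_le_of_one_le ld hp1)
    linarith
  refine ⟨hfin.1.trans hle, fun y => (hfin.2 y).trans ?_⟩
  exact mul_le_mul_of_nonneg_right
    (div_le_div_of_nonneg_right hle (Real.rpow_nonneg hl.le _)) (Real.rpow_nonneg (norm_nonneg _) _)
end Pool.Agent.Lib.EU2
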