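import Pool.Agent.Lib.EU2.Blue
import Pool.Agent.Lib.EU2.H74Cov

/-! Comparison of two perturbed trajectories. -/

namespace Pool.Agent.Lib.EU2

open Pool.Agent.Lib.EUL

theorem st_GR2 : St_GR2 := by
  intro u z x y ξ η G μ a b s R r0 r hu hG hm m0 _ _ hx hy hs hr hR hD hmu h0 hlt
  refine H74.gr2 hu hG hm (fun t _ => m0 t) hx hy hs hr.le hR hD (fun t ht h => ?_) h0 hlt
  rw [add_sub_cancel_left, norm_sub_rev]
  exact hmu t ht h

end Pool.Agent.Lib.EU2
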