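import Pool.Agent.Lib.EU2.Blue
import Pool.Agent.Lib.EUL.B_HS

set_option autoImplicit false

namespace Pool.Agent.Lib.EU2

open MeasureTheory Set Filter Topology Pool.Agent.Lib.EUL
open scoped ContDiff Classical

noncomputable section

namespace HSb

open MP_fea353_an

/-- the weight of a frequency -/
def wt (β : ℝ) (k : Fin 3 → ℤ) : ℝ := (1 + ∑ j, (k j : ℝ) ^ 2) ^ β

theorem wt_nonneg (β : ℝ) (k : Fin 3 → ℤ) : 0 ≤ wt β k := by
  unfold wt
  exact Real.rpow_nonneg (by positivity) _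

/-- weighted coefficients on a finite set of frequencies -/
def vec (β : ℝ) (F : Finset (Fin 3 → ℤ)) (c : (Fin 3 → ℤ) → ℂ) : EuclideanSpace ℂ F :=
  WithLp.toLp 2 (fun k : F => ((√(wt β k) : ℝ) : ℂ) * c k)

theorem vec_add (β : ℝ) (F : Finset (Fin 3 → ℤ)) (c d : (Fin 3 → ℤ) → ℂ) :
    vec β F (fun k => c k + d k) = vec β F c + vec β F d := by
  unfold vec
  rw [← WithLp.toLp_add]
  refine congrArg _ ?_
  funext k
  simp only [Pi.add_apply]
  ring

theorem norm_vec_sq (β : ℝ) (F : Finset (Fin 3 → ℤ)) (c : (Fin 3 → ℤ) → ℂ) :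
    ‖vec β F c‖ ^ 2 = ∑ k ∈ F, wt β k * ‖c k‖ ^ 2 := by
  rw [EuclideanSpace.norm_sq_eq, ← Finset.sum_coe_sort F (fun k => wt β k * ‖c k‖ ^ 2)]
  refine Finset.sum_congr rfl fun k _ => ?_
  unfold vec
  simp only [norm_mul, Complex.norm_real, Real.norm_eq_abs, mul_pow, sq_abs]
  rw [Real.sq_sqrt (wt_nonneg β _)]

theorem hs_eq (β : ℝ) (g : T3 → ℝ) :
    HsNormSq β g = ∑' k, ENNReal.ofReal (wt β k * ‖fc g k‖ ^ 2) := rfl

theorem vec_le_of_hs {β : ℝ} {g : T3 → ℝ} {B : ℝ} (hB : 0 ≤ B)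
    (h : HsNormSq β g ≤ ENNReal.ofReal (B ^ 2)) (F : Finset (Fin 3 → ℤ)) :
    ‖vec β F (fc g)‖ ≤ B := by
  have h1 : ∑ k ∈ F, ENNReal.ofReal (wt β k * ‖fc g k‖ ^ 2) ≤ ENNReal.ofReal (B ^ 2) :=
    (ENNReal.sum_le_tsum F).trans (hs_eq β g ▸ h)
  rw [← ENNReal.ofReal_sum_of_nonneg (fun k _ => mul_nonneg (wt_nonneg β k) (sq_nonneg _)),
    ENNReal.ofReal_le_ofReal_iff (sq_nonneg _), ← norm_vec_sq] at h1
  exact (pow_le_pow_iff_left₀ (norm_nonneg _) hB two_ne_zero).1 h1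

theorem hs_le_of_sum {β : ℝ} {g : T3 → ℝ} {M : ℝ}
    (h : ∀ F : Finset (Fin 3 → ℤ), ∑ k ∈ F, wt β k * ‖fc g k‖ ^ 2 ≤ M) :
    HsNormSq β g ≤ ENNReal.ofReal M := by
  rw [hs_eq, ENNReal.tsum_eq_iSup_sum]
  refine iSup_le fun F => ?_
  rw [← ENNReal.ofReal_sum_of_nonneg (fun k _ => mul_nonneg (wt_nonneg β k) (sq_nonneg _))]
  exact ENNReal.ofReal_le_ofReal (h F)

end HSb

open MP_fea353_an in
theorem st_HS (hPR : St_PR) (hHS1 : St_HS1) : St_HS := by
  intro β v q S A rho u hb0 hb1 H hu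
  obtain ⟨A0, hA0, hst⟩ := EUL.HS.start_bound hPR (H.er 0).1.1 (H.ts 0)
  have hterm : ∀ m, 0 ≤ A m * rho m ^ (-β) := fun m =>
    mul_nonneg (H.A0 m) (Real.rpow_nonneg (H.rpos m).le _)
  set B : ℝ := 2 * A0 + 2 * ∑' m, A m * rho m ^ (-β) with hB
  refine ⟨B ^ 2, fun t i => HSb.hs_le_of_sum fun F => ?_⟩
  have hsm : ∀ m, ContDiff ℝ ∞ (v m t) := fun m => EUL.HS.sm_slice (H.er m).1.1 t
  have hL : ∀ m, MemLp (v m t) 2 (volume.restrict cell) := fun m =>
    EUL.HS.memLp_cont hPR (hsm m).continuous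
  have hN : ∀ N, ‖HSb.vec β F (fc fun x => liftU (v N t) x i)‖
      ≤ 2 * A0 + 2 * ∑ m ∈ Finset.range N, A m * rho m ^ (-β) := by
    intro N
    induction N with
    | zero =>
      have h0 := hHS1 β (v 0 t) A0 1 i hb0 hb1 (hsm 0) ((H.er 0).1.2 t) one_pos le_rfl hA0 (hst t).1 (hst t).2
      rw [Real.one_rpow, mul_one] at h0
      simpa using HSb.vec_le_of_hs (by positivity) h0 F
    | succ N ih =>
      have hper : Peri (fun x => v (N + 1) t x - v N t x) := fun n z => by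
        show v (N + 1) t (z + lat n) - v N t (z + lat n) = v (N + 1) t z - v N t z
        rw [(H.er (N + 1)).1.2 t n z, (H.er N).1.2 t n z]
      have h0 := hHS1 β (fun x => v (N + 1) t x - v N t x) (A N) (rho N) i hb0 hb1
        ((hsm (N + 1)).sub (hsm N)) hper (H.rpos N) (H.r1 N) (H.A0 N) (H.inc N t).1 (H.inc N t).2.1
      have h1 := HSb.vec_le_of_hs (by have := hterm N; rw [mul_assoc]; positivity) h0 F
      have h2 : (fc fun x => liftU (v (N + 1) t) x i) = fun k =>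
          fc (fun x => liftU (v N t) x i) k
            + fc (fun x => liftU (fun y => v (N + 1) t y - v N t y) x i) k := by
        funext k
        rw [EUL.HS.fc_lift_sub hPR (hL (N + 1)) (hL N)]
        ring
      rw [h2, HSb.vec_add, Finset.sum_range_succ]
      refine (norm_add_le _ _).trans ?_
      have h3 : ‖HSb.vec β F (fc fun x => liftU (fun y => v (N + 1) t y - v N t y) x i)‖
          ≤ 2 * (A N * rho N ^ (-β)) := by
        rw [← mul_assoc]
        exact h1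
      linarith
  have hN2 : ∀ N, ∑ k ∈ F, HSb.wt β k * ‖fc (fun x => liftU (v N t) x i) k‖ ^ 2 ≤ B ^ 2 := by
    intro N
    rw [← HSb.norm_vec_sq]
    refine pow_le_pow_left₀ (norm_nonneg _) ((hN N).trans ?_) 2
    have := H.sum.sum_le_tsum (Finset.range N) (fun m _ => hterm m)
    linarith
  have hlim : ∀ k, Tendsto (fun N => fc (fun x => liftU (v N t) x i) k) atTop
      (𝓝 (fc (fun x => liftU (u t) x i) k)) := by
    intro k
    rw [tendsto_iff_norm_sub_tendsto_zero]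
    have h1 : Tendsto (fun N => √(IQ fun x => ‖u t x - v N t x‖ ^ 2)) atTop (𝓝 0) := by
      simpa using (hu t).2.sqrt
    refine squeeze_zero (fun _ => norm_nonneg _) (fun N => ?_) h1
    rw [norm_sub_rev, ← EUL.HS.fc_lift_sub hPR (hu t).1 (hL N)]
    exact Real.le_sqrt_of_sq_le (EUL.HS.fc_sq_le hPR ((hu t).1.sub (hL N)) i k)
  have hlim2 : Tendsto (fun N => ∑ k ∈ F, HSb.wt β k * ‖fc (fun x => liftU (v N t) x i) k‖ ^ 2) atTop
      (𝓝 (∑ k ∈ F, HSb.wt β k * ‖fc (fun x => liftU (u t) x i) k‖ ^ 2)) :=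
    tendsto_finset_sum F fun k _ => ((hlim k).norm.pow 2).const_mul _
  exact le_of_tendsto' hlim2 hN2


end

end Pool.Agent.Lib.EU2
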