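import Pool.Agent.Lib.EU2.Basic
import Pool.Agent.Lib.EUL.B_HS1

set_option autoImplicit false

namespace Pool.Agent.Lib.EU2

open MeasureTheory Set Filter Topology Pool.Agent.Lib.EUL
open scoped ContDiff Classical

namespace HS1

open EUL.HS1 hiding interp main
open Pool.Agent.Lib.MP_fea353_an

theorem interp {β X r : ℝ} (b0 : 0 ≤ β) (b1 : β ≤ 1) (hX : 0 < X) (hr : 0 < r) :
    X ^ β ≤ (r ^ (-β)) ^ 2 * (1 + r ^ 2 * X) := by
  have h1 : X ^ β = (r ^ (-β)) ^ 2 * (r ^ 2 * X) ^ β := by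
    rw [Real.mul_rpow (by positivity) hX.le, ← mul_assoc, ← Real.rpow_natCast r 2,
      ← Real.rpow_natCast _ 2, ← Real.rpow_mul hr.le, ← Real.rpow_mul hr.le, ← Real.rpow_add hr]
    rw [show -β * ((2 : ℕ) : ℝ) + ((2 : ℕ) : ℝ) * β = 0 by ring, Real.rpow_zero, one_mul]
  rw [h1]
  gcongr
  have hY : 0 < r ^ 2 * X := by positivity
  rcases le_total (r ^ 2 * X) 1 with h | h
  · linarith [Real.rpow_le_one hY.le h b0]
  · have := Real.rpow_le_rpow_of_exponent_le h b1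
    rw [Real.rpow_one] at this
    linarith

theorem main (hPR : St_PR) {f : ℂ → ℂ} {β A rho : ℝ} (β0 : 0 ≤ β) (β1 : β ≤ 1) (hf : ContDiff ℝ ∞ f) (hp : Peri f)
    (hr : 0 < rho) (hr1 : rho ≤ 1) (h0 : IQ (fun x => ‖f x‖ ^ 2) ≤ A ^ 2)
    (h1 : IQ (fun x => nD 1 f x ^ 2) ≤ A ^ 2 / rho ^ 2) (L : ℂ →L[ℝ] ℝ) (hL : ∀ z, |L z| ≤ ‖z‖) :
    HsNormSq β (fun x => L (f (pr x))) ≤
      ENNReal.ofReal ((2 * A * rho ^ (-β)) ^ 2) := by
  have hc := hf.continuous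
  have hc' : Continuous (fderiv ℝ f) := hf.continuous_fderiv (by simp)
  have hnD : ∀ z, nD 1 f z = ‖fderiv ℝ f z‖ := fun z => by
    rw [nD, ← norm_iteratedFDeriv_fderiv, norm_iteratedFDeriv_zero]
  simp only [hnD] at h1
  have c0 := cont_pr hPR hc hp
  have c1 := cont_pr hPR hc' (peri_fderiv hp)
  set u : T3 → ℝ := fun x => L (f (pr x)) with hu
  set u' : Fin 3 → T3 → ℝ := fun j x => L (fderiv ℝ f (pr x) (ev j)) with hu'
  have cu : Continuous u := L.continuous.comp c0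
  have cu' : ∀ j, Continuous (u' j) := fun j => L.continuous.comp (c1.clm_apply continuous_const)
  have s0 := hasSum_sq (cont_memLp cu 2)
  have s1 := fun j => hasSum_sq (cont_memLp (cu' j) 2)
  have b0 : ∫ x, u x ^ 2 ∂mu ≤ A ^ 2 := by
    refine le_trans ?_ h0
    rw [← int_pr hPR (F := fun x => ‖f x‖ ^ 2) (hc.norm.pow 2)]
    refine integral_mono (cont_int (cu.pow 2)) (cont_int (c0.norm.pow 2)) fun x => ?_
    exact sq_le_sq.2 ((hL _).trans (le_abs_self _))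
  have b1 : ∀ j, ∫ x, u' j x ^ 2 ∂mu ≤ A ^ 2 / rho ^ 2 := fun j => by
    refine le_trans ?_ h1
    rw [← int_pr hPR (F := fun x => ‖fderiv ℝ f x‖ ^ 2) (hc'.norm.pow 2)]
    refine integral_mono (cont_int ((cu' j).pow 2)) (cont_int (c1.norm.pow 2)) fun x => ?_
    refine sq_le_sq.2 ((hL _).trans (le_trans ?_ (le_abs_self _)))
    exact (ContinuousLinearMap.le_opNorm _ _).trans
      (mul_le_of_le_one_right (norm_nonneg _) (ev_norm j))
  have e1 : ∀ j k, 4 * ((k j : ℝ) ^ 2 * ‖fc u k‖ ^ 2) ≤ ‖fc (u' j) k‖ ^ 2 := fun j k => by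
    rw [fc_pd (hasPD hPR hf hp L j) cu (cu' j) k]
    have h2 : ‖(2 * Real.pi * Complex.I * k j : ℂ)‖ = 2 * Real.pi * |(k j : ℝ)| := by
      simp [abs_of_pos Real.pi_pos]
    rw [norm_mul, h2, mul_pow, mul_pow, mul_pow, sq_abs]
    have h3 : 1 ≤ Real.pi ^ 2 := one_le_pow₀ (by linarith [Real.pi_gt_three])
    have h4 : 0 ≤ (k j : ℝ) ^ 2 * ‖fc u k‖ ^ 2 := by positivity
    nlinarith
  set c : ℝ := (rho ^ (-β)) ^ 2 with hc0
  have hcp : 0 ≤ c := by positivity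
  have S := ((s0.mul_left 2).add ((hasSum_sum (s := Finset.univ) fun j _ => s1 j).mul_left
    (rho ^ 2 / 4))).mul_left c
  have hr2 : rho ^ 2 ≤ 1 := pow_le_one₀ hr.le hr1
  have key : ∀ k : Fin 3 → ℤ, (1 + ∑ j, (k j : ℝ) ^ 2) ^ β * ‖fc u k‖ ^ 2 ≤
      c * (2 * ‖fc u k‖ ^ 2 + rho ^ 2 / 4 * ∑ j, ‖fc (u' j) k‖ ^ 2) := fun k => by
    have h2 := EU2.HS1.interp β0 β1 (X := 1 + ∑ j, (k j : ℝ) ^ 2) (by positivity) hr
    have h3 : 4 * ((∑ j, (k j : ℝ) ^ 2) * ‖fc u k‖ ^ 2) ≤ ∑ j, ‖fc (u' j) k‖ ^ 2 := by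
      rw [Finset.sum_mul, Finset.mul_sum]
      exact Finset.sum_le_sum fun j _ => e1 j k
    calc _ ≤ c * (1 + rho ^ 2 * (1 + ∑ j, (k j : ℝ) ^ 2)) * ‖fc u k‖ ^ 2 := by gcongr
      _ = c * ((1 + rho ^ 2) * ‖fc u k‖ ^ 2 +
          rho ^ 2 / 4 * (4 * ((∑ j, (k j : ℝ) ^ 2) * ‖fc u k‖ ^ 2))) := by ring
      _ ≤ _ := by
          gcongr
          linarith
  calc HsNormSq β u ≤ ∑' k : Fin 3 → ℤ, ENNReal.ofReal
        (c * (2 * ‖fc u k‖ ^ 2 + rho ^ 2 / 4 * ∑ j, ‖fc (u' j) k‖ ^ 2)) :=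
        ENNReal.tsum_le_tsum fun k => ENNReal.ofReal_le_ofReal (key k)
    _ = ENNReal.ofReal _ := by
        rw [← ENNReal.ofReal_tsum_of_nonneg (fun k => by positivity) S.summable, S.tsum_eq]
    _ ≤ _ := by
        refine ENNReal.ofReal_le_ofReal ?_
        have h2 : ∑ j, ∫ x, u' j x ^ 2 ∂mu ≤ 3 * (A ^ 2 / rho ^ 2) := by
          rw [Fin.sum_univ_three]
          linarith [b1 0, b1 1, b1 2]
        calc _ ≤ c * (2 * A ^ 2 + rho ^ 2 / 4 * (3 * (A ^ 2 / rho ^ 2))) := by gcongr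
          _ = c * (11 / 4 * A ^ 2) := by field_simp; ring
          _ ≤ c * (4 * A ^ 2) := by gcongr; norm_num
          _ = _ := by rw [hc0]; ring

end HS1

theorem st_HS1 (hPR : St_PR) : St_HS1 := by
  intro β f A rho i β0 β1 hf hp hr hr1 _ h0 h1
  fin_cases i
  · exact EU2.HS1.main hPR β0 β1 hf hp hr hr1 h0 h1 Complex.reCLM Complex.abs_re_le_norm
  · exact EU2.HS1.main hPR β0 β1 hf hp hr hr1 h0 h1 Complex.imCLM Complex.abs_im_le_norm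
  · exact EU2.HS1.main hPR β0 β1 hf hp hr hr1 h0 h1 0 (by simp)

end Pool.Agent.Lib.EU2
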