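import Pool.Agent.Lib.EU2.Basic
import Pool.Agent.Lib.EUL.B_MOL

/-! Block MOL, exponent as a parameter: mollification of a periodic stress. -/

namespace Pool.Agent.Lib.EU2

open MeasureTheory Set Filter Topology Pool.Agent.Lib.EUL
open scoped ContDiff Classical

noncomputable section

variable [Al]

namespace MOL

open Pool.Agent.Lib.EUL.MOL (intg int_etas mink shift IQ_add_le etas_neg)

theorem bes {f : ℂ → ℂ} {l S B : ℝ} (hl : 0 < l) (hf : Continuous f) (hp : Peri f)
    (hm : Continuous (mol l f)) (h : Bes f S B) :
    Bes (fun x => f x - mol l f x) (B * l ^ al / 2) (2 * B) := by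
  have hB : 0 ≤ B := by
    have := h.2 1
    rw [norm_one, Real.one_rpow, mul_one] at this
    exact (integral_nonneg fun _ => norm_nonneg _).trans this
  have i1 : ∀ x : ℂ, Integrable fun y => etas l y * f (x - y) := fun x => intg hl (by fun_prop)
  have i2 : ∀ x : ℂ, Integrable fun y => etas l y * f (x + y) := fun x => intg hl (by fun_prop)
  constructor
  · have e : ∀ x, f x - mol l f x =
        ∫ y, etas l y * (-(1 / 2) * (f (x + y) + f (x - y) - 2 * f x)) := fun x => by
      have a1 : ∫ y, etas l y * f (x + y) = mol l f x := by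
        rw [mol, ← integral_neg_eq_self]
        simp only [etas_neg, sub_eq_add_neg]
      have a2 : ∫ y, etas l y * f x = f x := by rw [integral_mul_const, int_etas hl, one_mul]
      have i3 : Integrable fun y => etas l y * f x := intg hl continuous_const
      have a3 : (fun y => etas l y * (-(1 / 2) * (f (x + y) + f (x - y) - 2 * f x))) =
          fun y => etas l y * f x - (1 / 2) * (etas l y * f (x + y) + etas l y * f (x - y)) := by
        funext y; ring
      have i4 : Integrable fun y => etas l y * f (x + y) + etas l y * f (x - y) := (i2 x).add (i1 x)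
      rw [a3, integral_sub i3 (i4.const_mul _), integral_const_mul,
        integral_add (i2 x) (i1 x), a1, a2]
      show _ = f x - 1 / 2 * (mol l f x + mol l f x)
      ring
    simp only [e]
    refine mink hl (by fun_prop) fun y hy => ?_
    have e2 : ∀ x, ‖-(1 / 2) * (f (x + y) + f (x - y) - 2 * f x)‖ =
        1 / 2 * ‖f (x + y) + f (x - y) - 2 * f x‖ := fun x => by
      rw [norm_mul]; simp
    simp only [e2]
    unfold IQ
    rw [integral_const_mul]
    have b1 : ‖y‖ ^ al ≤ l ^ al := Real.rpow_le_rpow (norm_nonneg _) hy (zero_le_one.trans one_le_al)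
    have b2 := h.2 y
    have b3 := mul_le_mul_of_nonneg_left b1 hB
    unfold IQ at b2
    linarith
  · intro y
    have e : ∀ x, mol l f (x + y) + mol l f (x - y) - 2 * mol l f x =
        ∫ w, etas l w * (f (x - w + y) + f (x - w - y) - 2 * f (x - w)) := fun x => by
      have a3 : (fun w => etas l w * (f (x - w + y) + f (x - w - y) - 2 * f (x - w))) =
          fun w => etas l w * f (x + y - w) + etas l w * f (x - y - w) -
            2 * (etas l w * f (x - w)) := by
        funext w
        rw [show x - w + y = x + y - w by ring, show x - w - y = x - y - w by ring]; ring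
      have i4 : Integrable fun w => etas l w * f (x + y - w) + etas l w * f (x - y - w) :=
        (i1 _).add (i1 _)
      rw [a3, integral_sub i4 ((i1 x).const_mul _), integral_const_mul,
        integral_add (i1 _) (i1 _)]
      rfl
    have b1 : IQ (fun x => ‖mol l f (x + y) + mol l f (x - y) - 2 * mol l f x‖) ≤ B * ‖y‖ ^ al := by
      simp only [e]
      refine mink hl (by fun_prop) fun w _ => le_trans (le_of_eq ?_) (h.2 y)
      refine shift (g := fun x => ‖f (x + y) + f (x - y) - 2 * f x‖) (fun n z => ?_) w
      show ‖f (z + lat n + y) + f (z + lat n - y) - 2 * f (z + lat n)‖ = _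
      rw [add_right_comm z, add_sub_right_comm z, hp, hp, hp]
    have b2 := IQ_add_le
      (f := fun x => ‖f (x + y) - mol l f (x + y) + (f (x - y) - mol l f (x - y)) -
        2 * (f x - mol l f x)‖)
      (g := fun x => ‖f (x + y) + f (x - y) - 2 * f x‖)
      (h := fun x => ‖mol l f (x + y) + mol l f (x - y) - 2 * mol l f x‖)
      (fun _ => norm_nonneg _) (by fun_prop) (by fun_prop) fun x => by
        refine le_trans (le_of_eq ?_) (norm_sub_le _ _)
        congr 1; ring
    have b3 := h.2 y
    linarith

end MOL

theorem st_MOL : St_MOL := by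
  intro q l hq hl
  have h1 := EUL.MOL.sm hq.1 hl
  refine ⟨⟨h1, fun t n z => ?_⟩, fun t S B h => ?_⟩
  · show ∫ y, etas l y * q t (z + lat n - y) = ∫ y, etas l y * q t (z - y)
    simp only [add_sub_right_comm, hq.2 t n]
  · exact EU2.MOL.bes hl (hq.1.continuous.comp (f := fun x : ℂ => (t, x)) (by fun_prop)) (hq.2 t)
      (h1.continuous.comp (f := fun x : ℂ => (t, x)) (by fun_prop)) h

end

end Pool.Agent.Lib.EU2
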