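import Pool.Agent.Lib.EU2.Basic
import Pool.Agent.Lib.EUL.B_NEWD

set_option autoImplicit false

namespace Pool.Agent.Lib.EU2

open MeasureTheory Set Filter Topology Pool.Agent.Lib.EUL
open scoped ContDiff Classical

namespace NEWD

/-- the new dipoles as obstacles -/
noncomputable def nob2 {β : Type} (B : BD β) (P : Par) (i : β) : Ob :=
  ⟨B.s i, B.e i, actf (B.tb i) (B.Tb i), P.G ^ 2 * B.u P i, P.rho, B.x i, B.w i⟩

end NEWD

variable [Al]

open Pool.Agent.Lib.EUL.NEWD Pool.Agent.Lib.EU2.NEWD in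
theorem st_NEWD (hN : St_NMAJ) (hM : St_MJ) : St_NEWD := by
  obtain ⟨C, hC, hN⟩ := hN
  obtain ⟨m1, m2, m3, m4, m5⟩ := hM
  refine ⟨max C 4, hC.trans (le_max_left _ _), ?_⟩
  intro P v q V ι _ o a b β _ B hP hD hB
  have hlg := one_le_lg P.rho
  have hG : 4 ≤ P.G := by
    have := hP.big
    have h4 := le_max_right C 4
    nlinarith
  have hP' : P.OK C := { hP with
    big := (mul_le_mul_of_nonneg_right (le_max_left C 4) (by linarith)).trans hP.big }
  obtain ⟨nb, nw, nm⟩ := hN P v q ι o a b β B hP' hB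
  have hr := hP.rpos
  have hS := hP.Spos
  have hn := hP.n1
  have hDp : 0 < P.D := hr.trans_le hP.rD
  have hDd : P.D ≤ P.d := by linarith [hP.Dd2, hP.d2d]
  have hd : 0 < P.d := hDp.trans_le hDd
  have hdl : P.d ≤ P.l := by nlinarith [hP.dh, hP.hl]
  have hl : 0 < P.l := hd.trans_le hdl
  have hl4 : P.l ≤ 1 / 4 := by linarith [hP.lsmall]
  have hrd : P.rho ≤ P.d := hP.rD.trans hDd
  have hrl : P.rho ≤ P.l := hrd.trans hdl
  have hG1 : 1 ≤ P.G := by linarith
  have hT0 : 0 ≤ P.T0 := div_nonneg hP.thpos.le (Real.sqrt_nonneg _)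
  have hq : 0 < P.S / P.rho ^ 2 := by positivity
  set X := P.G ^ 12 * P.bt ^ 2 * P.l ^ 2 * P.S / P.rho ^ 2 with hX
  have hXS : X ≤ P.S := by
    rw [hX, div_le_iff₀ (by positivity)]
    nlinarith [hP.corr]
  have hXd : X / P.d ^ 2 ≤ P.S / P.rho ^ 2 :=
    div_le_div₀ hS.le hXS (by positivity) (pow_le_pow_left₀ hr.le hrd 2)
  have hXl : X / P.l ^ 2 ≤ P.S / P.rho ^ 2 :=
    div_le_div₀ hS.le hXS (by positivity) (pow_le_pow_left₀ hr.le hrl 2)
  have hXY : X / P.d ^ 2 ≤ P.Y := by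
    refine div_le_div₀ hS.le hXS (by positivity) (pow_le_pow_left₀ (by positivity) ?_ 2)
    have h1 : 0 ≤ P.n * P.rho := by positivity
    nlinarith [hP.rd]
  have hWb : SP B.Wb := sp_sum hB.wbsp
  have hW : SP B.W := sp_sum hB.wsp
  have hu : ∀ i, 0 ≤ B.u P i := fun i => by
    have := hB.Tpos i
    have := hP.thpos
    unfold BD.u Par.Lam
    positivity
  have hact : ∀ i t, actf (B.tb i) (B.Tb i) t ≠ 0 → B.act i t := fun i t h =>
    actf_ne (hB.Tpos i) h
  have hlife : ∀ i, a - 2 * P.T0 ≤ B.tb i - B.Tb i ∧ B.tb i + B.Tb i ≤ b + 2 * P.T0 := fun i => by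
    have := hB.tmem i
    have := hB.Tle i
    constructor <;> linarith [(hB.tmem i).1, (hB.tmem i).2]
  have hsumU : ∀ t, ∑ i, (actf (B.tb i) (B.Tb i) t * B.u P i) ^ 2 ≤
      P.G ^ 5 * P.S / P.rho ^ 2 := fun t =>
    (sum_act (fun i => actf_nonneg _ _ _) (fun i => actf_le _ _ _) fun i => hact i t).trans
      (hB.sumU t)
  have hmo : ∀ t, Mult (fun i => (o i).a t ≠ 0) (fun i => (o i).x t) P.l P.G := fun t =>
    mult_mono (hD.mult t) (fun _ h => h) (by linarith)
  have hmn : ∀ t, Mult (fun i => actf (B.tb i) (B.Tb i) t ≠ 0) (fun i => B.x i t) P.l P.G :=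
    fun t => mult_mono (nm t) (fun i => hact i t) le_rfl
  have pG : ∀ j k : ℕ, j ≤ k → P.G ^ j ≤ P.G ^ k := fun j k h => pow_le_pow_right₀ hG1 h
  refine ⟨⟨ι ⊕ β, inferInstance, Sum.elim o (nob2 B P), fun t y => V t y + B.Wb t y,
    sp_add hD.Vsp hWb, ?_, ?_, ?_, ?_, ?_, ?_, ?_, ?_, ?_, ?_⟩, ?_⟩
  · intro t ht x
    have h1 : V t x = 0 := hD.Vts t (fun h => ht ⟨by linarith [h.1], by linarith [h.2]⟩) x
    have h2 : B.Wb t x = 0 := Finset.sum_eq_zero fun i _ => hB.wbts i t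
      (fun h => ht ⟨(hlife i).1.trans h.1, h.2.trans (hlife i).2⟩) x
    show V t x + B.Wb t x = 0
    rw [h1, h2, add_zero]
  · intro t x
    rw [Fintype.sum_sum_type, hD.eq t x]
    simp only [Sum.elim_inl, Sum.elim_inr, nob2, BD.W]
    ring
  · refine m1 _ P.l P.D _ _ _ _ (m2 V B.Wb P.l P.D _ _ hD.Vsp.1 hWb.1 hl.le hDp.le hD.maj
      (m3 _ _ _ _ _ nb hd hDp.le hDd)) (by linarith) hDp.le le_rfl (by linarith)
  · rintro (i | i)
    · exact hD.good i
    · refine ⟨(hB.life i).2.1, actf_cont _ _, actf_nonneg _ _, actf_le _ _, fun t ht => ?_,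
        mul_nonneg (by positivity) (hu i), hr, hB.xsm i, hB.wsp i, hB.wts i, hB.env i⟩
      refine actf_one (hB.Tpos i) (abs_le.2 ⟨?_, ?_⟩)
      · linarith [(hB.life i).1, show B.s i ≤ t from ht.1]
      · linarith [(hB.life i).2.2, show t ≤ B.e i from ht.2]
  · rintro (i | i)
    · exact ⟨(show a - 2 * P.T0 ≤ a by linarith).trans (hD.life i).1,
        (hD.life i).2.trans (show b ≤ b + 2 * P.T0 by linarith)⟩
    · exact ⟨(hlife i).1.trans (hB.life i).1, (hB.life i).2.2.trans (hlife i).2⟩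
  · rintro (i | i)
    · exact hD.size i
    · exact ⟨le_rfl, hP.rD⟩
  · rintro (i | i)
    · exact hD.long i
    · show P.D ≤ P.G ^ 2 * B.u P i * (B.e i - B.s i)
      have h1 := hB.long i
      have h2 : 1 ≤ P.G ^ 2 := one_le_pow₀ hG1
      rw [mul_assoc]
      nlinarith
  · intro t
    rw [show 60 * (P.l / 60) = P.l by ring, two_mul]
    exact mult_sum (hmo t) (hmn t)
  · intro t
    rw [Fintype.sum_sum_type, two_mul]
    refine add_le_add (hD.xi t) ?_
    simp only [Sum.elim_inr, nob2]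
    rw [← Finset.sum_mul]
    have h1 : ∑ i, (actf (B.tb i) (B.Tb i) t * (P.G ^ 2 * B.u P i)) ^ 2 =
        P.G ^ 4 * ∑ i, (actf (B.tb i) (B.Tb i) t * B.u P i) ^ 2 := by
      rw [Finset.mul_sum]
      exact Finset.sum_congr rfl fun i _ => by ring
    have h2 : P.rho ^ (2 - al) = P.rho ^ 2 / P.rho ^ al := by
      rw [Real.rpow_sub hr, Real.rpow_two]
    have h3 : 0 < P.rho ^ al := Real.rpow_pos_of_pos hr _
    rw [h1, h2]
    refine (mul_le_mul_of_nonneg_right (mul_le_mul_of_nonneg_left (hsumU t) (by positivity))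
      (by positivity)).trans ?_
    have h4 : P.G ^ 4 * (P.G ^ 5 * P.S / P.rho ^ 2) * (P.rho ^ 2 / P.rho ^ al) =
        P.G ^ 9 * P.S / P.rho ^ al := by field_simp
    rw [h4, Par.Xi]
    exact div_le_div_of_nonneg_right (mul_le_mul_of_nonneg_right (pG 9 10 (by norm_num)) hS.le)
      h3.le
  · intro t
    obtain ⟨g1, -, hg1⟩ := nb
    obtain ⟨g2, -, hg2⟩ := hB.far
    have e1 := m4 _ _ _ _ _ _ ι (fun i => (o i).a t) (fun i => (o i).x t) (hg1 t) hl hl4
      (fun i => (hD.good i).a0 t) (fun i => (hD.good i).a1 t) (hmo t)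
    have e2 := m4 _ _ _ _ _ _ β (fun i => actf (B.tb i) (B.Tb i) t) (fun i => B.x i t) (hg1 t) hl
      hl4 (fun i => actf_nonneg _ _ _) (fun i => actf_le _ _ _) (hmn t)
    have e3 := m4 _ _ _ _ _ _ β (fun i => actf (B.tb i) (B.Tb i) t) (fun i => B.x i t) (hg2 t) hl
      hl4 (fun i => actf_nonneg _ _ _) (fun i => actf_le _ _ _) (hmn t)
    have e4 : P.G * X / P.l ^ 2 ≤ P.G * (P.S / P.rho ^ 2) := by
      rw [mul_div_assoc]
      exact mul_le_mul_of_nonneg_left hXl (by linarith)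
    have e5 : P.G * (P.G ^ 16 * P.l ^ 2 * P.D ^ (al - 2) * P.S / P.rho ^ al) / P.l ^ 2 ≤
        P.G ^ 17 * (P.S / P.rho ^ 2) := by
      have h1 : P.D ^ (al - 2) ≤ P.rho ^ (al - 2) :=
        Real.rpow_le_rpow_of_nonpos hr hP.rD (by linarith [al_le_two])
      have h3 : 0 < P.rho ^ al := Real.rpow_pos_of_pos hr _
      rw [Real.rpow_sub hr, Real.rpow_two] at h1
      have h4 : P.G * (P.G ^ 16 * P.l ^ 2 * P.D ^ (al - 2) * P.S / P.rho ^ al) / P.l ^ 2 =
          P.G ^ 17 * P.S / P.rho ^ al * P.D ^ (al - 2) := by field_simp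
      have h5 : P.G ^ 17 * (P.S / P.rho ^ 2) =
          P.G ^ 17 * P.S / P.rho ^ al * (P.rho ^ al / P.rho ^ 2) := by field_simp
      rw [h4, h5]
      exact mul_le_mul_of_nonneg_left h1 (by positivity)
    have hal2 : 0 ≤ 2 - al := by linarith [al_le_two]
    have hra : 0 < P.rho ^ al := Real.rpow_pos_of_pos hr _
    have hqa : 0 < P.S / P.rho ^ al := by positivity
    have hw : ∀ i, 0 ≤ (o i).rho ^ (2 - al) := fun i =>
      Real.rpow_nonneg (hr.le.trans (hD.size i).1) _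
    have hwD : ∀ i, (o i).rho ^ (2 - al) ≤ P.D ^ (2 - al) := fun i =>
      Real.rpow_le_rpow (hr.le.trans (hD.size i).1) (hD.size i).2 hal2
    have f1 : ∑ i, ((o i).a t * ‖deriv (o i).x t - (V t ((o i).x t) + B.Wb t ((o i).x t))‖) ^ 2 *
        (o i).rho ^ (2 - al) ≤
        2 * ∑ i, ((o i).a t * ‖deriv (o i).x t - V t ((o i).x t)‖) ^ 2 * (o i).rho ^ (2 - al) +
          2 * ((∑ i, ((o i).a t * ‖B.Wb t ((o i).x t)‖) ^ 2) * P.D ^ (2 - al)) := by
      rw [Finset.sum_mul, Finset.mul_sum, Finset.mul_sum, ← Finset.sum_add_distrib]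
      refine Finset.sum_le_sum fun i _ => ?_
      have h1 := sq_two (x := ‖deriv (o i).x t - (V t ((o i).x t) + B.Wb t ((o i).x t))‖)
        (y := ‖deriv (o i).x t - V t ((o i).x t)‖) (z := ‖B.Wb t ((o i).x t)‖)
        ((hD.good i).a0 t) (norm_nonneg _) (by rw [← sub_sub]; exact norm_sub_le _ _)
      have h2 := mul_le_mul_of_nonneg_right h1 (hw i)
      have h3 := mul_le_mul_of_nonneg_left (hwD i)
        (sq_nonneg ((o i).a t * ‖B.Wb t ((o i).x t)‖))
      linarith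
    have e6 : (∑ i, ((o i).a t * ‖B.Wb t ((o i).x t)‖) ^ 2) * P.D ^ (2 - al) ≤
        P.G * (P.S / P.rho ^ al) := by
      have hDl : P.D ≤ P.l := hDd.trans hdl
      have hDa : 0 < P.D ^ al := Real.rpow_pos_of_pos hDp _
      have h1 : P.D ^ (2 - al) = P.D ^ 2 / P.D ^ al := by
        rw [Real.rpow_sub hDp, Real.rpow_two]
      have h2 : P.rho ^ al ≤ P.D ^ al :=
        Real.rpow_le_rpow hr.le hP.rD (by linarith [one_le_al])
      have h3 : X / P.l ^ 2 ≤ P.S / P.D ^ 2 :=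
        div_le_div₀ hS.le hXS (by positivity) (pow_le_pow_left₀ hDp.le hDl 2)
      have h4 : P.G * X / P.l ^ 2 ≤ P.G * (P.S / P.D ^ 2) := by
        rw [mul_div_assoc]
        exact mul_le_mul_of_nonneg_left h3 (by linarith)
      refine (mul_le_mul_of_nonneg_right (e1.trans h4) (by rw [h1]; positivity)).trans ?_
      have h5 : P.G * (P.S / P.D ^ 2) * P.D ^ (2 - al) = P.G * (P.S / P.D ^ al) := by
        rw [h1]; field_simp
      rw [h5]
      exact mul_le_mul_of_nonneg_left (div_le_div_of_nonneg_left hS.le hra h2) (by linarith)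
    have f2 : ∑ i, (actf (B.tb i) (B.Tb i) t *
        ‖deriv (B.x i) t - (V t (B.x i t) + B.Wb t (B.x i t))‖) ^ 2 ≤
        3 * ∑ i, (actf (B.tb i) (B.Tb i) t * B.u P i) ^ 2 +
          3 * ∑ i, (actf (B.tb i) (B.Tb i) t * ‖Ot o P.D t (B.x i t)‖) ^ 2 +
          3 * ∑ i, (actf (B.tb i) (B.Tb i) t * ‖B.Wb t (B.x i t)‖) ^ 2 := by
      rw [Finset.mul_sum, Finset.mul_sum, Finset.mul_sum, ← Finset.sum_add_distrib,
        ← Finset.sum_add_distrib]
      refine Finset.sum_le_sum fun i _ => sq_three (actf_nonneg _ _ _) (norm_nonneg _) ?_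
      have h1 : deriv (B.x i) t - (V t (B.x i t) + B.Wb t (B.x i t)) =
          (deriv (B.x i) t - Vh v o P.D t (B.x i t)) + Ot o P.D t (B.x i t) -
            B.Wb t (B.x i t) := by
        unfold Vh Ot
        rw [hD.eq t]
        ring
      rw [h1]
      exact (norm_sub_le _ _).trans (add_le_add_left ((norm_add_le _ _).trans
        (add_le_add_left (hB.xdrift i t) _)) _)
    have f3 := hD.drift t
    have f4 := hsumU t
    rw [Par.Z, mul_div_assoc] at f3
    rw [mul_div_assoc] at f4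
    rw [Fintype.sum_sum_type, mul_div_assoc]
    simp only [Sum.elim_inl, Sum.elim_inr, nob2]
    have q2 := mul_le_mul_of_nonneg_right (pG 5 17 (by norm_num)) hq.le
    have q3 := mul_le_mul_of_nonneg_right (pG 1 17 (by norm_num)) hq.le
    rw [pow_one] at q3
    have f5 : ∑ i, (actf (B.tb i) (B.Tb i) t *
        ‖deriv (B.x i) t - (V t (B.x i t) + B.Wb t (B.x i t))‖) ^ 2 ≤
        9 * (P.G ^ 17 * (P.S / P.rho ^ 2)) := by linarith
    have h2 : P.rho ^ (2 - al) = P.rho ^ 2 / P.rho ^ al := by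
      rw [Real.rpow_sub hr, Real.rpow_two]
    have f6 : ∑ i, (actf (B.tb i) (B.Tb i) t *
        ‖deriv (B.x i) t - (V t (B.x i t) + B.Wb t (B.x i t))‖) ^ 2 * P.rho ^ (2 - al) ≤
        9 * (P.G ^ 17 * (P.S / P.rho ^ al)) := by
      rw [← Finset.sum_mul]
      refine (mul_le_mul_of_nonneg_right f5 (Real.rpow_nonneg hr.le _)).trans (le_of_eq ?_)
      rw [h2]; field_simp
    have p1 := mul_le_mul_of_nonneg_right (pG 10 17 (by norm_num)) hqa.le
    have p3 := mul_le_mul_of_nonneg_right (pG 1 17 (by norm_num)) hqa.le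
    have p4 : 13 * P.G ^ 17 ≤ P.G ^ 19 := by
      have : 0 < P.G ^ 17 := by positivity
      rw [show P.G ^ 19 = P.G ^ 2 * P.G ^ 17 by ring]
      exact mul_le_mul_of_nonneg_right (by nlinarith) this.le
    have p5 := mul_le_mul_of_nonneg_right p4 hqa.le
    rw [pow_one] at p3
    linarith
  · intro t
    obtain ⟨g1, -, hg1⟩ := nb
    obtain ⟨g2, -, hg2⟩ := nw
    have s1 := sm_slice hW.1 t
    have s2 := sm_slice hWb.1 t
    obtain ⟨a1, a2, a3⟩ := m5 _ _ _ _ _ s1 (hg2 t) hr (hrl.trans hl4) hr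
    obtain ⟨b1, b2, b3⟩ := m5 _ _ _ _ _ s2 (hg1 t) hl hl4 hd
    have hA : (P.G ^ 7 * √P.S) ^ 2 = P.G ^ 14 * P.S := by
      rw [mul_pow, Real.sq_sqrt hS.le]; ring
    have p1 : 2 * P.G ^ 13 + 2 ≤ P.G ^ 14 := by
      have h1 : 1 ≤ P.G ^ 13 := one_le_pow₀ hG1
      rw [show P.G ^ 14 = P.G * P.G ^ 13 by ring]
      nlinarith
    have p2 := mul_le_mul_of_nonneg_right p1 hS.le
    have p3 := mul_le_mul_of_nonneg_right p1 hq.le
    rw [mul_div_assoc] at a2
    refine ⟨?_, ?_, fun x => ?_⟩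
    · have := IQ_two (s1.continuous.add s2.continuous).norm s1.continuous.norm s2.continuous.norm
        (fun x => norm_nonneg _) fun x => norm_add_le _ _
      rw [hA]
      refine le_trans this ?_
      linarith
    · have := IQ_two (cont_nD (s1.add s2) 1) (cont_nD s1 1) (cont_nD s2 1)
        (fun x => norm_nonneg _) fun x => nD_add s1 s2 1 x
      rw [hA, mul_div_assoc]
      refine le_trans this ?_
      linarith
    · refine le_of_sq_le_sq ?_ (by positivity)
      have h1 := a3 x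
      have h2 := b3 x
      have h3 := sq_two zero_le_one (norm_nonneg _) (norm_add_le (B.W t x) (B.Wb t x))
      rw [mul_div_assoc] at h1
      rw [div_pow, hA, mul_div_assoc]
      simp only [one_mul] at h3
      linarith

end Pool.Agent.Lib.EU2
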