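import Pool.Agent.Lib.EU2.Basic
import Pool.Agent.Lib.EUL.B_NMAJ

set_option autoImplicit false

namespace Pool.Agent.Lib.EU2

open MeasureTheory Set Filter Topology Pool.Agent.Lib.EUL
open scoped ContDiff Classical

noncomputable section

open EUL.NMAJ in
lemma NMAJ.sum_le2 {β : Type} [Fintype β] (B : BD β) (u : β → ℝ) (hT : ∀ i, 0 < B.Tb i) (k t : ℝ) :
    ∑ i, (actf (B.tb i) (B.Tb i) t * (k * u i)) ^ 2 ≤
      k ^ 2 * ∑ i ∈ Finset.univ.filter (fun i => B.act i t), u i ^ 2 := by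
  rw [Finset.sum_filter, Finset.mul_sum]
  refine Finset.sum_le_sum fun i _ => ?_
  split_ifs with h
  · rw [mul_pow, mul_pow]
    exact mul_le_of_le_one_left (by positivity)
      (pow_le_one₀ (actf_nonneg _ _ _) (actf_le _ _ _))
  · rw [actf_zero (hT i) h]; simp

variable [Al]

open EUL.NMAJ in
theorem st_NMAJ (hM : St_MAJ) : St_NMAJ := by
  obtain ⟨C, hC, -, hM⟩ := hM
  refine ⟨C, hC, fun P v q ι _ o a b β _ B hP hB => ?_⟩
  have hr := hP.rpos
  have hl1 := lg_one P.rho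
  have hCG : C ≤ P.G := le_trans (by nlinarith) hP.big
  have hlG : lg P.rho ≤ P.G := le_trans (by nlinarith) hP.big
  have hG : 1 ≤ P.G := hC.trans hCG
  have hD : 0 < P.D := hr.trans_le hP.rD
  have hrd : P.rho ≤ P.d := by linarith [hP.rD, hP.Dd2, hP.d2d]
  have hd : 0 < P.d := hr.trans_le hrd
  have hdl : P.d ≤ P.l := by nlinarith [hP.dh, hP.hl]
  have hrl : P.rho ≤ P.l := hrd.trans hdl
  have hl : 0 < P.l := hr.trans_le hrl
  have hl4 : P.l ≤ 1 / 4 := by linarith [hP.lsmall]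
  have hlG' : lg P.l ≤ P.G := (lg_anti hr hrl (by linarith)).trans hlG
  have hS := hP.Spos
  have hn : 0 < P.n := by linarith [hP.n1]
  have hth := hP.thpos
  have hLam : 0 ≤ P.Lam := by unfold Par.Lam; positivity
  have hbt : 0 ≤ P.bt := by unfold Par.bt; positivity
  have hu : ∀ i, 0 ≤ B.u P i := fun i => div_nonneg hLam (hB.Tpos i).le
  have hact : ∀ i t k, actf (B.tb i) (B.Tb i) t * k ≠ 0 → B.act i t := fun i t k h => by
    by_contra h2
    exact h (by rw [actf_zero (hB.Tpos i) h2, zero_mul])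
  have hmx : ∀ t, Mult (fun i => B.act i t) (fun i => B.x i t) P.l P.G := fun t =>
    mult_mono (hB.mult t) fun i y h1 h2 => ⟨h1, by
      have h3 : pn (B.z i t - y) ≤ pn (B.x i t - y) + dist (B.z i t - y) (B.x i t - y) :=
        Metric.infDist_le_infDist_add_dist
      rw [dist_eq_norm, sub_sub_sub_cancel_right, norm_sub_rev] at h3
      linarith [hB.near i t h1]⟩
  have key : ∀ L : ℝ, 1 ≤ L → L ≤ P.G → C * L ^ 2 ≤ P.G ^ 3 := fun L h1 h2 => by
    have : L ^ 2 ≤ P.G ^ 2 := pow_le_pow_left₀ (by linarith) h2 2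
    calc C * L ^ 2 ≤ P.G * P.G ^ 2 := mul_le_mul hCG this (by positivity) (by linarith)
      _ = _ := by ring
  refine ⟨maj0_mono (hM β (fun i t => actf (B.tb i) (B.Tb i) t * (P.G * P.bt * B.u P i)) B.z B.wb
      P.l P.d P.G ((P.G * P.bt) ^ 2 * (P.G ^ 5 * P.S / P.rho ^ 2)) hl hl4 hd.le
      (fun i => (actf_cont _ _).mul continuous_const) (fun i => (hB.zsm i).continuous)
      (fun i t => mul_nonneg (actf_nonneg _ _ _) (by have := hu i; positivity))
      (fun i => (hB.wbsp i).1)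
      (fun t => mult_mono (hB.mult t) fun i y h1 h2 => ⟨hact i t _ h1, by linarith⟩)
      (fun t => (NMAJ.sum_le2 B _ hB.Tpos _ t).trans
        (mul_le_mul_of_nonneg_left (hB.sumU t) (sq_nonneg _))) fun i t => ?_) ?_,
    maj0_mono (hM β (fun i t => actf (B.tb i) (B.Tb i) t * (P.G ^ 2 * B.u P i)) B.x B.w
      P.rho P.rho P.G ((P.G ^ 2) ^ 2 * (P.G ^ 5 * P.S / P.rho ^ 2)) hr (hrl.trans hl4) hr.le
      (fun i => (actf_cont _ _).mul continuous_const) (fun i => (hB.xsm i).continuous)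
      (fun i t => mul_nonneg (actf_nonneg _ _ _) (by have := hu i; positivity))
      (fun i => (hB.wsp i).1)
      (fun t => mult_mono (hmx t) fun i y h1 h2 => ⟨hact i t _ h1, h2.trans hrl⟩)
      (fun t => (NMAJ.sum_le2 B _ hB.Tpos _ t).trans
        (mul_le_mul_of_nonneg_left (hB.sumU t) (sq_nonneg _))) fun i t => ?_) ?_, hmx⟩
  · have hc : 0 ≤ P.G * P.bt * B.u P i := by have := hu i; positivity
    by_cases ht : t ∈ Icc (B.tb i - B.Tb i) (B.tb i + B.Tb i)
    · simp only [actf_one (hB.Tpos i) ht, one_mul]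
      exact dom32 (hB.dom i t) hc hl
    · exact dom_zero (hB.wbts i t ht) _ _ (mul_nonneg (actf_nonneg _ _ _) hc) hl
  · have h1 := key _ (lg_one P.l) hlG'
    have h2 : P.G ^ 11 ≤ P.G ^ 12 := pow_le_pow_right₀ hG (by norm_num)
    calc _ = C * lg P.l ^ 2 * (P.G ^ 8 * (P.bt ^ 2 * P.l ^ 2 * P.S / P.rho ^ 2)) := by ring
      _ ≤ P.G ^ 3 * (P.G ^ 8 * (P.bt ^ 2 * P.l ^ 2 * P.S / P.rho ^ 2)) :=
        mul_le_mul_of_nonneg_right h1 (by positivity)
      _ = P.G ^ 11 * (P.bt ^ 2 * P.l ^ 2 * P.S / P.rho ^ 2) := by ring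
      _ ≤ P.G ^ 12 * (P.bt ^ 2 * P.l ^ 2 * P.S / P.rho ^ 2) :=
        mul_le_mul_of_nonneg_right h2 (by positivity)
      _ = _ := by ring
  · have hc : 0 ≤ P.G ^ 2 * B.u P i := by have := hu i; positivity
    by_cases ht : t ∈ Icc (B.s i) (B.e i)
    · have hl := hB.life i
      simp only [actf_one (hB.Tpos i) ⟨hl.1.trans ht.1, ht.2.trans hl.2.2⟩, one_mul]
      exact env_dom (hB.env i t) hc hr
    · exact dom_zero (hB.wts i t ht) _ _ (mul_nonneg (actf_nonneg _ _ _) hc) hr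
  · have h1 := key _ hl1 hlG
    calc _ = C * lg P.rho ^ 2 * (P.G ^ 10 * P.S) := by field_simp
      _ ≤ P.G ^ 3 * (P.G ^ 10 * P.S) := mul_le_mul_of_nonneg_right h1 (by positivity)
      _ = _ := by ring

end

end Pool.Agent.Lib.EU2
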