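import Pool.Agent.Lib.EU2.Basic
import Pool.Agent.Lib.EUL.B_NUM

set_option autoImplicit false

namespace Pool.Agent.Lib.EU2

open MeasureTheory Set Filter Topology Pool.Agent.Lib.EUL
open scoped ContDiff Classical
open Pool.Agent.Lib.EUL.NUM (E E_pos E_mul E_div E_pow E_rpow E_sqrt E_sc E_zero E_le E_le_one
  one_le_E lg_E geo_sum)

variable [Al]

namespace NUM

noncomputable section

/-- the small parameters -/
structure Pm (β : ℝ) where
  e : ℝ
  u : ℝ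
  σ : ℝ
  s : ℝ
  g : ℝ
  γ : ℝ
  e0 : 0 < e
  e1 : e ≤ 1 / 10
  hu : al * e = 4 / 3 * e - u
  u0 : 0 < u
  u1 : u ≤ 2 / 9 * e
  σ1 : 1 ≤ σ
  s0 : 0 < s
  su : 2000 * s ≤ u
  sσ : 4 * s ≤ al - σ
  g0 : 0 < g
  gs : 100 * g ≤ s * (al - σ)
  gm : 7 * g + β * (1 + e) < σ / 2
  γ0 : 0 < γ
  γ1 : γ ≤ s * g

theorem exists_pm {β : ℝ} (h1 : 1 / 2 ≤ β) (h2 : 2 * β < al) : Nonempty (Pm β) := by
  have a1 := al_lo
  have a2 := al_hi
  obtain ⟨σ, hσ⟩ : ∃ σ, σ = (al + 2 * β) / 2 := ⟨_, rfl⟩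
  obtain ⟨e, he⟩ : ∃ e, e = min (1 / 10) ((al - 2 * β) / 8) := ⟨_, rfl⟩
  have e0 : 0 < e := he ▸ lt_min (by norm_num) (by linarith)
  have e1 : e ≤ 1 / 10 := he ▸ min_le_left _ _
  have e2 : e ≤ (al - 2 * β) / 8 := he ▸ min_le_right _ _
  obtain ⟨u, hu⟩ : ∃ u, u = (4 / 3 - al) * e := ⟨_, rfl⟩
  have u0 : 0 < u := hu ▸ mul_pos (by linarith) e0
  obtain ⟨s, hs⟩ : ∃ s, s = min (u / 2000) ((al - σ) / 4) := ⟨_, rfl⟩
  have s0 : 0 < s := hs ▸ lt_min (by linarith) (by linarith)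
  have s1 : s ≤ u / 2000 := hs ▸ min_le_left _ _
  have s2 : s ≤ (al - σ) / 4 := hs ▸ min_le_right _ _
  have p0 : 0 < s * (al - σ) := mul_pos s0 (by linarith)
  have p1 : s * (al - σ) ≤ 1 * (al - σ) :=
    mul_le_mul_of_nonneg_right (by linarith) (by linarith)
  have p2 : β * e ≤ 2 / 3 * e := mul_le_mul_of_nonneg_right (by linarith) e0.le
  have p3 : (4 / 3 - al) * e ≤ 2 / 9 * e := mul_le_mul_of_nonneg_right (by linarith) e0.le
  exact ⟨⟨e, u, σ, s, s * (al - σ) / 100, s * (s * (al - σ) / 100), e0, e1, by linarith, u0,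
    by linarith, by linarith, s0, by linarith, by linarith, by linarith, by linarith,
    by linarith, mul_pos s0 (by linarith), le_rfl⟩⟩

variable {β : ℝ} (p : Pm β)

theorem facts : 10 / 9 ≤ al ∧ al < 4 / 3 ∧ 0 < p.e ∧ p.e ≤ 1 / 10 ∧
    al * p.e = 4 / 3 * p.e - p.u ∧ 0 < p.u ∧ p.u ≤ 2 / 9 * p.e ∧ 1 ≤ p.σ ∧ 0 < p.s ∧
    2000 * p.s ≤ p.u ∧ 4 * p.s ≤ al - p.σ ∧ 0 < p.g ∧ 300 * p.g ≤ p.s ∧ 0 < p.γ ∧
    1000 * p.γ ≤ p.g ∧ 10 / 9 * p.u ≤ al * p.u ∧ al * p.u ≤ 4 / 3 * p.u := by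
  have a1 := al_lo
  have a2 := al_hi
  have b1 : p.s * (al - p.σ) ≤ p.s * (1 / 3) :=
    mul_le_mul_of_nonneg_left (by linarith [p.σ1]) p.s0.le
  have b2 : p.s * p.g ≤ 1 / 1000 * p.g :=
    mul_le_mul_of_nonneg_right (by linarith [p.su, p.u1, p.e1]) p.g0.le
  exact ⟨a1, a2, p.e0, p.e1, p.hu, p.u0, p.u1, p.σ1, p.s0, p.su, p.sσ, p.g0,
    by linarith [p.gs], p.γ0, by linarith [p.γ1], mul_le_mul_of_nonneg_right a1 p.u0.le,
    mul_le_mul_of_nonneg_right a2.le p.u0.le⟩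

theorem facts2 : 100 * p.g ≤ p.s * (al - p.σ) ∧ p.γ ≤ p.s * p.g ∧ 0 ≤ p.s * p.e ∧
    0 ≤ p.s * p.u ∧ p.s * p.σ ≤ p.s * (4 / 3) ∧ p.s * p.σ ≤ (al - p.σ) / 3 ∧
    p.s * (p.s * p.σ) ≤ p.s * ((al - p.σ) / 3) ∧ 0 ≤ p.s * (al * p.e) ∧
    0 ≤ p.s * (al * p.u) := by
  obtain ⟨a1, a2, a3, a4, a5, a6, a7, a8, a9, a10, a11, -⟩ := facts p
  have b1 : p.s * p.σ ≤ p.s * (4 / 3) := mul_le_mul_of_nonneg_left (by linarith) a9.le
  have b2 : p.s * p.σ ≤ (al - p.σ) / 3 := by linarith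
  exact ⟨p.gs, p.γ1, by positivity, by positivity, b1, b2, mul_le_mul_of_nonneg_left b2 a9.le,
    mul_nonneg a9.le (mul_nonneg (by linarith) a3.le),
    mul_nonneg a9.le (mul_nonneg (by linarith) a6.le)⟩

theorem key {a b c t : ℝ} (ht : 0 ≤ t) (hc : c ≤ E p.γ t) (h : p.γ + a ≤ b) :
    c * E a t ≤ E b t :=
  calc c * E a t ≤ E p.γ t * E a t := mul_le_mul_of_nonneg_right hc (E_pos _ _).le
    _ = E (p.γ + a) t := E_mul _ _ _
    _ ≤ E b t := E_le ht h

/-- the parameters of a stage -/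
def PP (t : ℝ) : Par where
  l := E (-1) t
  rho := E (-1 - p.e) t
  D := E (-1 - p.u / 8) t
  d := E (-1 - p.u / 100) t
  h := E (-1 - p.u / 400) t
  d2 := E (-1 - p.u / 25) t
  th0 := E (-p.u / 4) t
  kap := E (1 - 12 * p.g - p.e / 3 + p.u / 4) t
  f := E (-p.u / 25) t
  e1 := E (-5 * p.e) t
  n := E (p.e / 3 - p.u / 4) t
  G := E p.g t
  S := E (-p.σ) t

/-- largeness of the logarithm -/
structure Big (C t : ℝ) : Prop where
  C1 : 1 ≤ C
  t1 : 10 ≤ p.s * t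
  w : 10 ^ 5 * C ^ 2 * (1 + 2000 * t) ^ 2 ≤ E p.γ t

theorem exists_big {C : ℝ} (hC : 1 ≤ C) : ∃ t0 : ℝ, ∀ t, t0 ≤ t → Big p C t := by
  refine ⟨max (max 1 (10 / p.s)) (6 * (10 ^ 5 * C ^ 2 * 2001 ^ 2) / p.γ ^ 3), fun t ht => ?_⟩
  have h0 : (1 : ℝ) ≤ t := le_trans (le_max_left _ _) (le_trans (le_max_left _ _) ht)
  have h1 : 10 / p.s ≤ t := le_trans (le_max_right _ _) (le_trans (le_max_left _ _) ht)
  have h2 : 6 * (10 ^ 5 * C ^ 2 * 2001 ^ 2) / p.γ ^ 3 ≤ t := le_trans (le_max_right _ _) ht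
  have hg := p.γ0
  have ht0 : 0 ≤ t := le_trans (by norm_num) h0
  rw [div_le_iff₀ p.s0] at h1
  refine ⟨hC, by linarith, ?_⟩
  have h3 := Real.pow_div_factorial_le_exp (p.γ * t) (by positivity) 3
  rw [div_le_iff₀ (by positivity)] at h2
  have h4 : (1 + 2000 * t) ^ 2 ≤ (2001 * t) ^ 2 :=
    pow_le_pow_left₀ (by positivity) (by linarith) 2
  have h5 : ((Nat.factorial 3 : ℕ) : ℝ) = 6 := by norm_num [Nat.factorial]
  rw [h5] at h3
  calc 10 ^ 5 * C ^ 2 * (1 + 2000 * t) ^ 2 ≤ 10 ^ 5 * C ^ 2 * (2001 * t) ^ 2 :=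
        mul_le_mul_of_nonneg_left h4 (by positivity)
    _ = (6 * (10 ^ 5 * C ^ 2 * 2001 ^ 2)) * (t ^ 2 / 6) := by ring
    _ ≤ (t * p.γ ^ 3) * (t ^ 2 / 6) := mul_le_mul_of_nonneg_right h2 (by positivity)
    _ = (p.γ * t) ^ 3 / 6 := by ring
    _ ≤ E p.γ t := h3

variable {p}

theorem Big.t0 {C t : ℝ} (h : Big p C t) : 0 ≤ t :=
  (pos_of_mul_pos_left (lt_of_lt_of_le (by norm_num) (mul_comm p.s t ▸ h.t1)) p.s0.le).le

theorem Big.cw {C t : ℝ} (h : Big p C t) {c x : ℝ} (hc : c ≤ 10 ^ 5) (hx0 : 0 ≤ x)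
    (hx : x ≤ 1 + 2000 * t) : c * C ^ 2 * x ^ 2 ≤ E p.γ t := by
  refine le_trans ?_ h.w
  have h1 : x ^ 2 ≤ (1 + 2000 * t) ^ 2 := pow_le_pow_left₀ hx0 hx 2
  have h2 : c * C ^ 2 ≤ 10 ^ 5 * C ^ 2 := mul_le_mul_of_nonneg_right hc (by positivity)
  exact mul_le_mul h2 h1 (by positivity) (by positivity)

theorem Big.cC {C t : ℝ} (h : Big p C t) {c x : ℝ} (hc0 : 0 ≤ c) (hc : c ≤ 10 ^ 5) (hx0 : 0 ≤ x)
    (hx : x ≤ 1 + 2000 * t) : c * C * x ^ 2 ≤ E p.γ t := by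
  refine le_trans ?_ (h.cw hc hx0 hx)
  have h1 : C ≤ C ^ 2 := by nlinarith [h.C1]
  exact mul_le_mul_of_nonneg_right (mul_le_mul_of_nonneg_left h1 hc0) (by positivity)

theorem Big.c {C t : ℝ} (h : Big p C t) {c : ℝ} (hc0 : 0 ≤ c) (hc : c ≤ 10 ^ 5) :
    c ≤ E p.γ t := by
  refine le_trans ?_ (h.cC hc0 hc zero_le_one (by linarith [h.t0]))
  nlinarith [h.C1]

theorem Big.k {C t : ℝ} (h : Big p C t) {a b c : ℝ} (hc0 : 0 ≤ c) (hc : c ≤ 10 ^ 5)
    (hab : p.γ + a ≤ b) : c * E a t ≤ E b t := key p h.t0 (h.c hc0 hc) hab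

variable (p)

theorem Lam_eq (t : ℝ) : (PP p t).Lam = E (p.g + p.e / 3 - p.u / 2 - 1) t := by
  simp only [Par.Lam, PP, E_mul]; congr 1; ring

theorem bt_eq (t : ℝ) : (PP p t).bt = E (p.g - 5 / 3 * p.e - 23 / 50 * p.u) t := by
  unfold Par.bt; rw [Lam_eq]; simp only [PP, E_mul, E_pow, E_div]; congr 1; push_cast; ring

theorem Y_eq (t : ℝ) : (PP p t).Y = E (2 - p.σ + 4 / 3 * p.e + p.u / 2) t := by
  simp only [Par.Y, PP, E_mul, E_pow, E_div]; congr 1; push_cast; ring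

theorem rs_eq (t : ℝ) : (PP p t).rs = E (-1 - p.u / 12 - p.e / 3) t := by
  simp only [Par.rs, rad, PP, E_mul, E_rpow]; congr 1; ring

theorem Xi_eq (t : ℝ) : (PP p t).Xi = E (10 * p.g - p.σ + al + al * p.e) t := by
  simp only [Par.Xi, PP, E_mul, E_pow, E_div, E_rpow]; congr 1; push_cast; ring

theorem Z_eq (t : ℝ) : (PP p t).Z = E (10 * p.g - p.σ + al + al * p.e) t := by
  simp only [Par.Z, PP, E_mul, E_pow, E_div, E_rpow]; congr 1; push_cast; ring

variable {p}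

theorem ok {C t : ℝ} (h : Big p C t) : (PP p t).OK C := by
  have ht := h.t0
  have hL := Lam_eq p t
  have hb := bt_eq p t
  obtain ⟨a1, a2, a3, a4, a5, a6, a7, a8, a9, a10, a11, a12, a13, a14, a15, a16, a17⟩ := facts p
  refine ⟨E_pos _ _, E_pos _ _, one_le_E ht (by linarith), ?_, ?_, ?_, ?_, ?_, ?_, ?_, ?_,
    E_pos _ _, ?_, E_pos _ _, ?_, E_pos _ _, ?_, E_pos _ _, ?_, ?_, ?_, ?_, ?_, ?_⟩
  · show C * lg (E (-1 - p.e) t) ≤ E p.g t
    rw [lg_E ht (by linarith)]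
    have x0 : 0 ≤ p.e * t := by positivity
    have x1 : p.e * t ≤ 1 * t := mul_le_mul_of_nonneg_right (by linarith) ht
    have h1 := h.cC zero_le_one (by norm_num) (x := 1 - (-1 - p.e) * t) (by linarith) (by linarith)
    have h2 : E p.γ t ≤ E p.g t := E_le ht (by linarith)
    have h3 : 1 - (-1 - p.e) * t ≤ (1 - (-1 - p.e) * t) ^ 2 :=
      le_self_pow₀ (by linarith) (by norm_num)
    have h4 := mul_le_mul_of_nonneg_left h3 (le_trans zero_le_one h.C1)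
    linarith
  · exact E_le ht (by linarith)
  · exact h.k (by norm_num) (by norm_num) (by linarith)
  · exact E_le ht (by linarith)
  · simp only [PP, E_mul]; exact E_le ht (by linarith)
  · exact E_le ht (by linarith)
  · have h1 : 10000 * E (-1) t ≤ E 0 t := h.k (by norm_num) (by norm_num) (by linarith)
    rw [E_zero] at h1
    show E (-1) t ≤ 1 / 10000
    linarith
  · simp only [PP, E_mul]; exact E_le ht (by linarith)
  · simp only [PP, E_mul, E_pow]; exact E_le ht (by push_cast; linarith)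
  · have h1 : 4 * E (-p.u / 25) t ≤ E 0 t := h.k (by norm_num) (by norm_num) (by linarith)
    rw [E_zero] at h1
    show E (-p.u / 25) t ≤ 1 / 4
    linarith
  · exact E_le_one ht (by linarith)
  · rw [hL]; simp only [PP, E_mul]; exact E_le ht (by linarith)
  · rw [hL]; simp only [PP, E_mul, E_pow]; exact E_le ht (by push_cast; linarith)
  · simp only [PP, E_mul, E_pow, E_rpow]; exact E_le_one ht (by push_cast; linarith)
  · simp only [PP, E_mul, E_pow]; exact E_le_one ht (by push_cast; linarith)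
  · rw [hL, rs_eq]
    have e : (PP p t).G ^ 3 * ((PP p t).D ^ 2 + (PP p t).D * (PP p t).l +
        E (-1 - p.u / 12 - p.e / 3) t * ((PP p t).th0 / (PP p t).kap +
          E (p.g + p.e / 3 - p.u / 2 - 1) t)) =
        (PP p t).G ^ 3 * (PP p t).D ^ 2 + (PP p t).G ^ 3 * ((PP p t).D * (PP p t).l) +
        (PP p t).G ^ 3 * (E (-1 - p.u / 12 - p.e / 3) t * ((PP p t).th0 / (PP p t).kap)) +
        (PP p t).G ^ 3 * (E (-1 - p.u / 12 - p.e / 3) t * E (p.g + p.e / 3 - p.u / 2 - 1) t) := by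
      ring
    rw [e]
    have b1 : 4 * ((PP p t).G ^ 3 * (PP p t).D ^ 2) ≤ (PP p t).d2 ^ 2 := by
      simp only [PP, E_mul, E_pow]; exact h.k (by norm_num) (by norm_num) (by push_cast; linarith)
    have b2 : 4 * ((PP p t).G ^ 3 * ((PP p t).D * (PP p t).l)) ≤ (PP p t).d2 ^ 2 := by
      simp only [PP, E_mul, E_pow]; exact h.k (by norm_num) (by norm_num) (by push_cast; linarith)
    have b3 : 4 * ((PP p t).G ^ 3 * (E (-1 - p.u / 12 - p.e / 3) t *
        ((PP p t).th0 / (PP p t).kap))) ≤ (PP p t).d2 ^ 2 := by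
      simp only [PP, E_mul, E_pow, E_div]
      exact h.k (by norm_num) (by norm_num) (by push_cast; linarith)
    have b4 : 4 * ((PP p t).G ^ 3 * (E (-1 - p.u / 12 - p.e / 3) t *
        E (p.g + p.e / 3 - p.u / 2 - 1) t)) ≤ (PP p t).d2 ^ 2 := by
      simp only [PP, E_mul, E_pow]; exact h.k (by norm_num) (by norm_num) (by push_cast; linarith)
    linarith
  · rw [hb]; simp only [PP, E_mul, E_pow]; exact E_le ht (by push_cast; linarith)

variable (p)

theorem tot_le {t : ℝ} (ht : 0 ≤ t) : (PP p t).tot ≤ 17 * E (-p.u / 700) t := by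
  obtain ⟨c1, c2, c3, c4, c5, c6, c7, c8, c9, c10, c11, c12, c13, c14, c15, c16, c17⟩ := facts p
  unfold Par.tot Gam
  rw [Lam_eq, bt_eq]
  have a1 : (PP p t).h / (PP p t).l
      ≤ E (-p.u / 700) t := by
    simp only [PP, E_div, E_mul, E_rpow, E_sqrt, E_pow]
    exact E_le ht (by push_cast; linarith)
  have a2 : (PP p t).l ^ 3 / (E (p.g + p.e / 3 - p.u / 2 - 1) t * (PP p t).d2 ^ 2) * ((PP p t).l / (PP p t).d) ^ al
      ≤ E (-p.u / 700) t := by
    simp only [PP, E_div, E_mul, E_rpow, E_sqrt, E_pow]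
    exact E_le ht (by push_cast; linarith)
  have a3 : (PP p t).d2 / (PP p t).d * ((PP p t).l / (PP p t).d) ^ al
      ≤ E (-p.u / 700) t := by
    simp only [PP, E_div, E_mul, E_rpow, E_sqrt, E_pow]
    exact E_le ht (by push_cast; linarith)
  have a4 : (PP p t).G * (PP p t).d2 / (PP p t).d * ((PP p t).l / (PP p t).d) ^ al
      ≤ E (-p.u / 700) t := by
    simp only [PP, E_div, E_mul, E_rpow, E_sqrt, E_pow]
    exact E_le ht (by push_cast; linarith)
  have a5 : (PP p t).f * ((PP p t).l / (PP p t).d) ^ al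
      ≤ E (-p.u / 700) t := by
    simp only [PP, E_div, E_mul, E_rpow, E_sqrt, E_pow]
    exact E_le ht (by push_cast; linarith)
  have a6 : (PP p t).rho / (PP p t).d * ((PP p t).l / (PP p t).d) ^ al
      ≤ E (-p.u / 700) t := by
    simp only [PP, E_div, E_mul, E_rpow, E_sqrt, E_pow]
    exact E_le ht (by push_cast; linarith)
  have a7 : (PP p t).e1 * ((PP p t).l / ((PP p t).rho * √(PP p t).e1)) ^ al
      ≤ E (-p.u / 700) t := by
    simp only [PP, E_div, E_mul, E_rpow, E_sqrt, E_pow]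
    exact E_le ht (by push_cast; linarith)
  have a8 : ((PP p t).rho / (PP p t).d) ^ 2 * ((PP p t).l / (PP p t).rho) ^ al
      ≤ E (-p.u / 700) t := by
    simp only [PP, E_div, E_mul, E_rpow, E_sqrt, E_pow]
    exact E_le ht (by push_cast; linarith)
  have a9 : (PP p t).l * ((PP p t).l / (PP p t).rho) ^ (al - 1) / ((PP p t).f * E (p.g + p.e / 3 - p.u / 2 - 1) t)
      ≤ E (-p.u / 700) t := by
    simp only [PP, E_div, E_mul, E_rpow, E_sqrt, E_pow]
    exact E_le ht (by push_cast; linarith)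
  have a10 : (PP p t).d * (PP p t).l * ((PP p t).l / (PP p t).d) ^ (al - 1) / (PP p t).h ^ 2
      ≤ E (-p.u / 700) t := by
    simp only [PP, E_div, E_mul, E_rpow, E_sqrt, E_pow]
    exact E_le ht (by push_cast; linarith)
  have a11 : ((PP p t).l / (PP p t).rho) ^ (al - 1) / (PP p t).n
      ≤ E (-p.u / 700) t := by
    simp only [PP, E_div, E_mul, E_rpow, E_sqrt, E_pow]
    exact E_le ht (by push_cast; linarith)
  have a12 : E (p.g - 5 / 3 * p.e - 23 / 50 * p.u) t * ((PP p t).l / (PP p t).rho) ^ 2 / (PP p t).n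
      * ((PP p t).l / (PP p t).d) * ((PP p t).l / (PP p t).D) ^ (al - 1)
      ≤ E (-p.u / 700) t := by
    simp only [PP, E_div, E_mul, E_rpow, E_sqrt, E_pow]
    exact E_le ht (by push_cast; linarith)
  have a13 : E (p.g - 5 / 3 * p.e - 23 / 50 * p.u) t ^ 2 * ((PP p t).l / (PP p t).rho) ^ 2
      * ((PP p t).l / (PP p t).d) ^ al
      ≤ E (-p.u / 700) t := by
    simp only [PP, E_div, E_mul, E_rpow, E_sqrt, E_pow]
    exact E_le ht (by push_cast; linarith)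
  have a14 : E (p.g - 5 / 3 * p.e - 23 / 50 * p.u) t * ((PP p t).l / (PP p t).rho) ^ al
      ≤ E (-p.u / 700) t := by
    simp only [PP, E_div, E_mul, E_rpow, E_sqrt, E_pow]
    exact E_le ht (by push_cast; linarith)
  have a15 : E (p.g - 5 / 3 * p.e - 23 / 50 * p.u) t * (PP p t).l ^ al *
      √((PP p t).D ^ (2 - al) / (PP p t).rho ^ al) / (PP p t).rho
      ≤ E (-p.u / 700) t := by
    simp only [PP, E_div, E_mul, E_rpow, E_sqrt, E_pow]
    exact E_le ht (by push_cast; linarith)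
  have a16 : ((PP p t).rho / (PP p t).D) ^ (4 / 3 : ℝ) * ((PP p t).l / (PP p t).rho) ^ al
      ≤ E (-p.u / 700) t := by
    simp only [PP, E_div, E_mul, E_rpow, E_sqrt, E_pow]
    exact E_le ht (by push_cast; linarith)
  have e : ((PP p t).l ^ 3 / (E (p.g + p.e / 3 - p.u / 2 - 1) t * (PP p t).d2 ^ 2)
      + ((PP p t).d2 + (PP p t).G * (PP p t).d2) / (PP p t).d + (PP p t).f + (PP p t).rho / (PP p t).d)
      * ((PP p t).l / (PP p t).d) ^ al =
      (PP p t).l ^ 3 / (E (p.g + p.e / 3 - p.u / 2 - 1) t * (PP p t).d2 ^ 2) * ((PP p t).l / (PP p t).d) ^ al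
      + (PP p t).d2 / (PP p t).d * ((PP p t).l / (PP p t).d) ^ al
      + (PP p t).G * (PP p t).d2 / (PP p t).d * ((PP p t).l / (PP p t).d) ^ al
      + (PP p t).f * ((PP p t).l / (PP p t).d) ^ al
      + (PP p t).rho / (PP p t).d * ((PP p t).l / (PP p t).d) ^ al := by ring
  rw [e]
  linarith

/-- the second Besov constant -/
def BB (t : ℝ) : ℝ := E (al - p.σ * (1 + p.s)) t

variable {p}

theorem cost_le {C t : ℝ} (h : Big p C t) :
    2 * ((PP p t).S * (PP p t).G ^ 15 * (PP p t).tot) ≤ E (-p.σ * (1 + p.s)) t := by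
  obtain ⟨c1, c2, c3, c4, c5, c6, c7, c8, c9, c10, c11, c12, c13, c14, c15, c16, c17⟩ := facts p
  obtain ⟨d1, d2, d3, d4, d5, d6, d7, d8, d9⟩ := facts2 p
  have h1 := mul_le_mul_of_nonneg_left (tot_le p h.t0)
    (show 0 ≤ (PP p t).S * (PP p t).G ^ 15 from (mul_pos (E_pos _ _) (pow_pos (E_pos _ _) _)).le)
  have h2 : 34 * ((PP p t).S * (PP p t).G ^ 15 * E (-p.u / 700) t) ≤ E (-p.σ * (1 + p.s)) t := by
    simp only [PP, E_mul, E_pow]
    exact h.k (by norm_num) (by norm_num) (by push_cast; linarith)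
  linarith

theorem step {C t : ℝ} (h : Big p C t) (P P' : Par) (hP : P = PP p t)
    (hP' : P' = PP p ((1 + p.s) * t)) :
    BB p t * P.l ^ al / 2 + P.S * P.G ^ 15 * P.tot ≤ P'.S ∧
      2 * BB p t + P.S * P.G ^ 15 * P.tot / P.l ^ al ≤ BB p ((1 + p.s) * t) ∧
      P'.D ≤ P.D ∧ P.D ≤ P'.l ∧ P'.l ≤ P.l / 60 ∧ P'.rho ≤ P.rho ∧
      2 * (4 * P.Y) + C * (2 * P.G) * lg P'.l ^ 2 * P'.l ^ 2
        * P'.D ^ (al - 4) * (2 * P.Xi) ≤ P'.Y ∧
      2 * P.Xi ≤ P'.Xi ∧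
      2 * (P.G ^ 19 * P.S / P.rho ^ al) + C * (2 * P.G) ^ 2 * lg P'.l ^ 2 * (2 * P.Xi) ≤ P'.Z ∧
      2 * P.G ≤ P'.G := by
  subst hP hP'
  obtain ⟨c1, c2, c3, c4, c5, c6, c7, c8, c9, c10, c11, c12, c13, c14, c15, c16, c17⟩ := facts p
  obtain ⟨d1, d2, d3, d4, d5, d6, d7, d8, d9⟩ := facts2 p
  have ht := h.t0
  have hc := cost_le h
  have hlg : lg (PP p ((1 + p.s) * t)).l = 1 - -1 * (1 + p.s) * t := by
    show lg (E (-1) ((1 + p.s) * t)) = _
    rw [E_sc, lg_E ht (by linarith)]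
  have y0 : 0 ≤ p.s * t := by positivity
  have y1 : p.s * t ≤ 1 * t := mul_le_mul_of_nonneg_right (by linarith) ht
  have x0 : 0 ≤ 1 - -1 * (1 + p.s) * t := by linarith
  have x1 : 1 - -1 * (1 + p.s) * t ≤ 1 + 2000 * t := by linarith
  have h8 := h.cC (c := 8) (by norm_num) (by norm_num) x0 x1
  have h16 := h.cC (c := 16) (by norm_num) (by norm_num) x0 x1
  refine ⟨?_, ?_, ?_, ?_, ?_, ?_, ?_, ?_, ?_, ?_⟩
  · have e1 : BB p t * (PP p t).l ^ al = E (-p.σ * (1 + p.s)) t := by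
      simp only [BB, PP, E_rpow, E_mul]; congr 1; ring
    have e2 : (PP p ((1 + p.s) * t)).S = E (-p.σ * (1 + p.s)) t := E_sc _ _ _
    rw [e1, e2]; linarith
  · have e1 : E (-p.σ * (1 + p.s)) t / (PP p t).l ^ al = BB p t := by
      simp only [BB, PP, E_rpow, E_div]; congr 1; ring
    have q : 0 < (PP p t).l ^ al := Real.rpow_pos_of_pos (E_pos _ _) _
    have h1 := div_le_div_of_nonneg_right hc q.le
    rw [e1, mul_div_assoc] at h1
    have h2 : 3 * BB p t ≤ BB p ((1 + p.s) * t) := by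
      simp only [BB, E_sc]; exact h.k (by norm_num) (by norm_num) (by linarith)
    have h3 : 0 < BB p t := E_pos _ _
    linarith
  · simp only [PP, E_sc]; exact E_le ht (by linarith)
  · simp only [PP, E_sc]; exact E_le ht (by linarith)
  · have h1 : 60 * (PP p ((1 + p.s) * t)).l ≤ (PP p t).l := by
      simp only [PP, E_sc]; exact h.k (by norm_num) (by norm_num) (by linarith)
    linarith
  · simp only [PP, E_sc]; exact E_le ht (by linarith)
  · rw [hlg, Y_eq, Y_eq, Xi_eq, E_sc]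
    have h1 : 16 * E (2 - p.σ + 4 / 3 * p.e + p.u / 2) t ≤
        E ((2 - p.σ + 4 / 3 * p.e + p.u / 2) * (1 + p.s)) t :=
      h.k (by norm_num) (by norm_num) (by linarith)
    have h2 : 8 * C * (1 - -1 * (1 + p.s) * t) ^ 2 * ((PP p t).G * (PP p ((1 + p.s) * t)).l ^ 2
        * (PP p ((1 + p.s) * t)).D ^ (al - 4) * E (10 * p.g - p.σ + al + al * p.e) t) ≤
        E ((2 - p.σ + 4 / 3 * p.e + p.u / 2) * (1 + p.s)) t := by
      simp only [PP, E_sc, E_mul, E_pow, E_rpow]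
      exact key p ht h8 (by push_cast; linarith)
    linarith
  · rw [Xi_eq, Xi_eq, E_sc]; exact h.k (by norm_num) (by norm_num) (by linarith)
  · rw [hlg, Z_eq, Xi_eq, E_sc]
    have h1 : 4 * ((PP p t).G ^ 19 * (PP p t).S / (PP p t).rho ^ al) ≤
        E ((10 * p.g - p.σ + al + al * p.e) * (1 + p.s)) t := by
      simp only [PP, E_mul, E_pow, E_div, E_rpow]
      exact h.k (by norm_num) (by norm_num) (by push_cast; linarith)
    have h2 : 16 * C * (1 - -1 * (1 + p.s) * t) ^ 2 * ((PP p t).G ^ 2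
        * E (10 * p.g - p.σ + al + al * p.e) t) ≤
        E ((10 * p.g - p.σ + al + al * p.e) * (1 + p.s)) t := by
      simp only [PP, E_mul, E_pow]
      exact key p ht h16 (by push_cast; linarith)
    linarith
  · simp only [PP, E_sc]; exact h.k (by norm_num) (by norm_num) (by linarith)

theorem grow {C t : ℝ} (h : Big p C t) (m : ℕ) : t + 10 * m ≤ (1 + p.s) ^ m * t := by
  have h1 : 1 + (m : ℝ) * p.s ≤ (1 + p.s) ^ m := one_add_mul_le_pow (by linarith [p.s0]) m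
  have h2 := mul_le_mul_of_nonneg_right h1 h.t0
  have h3 : (m : ℝ) * 10 ≤ m * (p.s * t) := mul_le_mul_of_nonneg_left h.t1 (Nat.cast_nonneg m)
  linarith

theorem E_geo0 {C a t : ℝ} (h : Big p C t) (ha : a ≤ 0) (m : ℕ) :
    E a ((1 + p.s) ^ m * t) ≤ E a t * Real.exp (10 * a) ^ m := by
  have h1 := mul_le_mul_of_nonpos_left (grow h m) ha
  unfold E
  rw [← Real.exp_nat_mul, ← Real.exp_add]
  exact Real.exp_le_exp.2 (by linarith)

theorem E_summable {C a t : ℝ} (h : Big p C t) (ha : a < 0) :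
    Summable fun m : ℕ => E a ((1 + p.s) ^ m * t) :=
  Summable.of_nonneg_of_le (fun _ => (E_pos _ _).le) (E_geo0 h ha.le)
    ((summable_geometric_of_lt_one (Real.exp_pos _).le
      (Real.exp_lt_one_iff.2 (by linarith))).mul_left _)

theorem E_tsum {C a t : ℝ} (h : Big p C t) (ha : a ≤ -1 / 10) :
    ∑' m : ℕ, E a ((1 + p.s) ^ m * t) ≤ E a t * 2 := by
  rw [← (geo_sum (E a t)).tsum_eq]
  refine (E_summable h (by linarith)).tsum_le_tsum (fun m => ?_) (geo_sum _).summable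
  refine (E_geo0 h (by linarith) m).trans (mul_le_mul_of_nonneg_left
    (pow_le_pow_left₀ (Real.exp_pos _).le ?_ m) (E_pos _ _).le)
  have h3 : Real.exp (-1) ≤ 1 / 2 := by
    have := Real.add_one_le_exp (1 : ℝ)
    rw [Real.exp_neg, inv_eq_one_div]
    exact one_div_le_one_div_of_le (by norm_num) (by linarith)
  exact (Real.exp_le_exp.2 (by linarith)).trans h3

variable (p)

theorem T0_le {t : ℝ} (ht : 0 ≤ t) : (PP p t).T0 ≤ E (-1 / 3) t := by
  obtain ⟨c1, c2, c3, c4, c5, c6, c7, c8, c9, c10, c11, -⟩ := facts p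
  unfold Par.T0
  rw [Y_eq]
  obtain ⟨y, hy⟩ : ∃ y, y = 2 - p.σ + 4 / 3 * p.e + p.u / 2 := ⟨_, rfl⟩
  rw [← hy]
  have h1 : √(E y t) ≤ √(6 * E y t) := Real.sqrt_le_sqrt (by linarith [E_pos y t])
  have h2 : (PP p t).th0 / √(6 * E y t) ≤ (PP p t).th0 / √(E y t) :=
    div_le_div_of_nonneg_left (E_pos _ _).le (Real.sqrt_pos.2 (E_pos _ _)) h1
  refine h2.trans ?_
  simp only [PP, E_sqrt, E_div]
  exact E_le ht (by linarith)

end

end NUM

open EU2.NUM in
theorem st_NUM : St_NUM := by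
  intro β C hβ1 hβ2 hC
  obtain ⟨p⟩ := exists_pm hβ1 hβ2
  obtain ⟨c1, c2, c3, c4, c5, c6, c7, c8, c9, c10, c11, c12, c13, c14, c15, c16, c17⟩ := facts p
  obtain ⟨d1, d2, d3, d4, d5, d6, d7, d8, d9⟩ := facts2 p
  obtain ⟨t, hb⟩ := exists_big p hC
  have h0 := hb t le_rfl
  have ht := h0.t0
  have hm : ∀ m : ℕ, Big p C ((1 + p.s) ^ m * t) := fun m =>
    hb _ (le_trans (by linarith [(Nat.cast_nonneg m : (0 : ℝ) ≤ m)]) (grow h0 m))
  have e0 : (1 + p.s) ^ 0 * t = t := by simp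
  obtain ⟨c, hc⟩ : ∃ c, c = p.σ / 2 + 1 / 10 := ⟨_, rfl⟩
  have k1 : E c t ≤ (⌈E c t⌉₊ : ℝ) := Nat.le_ceil _
  have k0 : 1 ≤ E c t := one_le_E ht (by linarith)
  have k2 : (⌈E c t⌉₊ : ℝ) ≤ E (c + 1 / 100) t := by
    have a1 := Nat.ceil_lt_add_one (E_pos c t).le
    have a2 : 2 * E c t ≤ E (c + 1 / 100) t := h0.k (by norm_num) (by norm_num) (by linarith)
    linarith
  have k3 : (⌈E c t⌉₊ : ℝ) ≤ E (4 / 5) t := k2.trans (E_le ht (by linarith))
  have hCE : C ≤ E p.γ t := by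
    have := h0.cC (c := 1) (x := 1) zero_le_one (by norm_num) zero_le_one (by linarith)
    linarith
  have C0 : 0 ≤ C := le_trans zero_le_one hC
  refine ⟨fun m => PP p ((1 + p.s) ^ m * t), fun m => BB p ((1 + p.s) ^ m * t),
    E (1 / 20 - p.σ / 2) t, ⌈E c t⌉₊,
    fun m => ok (hm m), fun m => ?_, fun N => ?_, ?_, ?_, E_pos _ _, ?_, ?_, ?_, ?_, ?_, ?_⟩
  · have e : (1 + p.s) ^ (m + 1) * t = (1 + p.s) * ((1 + p.s) ^ m * t) := by ring
    simp only [e]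
    exact step (hm m) _ _ rfl rfl
  · have hs := E_summable (a := -1 / 3) h0 (by norm_num)
    have h1 := hs.sum_le_tsum (Finset.range N) (fun _ _ => (E_pos _ _).le)
    have h2 := E_tsum (a := -1 / 3) h0 (by norm_num)
    have h3 : 32 * E (-1 / 3) t ≤ E 0 t := h0.k (by norm_num) (by norm_num) (by linarith)
    rw [E_zero] at h3
    have h4 : ∑ m ∈ Finset.range N, (PP p ((1 + p.s) ^ m * t)).T0 ≤
        ∑ m ∈ Finset.range N, E (-1 / 3) ((1 + p.s) ^ m * t) :=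
      Finset.sum_le_sum fun m _ => T0_le p (hm m).t0
    linarith
  · exact (E_summable (a := -p.σ) h0 (by linarith)).tendsto_atTop_zero
  · simp only [PP, E_pow, E_sqrt, E_rpow, E_mul]
    exact E_summable h0 (by push_cast; linarith [p.gm])
  · exact_mod_cast le_trans k0 k1
  · simp only [e0]
    refine le_trans (mul_le_mul_of_nonneg_left k3 (E_pos _ _).le) ?_
    simp only [PP, E_mul]; exact E_le_one ht (by linarith)
  · simp only [e0]
    refine le_trans (div_le_div_of_nonneg_left (mul_nonneg C0 (E_pos _ _).le) (E_pos _ _) k1) ?_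
    simp only [PP, mul_div_assoc, E_div]; exact key p ht hCE (by linarith)
  · simp only [e0]
    have h1 : (⌈E c t⌉₊ : ℝ) ^ (al - 1) ≤ E (4 / 5) t ^ (al - 1) :=
      Real.rpow_le_rpow (Nat.cast_nonneg _) k3 (by linarith)
    refine le_trans (mul_le_mul_of_nonneg_left h1 (mul_nonneg C0 (E_pos _ _).le)) ?_
    simp only [BB, mul_assoc, E_rpow, E_mul]; exact key p ht hCE (by linarith)
  · simp only [e0]
    have h1 : C * E (1 / 20 - p.σ / 2) t * (⌈E c t⌉₊ : ℝ) ≤ E (1 / 3) t := by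
      refine le_trans (mul_le_mul_of_nonneg_left k2 (mul_nonneg C0 (E_pos _ _).le)) ?_
      simp only [mul_assoc, E_mul]; exact key p ht hCE (by linarith)
    refine le_trans (pow_le_pow_left₀
      (mul_nonneg (mul_nonneg C0 (E_pos _ _).le) (Nat.cast_nonneg _)) h1 2) ?_
    rw [Y_eq, E_pow]; exact E_le ht (by push_cast; linarith)
  · simp only [PP, E_pow, E_sqrt, E_mul]
    refine lt_of_le_of_lt (E_tsum h0 (by push_cast; linarith)) ?_
    have h1 : 8 * E (((7 : ℕ) : ℝ) * p.g + -p.σ / 2) t ≤ E (1 / 20 - p.σ / 2) t :=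
      h0.k (by norm_num) (by norm_num) (by push_cast; linarith)
    have h2 := E_pos (((7 : ℕ) : ℝ) * p.g + -p.σ / 2) t
    linarith

end Pool.Agent.Lib.EU2
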