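import Pool.Agent.Lib.EU2.Basic
import Pool.Agent.Lib.EUL.B_PAIR

set_option autoImplicit false

namespace Pool.Agent.Lib.EU2

open MeasureTheory Set Filter Topology Pool.Agent.Lib.EUL
open scoped ContDiff Classical

variable [Al]

namespace PAIR

open EUL.PAIR

/-- the cost of one separated pair -/
theorem one2 (hCS : St_CS) {C : ℝ} (hC : 1 ≤ C)
    (hE : ∀ (r : ℝ) (p : ℂ), 0 < r → r ≤ 1 →
      IQ (fun x => tau 2 r (pn (x - p))) ≤ C * r ^ 2 * lg r)
    {W W' : ℂ → ℂ} {p p' : ℂ} {c c' r rho D R l L : ℝ} (hrho : 0 < rho) (hD : 0 < D)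
    (hDl : D ≤ l) (hl : l ≤ 1 / 4) (hL : lg r ≤ L) (sW : ContDiff ℝ ∞ W) (pW : Peri W)
    (sW' : ContDiff ℝ ∞ W') (pW' : Peri W')
    (hc : 0 ≤ c) (hc' : 0 ≤ c') (hr : 0 < r) (hrD : r ≤ D) (hW : Dom 2 W p c r r)
    (hS : Supp W p R) (hW' : Env W' p' c' rho) (hcase : R ≤ 2 * D ∨ r = rho)
    (hsep : 4 * D ≤ pn (p - p')) :
    Cst l (fun y => W y * W' y)
      (32 * C * L * (rho / D) ^ 2 * l ^ al * (c * r ^ (2 - al) * c')) := by
  have pt := fun (j k : ℕ) (hj : j ≤ 2) (hk : k ≤ 2) (y : ℂ) =>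
    point hrho hD hc hc' hr hrD hW hS hW' hcase hsep hj hk y
  obtain ⟨K, hK⟩ : ∃ K, K = c * c' * (rho / D) ^ 2 := ⟨_, rfl⟩
  have K0 : 0 ≤ K := by rw [hK]; positivity
  rw [← hK] at pt
  have c1 := cont_tau 2 hr p
  have c2 := cont_tau 2 hr p'
  have lg1 : 1 ≤ lg r := by unfold lg; linarith [abs_nonneg (Real.log r)]
  have r1 : r ≤ 1 := by linarith
  have hT : IQ (fun y => tau 2 r (pn (y - p)) + tau 2 r (pn (y - p'))) ≤ 2 * (C * r ^ 2 * L) := by
    rw [IQ_add c1 c2]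
    have h1 := hE r p hr r1
    have h2 := hE r p' hr r1
    have h3 : C * r ^ 2 * lg r ≤ C * r ^ 2 * L := mul_le_mul_of_nonneg_left hL (by positivity)
    linarith
  obtain ⟨T, hTe⟩ : ∃ T : ℂ → ℝ, T = fun y => tau 2 r (pn (y - p)) + tau 2 r (pn (y - p')) :=
    ⟨_, rfl⟩
  have cT : Continuous T := by rw [hTe]; exact c1.add c2
  have pt' : ∀ j k : ℕ, j ≤ 2 → k ≤ 2 → ∀ y,
      (r ^ j * nD j W y) * (r ^ k * nD k W' y) ≤ K * T y := by
    intro j k hj hk y; rw [hTe]; exact pt j k hj hk y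
  rw [← hTe] at hT
  have X0 : 0 ≤ C * r ^ 2 * L := by
    have : 0 ≤ L := by linarith
    positivity
  have n0 : IQ (nD 0 fun y => W y * W' y) ≤ 8 * K * (C * r ^ 2 * L) := by
    refine (IQ_mono_of_nonneg (g := fun y => K * T y) (nD0 _ _)
      (integrableOn_cell (continuous_const.mul cT)) fun y _ => ?_).trans ?_
    · rw [leib0]
      simpa using pt' 0 0 (by norm_num) (by norm_num) y
    · rw [IQ_const_mul]
      have h1 := mul_le_mul_of_nonneg_left hT K0
      have h2 := mul_nonneg K0 X0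
      linarith
  have n2 : IQ (nD 2 fun y => W y * W' y) ≤ 8 * K * (C * r ^ 2 * L) / r ^ 2 := by
    refine (IQ_mono_of_nonneg (g := fun y => 4 * K / r ^ 2 * T y) (nD0 _ _)
      (integrableOn_cell (continuous_const.mul cT)) fun y _ => ?_).trans ?_
    · refine (leib2 sW sW' y).trans ?_
      have h1 := pt' 0 2 (by norm_num) (by norm_num) y
      have h2 := pt' 1 1 (by norm_num) (by norm_num) y
      have h3 := pt' 2 0 (by norm_num) (by norm_num) y
      rw [div_mul_eq_mul_div, le_div_iff₀ (by positivity)]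
      have e : (nD 0 W y * nD 2 W' y + 2 * nD 1 W y * nD 1 W' y + nD 2 W y * nD 0 W' y) * r ^ 2
          = (r ^ 0 * nD 0 W y) * (r ^ 2 * nD 2 W' y) + 2 * ((r ^ 1 * nD 1 W y) * (r ^ 1 * nD 1 W' y))
            + (r ^ 2 * nD 2 W y) * (r ^ 0 * nD 0 W' y) := by ring
      rw [e]; linarith
    · rw [IQ_const_mul]
      refine (mul_le_mul_of_nonneg_left hT (by positivity)).trans (le_of_eq ?_)
      field_simp
      ring
  have hfin := hCS.1 _ l r _ (sW.mul sW') (pW.mul pW') hr (hrD.trans hDl) n0 n2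
  have hl0 : 0 < l := hD.trans_le hDl
  refine hfin.mono hl0 (le_of_eq ?_)
  have e1 : r ^ (2 - al) = r ^ 2 / r ^ al := by
    rw [Real.rpow_sub hr, Real.rpow_two]
  have e2 : 0 < r ^ al := Real.rpow_pos_of_pos hr _
  rw [Real.div_rpow hl0.le hr.le, e1, hK]
  field_simp
  ring

end PAIR

open EUL.PAIR in
theorem st_PAIR (hCS : St_CS) (hE : St_ENV) : St_PAIR := by
  obtain ⟨C, hC, hE⟩ := hE
  refine ⟨32 * C, by linarith, ?_⟩
  intro ι κ _ _ W p c r W' p' c' A l D rho R M L Om Z hrho hrD hDl hl hR hL hW hW' hcase hA hM hM'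
    hOm hZ
  have hD : 0 < D := hrho.trans_le hrD
  have hl0 : 0 < l := hD.trans_le hDl
  have L0 : 0 ≤ L := by
    have : 1 ≤ lg rho := by unfold lg; linarith [abs_nonneg (Real.log rho)]
    linarith
  obtain ⟨K, hK⟩ : ∃ K, K = 32 * C * L * (rho / D) ^ 2 * l ^ al := ⟨_, rfl⟩
  have K0 : 0 ≤ K := by
    have : 0 ≤ C := by linarith
    rw [hK]; positivity
  obtain ⟨g, hg⟩ : ∃ g : ι × κ → ℝ, g = fun a =>
      if c a.1 ≠ 0 ∧ c' a.2 ≠ 0 ∧ pn (p a.1 - p' a.2) ≤ l then c a.1 * r a.1 ^ (2 - al) * c' a.2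
      else 0 := ⟨_, rfl⟩
  have g0 : ∀ a, 0 ≤ g a := fun a => by
    rw [hg]
    dsimp only
    split_ifs
    · exact mul_nonneg (mul_nonneg (hW _).2.2.1 (Real.rpow_nonneg (hW _).2.2.2.1.le _))
        (hW' _).2.2.1
    · exact le_rfl
  have hs : ∑ a, g a ≤ M * √(Om * Z) := by
    rw [hg]
    refine le_of_eq_of_le (Finset.sum_congr rfl fun a _ => ?_)
      (schur (x := fun i => c i * r i ^ (2 - al)) (y := c') hM hM' hOm hZ)
    dsimp only
    split_ifs <;> rfl
  have each : ∀ a ∈ A, Cst l (fun y => W a.1 y * W' a.2 y) (K * g a) := by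
    rintro ⟨i, k⟩ ha
    obtain ⟨sW, pW, hc, hr, hrD', hlg, hDom, hS⟩ := hW i
    obtain ⟨sW', pW', hc', hEnv, hS'⟩ := hW' k
    have z : (∀ y, W i y * W' k y = 0) → Cst l (fun y => W i y * W' k y) (K * g (i, k)) :=
      fun h => (cst_zero hl0 (mul_nonneg K0 (g0 _))).congr h
    rcases hA _ ha with h | h | h
    · exact z fun y => by rw [h y, zero_mul]
    · exact z fun y => by rw [h y, mul_zero]
    by_cases hn : pn (p i - p' k) ≤ l
    · have h1 := PAIR.one2 hCS hC (fun r p h0 h1 => (hE r p h0 h1).1) hrho hD hDl hl hlg sW pW sW' pW'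
        hc hc' hr hrD' hDom hS hEnv (hcase.imp id fun h => h i) h
      rw [← hK] at h1
      refine h1.mono hl0 (le_of_eq ?_)
      rw [hg]
      dsimp only
      split_ifs with h2
      · rfl
      · by_cases h3 : c i = 0
        · simp [h3]
        · by_cases h4 : c' k = 0
          · simp [h4]
          · exact absurd ⟨h3, h4, hn⟩ h2
    · refine z fun y => ?_
      rw [not_le] at hn
      have tri := pn_triangle (p i) y (p' k)
      rw [pn_sub_comm (p i) y] at tri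
      by_cases h1 : R < pn (y - p i)
      · rw [hS y h1, zero_mul]
      · rw [hS' y (by linarith [not_lt.1 h1]), mul_zero]
  have hsum := cst_sum A hl0 (f := fun a y => W a.1 y * W' a.2 y)
    (fun a _ => (hW a.1).1.continuous.mul (hW' a.2).1.continuous) each
  refine hsum.mono hl0 ?_
  rw [← Finset.mul_sum]
  have h1 : ∑ a ∈ A, g a ≤ ∑ a, g a :=
    Finset.sum_le_sum_of_subset_of_nonneg (Finset.subset_univ _) fun a _ _ => g0 a
  refine (mul_le_mul_of_nonneg_left (h1.trans hs) K0).trans (le_of_eq ?_)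
  rw [hK]; ring

end Pool.Agent.Lib.EU2
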