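import Pool.Agent.Lib.EU2.B_PAIR

set_option autoImplicit false

namespace Pool.Agent.Lib.EU2

open MeasureTheory Set Filter Topology Pool.Agent.Lib.EUL
open scoped ContDiff Classical

variable [Al]

open EUL.PAIR in
theorem st_PAIR2 (hCS : St_CS) (hE : St_ENV) : St_PAIR2 := by
  obtain ⟨C, hC, hE⟩ := hE
  refine ⟨32 * C, by linarith, ?_⟩
  intro ι κ _ _ W p c r R W' p' c' l rho M L Om Z hrho hl0 hl L0 hW hW' hA hM hM' hOm hZ
  obtain ⟨K, hK⟩ : ∃ K, K = 32 * C * L * rho ^ 2 * l ^ al := ⟨_, rfl⟩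
  have K0 : 0 ≤ K := by
    have : 0 ≤ C := by linarith
    rw [hK]; positivity
  obtain ⟨g, hg⟩ : ∃ g : ι × κ → ℝ, g = fun a =>
      if c a.1 ≠ 0 ∧ c' a.2 ≠ 0 ∧ pn (p a.1 - p' a.2) ≤ l then
        c a.1 * r a.1 ^ (2 - al) / R a.1 ^ 2 * c' a.2
      else 0 := ⟨_, rfl⟩
  have g0 : ∀ a, 0 ≤ g a := fun a => by
    rw [hg]
    dsimp only
    split_ifs
    · exact mul_nonneg (div_nonneg
        (mul_nonneg (hW _).2.2.1 (Real.rpow_nonneg (hW _).2.2.2.1.le _)) (sq_nonneg _))
        (hW' _).2.2.1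
    · exact le_rfl
  have hs : ∑ a, g a ≤ M * √(Om * Z) := by
    rw [hg]
    refine le_of_eq_of_le (Finset.sum_congr rfl fun a _ => ?_)
      (schur (x := fun i => c i * r i ^ (2 - al) / R i ^ 2) (y := c') hM hM' hOm hZ)
    dsimp only
    split_ifs <;> rfl
  have each : ∀ a ∈ (Finset.univ : Finset (ι × κ)),
      Cst l (fun y => W a.1 y * W' a.2 y) (K * g a) := by
    rintro ⟨i, k⟩ _
    obtain ⟨sW, pW, hc, hr, hrR, hρR, hRl, hlg, hDom, hS⟩ := hW i
    obtain ⟨sW', pW', hc', hEnv, hS'⟩ := hW' k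
    have hR : 0 < R i := hr.trans_le hrR
    have z : (∀ y, W i y * W' k y = 0) → Cst l (fun y => W i y * W' k y) (K * g (i, k)) :=
      fun h => (cst_zero hl0 (mul_nonneg K0 (g0 _))).congr h
    rcases hA i k with h | h | h
    · exact z fun y => by rw [h y, zero_mul]
    · exact z fun y => by rw [h y, mul_zero]
    by_cases hn : pn (p i - p' k) ≤ l
    · have h1 := PAIR.one2 hCS hC (fun r p h0 h1 => (hE r p h0 h1).1) hrho hR
        (by linarith : R i ≤ l) hl hlg sW pW sW' pW' hc hc' hr hrR hDom hS hEnv (Or.inl le_rfl) h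
      refine h1.mono hl0 (le_of_eq ?_)
      rw [hg]
      dsimp only
      split_ifs with h2
      · rw [hK, div_pow]; ring
      · by_cases h3 : c i = 0
        · simp [h3]
        · by_cases h4 : c' k = 0
          · simp [h4]
          · exact absurd ⟨h3, h4, hn⟩ h2
    · refine z fun y => ?_
      rw [not_le] at hn
      have tri := pn_triangle (p i) y (p' k)
      rw [pn_sub_comm (p i) y] at tri
      by_cases h1 : 2 * R i < pn (y - p i)
      · rw [hS y h1, zero_mul]
      · rw [hS' y (by linarith [not_lt.1 h1]), mul_zero]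
  have hsum := cst_sum Finset.univ hl0 (f := fun (a : ι × κ) y => W a.1 y * W' a.2 y)
    (fun a _ => (hW a.1).1.continuous.mul (hW' a.2).1.continuous) each
  refine (hsum.congr fun y => ?_).mono hl0 ?_
  · rw [Finset.sum_mul_sum, Fintype.sum_prod_type]
  · rw [← Finset.mul_sum]
    refine (mul_le_mul_of_nonneg_left hs K0).trans (le_of_eq ?_)
    rw [hK]; ring

end Pool.Agent.Lib.EU2
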