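import Pool.Agent.Lib.EU2.Basic
import Pool.Agent.Lib.EUL.B_PATH

set_option autoImplicit false

namespace Pool.Agent.Lib.EU2

open MeasureTheory Set Filter Topology Pool.Agent.Lib.EUL
open scoped ContDiff Classical

noncomputable section

namespace PATH

open Pool.Agent.Lib.EUL.PATH in
/-- from arc length to time -/
lemma ctl {Φ : (ℕ → ℂ) → ℝ → ℝ} {N : ℕ} {sk : ℕ → ℝ} {Λ h cc L C K t0 e0 : ℝ} {U s : ℝ → ℝ}
    (H : Str Φ N sk Λ h cc L C) (hK : C ≤ K) (Us : ContDiff ℝ ∞ U) (sd : ∀ t, HasDerivAt s (U t) t)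
    (U0 : ∀ t, 0 ≤ U t) (sb : ∀ t, s t ∈ Icc 0 Λ) (hte : t0 ≤ e0) (s0 : s t0 = 0) (s1 : s e0 = Λ) :
    ∃ tk : ℕ → ℝ, Ctl (fun vs t => (U t : ℂ) * ex (Φ vs (s t))) U N tk cc L K ∧ t0 ≤ tk 0 ∧ tk N ≤ e0 := by
  have ss : ContDiff ℝ ∞ s := contDiff_infty_iff_deriv.2
    ⟨fun t => (sd t).differentiableAt, by rw [funext fun t => (sd t).deriv]; exact Us⟩
  have sm : Monotone s := monotone_of_deriv_nonneg (fun t => (sd t).differentiableAt)
    fun t => by rw [(sd t).deriv]; exact U0 t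
  have skm : ∀ j k, j ≤ k → k ≤ N → sk j ≤ sk k := fun j k hjk => by
    induction k, hjk using Nat.le_induction with
    | base => exact fun _ => le_rfl
    | succ k _ ih => exact fun hk => (ih (by omega)).trans (H.lt k (by omega)).le
  have ex_t : ∀ k, ∃ t, t ∈ Icc t0 e0 ∧ (k ≤ N → s t = sk k) := fun k => by
    by_cases hk : k ≤ N
    · obtain ⟨t, ht, e⟩ := intermediate_value_Icc hte ss.continuous.continuousOn
        (show sk k ∈ Icc (s t0) (s e0) by
          rw [s0, s1, ← H.s0, ← H.sN]; exact ⟨skm 0 k (Nat.zero_le _) hk, skm k N hk le_rfl⟩)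
      exact ⟨t, ht, fun _ => e⟩
    · exact ⟨t0, ⟨le_rfl, hte⟩, fun h => absurd h hk⟩
  choose tk tm ts using ex_t
  have Uc : ContDiff ℝ ∞ fun t => (U t : ℂ) := Complex.ofRealCLM.contDiff.comp Us
  have smem : ∀ k < N, ∀ t ∈ Icc (tk k) (tk (k + 1)), s t ∈ Icc (sk k) (sk (k + 1)) := fun k hk t ht => by
    rw [← ts k hk.le, ← ts (k + 1) hk]
    exact ⟨sm ht.1, sm ht.2⟩
  have sub : ∀ vs vs', Adm cc vs → Adm cc vs' → ∀ a b : ℝ,
      ∫ r in a..b, ((U r : ℂ) * ex (Φ vs (s r)) - (U r : ℂ) * ex (Φ vs' (s r)))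
        = ∫ r in (s a)..(s b), (ex (Φ vs r) - ex (Φ vs' r)) := fun vs vs' hv hv' a b => by
    have gc : Continuous fun r => ex (Φ vs r) - ex (Φ vs' r) :=
      (ex_sm (H.sm vs hv).1).continuous.sub (ex_sm (H.sm vs' hv').1).continuous
    rw [← intervalIntegral.integral_deriv_smul_comp (fun t _ => sd t) Us.continuous.continuousOn gc]
    refine intervalIntegral.integral_congr fun t _ => ?_
    simp only [Function.comp, Complex.real_smul]
    ring
  refine ⟨tk, ⟨fun k hk => ?_, Us.continuous, U0, fun t ht => ?_, fun k hk => ?_, fun vs hv => ⟨?_, fun t => ?_⟩,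
    fun vs vs' hv hv' k hk e t ht => ?_, fun vs vs' hv hv' k hk t ht => ?_, fun vs vs' hv hv' k hk => ?_⟩,
    (tm 0).1, (tm N).2⟩
  · by_contra hc
    have := sm (not_le.1 hc).le
    rw [ts k hk.le, ts (k + 1) hk] at this
    exact absurd (H.lt k hk) (not_lt.2 this)
  · rcases not_and_or.1 ht with h1 | h1
    · have : s =ᶠ[𝓝 t] fun _ => 0 := (gt_mem_nhds (not_le.1 h1)).mono fun r hr =>
        le_antisymm ((sm hr.le).trans_eq ((ts 0 (Nat.zero_le _)).trans H.s0)) (sb r).1
      exact (sd t).unique ((hasDerivAt_const t (0 : ℝ)).congr_of_eventuallyEq this)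
    · have : s =ᶠ[𝓝 t] fun _ => Λ := (lt_mem_nhds (not_le.1 h1)).mono fun r hr =>
        le_antisymm (sb r).2 (((ts N le_rfl).trans H.sN).symm.trans_le (sm hr.le))
      exact (sd t).unique ((hasDerivAt_const t Λ).congr_of_eventuallyEq this)
  · rw [intervalIntegral.integral_eq_sub_of_hasDerivAt (fun t _ => sd t) (Us.continuous.intervalIntegrable _ _),
      ts k hk.le, ts (k + 1) hk]
    exact H.len k hk
  · exact Uc.mul (ex_sm ((H.sm vs hv).1.comp ss))
  · rw [norm_mul, norm_ex, mul_one, Complex.norm_real, Real.norm_of_nonneg (U0 t)]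
  · show _ * ex (Φ vs (s t)) = _ * ex (Φ vs' (s t))
    rw [H.loc vs vs' hv hv' k hk e _ (smem k hk t ht)]
  · rw [sub vs vs' hv hv', ts k hk.le]
    exact (H.lip vs vs' hv hv' k hk _ (smem k hk t ht)).trans (mul_le_mul_of_nonneg_right hK (norm_nonneg _))
  · rw [sub vs vs' hv hv', ts k hk.le, ts (k + 1) hk]
    exact H.fin vs vs' hv hv' k hk

end PATH

open Pool.Agent.Lib.EUL.PATH in
theorem st_PATH (h0 : St_PATH0) : St_PATH := by
  obtain ⟨C0, hC0, H⟩ := h0
  obtain ⟨M, hM, hS⟩ := speed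
  set E : ℕ → ℝ := fun k => ∫ y, nD k (fun y => (eta y : ℂ)) y with hE
  have E0 : ∀ k, 0 ≤ E k := fun k => integral_nonneg fun _ => norm_nonneg _
  set C : ℝ := 2 * C0 * (1 + M) + E 0 + E 2 with hC
  have c1 : 2 * C0 ≤ C := by nlinarith [E0 0, E0 2, mul_nonneg (zero_le_one.trans hC0) hM]
  have c2 : C0 * (1 + M) ≤ C := by nlinarith [E0 0, E0 2, mul_nonneg (zero_le_one.trans hC0) hM]
  have c3 : M ≤ C := by nlinarith [E0 0, E0 2]
  refine ⟨C, by linarith, fun l h d d2 u T τ c0 A t0 cc m hd2 h2d hdh hhl hu hτ hτT hc0 hh hl3 hcc hcch hm hm0 hmA hA => ?_⟩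
  have hd : 0 < d := by linarith
  have hh0 : 0 < h := by linarith
  have hl : 0 < l := by linarith
  have hT : 0 < T := by linarith
  have hC0' : 0 < C0 := by linarith
  have hA0 : 0 ≤ A := le_trans (by simp [nD])
    (hmA 0 (by norm_num) 0)
  set N0 : ℝ := u * T * d2 ^ 2 / (2 * C0 * h * l ^ 2) with hN
  set κ : ℝ := C0 * l ^ 2 / (c0 * u ^ 2 * T) with hκ
  have hκ0 : 0 < κ := by positivity
  have eN : N0 * h * l ^ 2 / d2 ^ 2 = u * T / (2 * C0) := by rw [hN]; field_simp
  obtain ⟨Λ, Φ, Nr, sk, Y, R1, R2, HS, L0, L1, Yd, Yb, R1s, R2s, R0, Rid, Rb⟩ := H l h d d2 N0 cc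
    (fun y => (-κ : ℝ) * m y) hd2 h2d hdh hhl (by
      rw [hN, div_mul_eq_mul_div, le_div_iff₀ (by positivity)]
      have := mul_le_mul_of_nonneg_right c1 (by positivity : 0 ≤ l ^ 3)
      nlinarith) hcc hcch (contDiff_const.mul hm) (fun y hy => by simp [hm0 y hy]) fun k hk y => by
      rw [nD_mul hm, Complex.norm_real, norm_neg, Real.norm_of_nonneg hκ0.le, mul_left_comm]
      refine (mul_le_mul_of_nonneg_left (hmA k hk y) hκ0.le).trans ?_
      rw [hκ, div_mul_eq_mul_div, div_le_iff₀ (by positivity)]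
      have := mul_le_mul_of_nonneg_right c1 (by positivity : 0 ≤ A * l ^ 2)
      nlinarith
  set φ : ℝ → ℝ := Φ 0 with hφ
  have φs : ContDiff ℝ ∞ φ := (HS.sm 0 (adm_zero hcc)).1
  have L2 : Λ / u ≤ T / 2 := by
    rw [div_le_iff₀ hu]
    refine L1.trans (le_of_eq ?_)
    rw [hN]; field_simp
  obtain ⟨U, s, Us, sd, Ub, U0, Ud, sb, s0, s1⟩ := hS u τ (Λ / u) t0 hu hτ (by positivity)
  rw [mul_div_cancel₀ _ hu.ne'] at sb s1
  have hl0 : 0 ≤ Λ / u := by positivity
  set e0 := t0 + Λ / u + τ with he0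
  have hte : t0 ≤ e0 := by linarith
  have ss : ContDiff ℝ ∞ s := contDiff_infty_iff_deriv.2
    ⟨fun t => (sd t).differentiableAt, by rw [funext fun t => (sd t).deriv]; exact Us⟩
  have Ys : ContDiff ℝ ∞ Y := contDiff_infty_iff_deriv.2
    ⟨fun t => (Yd t).differentiableAt, by rw [funext fun t => (Yd t).deriv]; exact ex_sm φs⟩
  obtain ⟨tk, HC, ht0, htN⟩ := PATH.ctl HS (show C0 ≤ C by linarith) Us sd (fun t => (Ub t).1) sb hte s0 s1
  have exs : ContDiff ℝ ∞ fun t => ex (2 * φ (s t)) := ex_sm (contDiff_const.mul (φs.comp ss))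
  have Uc : ContDiff ℝ ∞ fun t => (U t : ℂ) := Complex.ofRealCLM.contDiff.comp Us
  set a : ℝ → ℂ := fun t => (U t ^ 2 - u * U t) * ex (2 * φ (s t)) with ha
  have as : ContDiff ℝ ∞ a := ((Uc.pow 2).sub (contDiff_const.mul Uc)).mul exs
  obtain ⟨R3s, R30, R3b⟩ := drag (etas_sm d) (etas_zero hd) as (Ys.comp ss) (fun t => Yb _ (sb t)) hte
    fun t ht => by simp [ha, U0 t ht]
  set R3 : ℂ → ℂ := fun y => ∫ t in t0..e0, a t * etas d (y - (Y ∘ s) t) with hR3
  have ab : ∫ t in t0..e0, ‖a t‖ ≤ u ^ 2 * τ := by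
    have i1 : ∫ t in t0..e0, U t = Λ := by
      rw [intervalIntegral.integral_eq_sub_of_hasDerivAt (fun t _ => sd t) (Us.continuous.intervalIntegrable _ _),
        s0, s1, sub_zero]
    have hc : Continuous fun t => u * U t := continuous_const.mul Us.continuous
    have i2 := intervalIntegral.integral_mono_on (μ := volume) (g := fun t => u ^ 2 - u * U t) hte
      (as.continuous.norm.intervalIntegrable _ _)
      (intervalIntegrable_const.sub (hc.intervalIntegrable _ _)) fun t _ => by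
        have e : (U t ^ 2 - u * U t : ℂ) = -((U t * (u - U t) : ℝ) : ℂ) := by push_cast; ring
        have := Ub t
        rw [ha, norm_mul, norm_ex, mul_one, e, norm_neg, Complex.norm_real,
          Real.norm_of_nonneg (mul_nonneg this.1 (sub_nonneg.2 this.2))]
        nlinarith [sq_nonneg (u - U t)]
    rw [intervalIntegral.integral_sub intervalIntegrable_const
      (hc.intervalIntegrable _ _), intervalIntegral.integral_const_mul, i1,
      intervalIntegral.integral_const, smul_eq_mul] at i2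
    refine i2.trans (le_of_eq ?_)
    rw [he0]; field_simp; ring
  have R1s' : ContDiff ℝ ∞ fun y => ((c0 * u : ℝ) : ℂ) * R1 y := contDiff_const.mul R1s
  have R2s' : ContDiff ℝ ∞ fun y => ((c0 * u : ℝ) : ℂ) * R2 y := contDiff_const.mul R2s
  have R3s' : ContDiff ℝ ∞ fun y => (c0 : ℂ) * R3 y := contDiff_const.mul R3s
  have R30' : ∀ y, 60 * l < ‖y‖ → R3 y = 0 := fun y hy => R30 y (by linarith)
  have hall : ∀ vs, Adm cc vs → ContDiff ℝ ∞ (fun t => Φ vs (s t)) ∧ ∀ t,
      |deriv (fun t => Φ vs (s t)) t| * h ≤ C * U t ∧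
      |deriv (deriv fun t => Φ vs (s t)) t| ≤ C * u ^ 2 / h ^ 2 ∧
      |Φ vs (s t) - φ (s t)| ≤ C * cc / h := fun vs hv => by
    obtain ⟨ψs, ψb⟩ := HS.sm vs hv
    have φ1 := contDiff_infty_iff_deriv.1 ψs
    have d1 : ∀ t, HasDerivAt (fun t => Φ vs (s t)) (deriv (Φ vs) (s t) * U t) t := fun t =>
      (φ1.1 (s t)).hasDerivAt.comp t (sd t)
    have d2' : ∀ t, HasDerivAt (fun t => deriv (Φ vs) (s t) * U t)
        (deriv (deriv (Φ vs)) (s t) * U t * U t + deriv (Φ vs) (s t) * deriv U t) t := fun t =>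
      (((contDiff_infty_iff_deriv.1 φ1.2).1 (s t)).hasDerivAt.comp t (sd t)).mul
        ((contDiff_infty_iff_deriv.1 Us).1 t).hasDerivAt
    refine ⟨ψs.comp ss, fun t => ⟨?_, ?_, (ψb _).2.2.trans (by gcongr; linarith)⟩⟩
    · rw [(d1 t).deriv, abs_mul, abs_of_nonneg (Ub t).1, mul_right_comm]
      exact mul_le_mul_of_nonneg_right (((le_div_iff₀ hh0).1 (ψb _).1).trans (by linarith)) (Ub t).1
    · rw [funext fun t => (d1 t).deriv, (d2' t).deriv]
      have b1 := Ub t
      have b2 : M * u / τ ≤ M * u ^ 2 / h := by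
        rw [div_le_div_iff₀ hτ hh0]
        nlinarith [mul_le_mul_of_nonneg_left hh (by positivity : 0 ≤ M * u)]
      refine (abs_add_le _ _).trans ?_
      rw [abs_mul, abs_mul, abs_mul, abs_of_nonneg b1.1]
      calc _ ≤ C0 / h ^ 2 * u * u + C0 / h * (M * u ^ 2 / h) :=
            add_le_add (mul_le_mul (mul_le_mul (ψb _).2.1 b1.2 b1.1 (by positivity)) b1.2 b1.1 (by positivity))
              (mul_le_mul (ψb _).1 ((Ud t).trans b2) (abs_nonneg _) (by positivity))
        _ = C0 * (1 + M) * u ^ 2 / h ^ 2 := by field_simp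
        _ ≤ _ := by gcongr
  refine ⟨U, fun vs t => Φ vs (s t), Nr, tk, fun t => Y (s t), e0, fun y => ((c0 * u : ℝ) : ℂ) * R1 y,
    fun y => ((c0 * u : ℝ) : ℂ) * R2 y + c0 * R3 y, Us, HC, ht0, htN, Ys.comp ss, by linarith, by linarith, Ub, U0,
    fun t => (Ud t).trans (by gcongr), hall, fun t => ?_, fun t => Yb _ (sb t), R1s', R2s'.add R3s',
    fun y hy => by simp [R0 y hy, R30' y hy], fun y => ?_, fun k hk => ⟨?_, ?_⟩⟩
  · exact ((Yd (s t)).scomp t (sd t)).congr_deriv Complex.real_smul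
  · have gc : Continuous fun r => ex (2 * φ r) * etas d (y - Y r) :=
      (ex_sm (contDiff_const.mul φs)).continuous.mul
        ((etas_sm d).continuous.comp (continuous_const.sub Ys.continuous))
    have i1 := intervalIntegral.integral_deriv_smul_comp (fun t _ => sd t) Us.continuous.continuousOn gc
      (a := t0) (b := e0)
    rw [s0, s1, Rid y] at i1
    have i2 : ∫ t, U t ^ 2 * ex (2 * φ (s t)) * etas d (y - Y (s t)) =
        ∫ t in t0..e0, U t ^ 2 * ex (2 * φ (s t)) * etas d (y - Y (s t)) := by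
      rw [intervalIntegral.integral_of_le hte, ← integral_Icc_eq_integral_Ioc]
      exact (setIntegral_eq_integral_of_forall_compl_eq_zero fun t ht => by simp [U0 t ht]).symm
    have i3 : ∫ t in t0..e0, U t ^ 2 * ex (2 * φ (s t)) * etas d (y - Y (s t)) =
        u * (∫ t in t0..e0, U t • ((fun r => ex (2 * φ r) * etas d (y - Y r)) ∘ s) t) + R3 y := by
      have k1 : Continuous fun t => (u : ℂ) * U t • ((fun r => ex (2 * φ r) * etas d (y - Y r)) ∘ s) t :=
        continuous_const.mul (Us.continuous.smul (gc.comp ss.continuous))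
      have k2 : Continuous fun t => a t * etas d (y - (Y ∘ s) t) := as.continuous.mul
        ((etas_sm d).continuous.comp (continuous_const.sub (Ys.comp ss).continuous))
      rw [hR3, ← intervalIntegral.integral_const_mul, ← intervalIntegral.integral_add
        (k1.intervalIntegrable _ _) (k2.intervalIntegrable _ _)]
      refine intervalIntegral.integral_congr fun t _ => ?_
      simp only [ha, Function.comp, Complex.real_smul]
      ring
    have e : c0 * u * (2 * h * N0 / d2 ^ 2) * κ = 1 := by rw [hN, hκ]; field_simp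
    have e' : (c0 * u * (2 * h * N0 / d2 ^ 2) * κ : ℂ) = 1 := by exact_mod_cast e
    rw [i2, i3, i1]
    push_cast
    linear_combination (-m y) * e'
  · simp only [nD_mul R1s, integral_const_mul]
    rw [Complex.norm_real, Real.norm_of_nonneg (by positivity)]
    refine (mul_le_mul_of_nonneg_left (Rb k hk).1 (by positivity)).trans ?_
    rw [eN]
    calc _ = 1 / 2 * c0 * u ^ 2 * T * (h / l) / l ^ k := by field_simp
      _ ≤ _ := by gcongr; linarith
  · have i2 := nD_int R2s (fun y hy => (R0 y hy).2) k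
    have i3 := nD_int R3s R30' k
    have Ek : E k ≤ C := by
      have := mul_nonneg (zero_le_one.trans hC0) hM
      rcases hk with rfl | rfl <;> nlinarith [E0 0, E0 2]
    have b3 : ∫ y, nD k R3 y ≤ u ^ 2 * τ * (C / d ^ k) := (R3b k).trans (mul_le_mul ab
      ((etas_int k hd).trans (by gcongr)) (integral_nonneg fun _ => norm_nonneg _) (by positivity))
    refine (integral_mono (nD_int (R2s'.add R3s') (r := 60 * l) (fun y hy => by simp [R0 y hy, R30' y hy]) k)
      ((i2.const_mul (c0 * u)).add (i3.const_mul c0)) fun y => (nD_add R2s' R3s' k y).trans (le_of_eq ?_)).trans ?_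
    · rw [nD_mul R2s, nD_mul R3s, Complex.norm_real, Complex.norm_real, Real.norm_of_nonneg (by positivity),
        Real.norm_of_nonneg hc0.le]
      rfl
    · simp only [Pi.add_apply]
      rw [integral_add (i2.const_mul _) (i3.const_mul _), integral_const_mul, integral_const_mul]
      refine (add_le_add (mul_le_mul_of_nonneg_left (Rb k hk).2 (by positivity))
        (mul_le_mul_of_nonneg_left b3 hc0.le)).trans ?_
      rw [eN]
      calc _ = c0 * u ^ 2 * T * (C0 * (l ^ 3 / (u * T * d2 ^ 2)) + 1 / 2 * (d2 / d) + C * (τ / T)) / d ^ k := by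
            rw [hN]; field_simp
        _ ≤ c0 * u ^ 2 * T * (C * (l ^ 3 / (u * T * d2 ^ 2)) + C * (d2 / d) + C * (τ / T)) / d ^ k := by
            gcongr <;> linarith
        _ = _ := by ring

end

end Pool.Agent.Lib.EU2
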