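import Pool.Agent.Lib.EU2.Basic
import Pool.Agent.Lib.EUL.B_PATH0

/-! Block PATH0 (phase 2): a steerable path whose occupation density reproduces a given stress. -/

open MeasureTheory Set Filter Topology Pool.Agent.Lib.EUL
open scoped ContDiff ComplexConjugate

namespace Pool.Agent.Lib.EU2

theorem PATH0.str_mono {Φ : (ℕ → ℂ) → ℝ → ℝ} {N : ℕ} {sk : ℕ → ℝ} {Λ h c0 L C L' C' : ℝ}
    (H : Str Φ N sk Λ h c0 L C) (hh : 0 < h) (hc : 0 ≤ c0) (hL : L ≤ L') (hC : C ≤ C') :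
    Str Φ N sk Λ h c0 L' C' :=
  ⟨H.s0, H.sN, H.lt, fun k hk => (H.len k hk).trans hL,
    fun vs hv => ⟨(H.sm vs hv).1, fun s => ⟨((H.sm vs hv).2 s).1.trans (by gcongr),
      ((H.sm vs hv).2 s).2.1.trans (by gcongr), ((H.sm vs hv).2 s).2.2.trans (by gcongr)⟩⟩,
    H.loc, fun vs vs' a b k hk s hs => (H.lip vs vs' a b k hk s hs).trans (by gcongr), H.fin⟩

open SM EUL.PATH0 in
theorem st_PATH0 (hT : St_TOUR) (hR : St_RIEM) : St_PATH0 := by
  obtain ⟨CT, hCT, hT⟩ := hT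
  obtain ⟨CR, hCR, hR⟩ := hR
  obtain ⟨Ce, hCe, he⟩ := exists_etas
  obtain ⟨Ct, hCt, ht⟩ := exists_th
  have p1 : 0 ≤ CR * Ce := by positivity
  have p2 : 0 ≤ Ce * (Ct + 1) := by positivity
  have p3 : 0 ≤ CR * Ce * (Ct + 2) := by positivity
  refine ⟨CT + 84 * CR + 194400 * (Ce * (Ct + 1)) + 84 * (CR * Ce) + 24 * (CR * Ce * (Ct + 2)),
    by linarith, fun l h d d2 N0 cc μ hd2 h2d hdh hhl hN hc0 hch hμ hμs hμb => ?_⟩
  have hd : 0 < d := by linarith
  have hh : 0 < h := by linarith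
  have hl : 0 < l := by linarith
  have hN0 : 0 < N0 := by
    by_contra hc
    nlinarith [mul_nonneg (neg_nonneg.2 (not_lt.1 hc)) hh.le]
  have hμn : Nice μ (3 * l) := ⟨hμ, hμs⟩
  have hb := bb_mem hl hμs fun y => by simpa [nD] using hμb 0 (by norm_num) y
  have hB := nice_BB hl hμn
  have hBD := nD_BB hl hμn ht hμb
  obtain ⟨φk, Yk, hk, hT⟩ := hT h cc hh hc0 hch
  obtain ⟨A, hA1, hA2, hR⟩ := hR l d2 hd2 (by linarith)
  obtain ⟨Λ, Φ, Nr, sk, Y, L, ψ, Z, h2, h0, h1, h4, h5, h6, h7⟩ := hT A (fun i => d2 * lat i)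
    (fun i k => ⌊N0 * bb l μ k (d2 * lat i)⌋₊) (12 * l) (by linarith) fun i => hA2 i i.2
  choose G hG1 hG2 hG3 hG4 using fun k : Fin 3 =>
    curve hd (by linarith : 0 ≤ 8 * h) (hk k).1 (hk k).2.1 (hk k).2.2.1
  choose H hH1 hH2 hH3 hH4 using fun j =>
    curve hd (h6 j).1 (h6 j).2.2.1 (h6 j).2.2.2.1 (h6 j).2.2.2.2
  have hG5 : ∀ k, ∫ y, G k y = 2 * h * om k := fun k => (hG4 k).trans (hk k).2.2.2
  have hG6 : ∀ k, ∀ j ≤ 3, IN j (G k) ≤ 8 * h * (Ce / d ^ j) := fun k j hj =>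
    (hG3 k j).trans (mul_le_mul_of_nonneg_left (he d hd j hj) (by linarith))
  have hGz : ∀ k, ∀ᵐ w : ℂ, G k w = 0 ∨ ‖id w‖ ≤ 9 * h := fun k =>
    Eventually.of_forall fun w => (lt_or_ge (d + 8 * h) ‖w‖).imp ((hG2 k).2 w)
      fun hw => by simp only [id]; linarith
  have hBz : ∀ k, ∀ᵐ w : ℂ, BB l μ k w = 0 ∨ ‖id w‖ ≤ 6 * l := fun k =>
    Eventually.of_forall fun w => (lt_or_ge (6 * l) ‖w‖).imp ((hB k).2 w) id
  have hfl : ∀ (i : A) k, ‖((⌊N0 * bb l μ k (d2 * lat i)⌋₊ : ℕ) : ℂ) - N0 * BB l μ k (d2 * lat i)‖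
      ≤ 1 := fun i k => by
    have a0 := mul_nonneg hN0.le (hb k (d2 * lat i)).1
    have a1 := Nat.floor_le a0
    have a2 := Nat.lt_floor_add_one (N0 * bb l μ k (d2 * lat i))
    rw [BB_eq, ← Complex.ofReal_natCast, ← Complex.ofReal_mul, ← Complex.ofReal_sub,
      Complex.norm_real, Real.norm_eq_abs, abs_le]
    constructor <;> linarith
  have hcard : (Fintype.card A : ℝ) ≤ CR * l ^ 2 / d2 ^ 2 := by rwa [Fintype.card_coe]
  -- the pieces
  have n1 : ∀ k, Nice (fun y => sm volume (G k) id (BB l μ k) y - (∫ w, G k w) * BB l μ k y)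
      (15 * l) := fun k =>
    (((hB k).sm (hG2 k).int measurable_id (hGz k)).mono (by linarith)).sub
      (((hB k).cmul _).mono (by linarith))
  have n2 : ∀ (i : A) k, Nice (fun y => (((⌊N0 * bb l μ k (d2 * lat i)⌋₊ : ℕ) : ℂ) -
      N0 * BB l μ k (d2 * lat i)) * G k (y - d2 * lat i)) (60 * l) := fun i k =>
    (((hG2 k).shift (hA2 i i.2)).cmul _).mono (by linarith)
  have n3 : ∀ j, Nice (H j) (60 * l) := fun j => (hH2 j).mono (by linarith)
  have n4 : ∀ k, Nice (fun y => ∑ n ∈ A, (d2 : ℂ) ^ 2 * BB l μ k (d2 * lat n) * G k (y - d2 * lat n)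
      - ∫ w, BB l μ k w * G k (y - w)) (60 * l) := fun k =>
    (nice_sum A fun n hn => (((hG2 k).shift (hA2 n hn)).cmul _).mono (by linarith)).sub
      (((hG2 k).sm (hB k).int measurable_id (hBz k)).mono (by linarith))
  have m1 := (nice_sum Finset.univ fun k _ => n1 k).cmul ((N0 / d2 ^ 2 : ℝ) : ℂ)
  have m2 := nice_sum Finset.univ fun i _ => nice_sum Finset.univ fun k _ => n2 i k
  have m3 := nice_sum Finset.univ fun j _ => n3 j
  have m4 := (nice_sum Finset.univ fun k _ => n4 k).cmul ((N0 / d2 ^ 2 : ℝ) : ℂ)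
  have m5 := (m2.add m3).add m4
  have hnn : ‖((N0 / d2 ^ 2 : ℝ) : ℂ)‖ = N0 / d2 ^ 2 := by
    rw [Complex.norm_real, Real.norm_of_nonneg (by positivity)]
  have hX : 0 < N0 * h * l ^ 2 / d2 ^ 2 := by positivity
  refine ⟨Λ, Φ, Nr, sk, Y, _, _, PATH0.str_mono h2 hh hc0 (by linarith) (by linarith), h0,
    h1.trans ?_, h4,
    fun s hs => (h5 s hs).trans (by linarith), m1.1, m5.1,
    fun y hy => ⟨m1.2 y (by linarith), m5.2 y hy⟩, fun y => ?_, fun k hk2 => ⟨?_, ?_⟩⟩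
  · refine (Finset.sum_le_card_nsmul _ _ (84 * (N0 * h)) fun i _ => ?_).trans ?_
    · have a : ∀ k, ((⌊N0 * bb l μ k (d2 * lat i)⌋₊ : ℕ) : ℝ) ≤ N0 := fun k =>
        (Nat.floor_le (mul_nonneg hN0.le (hb k _).1)).trans
          (mul_le_of_le_one_right hN0.le (hb k _).2)
      rw [Fin.sum_univ_three]
      nlinarith [a 0, a 1, a 2]
    · rw [nsmul_eq_mul, Finset.card_univ]
      refine (mul_le_mul_of_nonneg_right hcard (by positivity)).trans ?_
      rw [show CR * l ^ 2 / d2 ^ 2 * (84 * (N0 * h)) = 84 * CR * (N0 * h * l ^ 2 / d2 ^ 2) by ring,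
        mul_assoc _ N0, mul_assoc _ (N0 * h), mul_div_assoc _ (N0 * h * l ^ 2)]
      exact mul_le_mul_of_nonneg_right (by linarith) hX.le
  · have e0 := h7 (fun z => etas d (y - z))
      ((nice_etas hd).1.continuous.comp (continuous_const.sub continuous_id))
    have e1 : ∀ k, sm volume (G k) id (BB l μ k) y = ∫ w, BB l μ k w * G k (y - w) := fun k => by
      rw [← integral_sub_left_eq_self (fun w => BB l μ k w * G k (y - w)) volume y]
      simp only [sm, id, sub_sub_cancel, mul_comm]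
    have e2 : ∀ k, ∑ n ∈ A, (d2 : ℂ) ^ 2 * BB l μ k (d2 * lat n) * G k (y - d2 * lat n) =
        (d2 : ℂ) ^ 2 * ∑ i : A, BB l μ k (d2 * lat i) * G k (y - d2 * lat i) := fun k => by
      rw [Finset.mul_sum, ← Finset.sum_coe_sort A]
      exact Finset.sum_congr rfl fun i _ => mul_assoc _ _ _
    have e3 := sum_BB l μ y
    have e4 : (d2 : ℂ) ≠ 0 := Complex.ofReal_ne_zero.2 hd2.ne'
    simp only [← sub_sub, ← hG1, ← hH1] at e0
    rw [e0]
    simp only [e2]
    simp only [e1, hG5, Fin.sum_univ_three, sub_mul, mul_assoc, Finset.sum_add_distrib,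
      Finset.sum_sub_distrib, ← Finset.mul_sum] at e3 ⊢
    rw [← e3]
    push_cast
    field_simp
    ring
  · have hk3 : k + 1 ≤ 3 := by omega
    have a : ∀ j, IN k (fun y => sm volume (G j) id (BB l μ j) y - (∫ w, G j w) * BB l μ j y) ≤
        4 * (15 * l) ^ 2 * (8 * h * Ce * ((Ct + 1) / l ^ (k + 1) * (9 * h))) := fun j => by
      refine IN_le_sup (n1 j) (by linarith) k fun y => ?_
      refine (nD_sm_sub (hG2 j).int measurable_id (hB j).1 (hB j).cs k (hBD j _ hk3) (hGz j)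
        y).trans (mul_le_mul_of_nonneg_right ?_ (by positivity))
      simpa [IN, nD] using hG6 j 0 (by norm_num)
    have b := IN_sum Finset.univ (fun k _ => n1 k) k fun j _ => a j
    refine (le_of_eq (IN_cmul (nice_sum Finset.univ fun k _ => n1 k).1 _ k)).trans ?_
    rw [hnn]
    refine (mul_le_mul_of_nonneg_left b (by positivity)).trans ?_
    rw [Finset.card_univ, Fintype.card_fin, mul_assoc _ (N0 * h * l ^ 2 / d2 ^ 2),
      mul_div_assoc _ _ (l ^ k)]
    refine le_trans (le_of_eq ?_) (mul_le_mul_of_nonneg_right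
      (by linarith : 194400 * (Ce * (Ct + 1)) ≤ _) (by positivity))
    push_cast
    field_simp
    ring
  · have hk3 : k + 1 ≤ 3 := by omega
    have hP : 0 < 1 / d ^ k := by positivity
    have a2 : ∀ (i : A) j, IN k (fun y => (((⌊N0 * bb l μ j (d2 * lat i)⌋₊ : ℕ) : ℂ) -
        N0 * BB l μ j (d2 * lat i)) * G j (y - d2 * lat i)) ≤ 8 * l * (Ce / d ^ k) := fun i j => by
      rw [IN_cmul ((hG2 j).shift (hA2 i i.2)).1, IN_shift]
      refine (mul_le_of_le_one_left (IN_nonneg _ _) (hfl i j)).trans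
        ((hG6 j k (by omega)).trans ?_)
      gcongr
    have b2 := IN_sum Finset.univ (fun i _ => nice_sum Finset.univ fun k _ => n2 i k) k
      fun i _ => IN_sum Finset.univ (fun k _ => n2 i k) k fun j _ => a2 i j
    have a3 : ∀ j, IN k (H j) ≤ 30 * l * (Ce / d ^ k) := fun j =>
      (hH3 j k).trans (mul_le_mul (by linarith [(h6 j).2.1]) (he d hd k (by omega))
        (IN_nonneg _ _) (by linarith))
    have b3 := IN_sum Finset.univ (fun j _ => n3 j) k fun j _ => a3 j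
    have a4 : ∀ j, IN k (fun y => ∑ n ∈ A, (d2 : ℂ) ^ 2 * BB l μ j (d2 * lat n) *
        G j (y - d2 * lat n) - ∫ w, BB l μ j w * G j (y - w)) ≤
        CR * l ^ 2 * d2 * ((Ct + 2) / d * (8 * h * (Ce / d ^ k))) := fun j => by
      refine (hR (BB l μ j) (G j) ((Ct + 1) / l ^ 1) k (hB j).1 (hG2 j).1 (hG2 j).cs (hB j).2
        (fun y => ?_) (hBD j 1 (by norm_num))).trans (mul_le_mul_of_nonneg_left ?_ (by positivity))
      · rw [BB_eq, Complex.norm_real, Real.norm_of_nonneg (hb j y).1]; exact (hb j y).2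
      · have c1 : (Ct + 1) / l ^ 1 * IN k (G j) ≤ (Ct + 1) / d * (8 * h * (Ce / d ^ k)) :=
          mul_le_mul (div_le_div_of_nonneg_left (by linarith) hd (by linarith))
            (hG6 j k (by omega)) (IN_nonneg _ _) (by positivity)
        have c2 := hG6 j (k + 1) hk3
        refine (add_le_add c1 c2).trans (le_of_eq ?_)
        field_simp
        ring
    have b4 := IN_sum Finset.univ (fun k _ => n4 k) k fun j _ => a4 j
    have c4 := IN_cmul (nice_sum Finset.univ fun k _ => n4 k).1 ((N0 / d2 ^ 2 : ℝ) : ℂ) k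
    rw [hnn] at c4
    have d4 := mul_le_mul_of_nonneg_left b4 (by positivity : 0 ≤ N0 / d2 ^ 2)
    have s1 := IN_add (m2.add m3) m4 k
    have s2 := IN_add m2 m3 k
    simp only [Finset.card_univ, Fintype.card_fin, Fintype.card_prod, Fintype.card_bool] at b2 b3 d4
    push_cast at b2 b3 d4
    rw [← c4] at d4
    have q := mul_le_mul_of_nonneg_right hcard (by positivity : 0 ≤ 84 * l * (Ce / d ^ k))
    have u1 : CR * l ^ 2 / d2 ^ 2 * (84 * l * (Ce / d ^ k)) =
        84 * (CR * Ce) * (N0 * h * l ^ 2 / d2 ^ 2 * (l / (N0 * h)) / d ^ k) := by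
      field_simp
    have u2 : N0 / d2 ^ 2 * (3 * (CR * l ^ 2 * d2 * ((Ct + 2) / d * (8 * h * (Ce / d ^ k))))) =
        24 * (CR * Ce * (Ct + 2)) * (N0 * h * l ^ 2 / d2 ^ 2 * (d2 / d) / d ^ k) := by
      field_simp
      ring
    have v1 : 0 ≤ N0 * h * l ^ 2 / d2 ^ 2 * (l / (N0 * h)) / d ^ k := by positivity
    have v2 : 0 ≤ N0 * h * l ^ 2 / d2 ^ 2 * (d2 / d) / d ^ k := by positivity
    rw [u1] at q
    rw [u2] at d4
    refine s1.trans ?_
    rw [mul_assoc _ (N0 * h * l ^ 2 / d2 ^ 2), mul_div_assoc _ _ (d ^ k),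
      mul_add (N0 * h * l ^ 2 / d2 ^ 2), add_div, mul_add]
    refine add_le_add (le_trans (by linarith) (q.trans ?_)) (d4.trans ?_)
    · exact mul_le_mul_of_nonneg_right (by linarith) v1
    · exact mul_le_mul_of_nonneg_right (by linarith) v2

end Pool.Agent.Lib.EU2
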