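import Pool.Agent.Lib.EU2.Blue
import Pool.Agent.Lib.EU2.H74Cov

/-! Placement of one box along a steered path. -/

set_option autoImplicit false

namespace Pool.Agent.Lib.EU2

open MeasureTheory Set Filter Topology Pool.Agent.Lib.EUL
open scoped ContDiff Classical

namespace PL1

theorem sub_int {f : ℝ → ℝ} (hf : Continuous f) {a b c d : ℝ} (h1 : a ≤ c) (h2 : c ≤ d)
    (h3 : d ≤ b) (h0 : ∀ t ∈ Icc a b, 0 ≤ f t) : ∫ t in c..d, f t ≤ ∫ t in a..b, f t :=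
  intervalIntegral.integral_mono_interval h1 h2 h3
    ((ae_restrict_iff' measurableSet_Ioc).2
      (Eventually.of_forall fun t ht => h0 t (Ioc_subset_Icc_self ht))) (hf.intervalIntegrable _ _)

theorem tk_mono {tk : ℕ → ℝ} {N : ℕ} (h : ∀ k < N, tk k ≤ tk (k + 1)) :
    ∀ j ≤ N, ∀ i ≤ j, tk i ≤ tk j := by
  intro j
  induction j with
  | zero => intro _ i hi; rw [Nat.le_zero.1 hi]
  | succ j ih =>
    intro hj i hi
    rcases Nat.lt_or_eq_of_le hi with h1 | h1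
    · exact (ih (by omega) i (by omega)).trans (h j (by omega))
    · rw [h1]

theorem find_k {tk : ℕ → ℝ} {t : ℝ} (h0 : tk 0 ≤ t) :
    ∀ n, t ≤ tk (n + 1) → ∃ k < n + 1, t ∈ Icc (tk k) (tk (k + 1)) := by
  intro n
  induction n with
  | zero => exact fun h => ⟨0, by omega, h0, h⟩
  | succ n ih =>
    intro h
    rcases le_total t (tk (n + 1)) with h1 | h1
    · obtain ⟨k, hk, h2⟩ := ih h1
      exact ⟨k, by omega, h2⟩
    · exact ⟨n + 1, by omega, h1, h⟩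

theorem sum_biU {κ α : Type} [DecidableEq α] (f : α → ℝ) (h0 : ∀ a, 0 ≤ f a) (J : κ → Finset α) (s : Finset κ) :
    ∑ a ∈ s.biUnion J, f a ≤ ∑ o ∈ s, ∑ a ∈ J o, f a := by
  induction s using Finset.induction_on with
  | empty => simp
  | insert o s ho ih =>
    rw [Finset.biUnion_insert, Finset.sum_insert ho]
    have h1 := Finset.sum_union_inter (s₁ := J o) (s₂ := s.biUnion J) (f := f)
    have h2 : 0 ≤ ∑ a ∈ J o ∩ s.biUnion J, f a := Finset.sum_nonneg fun a _ => h0 a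
    linarith

theorem near (hGR : St_GR) {u : ℝ → ℂ → ℂ} {z x Y ξ ξ0 : ℝ → ℂ} {G : ℝ → ℝ}
    {l d0 th c a b s : ℝ} {w : ℂ} (hu : Sm u) (hG : Continuous G) (hξ : Continuous ξ)
    (hξ0 : Continuous ξ0) (hz : ∀ t, HasDerivAt z (u t (z t)) t)
    (hY : ∀ t, HasDerivAt Y (ξ0 t) t) (bY : ∀ t, ‖Y t‖ ≤ 50 * l)
    (hx : ∀ t, HasDerivAt x (u t (x t) + ξ t) t) (hs : s ∈ Icc a b) (hl : 0 < l)
    (h0 : x s = z s + Y s + w) (hw : ‖w‖ + c ≤ l)
    (hc : ∀ t ∈ Icc a b, ‖∫ r in s..t, (ξ r - ξ0 r)‖ ≤ c)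
    (hD : ∀ t w, ‖w - z t‖ ≤ 400 * l → nD 1 (u t) w ≤ G t) (hi : ∫ t in a..b, G t ≤ th)
    (hth : 104 * l * th ≤ d0) (hd : d0 ≤ l) :
    ∀ t ∈ Icc a b, ‖x t - z t - Y t - w - ∫ r in s..t, (ξ r - ξ0 r)‖ ≤ d0 / 2 := by
  intro t ht
  have hb : (51 * l + l) * ∫ t in a..b, G t ≤ d0 / 2 := by nlinarith
  have := hGR u z x (fun t => Y t + w + ∫ r in s..t, (ξ r - ξ0 r)) ξ G a b s 0 (51 * l) l hu hG hξ
    hz (fun t => by
      have h1 := ((hY t).add_const w).add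
        ((hξ.sub hξ0).integral_hasStrictDerivAt s t).hasDerivAt
      rw [Pi.sub_apply, add_sub_cancel] at h1
      exact h1) hx hs hl
    (fun t ht => by
      have h1 := norm_add₃_le (a := Y t) (b := w) (c := ∫ r in s..t, (ξ r - ξ0 r))
      linarith [bY t, hc t ht])
    (norm_le_zero_iff.2 (by simp only [h0, intervalIntegral.integral_same]; ring))
    (fun t _ y hy => hD t y (by linarith)) (by linarith) t ht
  have e : x t - z t - Y t - w - ∫ r in s..t, (ξ r - ξ0 r)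
      = x t - z t - (Y t + w + ∫ r in s..t, (ξ r - ξ0 r)) := by ring
  rw [e]
  linarith

theorem lip (hGR : St_GR) {u : ℝ → ℂ → ℂ} {z x x' ξ ξ' : ℝ → ℂ} {G : ℝ → ℝ} {l ρ th a b : ℝ}
    (hu : Sm u) (hG : Continuous G) (hξ : Continuous ξ) (hξ' : ContDiff ℝ ∞ ξ')
    (hx : ∀ t, HasDerivAt x (u t (x t) + ξ t) t) (hx' : ∀ t, HasDerivAt x' (u t (x' t) + ξ' t) t)
    (hab : a ≤ b) (h0 : x a = x' a) (hρ : 0 < ρ) (hρl : ρ ≤ 100 * l)
    (hp : ∀ t ∈ Icc a b, ‖∫ r in a..t, (ξ r - ξ' r)‖ ≤ ρ)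
    (hn : ∀ t ∈ Icc a b, ‖x' t - z t‖ ≤ 51 * l)
    (hD : ∀ t w, ‖w - z t‖ ≤ 400 * l → nD 1 (u t) w ≤ G t) (hi : ∫ t in a..b, G t ≤ th)
    (hth : th < 1 / 2) : ‖x b - x' b - ∫ r in a..b, (ξ r - ξ' r)‖ ≤ 2 * ρ * th := by
  have hc := hξ.sub hξ'.continuous
  have := hGR (fun t y => u t y + ξ' t) x' x (fun t => ∫ r in a..t, (ξ r - ξ' r))
    (fun t => ξ t - ξ' t) G a b a 0 ρ ρ (ContDiff.add hu (hξ'.comp contDiff_fst)) hG hc hx'
    (fun t => (hc.integral_hasStrictDerivAt a t).hasDerivAt)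
    (fun t => by
      have e : u t (x t) + ξ' t + (ξ t - ξ' t) = u t (x t) + ξ t := by ring
      rw [e]
      exact hx t) (left_mem_Icc.2 hab) hρ hp (by simp [h0])
    (fun t ht y hy => by
      have h1 := norm_sub_le_norm_sub_add_norm_sub y (x' t) (z t)
      have h2 := hD t y (by linarith [hn t ht])
      rw [nD, norm_iteratedFDeriv_one] at h2 ⊢
      rw [fderiv_add_const]
      exact h2)
    (by nlinarith) b (right_mem_Icc.2 hab)
  nlinarith

noncomputable def cut (l s : ℝ) : ℝ := max 0 (min 1 (53 - s / l))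

theorem cut_cont (l : ℝ) : Continuous (cut l) := by
  unfold cut
  fun_prop

theorem cut_0 (l s : ℝ) : 0 ≤ cut l s := le_max_left _ _

theorem cut_1 (l s : ℝ) : cut l s ≤ 1 := max_le zero_le_one (min_le_left _ _)

theorem cut_one {l s : ℝ} (hl : 0 < l) (h : s ≤ 52 * l) : cut l s = 1 := by
  have : s / l ≤ 52 := (div_le_iff₀ hl).2 h
  rw [cut, min_eq_left (by linarith), max_eq_right zero_le_one]

theorem cut_zero {l s : ℝ} (hl : 0 < l) (h : ¬ s ≤ 53 * l) : cut l s = 0 := by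
  have : 53 < s / l := (lt_div_iff₀ hl).2 (not_le.1 h)
  exact max_eq_left ((min_le_right _ _).trans (by linarith))

/-- the unsafe start points for one obstacle in one round -/
theorem cover1 (hCOV : St_COV) {u : ℝ → ℂ → ℂ} {y z ξ : ℝ → ℂ} {act lam U G : ℝ → ℝ}
    {X : ℂ → ℝ → ℂ} {p : ℂ} {so eo r l D d0 t0 t1 : ℝ} (hu : SP u) (hr : 0 < r) (hrD : r ≤ D)
    (hD12 : 12 * D ≤ l) (hl : l ≤ 1 / 10000) (hy : ContDiff ℝ ∞ y) (ha : Continuous act)
    (hlam : Continuous lam) (h01 : ∀ t, 0 ≤ act t ∧ act t ≤ 1 ∧ 0 ≤ lam t)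
    (hin : ∀ t ∈ Icc so eo, act t = 1 ∧ ‖deriv y t - u t (y t)‖ ≤ lam t)
    (hlong : r ≤ ∫ t in so..eo, lam t) (ht : t0 ≤ t1) (hz : Continuous z) (hξ : Continuous ξ)
    (hU : Continuous U) (hξU : ∀ t, ‖ξ t‖ ≤ U t)
    (hX : ∀ a, ‖a‖ ≤ d0 → X a t0 = p + a ∧ (∀ t, HasDerivAt (X a) (u t (X a t) + ξ t) t) ∧
      ∀ t ∈ Icc t0 t1, ‖X a t - z t‖ ≤ 51 * l) (hG : Continuous G)
    (hD : ∀ t w, ‖w - z t‖ ≤ 400 * l → nD 1 (u t) w ≤ G t) (hi : ∫ t in t0..t1, G t ≤ 1 / 10) :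
    ∃ A : Finset ℂ, (A.card : ℝ) * r ^ 2 ≤
        2 * (∫ t in t0..t1, r * (cut l (pn (y t - z t)) * act t * (lam t + U t)))
        + 2 * D ^ 2 * ((if act t0 ≠ 0 ∧ pn (y t0 - z t0) ≤ 53 * l then 1 else 0)
          + if act t1 ≠ 0 ∧ pn (y t1 - z t1) ≤ 53 * l then 1 else 0) ∧
      ∀ a, ‖a‖ ≤ d0 → (∃ t ∈ Icc so eo, t ∈ Icc t0 t1 ∧ pn (X a t - y t) < 4 * r) →
        ∃ b ∈ A, ‖a - b‖ ≤ 12 * r := by
  have l0 : 0 < l := by linarith
  set μ : ℝ → ℝ := fun t => cut l (pn (y t - z t)) * act t * (lam t + U t) with hμ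
  have U0 : ∀ t, 0 ≤ U t := fun t => (norm_nonneg _).trans (hξU t)
  have mc : Continuous μ :=
    (((cut_cont l).comp (continuous_pn.comp (hy.continuous.sub hz))).mul ha).mul (hlam.add hU)
  have m0 : ∀ t, 0 ≤ μ t := fun t =>
    mul_nonneg (mul_nonneg (cut_0 _ _) (h01 t).1) (add_nonneg (h01 t).2.2 (U0 t))
  rw [intervalIntegral.integral_const_mul]
  have i0 : 0 ≤ ∫ t in t0..t1, μ t := intervalIntegral.integral_nonneg ht fun t _ => m0 t
  have j0 : ∀ t, (0 : ℝ) ≤ if act t ≠ 0 ∧ pn (y t - z t) ≤ 53 * l then 1 else 0 := fun t => by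
    split_ifs <;> norm_num
  have D2 : 0 ≤ D ^ 2 := sq_nonneg D
  by_cases hbad : ∃ a, ‖a‖ ≤ d0 ∧ ∃ t ∈ Icc so eo, t ∈ Icc t0 t1 ∧ pn (X a t - y t) < 4 * r
  swap
  · refine ⟨∅, ?_, fun a h1 h2 => absurd ⟨a, h1, h2⟩ hbad⟩
    have := mul_nonneg hr.le i0
    have := mul_nonneg D2 (add_nonneg (j0 t0) (j0 t1))
    simp only [Finset.card_empty, Nat.cast_zero, zero_mul]
    linarith
  obtain ⟨a0, ha0, t', h1, h2, h3⟩ := hbad
  have hm : t' ∈ Icc (max so t0) (min eo t1) := ⟨max_le h1.1 h2.1, le_min h1.2 h2.2⟩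
  have hse : max so t0 ≤ min eo t1 := hm.1.trans hm.2
  have sub : ∀ t ∈ Icc (max so t0) (min eo t1), t ∈ Icc so eo := fun t h =>
    ⟨(le_max_left _ _).trans h.1, h.2.trans (min_le_left _ _)⟩
  have uc : Continuous fun t => u t (y t) :=
    hu.1.continuous.comp (continuous_id.prodMk hy.continuous)
  obtain ⟨⟨A, hA, hcov⟩, hcase⟩ := hCOV u z y ξ (fun t => deriv y t - u t (y t)) X G μ p l d0 r t0
    t1 (max so t0) (min eo t1) hu hG mc m0 hξ ((hy.continuous_deriv (by simp)).sub uc) hr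
    (by linarith) hl (le_max_right _ _) hse (min_le_right _ _)
    (fun t => by
      rw [add_sub_cancel]
      exact (hy.differentiable (by simp) t).hasDerivAt) hX hD hi
    (fun t h hp => by
      simp only [hμ]
      rw [cut_one l0 hp, (hin t (sub t h)).1, one_mul, one_mul]
      exact (norm_sub_le _ _).trans (add_le_add (hin t (sub t h)).2 (hξU t)))
  have i1 : ∫ t in (max so t0)..(min eo t1), μ t ≤ ∫ t in t0..t1, μ t :=
    sub_int mc (le_max_right _ _) hse (min_le_right _ _) fun t _ => m0 t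
  refine ⟨A, ?_, fun a h4 ⟨t, h5, h6, h7⟩ =>
    hcov a h4 ⟨t, ⟨max_le h5.1 h6.1, le_min h5.2 h6.2⟩, h7⟩⟩
  have hA' : (A.card : ℝ) * r ^ 2 ≤ r ^ 2 + r * ∫ t in (max so t0)..(min eo t1), μ t := by
    have := mul_le_mul_of_nonneg_right hA (sq_nonneg r)
    have e : (1 + (∫ t in (max so t0)..(min eo t1), μ t) / r) * r ^ 2
        = r ^ 2 + r * ∫ t in (max so t0)..(min eo t1), μ t := by field_simp
    linarith
  by_cases hbig : r ≤ ∫ t in (max so t0)..(min eo t1), μ t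
  · have := mul_nonneg D2 (add_nonneg (j0 t0) (j0 t1))
    nlinarith
  have hnear := (hcase ⟨a0, ha0, t', hm, h3⟩).resolve_left hbig
  have r2 : r ^ 2 ≤ D ^ 2 := by nlinarith
  have hfin : (A.card : ℝ) * r ^ 2 ≤ 2 * D ^ 2 := by nlinarith [not_le.1 hbig]
  have hind : ∀ t ∈ Icc (max so t0) (min eo t1),
      (if act t ≠ 0 ∧ pn (y t - z t) ≤ 53 * l then (1 : ℝ) else 0) = 1 := fun t h =>
    if_pos ⟨by rw [(hin t (sub t h)).1]; exact one_ne_zero, (hnear t h).trans (by linarith)⟩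
  have k0 := mul_nonneg hr.le i0
  rcases le_total so t0 with h8 | h8
  · have := hind t0 (by rw [max_eq_right h8] at hse ⊢; exact left_mem_Icc.2 hse)
    rw [this]
    nlinarith [mul_nonneg D2 (j0 t1)]
  rcases le_total t1 eo with h9 | h9
  · have := hind t1 (by rw [min_eq_right h9] at hse ⊢; exact right_mem_Icc.2 hse)
    rw [this]
    nlinarith [mul_nonneg D2 (j0 t0)]
  exfalso
  rw [max_eq_left h8, min_eq_left h9] at hbig hnear hse
  refine hbig (hlong.trans (intervalIntegral.integral_mono_on hse (hlam.intervalIntegrable _ _)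
    (mc.intervalIntegrable _ _) fun t h => ?_))
  simp only [hμ]
  rw [cut_one l0 (hnear t h), (hin t h).1]
  linarith [U0 t]

/-- the unsafe start points of one round -/
theorem cover (hCOV : St_COV) {u : ℝ → ℂ → ℂ} {κ : Type} [Fintype κ] {y : κ → ℝ → ℂ}
    {so eo r : κ → ℝ} {act lam : κ → ℝ → ℝ} {z ξ : ℝ → ℂ} {U G H : ℝ → ℝ}
    {X : ℂ → ℝ → ℂ} {p : ℂ} {l D d0 g M t0 t1 : ℝ} (hu : SP u) (hg : 0 < g)
    (hD12 : 12 * D ≤ l) (l0 : 0 < l) (hl : l ≤ 1 / 10000)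
    (ho : ∀ o, ContDiff ℝ ∞ (y o) ∧ so o ≤ eo o ∧ g ≤ r o ∧ r o ≤ D ∧ Continuous (act o) ∧
      Continuous (lam o) ∧ (∀ t, 0 ≤ act o t ∧ act o t ≤ 1 ∧ 0 ≤ lam o t) ∧
      (∀ t ∈ Icc (so o) (eo o), act o t = 1 ∧ ‖deriv (y o) t - u t (y o t)‖ ≤ lam o t) ∧
      r o ≤ ∫ t in (so o)..(eo o), lam o t) (D0 : 0 ≤ D)
    (ht : t0 ≤ t1) (hz : Continuous z) (hξ : Continuous ξ)
    (hU : Continuous U) (hξU : ∀ t, ‖ξ t‖ ≤ U t)
    (hX : ∀ a, ‖a‖ ≤ d0 → X a t0 = p + a ∧ (∀ t, HasDerivAt (X a) (u t (X a t) + ξ t) t) ∧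
      ∀ t ∈ Icc t0 t1, ‖X a t - z t‖ ≤ 51 * l) (hG : Continuous G) (hH : Continuous H)
    (hD : ∀ t w, ‖w - z t‖ ≤ 400 * l → nD 1 (u t) w ≤ G t) (hi : ∫ t in t0..t1, G t ≤ 1 / 10)
    (hM : ∀ t ∈ Icc t0 t1,
      ((Finset.univ.filter fun o => act o t ≠ 0 ∧ pn (y o t - z t) ≤ 53 * l).card : ℝ) ≤ M)
    (hHs : ∀ t ∈ Icc t0 t1, ∑ o ∈ Finset.univ.filter (fun o => pn (y o t - z t) ≤ 53 * l),
      act o t * (r o * lam o t) ≤ H t) :
    ∃ J : Finset (ℂ × ℝ), (∀ j ∈ J, g ≤ j.2) ∧ ∑ j ∈ J, j.2 ^ 2 ≤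
        288 * ((∫ t in t0..t1, H t) + M * D * ∫ t in t0..t1, U t) + 576 * (M * D ^ 2) ∧
      ∀ a, ‖a‖ ≤ d0 → (∃ o, ∃ t ∈ Icc (so o) (eo o), t ∈ Icc t0 t1 ∧ pn (X a t - y o t) < 4 * r o) →
        ∃ j ∈ J, ‖a - j.1‖ ≤ j.2 := by
  have r0 : ∀ o, 0 < r o := fun o => hg.trans_le (ho o).2.2.1
  have U0 : ∀ t, 0 ≤ U t := fun t => (norm_nonneg _).trans (hξU t)
  choose A hA hcov using fun o => cover1 hCOV (so := so o) (eo := eo o) (act := act o)
    (lam := lam o) hu (r0 o) (ho o).2.2.2.1 hD12 hl (ho o).1 (ho o).2.2.2.2.1 (ho o).2.2.2.2.2.1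
    (ho o).2.2.2.2.2.2.1 (ho o).2.2.2.2.2.2.2.1 (ho o).2.2.2.2.2.2.2.2 ht hz hξ hU hξU hX hG hD hi
  refine ⟨Finset.univ.biUnion fun o => (A o).image fun b => (b, 12 * r o), fun j hj => ?_, ?_,
    fun a ha ⟨o, h⟩ => ?_⟩
  · obtain ⟨o, -, hj⟩ := Finset.mem_biUnion.1 hj
    obtain ⟨b, -, rfl⟩ := Finset.mem_image.1 hj
    linarith [(ho o).2.2.1, r0 o]
  swap
  · obtain ⟨b, hb, h1⟩ := hcov o a ha h
    exact ⟨(b, 12 * r o), Finset.mem_biUnion.2 ⟨o, Finset.mem_univ _,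
      Finset.mem_image_of_mem _ hb⟩, h1⟩
  have s1 : ∀ o, ∑ j ∈ (A o).image (fun b => (b, 12 * r o)), j.2 ^ 2
      = 144 * (((A o).card : ℝ) * r o ^ 2) := fun o => by
    rw [Finset.sum_image fun _ _ _ _ h => (Prod.ext_iff.1 h).1]
    simp only [Finset.sum_const, nsmul_eq_mul]
    ring
  have mc : ∀ o, Continuous fun t =>
      r o * (cut l (pn (y o t - z t)) * act o t * (lam o t + U t)) := fun o =>
    continuous_const.mul ((((cut_cont l).comp (continuous_pn.comp ((ho o).1.continuous.sub hz))).mul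
      (ho o).2.2.2.2.1).mul ((ho o).2.2.2.2.2.1.add hU))
  have cnt : ∀ t ∈ Icc t0 t1,
      ∑ o, (if act o t ≠ 0 ∧ pn (y o t - z t) ≤ 53 * l then (1 : ℝ) else 0) ≤ M := fun t h => by
    rw [Finset.sum_boole]
    exact hM t h
  have s2 : ∑ o, ∫ t in t0..t1, r o * (cut l (pn (y o t - z t)) * act o t * (lam o t + U t))
      ≤ (∫ t in t0..t1, H t) + M * D * ∫ t in t0..t1, U t := by
    have c2 : Continuous fun t => M * D * U t := continuous_const.mul hU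
    rw [← intervalIntegral.integral_finsetSum fun o _ => (mc o).intervalIntegrable _ _,
      ← intervalIntegral.integral_const_mul,
      ← intervalIntegral.integral_add (hH.intervalIntegrable _ _) (c2.intervalIntegrable _ _)]
    refine intervalIntegral.integral_mono_on ht
      ((continuous_finsetSum _ fun o _ => mc o).intervalIntegrable _ _)
      ((hH.add c2).intervalIntegrable _ _) fun t h => ?_
    have h1 := hHs t h
    rw [Finset.sum_filter] at h1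
    have h2 := mul_le_mul_of_nonneg_right (cnt t h) (mul_nonneg D0 (U0 t))
    rw [Finset.sum_mul] at h2
    refine le_trans ?_ (add_le_add h1 (h2.trans_eq (mul_assoc _ _ _).symm))
    rw [← Finset.sum_add_distrib]
    refine Finset.sum_le_sum fun o _ => ?_
    obtain ⟨a0, a1, b0⟩ := (ho o).2.2.2.2.2.2.1 t
    by_cases hp : pn (y o t - z t) ≤ 53 * l
    · have c0 := cut_0 l (pn (y o t - z t))
      have c1 := cut_1 l (pn (y o t - z t))
      by_cases ha : act o t = 0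
      · simp [ha]
      · rw [if_pos hp, if_pos ⟨ha, hp⟩]
        have e1 : 0 ≤ act o t * (r o * lam o t) := mul_nonneg a0 (mul_nonneg (r0 o).le b0)
        have e2 : 0 ≤ act o t * (r o * U t) := mul_nonneg a0 (mul_nonneg (r0 o).le (U0 t))
        have e3 : act o t * (r o * U t) ≤ 1 * (D * U t) :=
          mul_le_mul a1 (mul_le_mul_of_nonneg_right (ho o).2.2.2.1 (U0 t))
            (mul_nonneg (r0 o).le (U0 t)) zero_le_one
        nlinarith
    · rw [cut_zero l0 hp]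
      simp [hp]
  refine (sum_biU (fun j : ℂ × ℝ => j.2 ^ 2) (fun _ => sq_nonneg _) _ _).trans ?_
  simp only [s1]
  rw [← Finset.mul_sum]
  have s3 := Finset.sum_le_sum fun o (_ : o ∈ Finset.univ) => hA o
  rw [Finset.sum_add_distrib, ← Finset.mul_sum, ← Finset.mul_sum, Finset.sum_add_distrib] at s3
  have := mul_le_mul_of_nonneg_left
    (add_le_add (cnt t0 (left_mem_Icc.2 ht)) (cnt t1 (right_mem_Icc.2 ht))) (sq_nonneg D)
  nlinarith

end PL1

open PL1 in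
theorem st_PL1 (hODE : St_ODE) (hGR : St_GR) (_hGR2 : St_GR2) (hCOV : St_COV)
    (hST : St_STEER) : St_PL1 := by
  refine ⟨230400000, by norm_num, ?_⟩
  intro u κ _ y so eo r act lam z Y ξ U N tk G H l D d0 g th1 LL L K M ta tb hu ⟨ua, ub, hts⟩ hg hgD
    hD12 hK hKl hl hth hL ho hC hta htb hz hY bY hG hH hD hi hM hHs hLL hA
  have d0p : 0 < d0 := by linarith
  have Kd : d0 ≤ K * d0 := by nlinarith
  have l0 : 0 < l := by nlinarith
  have dl : d0 ≤ l := by nlinarith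
  have dl5 : 5 * d0 ≤ l := by nlinarith
  have th : th1 ≤ 1 / 520 := by nlinarith
  have Kth : K * th1 ≤ 1 / 4 := by
    have h1 : K * (104 * l * th1) ≤ K * d0 := mul_le_mul_of_nonneg_left hth (by linarith)
    have h2 : l * (K * th1) ≤ l * (1 / 4) := by nlinarith
    exact le_of_mul_le_mul_left h2 l0
  have G0 : ∀ t, 0 ≤ G t := fun t => (norm_nonneg _).trans (hD t (z t) (by simp; linarith))
  have mono := tk_mono hC.mono
  have t0N : tk 0 ≤ tk N := mono N le_rfl 0 (Nat.zero_le _)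
  have lo : ∀ k ≤ N, ta ≤ tk k := fun k hk => hta.trans (mono k hk 0 (Nat.zero_le _))
  have hi' : ∀ k ≤ N, tk k ≤ tb := fun k hk => (mono N le_rfl k hk).trans htb
  have iG : ∀ {a b : ℝ}, ta ≤ a → a ≤ b → b ≤ tb → ∫ t in a..b, G t ≤ th1 := fun h1 h2 h3 =>
    (sub_int hG h1 h2 h3 fun t _ => G0 t).trans hi
  have zc : Continuous z := continuous_iff_continuousAt.2 fun t => (hz t).continuousAt
  have A0 : Adm (3 * d0) 0 := fun k => by simp; linarith
  have Ac : ∀ v : ℂ, ‖v‖ ≤ 3 * d0 → Adm (3 * d0) fun _ => v := fun v hv _ => hv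
  have hex : ∀ (vs : ℕ → ℂ) (s : ℝ) (p : ℂ), ∃ x : ℝ → ℂ, Adm (3 * d0) vs →
      ContDiff ℝ ∞ x ∧ x s = p ∧ ∀ t, HasDerivAt x (u t (x t) + ξ vs t) t := fun vs s p => by
    by_cases h : Adm (3 * d0) vs
    · obtain ⟨x, hx⟩ := hODE u ua ub (ξ vs) s p hu hts (hC.sm vs h).1
      exact ⟨x, fun _ => hx⟩
    · exact ⟨0, fun h' => absurd h' h⟩
  choose sol hsol using hex
  -- the basic estimate in one round
  have nr : ∀ vs, Adm (3 * d0) vs → ∀ k < N, ∀ a : ℂ, ‖a‖ ≤ d0 → ∀ x : ℝ → ℂ,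
      (∀ t, HasDerivAt x (u t (x t) + ξ vs t) t) → x (tk k) = z (tk k) + Y (tk k) + a →
      (∀ t ∈ Icc (tk k) (tk (k + 1)), ‖x t - z t - Y t‖ ≤ (2 + 3 * K) * d0 ∧
        ‖x t - z t‖ ≤ 51 * l) ∧
      ‖x (tk (k + 1)) - z (tk (k + 1)) - Y (tk (k + 1)) - a - vs k‖ ≤ d0 / 2 := by
    intro vs hvs k hk a ha x hx h0
    have hc : ∀ t ∈ Icc (tk k) (tk (k + 1)), ‖∫ r in (tk k)..t, (ξ vs r - ξ 0 r)‖ ≤ 3 * K * d0 :=
      fun t ht => (hC.lip vs 0 hvs A0 k hk t ht).trans (by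
        have := hvs k
        simp only [Pi.zero_apply, sub_zero]
        nlinarith)
    have := near hGR hu.1 hG (hC.sm vs hvs).1.continuous (hC.sm 0 A0).1.continuous hz hY bY hx
      (left_mem_Icc.2 (hC.mono k hk)) l0 h0 (by linarith) hc hD
      (iG (lo k hk.le) (hC.mono k hk) (hi' _ hk)) hth dl
    refine ⟨fun t ht => ?_, ?_⟩
    · have h1 := norm_add₃_le (a := x t - z t - Y t - a - ∫ r in (tk k)..t, (ξ vs r - ξ 0 r))
        (b := ∫ r in (tk k)..t, (ξ vs r - ξ 0 r)) (c := a)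
      rw [sub_add_cancel, sub_add_cancel] at h1
      have h2 : ‖x t - z t - Y t‖ ≤ (2 + 3 * K) * d0 := by linarith [this t ht, hc t ht]
      have h3 := norm_add_le (x t - z t - Y t) (Y t)
      rw [sub_add_cancel] at h3
      exact ⟨h2, by linarith [bY t]⟩
    · have h1 := this _ (right_mem_Icc.2 (hC.mono k hk))
      rwa [hC.fin vs 0 hvs A0 k hk, Pi.zero_apply, sub_zero] at h1
  set S : ℕ → ℂ → ℂ → ℝ → ℂ := fun k a v => sol (fun _ => v) (tk k) (z (tk k) + Y (tk k) + a)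
    with hS
  have H0 : ∀ t ∈ Icc ta tb, 0 ≤ H t := fun t ht => le_trans (Finset.sum_nonneg fun o _ =>
    mul_nonneg ((ho o).2.2.2.2.2.2.1 t).1
      (mul_nonneg (hg.le.trans (ho o).2.2.1) ((ho o).2.2.2.2.2.2.1 t).2.2)) (hHs t ht)
  have tab : ta ≤ tb := hta.trans (t0N.trans htb)
  have M0 : 0 ≤ M := (Nat.cast_nonneg _).trans (hM ta (left_mem_Icc.2 tab))
  have D0 : 0 ≤ D := by linarith
  have LL0 : 0 ≤ LL := (intervalIntegral.integral_nonneg tab H0).trans hLL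
  obtain ⟨a, v, hav, hst⟩ := hST N g d0 (576 * (LL + M * D * L + M * D ^ 2))
    (fun k a v => ∀ o, ∀ t ∈ Icc (so o) (eo o), t ∈ Icc (tk k) (tk (k + 1)) →
      4 * r o ≤ pn (S k a v t - y o t))
    (fun k a v => S k a v (tk (k + 1)) - z (tk (k + 1)) - Y (tk (k + 1))) hg (by linarith)
    (by linarith)
    (fun k hk v hv => by
      have sub : ∀ t ∈ Icc (tk k) (tk (k + 1)), t ∈ Icc ta tb := fun t h =>
        ⟨(lo k hk.le).trans h.1, h.2.trans (hi' _ hk)⟩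
      obtain ⟨J, j1, j2, j3⟩ := cover hCOV (X := fun a => S k a v) (p := z (tk k) + Y (tk k))
        (d0 := d0) (M := M) hu hg (by linarith) l0 hl ho D0 (hC.mono k hk) zc
        (hC.sm _ (Ac v hv)).1.continuous hC.Ucont (hC.sm _ (Ac v hv)).2
        (fun a ha => ⟨(hsol _ _ _ (Ac v hv)).2.1, (hsol _ _ _ (Ac v hv)).2.2, fun t ht =>
          ((nr _ (Ac v hv) k hk a ha _ (hsol _ _ _ (Ac v hv)).2.2
            (hsol _ _ _ (Ac v hv)).2.1).1 t ht).2⟩) hG hH hD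
        ((iG (lo k hk.le) (hC.mono k hk) (hi' _ hk)).trans (by linarith))
        (fun t h => hM t (sub t h)) (fun t h => hHs t (sub t h))
      refine ⟨J, j1, j2.trans ?_, fun a ha hn => j3 a ha ?_⟩
      · have h1 := (sub_int hH (lo k hk.le) (hC.mono k hk) (hi' _ hk) H0).trans hLL
        have h2 := mul_le_mul_of_nonneg_left (hC.len k hk) (mul_nonneg M0 D0)
        have h3 := mul_nonneg (mul_nonneg M0 D0) hL
        linarith
      · by_contra hb
        exact hn fun o t h1 h2 => not_lt.1 fun h3 => hb ⟨o, t, h1, h2, h3⟩)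
    (fun k hk a ha v hv => by
      have n1 := nr _ (Ac v hv) k hk a ha _ (hsol _ _ _ (Ac v hv)).2.2 (hsol _ _ _ (Ac v hv)).2.1
      refine ⟨n1.2, fun v' hv' => ?_⟩
      rcases eq_or_ne v v' with rfl | hne
      · simp
      have n2 := nr _ (Ac v' hv') k hk a ha _ (hsol _ _ _ (Ac v' hv')).2.2
        (hsol _ _ _ (Ac v' hv')).2.1
      have p0 : 0 < ‖v - v'‖ := norm_pos_iff.2 (sub_ne_zero.2 hne)
      have p1 : ‖v - v'‖ ≤ 6 * d0 := (norm_sub_le _ _).trans (by linarith)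
      have h1 := lip hGR (x := S k a v) (x' := S k a v') (ρ := K * ‖v - v'‖) hu.1 hG
        (hC.sm _ (Ac v hv)).1.continuous (hC.sm _ (Ac v' hv')).1 (hsol _ _ _ (Ac v hv)).2.2
        (hsol _ _ _ (Ac v' hv')).2.2 (hC.mono k hk)
        ((hsol _ _ _ (Ac v hv)).2.1.trans (hsol _ _ _ (Ac v' hv')).2.1.symm) (by positivity)
        (by nlinarith) (hC.lip _ _ (Ac v hv) (Ac v' hv') k hk) (fun t ht => (n2.1 t ht).2) hD
        (iG (lo k hk.le) (hC.mono k hk) (hi' _ hk)) (by linarith)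
      rw [hC.fin _ _ (Ac v hv) (Ac v' hv') k hk] at h1
      have e : S k a v (tk (k + 1)) - z (tk (k + 1)) - Y (tk (k + 1))
          - (S k a v' (tk (k + 1)) - z (tk (k + 1)) - Y (tk (k + 1)))
          = S k a v (tk (k + 1)) - S k a v' (tk (k + 1)) := by ring
      rw [e]
      have h2 := norm_sub_le (S k a v (tk (k + 1)) - S k a v' (tk (k + 1)))
        (S k a v (tk (k + 1)) - S k a v' (tk (k + 1)) - (v - v'))
      rw [sub_sub_cancel] at h2
      nlinarith)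
  have Av : Adm (3 * d0) v := fun k => (hav k).2
  obtain ⟨xs, x0, hx⟩ := hsol v (tk 0) (z (tk 0) + Y (tk 0) + a 0) Av
  set x := sol v (tk 0) (z (tk 0) + Y (tk 0) + a 0)
  have step : ∀ k < N, x (tk k) = z (tk k) + Y (tk k) + a k →
      ∀ t ∈ Icc (tk k) (tk (k + 1)), x t = S k (a k) (v k) t := fun k hk h0 =>
    H74.uniq (r := l) hu.1 hG hx (hsol _ _ _ (Ac _ (Av k))).2.2
      (hC.loc _ _ (Ac _ (Av k)) Av k hk rfl) (left_mem_Icc.2 (hC.mono k hk)) l0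
      (fun t ht => ((nr v Av k hk _ (hav k).1 x hx h0).1 t ht).2)
      (fun t _ w hw => hD t w (by linarith)) (h0.trans (hsol _ _ _ (Ac _ (Av k))).2.1.symm)
      ((iG (lo k hk.le) (hC.mono k hk) (hi' _ hk)).trans_lt (by linarith))
  have at' : ∀ k ≤ N, x (tk k) = z (tk k) + Y (tk k) + a k := by
    intro k
    induction k with
    | zero => exact fun _ => x0
    | succ k ih =>
      intro hk
      rw [step k hk (ih (by omega)) _ (right_mem_Icc.2 (hC.mono k hk)), (hst k hk).1]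
      ring
  have off : ∀ vs, Adm (3 * d0) vs → ∀ t, t ∉ Icc (tk 0) (tk N) → ξ vs t = 0 := fun vs h t ht =>
    norm_le_zero_iff.1 (((hC.sm vs h).2 t).trans_eq (hC.off t ht))
  have out : ∀ (k : ℕ) (a' b' : ℝ), k ≤ N → ta ≤ a' → b' ≤ tb → tk k ∈ Icc a' b' →
      (∀ t ∈ Icc a' b', t ≠ tk k → t ∉ Icc (tk 0) (tk N)) →
      ∀ t ∈ Icc a' b', ‖x t - z t - Y t‖ ≤ (2 + 3 * K) * d0 := by
    intro k a' b' hk h1 h2 h3 h4 t ht
    have hc : ∀ t ∈ Icc a' b', ∫ r in (tk k)..t, (ξ v r - ξ 0 r) = 0 := fun t ht => by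
      refine intervalIntegral.integral_zero_ae ?_
      filter_upwards [Measure.ae_ne volume (tk k)] with s h5 h6
      have h7 := h4 s (uIcc_subset_Icc h3 ht (uIoc_subset_uIcc h6)) h5
      rw [off v Av s h7, off 0 A0 s h7, sub_self]
    have h5 := near hGR (c := 0) hu.1 hG (hC.sm v Av).1.continuous (hC.sm 0 A0).1.continuous hz hY
      bY hx h3 l0 (at' k hk) (by linarith [(hav k).1]) (fun t ht => by rw [hc t ht, norm_zero]) hD
      (iG h1 (h3.1.trans h3.2) h2) hth dl t ht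
    rw [hc t ht, sub_zero] at h5
    have h6 := norm_add_le (x t - z t - Y t - a k) (a k)
    rw [sub_add_cancel] at h6
    linarith [(hav k).1]
  have fk : ∀ t ∈ Icc (tk 0) (tk N), N ≠ 0 → ∃ k < N, t ∈ Icc (tk k) (tk (k + 1)) := by
    intro t ht hN
    obtain ⟨n, rfl⟩ := Nat.exists_eq_succ_of_ne_zero hN
    exact find_k ht.1 n ht.2
  refine ⟨v, x, Av, xs, hx, fun t ht => ?_, fun o t ht hU => ?_⟩
  · rcases le_total t (tk 0) with h1 | h1
    · exact out 0 ta (tk 0) (Nat.zero_le _) le_rfl (t0N.trans htb) (right_mem_Icc.2 hta)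
        (fun s h2 h3 h4 => h3 (le_antisymm h2.2 h4.1)) t ⟨ht.1, h1⟩
    rcases le_total (tk N) t with h2 | h2
    · exact out N (tk N) tb le_rfl (hta.trans t0N) le_rfl (left_mem_Icc.2 htb)
        (fun s h2 h3 h4 => h3 (le_antisymm h4.2 h2.1)) t ⟨h2, ht.2⟩
    rcases eq_or_ne N 0 with hN | hN
    · exact out 0 ta (tk 0) (Nat.zero_le _) le_rfl (t0N.trans htb) (right_mem_Icc.2 hta)
        (fun s h2 h3 h4 => h3 (le_antisymm h2.2 h4.1)) t ⟨ht.1, by rwa [hN] at h2⟩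
    obtain ⟨k, hk, h3⟩ := fk t ⟨h1, h2⟩ hN
    exact ((nr v Av k hk _ (hav k).1 x hx (at' k hk.le)).1 t h3).1
  · have h1 : t ∈ Icc (tk 0) (tk N) := by
      by_contra h
      exact hU (hC.off t h)
    rcases eq_or_ne N 0 with hN | hN
    · exfalso
      have h2 : closure (Iio (tk 0)) ⊆ {s | U s = 0} :=
        closure_minimal (fun s hs => hC.off s fun h => absurd h.1 (not_le.2 hs))
          (isClosed_eq hC.Ucont continuous_const)
      rw [closure_Iio] at h2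
      exact hU (h2 (by rw [hN] at h1; exact h1.2))
    obtain ⟨k, hk, h3⟩ := fk t h1 hN
    rw [step k hk (at' k hk.le) t h3]
    exact (hst k hk).2 o t ht h3

end Pool.Agent.Lib.EU2
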