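import Pool.Agent.Lib.EU2.Basic
import Pool.Agent.Lib.EUL.B_PLACE

set_option autoImplicit false

namespace Pool.Agent.Lib.EU2

open MeasureTheory Set Filter Topology Pool.Agent.Lib.EUL
open scoped ContDiff Classical

noncomputable section

namespace PLACE2

lemma tk_le {tk : ℕ → ℝ} : ∀ N : ℕ, (∀ k < N, tk k ≤ tk (k + 1)) → tk 0 ≤ tk N
  | 0, _ => le_rfl
  | N + 1, h => (tk_le N fun k hk => h k (by omega)).trans (h N (by omega))

end PLACE2

open PLACE2 EUL.PLACE in
theorem st_PLACE (hP : St_PL1) : St_PLACE := by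
  obtain ⟨C, C1, hP⟩ := hP
  refine ⟨4 * C, by linarith, ?_⟩
  intro u ι β _ _ o ro lam tb Tb s e ub z Y ξ U N tk G H l D d0 rN th1 LL L K Lam M hu hts r0 rD
    hd K1 hdl hl hth L0 good hro cl l0 dr long mo T0 life hz ctl hY bU longb hLam cG cH hG iG hH iH
    mb hc
  have hD : 0 < D := by linarith
  have hl0 : 0 < l := lt_of_lt_of_le (mul_pos (by linarith) (by linarith)) hdl
  have rl : ∀ j t, 0 ≤ ro j * lam j t := fun j t => mul_nonneg (r0.le.trans (hro j).1) (l0 j t)
  have H0 : ∀ i t, 0 ≤ H i t := fun i t => (Finset.sum_nonneg fun j _ => rl j t).trans (hH i t)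
  have M0 : 0 ≤ M := (Nat.cast_nonneg _).trans (mo 0 0)
  have u0 : ∀ i, 0 ≤ ub i := fun i => ((ctl i).U0 0).trans (bU i 0).1
  have ab : ∀ i, tb i - 2 * Tb i ≤ tb i + 2 * Tb i := fun i => by linarith [T0 i]
  have se : ∀ i, s i ≤ e i := fun i =>
    (life i).2.1.trans ((tk_le _ (ctl i).mono).trans (life i).2.2.1)
  have act : ∀ i t, t ∈ Icc (s i) (e i) → |t - tb i| ≤ Tb i := fun i t ht =>
    abs_le.2 ⟨by linarith [ht.1, (life i).1], by linarith [ht.2, (life i).2.2.2]⟩
  have on : ∀ i t, U i t ≠ 0 → t ∈ Icc (s i) (e i) := fun i t h => by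
    have : t ∈ Icc (tk i 0) (tk i (N i)) := by
      by_contra h'
      exact h ((ctl i).off t h')
    exact ⟨(life i).2.1.trans this.1, this.2.trans (life i).2.2.1⟩
  have main : ∀ A : Finset β, ∃ (vs : β → ℕ → ℂ) (x : β → ℝ → ℂ),
      (∀ i ∈ A, (Adm (3 * d0) (vs i) ∧ ContDiff ℝ ∞ (x i) ∧
        ∀ t, HasDerivAt (x i) (u t (x i t) + ξ i (vs i) t) t) ∧
        (∀ t, |t - tb i| ≤ 2 * Tb i → ‖x i t - z i t - Y i t‖ ≤ (2 + 3 * K) * d0) ∧
        ∀ j t, U i t ≠ 0 → t ∈ Icc (o j).s (o j).e → 4 * ro j ≤ pn (x i t - (o j).x t)) ∧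
      ∀ i ∈ A, ∀ j ∈ A, ∀ t, i ≠ j → U i t ≠ 0 → U j t ≠ 0 → 4 * rN ≤ pn (x i t - x j t) := by
    intro A
    induction A using Finset.induction_on_max_value ub with
    | empty => exact ⟨0, 0, by simp, by simp⟩
    | insert b A hb hmax ih =>
      obtain ⟨vs, x, p1, p2⟩ := ih
      have cB : ∀ t (F : Finset A), (∀ i ∈ F, actf (tb i) (Tb i) t ≠ 0 ∧
          pn (x i t - z b t) ≤ 53 * l) → (F.card : ℝ) ≤ M := fun t F hF => by
        rw [← Finset.card_map (Function.Embedding.subtype _)]
        refine mult_le (mb t) (z b t) _ fun i hi => ?_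
        obtain ⟨i, hi', rfl⟩ := Finset.mem_map.1 hi
        obtain ⟨b1, b2⟩ := hF i hi'
        have b3 := actf_ne (T0 i) b1
        refine ⟨b3, ?_⟩
        have b4 := pn_lip (z i t - z b t) (x i t - z b t)
        have b5 := norm_add_le_of_le ((p1 i i.2).2.1 t b3) (bU i t).2
        rw [sub_add_cancel, norm_sub_rev] at b5
        rw [sub_sub_sub_cancel_right] at b4
        show pn (z i t - z b t) ≤ 110 * l
        linarith
      have iW : ∫ t in (tb b - 2 * Tb b)..(tb b + 2 * Tb b), (H b t + M * (rN * ub b)) ≤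
          LL + 4 * (M * rN * Lam) := by
        rw [intervalIntegral.integral_add ((cH b).intervalIntegrable _ _)
          (continuous_const.intervalIntegrable _ _), intervalIntegral.integral_const, smul_eq_mul]
        have b2 := mul_le_mul_of_nonneg_left (hLam b) (by positivity : 0 ≤ 4 * (M * rN))
        linarith [iH b]
      have hcc : C * (LL + 4 * (M * rN * Lam) + 2 * M * D * L + 2 * M * D ^ 2) ≤ d0 ^ 2 := by
        have b1 : 0 ≤ LL := (intervalIntegral.integral_nonneg (ab b) fun t _ => H0 b t).trans (iH b)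
        have b2 : 0 ≤ M * D * L := by positivity
        have b3 : 0 ≤ M * D ^ 2 := by positivity
        refine le_trans ?_ hc
        rw [mul_comm 4 C, mul_assoc C]
        exact mul_le_mul_of_nonneg_left (by linarith) (by linarith)
      obtain ⟨v, y, y1, y2, y3, y4, y5⟩ := hP u (ι ⊕ A)
        (Sum.elim (fun j => (o j).x) fun i => x i)
        (Sum.elim (fun j => (o j).s) fun i => s i) (Sum.elim (fun j => (o j).e) fun i => e i)
        (Sum.elim ro fun _ => rN) (Sum.elim (fun j => (o j).a) fun i => actf (tb i) (Tb i))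
        (Sum.elim lam fun i _ => ub i) (z b) (Y b) (ξ b) (U b) (N b) (tk b) (G b)
        (fun t => H b t + M * (rN * ub b)) l D d0 rN th1 _ L K (2 * M) (tb b - 2 * Tb b)
        (tb b + 2 * Tb b) hu hts r0 rD hd K1 hdl hl hth L0
        (by
          rintro (j | i)
          · refine ⟨(good j).xsm, (good j).le, (hro j).1, (hro j).2, (good j).acont, cl j,
              fun t => ⟨(good j).a0 t, (good j).a1 t, l0 j t⟩,
              fun t ht => ⟨(good j).aone t ht, (dr j t ht).1⟩, (hro j).2.trans ?_⟩
            refine (long j).trans (le_trans ?_ (intervalIntegral.integral_mono_on (good j).le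
              (continuous_const.intervalIntegrable _ _) ((cl j).intervalIntegrable _ _)
              fun t ht => (dr j t ht).2))
            rw [intervalIntegral.integral_const, smul_eq_mul, mul_comm]
            exact le_rfl
          · obtain ⟨⟨q1, q2, q3⟩, -⟩ := p1 i i.2
            refine ⟨q2, se i, le_rfl, rD, actf_cont _ _, continuous_const,
              fun t => ⟨actf_0 _ _ _, actf_1 _ _ _, u0 i⟩,
              fun t ht => ⟨actf_one (T0 i) (act i t ht), ?_⟩, rD.trans ?_⟩
            · show ‖deriv (x i) t - u t (x i t)‖ ≤ ub i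
              rw [(q3 t).deriv, add_sub_cancel_left]
              exact (((ctl i).sm _ q1).2 t).trans (bU i t).1
            · simpa [mul_comm] using longb i)
        (ctl b) (by linarith [(life b).1, (life b).2.1, T0 b])
        (by linarith [(life b).2.2.1, (life b).2.2.2, T0 b]) (hz b) (hY b) (fun t => (bU b t).2)
        (cG b) ((cH b).add continuous_const) (hG b) (iG b)
        (fun t _ => by
          rw [← Finset.card_toLeft_add_card_toRight, Nat.cast_add, two_mul]
          refine add_le_add (mult_le (mo t) (z b t) _ fun j hj => ?_) (cB t _ fun i hi => ?_)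
          · obtain ⟨-, b1, b2⟩ := Finset.mem_filter.1 (Finset.mem_toLeft.1 hj)
            exact ⟨b1, le_trans b2 (by linarith)⟩
          · exact (Finset.mem_filter.1 (Finset.mem_toRight.1 hi)).2)
        (fun t _ => by
          rw [Finset.sum_sum_eq_sum_toLeft_add_sum_toRight]
          refine add_le_add (le_trans ?_ (hH b t)) ?_
          · refine (Finset.sum_le_sum fun j _ => mul_le_of_le_one_left (rl j t)
              ((good j).a1 t)).trans (Finset.sum_le_sum_of_subset_of_nonneg (fun j hj => ?_)
                fun j _ _ => rl j t)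
            exact Finset.mem_filter.2 ⟨Finset.mem_univ _,
              (Finset.mem_filter.1 (Finset.mem_toLeft.1 hj)).2⟩
          · refine (Finset.sum_filter_of_ne (p := fun i : A => actf (tb i) (Tb i) t ≠ 0)
              fun i _ h => left_ne_zero_of_mul h).ge.trans ?_
            refine (Finset.sum_le_card_nsmul _ _ (rN * ub b) fun i _ => ?_).trans ?_
            · exact (mul_le_of_le_one_left (mul_nonneg r0.le (u0 i)) (actf_1 _ _ _)).trans
                (mul_le_mul_of_nonneg_left (hmax i i.2) r0.le)
            · rw [nsmul_eq_mul]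
              refine mul_le_mul_of_nonneg_right (cB t _ fun i hi => ?_) (mul_nonneg r0.le (u0 b))
              obtain ⟨b1, b2⟩ := Finset.mem_filter.1 hi
              exact ⟨b2, (Finset.mem_filter.1 (Finset.mem_toRight.1 b1)).2⟩)
        iW hcc
      have ne : ∀ i ∈ A, i ≠ b := fun i hi h => hb (h ▸ hi)
      have new : ∀ i ∈ A, ∀ t, U b t ≠ 0 → U i t ≠ 0 → 4 * rN ≤ pn (y t - x i t) :=
        fun i hi t h h' => y5 (Sum.inr ⟨i, hi⟩) t (on i t h') h
      refine ⟨Function.update vs b v, Function.update x b y, fun i hi => ?_,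
        fun i hi j hj t hij ht ht' => ?_⟩
      · rcases Finset.mem_insert.1 hi with rfl | hi'
        · rw [Function.update_self, Function.update_self]
          exact ⟨⟨y1, y2, y3⟩, fun t ht => y4 t
            ⟨by linarith [(abs_le.1 ht).1], by linarith [(abs_le.1 ht).2]⟩,
            fun j t h ht => y5 (Sum.inl j) t ht h⟩
        · rw [Function.update_of_ne (ne i hi'), Function.update_of_ne (ne i hi')]
          exact p1 i hi'
      · rcases Finset.mem_insert.1 hi with rfl | hi'
        · rcases Finset.mem_insert.1 hj with rfl | hj'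
          · exact (hij rfl).elim
          · rw [Function.update_self, Function.update_of_ne (ne j hj')]
            exact new j hj' t ht ht'
        · rcases Finset.mem_insert.1 hj with rfl | hj'
          · rw [Function.update_self, Function.update_of_ne (ne i hi'), pn_comm]
            exact new i hi' t ht' ht
          · rw [Function.update_of_ne (ne i hi'), Function.update_of_ne (ne j hj')]
            exact p2 i hi' j hj' t hij ht ht'
  obtain ⟨vs, x, p1, p2⟩ := main Finset.univ
  exact ⟨vs, x, fun i => (p1 i (Finset.mem_univ _)).1, fun i => (p1 i (Finset.mem_univ _)).2.1,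
    fun i => (p1 i (Finset.mem_univ _)).2.2,
    fun i j => p2 i (Finset.mem_univ _) j (Finset.mem_univ _)⟩

end

end Pool.Agent.Lib.EU2
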