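import Pool.Agent.Lib.EU2.Basic
import Pool.Agent.Lib.EUL.B_PREP

/-! Block PREP, phase two: cores cut at the class radii, weighted drift. -/

namespace Pool.Agent.Lib.EU2

open MeasureTheory Set Filter Topology Pool.Agent.Lib.EUL
open scoped ContDiff Classical

namespace PREP2

theorem two_ratio {r D : ℝ} (hr : 0 < r) (hD : 0 < D) :
    (r / rad D r) ^ 2 * (D / rad D r) ^ 2 = (r / D) ^ (2 / 3 : ℝ) := by
  have h0 := rad_pos hD hr
  have h3 := rad_cube hD.le hr.le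
  have h1 : ((r / rad D r) ^ 2 * (D / rad D r) ^ 2) ^ 3 = ((r / D) ^ (2 / 3 : ℝ)) ^ 3 := by
    rw [← Real.rpow_natCast ((r / D) ^ (2 / 3 : ℝ)), ← Real.rpow_mul (div_pos hr hD).le]
    have : (2 / 3 : ℝ) * ((3 : ℕ) : ℝ) = 2 := by norm_num
    rw [this, Real.rpow_two]
    have e : ((r / rad D r) ^ 2 * (D / rad D r) ^ 2) ^ 3 = r ^ 6 * D ^ 6 / (rad D r ^ 3) ^ 4 := by
      field_simp
    rw [e, h3]
    field_simp
  exact (pow_left_inj₀ (by positivity) (by positivity) three_ne_zero).1 h1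

theorem dom_up {W : ℂ → ℂ} {p : ℂ} {c l r D : ℝ} (hr : 0 < r) (h : r ≤ D) (hl : 0 < l) (hc : 0 ≤ c)
    (hW : Dom 2 W p c l r) : Dom 2 W p (c * (D / r) ^ 2) l D := by
  intro j hj y
  have h1 : 1 ≤ D / r := (one_le_div hr).2 h
  have h2 : (D / r) ^ j ≤ (D / r) ^ 2 := pow_le_pow_right₀ h1 hj
  have h3 := PREP.tau_nonneg 2 hl (pn (y - p))
  calc D ^ j * nD j W y = (D / r) ^ j * (r ^ j * nD j W y) := by rw [div_pow]; field_simp
    _ ≤ (D / r) ^ 2 * (c * tau 2 l (pn (y - p))) :=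
      mul_le_mul h2 (hW j hj y) (mul_nonneg (by positivity) (norm_nonneg _)) (by positivity)
    _ = _ := by ring

variable [Al]

theorem ratio2 {r D : ℝ} (hr : 0 < r) (h : r ≤ D) :
    ((r / D) ^ (2 / 3 : ℝ)) ^ 2 ≤ D ^ (al - 2) * r ^ (2 - al) := by
  have hD : 0 < D := hr.trans_le h
  have h0 : 0 < r / D := div_pos hr hD
  have h1 : r / D ≤ 1 := (div_le_one hD).2 h
  have h2 : (r / D) ^ ((2 / 3 : ℝ) * ((2 : ℕ) : ℝ)) ≤ (r / D) ^ (2 - al) :=
    Real.rpow_le_rpow_of_exponent_ge h0 h1 (by push_cast; linarith [al_lo])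
  rw [Real.rpow_mul h0.le, Real.rpow_natCast, Real.div_rpow hr.le hD.le (2 - al)] at h2
  have h3 : D ^ (al - 2) = (D ^ (2 - al))⁻¹ := by
    rw [← Real.rpow_neg hD.le]; congr 1; ring
  rw [h3, mul_comm (D ^ (2 - al))⁻¹, ← div_eq_mul_inv]
  exact h2

theorem rad_sq_le {rho r D : ℝ} (h0 : 0 < rho) (h : rho ≤ r) (hD : 0 < D) :
    rad D r ^ 2 ≤ rad D rho ^ 2 * (rho ^ al / rho ^ 2) * r ^ (2 - al) := by
  have hr : 0 < r := h0.trans_le h
  rw [rad_sq hD.le hr.le, rad_sq hD.le h0.le]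
  have a1 : r ^ (al - 4 / 3) ≤ rho ^ (al - 4 / 3) :=
    Real.rpow_le_rpow_of_nonpos h0 h (by linarith [al_hi])
  have a2 : r ^ (2 / 3 : ℝ) = r ^ (al - 4 / 3) * r ^ (2 - al) := by
    rw [← Real.rpow_add hr]; congr 1; ring
  have a3 : rho ^ (2 / 3 : ℝ) * (rho ^ al / rho ^ 2) = rho ^ (al - 4 / 3) := by
    rw [← Real.rpow_two, ← Real.rpow_sub h0, ← Real.rpow_add h0]; congr 1; ring
  rw [a2, mul_assoc (D ^ (4 / 3 : ℝ)) (rho ^ (2 / 3 : ℝ)), a3, ← mul_assoc]
  gcongr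

end PREP2

variable [Al]

open PREP2 in
theorem st_PREP (hCORE : St_CORE) (hMAJ : St_MAJ) (hMJ : St_MJ) (hAVG : St_AVG) : St_PREP := by
  obtain ⟨C1, hC1, hcore⟩ := hCORE
  obtain ⟨C2, hC2, hmaj1, hmaj2⟩ := hMAJ
  obtain ⟨m1, m2, m3, m4, -⟩ := hMJ
  refine ⟨C1 + C2 + 9, by linarith, ?_⟩
  intro P v q V ι _ o a b ok hq hqS h
  have r0 := ok.rpos
  have S0 := ok.Spos
  have n0 : 0 < P.n := by linarith [ok.n1]
  have k0 := ok.kpos
  have hlg := PREP.one_le_lg P.rho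
  have hG : C1 + C2 + 9 ≤ P.G := le_trans (le_mul_of_one_le_right (by linarith) hlg) ok.big
  have hGl : lg P.rho ≤ P.G := le_trans (le_mul_of_one_le_left (by linarith) (by linarith)) ok.big
  have G1 : C1 ≤ P.G := by linarith
  have G2 : C2 ≤ P.G := by linarith
  have G9 : 9 ≤ P.G := by linarith
  have G0 : 0 < P.G := by linarith
  have D0 : 0 < P.D := r0.trans_le ok.rD
  have d0 : 0 < P.d := by linarith [ok.Dd2, ok.d2d]
  have Dl : 12 * P.D ≤ P.l := by
    have : P.d ≤ P.G * P.d := le_mul_of_one_le_left d0.le (by linarith)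
    linarith [ok.Dd2, ok.d2d, ok.dh, ok.hl]
  have l0 : 0 < P.l := by linarith
  have l1 := ok.lsmall
  have Gl : lg P.l ≤ P.G := (PREP.lg_le r0 (by linarith [ok.rD]) (by linarith)).trans hGl
  have lg0 : 0 ≤ lg P.l := by linarith [PREP.one_le_lg P.l]
  have Y0 : 0 < P.Y := by unfold Par.Y; positivity
  have ra : 0 < P.rho ^ al := Real.rpow_pos_of_pos r0 _
  have Da : 0 < P.D ^ (al - 2) := Real.rpow_pos_of_pos D0 _
  have hal : 0 ≤ 2 - al := by linarith [al_le_two]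
  have rp : ∀ i, 0 < rad P.D (o i).rho := fun i => rad_pos D0 (h.good i).rpos
  have rl : ∀ i, rad P.D (o i).rho ≤ P.D := fun i => rad_le (h.good i).rpos (h.size i).2
  have hc := fun i => hcore (o i) (rad P.D (o i).rho) P.l (h.good i)
    (le_rad (h.good i).rpos (h.size i).2) (by linarith [rl i]) (by linarith [rl i])
  have s0 : 0 < P.rs := rad_pos D0 r0
  have mu : ∀ t, Mult (fun i => (o i).a t ≠ 0) (fun i => (o i).x t) P.l P.G := fun t =>
    PREP.mult_mono (h.mult t) (fun _ hk => hk) (by linarith)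
  -- the far field
  have eO : Ot o P.D = fun t y => ∑ i, ((o i).W t y - (o i).core (rad P.D (o i).rho) t y) := by
    funext t y
    simp only [Ot, Core, Finset.sum_sub_distrib]
  have eV : Vh v o P.D = fun t y => V t y + Ot o P.D t y := by
    funext t y
    simp only [Vh, Ot, h.eq t y]
    ring
  have Bsm : ∀ i, Sm fun t y => (o i).W t y - (o i).core (rad P.D (o i).rho) t y := fun i =>
    ContDiff.sub (h.good i).Wsp.1 (hc i).1.1
  have Osm : Sm (Ot o P.D) := by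
    rw [eO]; exact ContDiff.sum fun i _ => Bsm i
  have Osp : SP (Ot o P.D) := by
    refine ⟨Osm, fun t n z => ?_⟩
    rw [eO]
    exact Finset.sum_congr rfl fun i _ => by
      rw [(h.good i).Wsp.2 t n z, (hc i).1.2 t n z]
  have Vsp : SP (Vh v o P.D) := by
    rw [eV]
    exact ⟨ContDiff.add h.Vsp.1 Osm, fun t n z => by
      show V t _ + Ot o P.D t _ = _
      rw [h.Vsp.2 t n z, Osp.2 t n z]⟩
  have Vts : TS (Vh v o P.D) a b := by
    intro t ht y
    have hW : ∀ i, (o i).W t y = 0 := fun i => (h.good i).Wts t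
      (fun hi => ht ⟨(h.life i).1.trans hi.1, hi.2.trans (h.life i).2⟩) y
    simp only [Vh, Core, Ob.core, h.eq t y, h.Vts t ht y, hW, mul_zero, Finset.sum_const_zero,
      add_zero, sub_zero]
  obtain ⟨X, hX⟩ : ∃ X, X = P.G ^ 16 * P.l ^ 2 * P.D ^ (al - 2) * P.S / P.rho ^ al := ⟨_, rfl⟩
  have hfar : Maj0 (Ot o P.D) P.l P.D X := by
    have h0 := hmaj2 ι (fun i t => C1 * ((o i).a t * (o i).u) * ((o i).rho / P.D) ^ (2 / 3 : ℝ))
      (fun i => (o i).x) (fun i t y => (o i).W t y - (o i).core (rad P.D (o i).rho) t y) P.l P.D P.G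
      (C1 ^ 2 * (P.D ^ (al - 2) * P.Xi)) l0 (by linarith) D0.le
      (fun i => (continuous_const.mul ((h.good i).acont.mul continuous_const)).mul continuous_const)
      (fun i => (h.good i).xsm.continuous)
      (fun i t => mul_nonneg (mul_nonneg (by linarith) (mul_nonneg ((h.good i).a0 t) (h.good i).u0))
        (Real.rpow_nonneg (div_pos (h.good i).rpos D0).le _)) Bsm
      (fun t => PREP.mult_mono (mu t) (fun i hi => left_ne_zero_of_mul
        (right_ne_zero_of_mul (left_ne_zero_of_mul hi))) le_rfl)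
      (fun t => by
        refine le_trans ?_ (mul_le_mul_of_nonneg_left
          (mul_le_mul_of_nonneg_left (h.xi t) Da.le) (sq_nonneg C1))
        rw [Finset.mul_sum, Finset.mul_sum]
        refine Finset.sum_le_sum fun i _ => ?_
        have a1 := mul_le_mul_of_nonneg_left (ratio2 (h.good i).rpos (h.size i).2)
          (sq_nonneg (C1 * ((o i).a t * (o i).u)))
        calc _ = (C1 * ((o i).a t * (o i).u)) ^ 2 * (((o i).rho / P.D) ^ (2 / 3 : ℝ)) ^ 2 := by ring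
          _ ≤ _ := a1
          _ = _ := by ring)
      (fun i t => by
        have := dom_up (rp i) (rl i) l0 (mul_nonneg (mul_nonneg (by linarith)
          (mul_nonneg ((h.good i).a0 t) (h.good i).u0)) (sq_nonneg _)) ((hc i).2 t).2.2
        rwa [mul_assoc, two_ratio (h.good i).rpos D0] at this)
    rw [eO]
    obtain ⟨g, gc, hg⟩ := h0
    refine ⟨g, gc, fun t => ⟨(hg t).1, (hg t).2.1, (hg t).2.2.1, (hg t).2.2.2.trans ?_⟩⟩
    have a1 : C2 * P.G * lg P.l ^ 2 * C1 ^ 2 ≤ P.G * P.G * P.G ^ 2 * P.G ^ 2 := by gcongr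
    have a2 := mul_le_mul_of_nonneg_right a1
      (show 0 ≤ P.l ^ 2 * P.D ^ (al - 2) * (P.G ^ 10 * P.S / P.rho ^ al) by positivity)
    rw [hX, Par.Xi]
    calc _ = C2 * P.G * lg P.l ^ 2 * C1 ^ 2 *
          (P.l ^ 2 * P.D ^ (al - 2) * (P.G ^ 10 * P.S / P.rho ^ al)) := by ring
      _ ≤ _ := a2
      _ = _ := by ring
  have e4 : P.D ^ (al - 4) = P.D ^ (al - 2) / P.D ^ 2 := by
    rw [show al - 4 = al - 2 - (2 : ℕ) by push_cast; ring, Real.rpow_sub_natCast D0.ne']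
  have e2 : P.rho ^ (2 - al) = P.rho ^ 2 / P.rho ^ al := by
    rw [Real.rpow_sub r0, Real.rpow_two]
  have hXY : X / P.D ^ 2 ≤ P.Y := by
    have a1 := mul_le_mul_of_nonneg_right ok.far Y0.le
    rw [e4, e2, one_mul] at a1
    refine le_trans (le_of_eq ?_) a1
    rw [hX, Par.Y]
    field_simp
  obtain ⟨g, gc, hg⟩ : Maj (Vh v o P.D) P.l P.D (4 * P.Y) := by
    rw [eV]
    exact m1 _ _ _ _ _ _ _ (m2 V (Ot o P.D) P.l P.D P.Y (X / P.D ^ 2) h.Vsp.1 Osm l0.le D0.le h.maj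
      (m3 _ _ _ _ _ hfar D0 D0.le le_rfl)) le_rfl D0.le le_rfl (by linarith)
  -- the weights
  obtain ⟨lam, hlam⟩ : ∃ lam : ι → ℝ → ℝ, lam = fun j t => (o j).a t *
      ((o j).u + ‖deriv (o j).x t - Vh v o P.D t ((o j).x t)‖) := ⟨_, rfl⟩
  have lc : ∀ j, Continuous (lam j) := fun j => by
    rw [hlam]
    exact (h.good j).acont.mul (continuous_const.add
      (((h.good j).xsm.continuous_deriv (by simp)).sub (Vsp.1.continuous.comp
        (continuous_id.prodMk (h.good j).xsm.continuous))).norm)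
  have lpos : ∀ j t, 0 ≤ lam j t := fun j t => by
    rw [hlam]
    exact mul_nonneg ((h.good j).a0 t) (add_nonneg (h.good j).u0 (norm_nonneg _))
  have lsum0 : ∀ t, ∑ j, lam j t ^ 2 * (o j).rho ^ (2 - al) ≤ P.G ^ 18 * P.S / P.rho ^ al := fun t => by
    obtain ⟨g0, -, hg0⟩ := hfar
    have s3 := m4 _ _ _ _ _ P.G ι (fun i => (o i).a t) (fun i => (o i).x t) (hg0 t) l0 (by linarith)
      (fun i => (h.good i).a0 t) (fun i => (h.good i).a1 t) (mu t)
    have s2 := h.drift t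
    have s1 := h.xi t
    have Db : 0 < P.D ^ (2 - al) := Real.rpow_pos_of_pos D0 _
    have s4 : ∑ i, ((o i).a t * ‖Ot o P.D t ((o i).x t)‖) ^ 2 * (o i).rho ^ (2 - al) ≤
        P.G ^ 17 * P.S / P.rho ^ al := by
      have a2 : P.D ^ (al - 2) * P.D ^ (2 - al) = 1 := by
        rw [← Real.rpow_add D0]; simp
      calc _ ≤ ∑ i, ((o i).a t * ‖Ot o P.D t ((o i).x t)‖) ^ 2 * P.D ^ (2 - al) :=
            Finset.sum_le_sum fun i _ => mul_le_mul_of_nonneg_left
              (Real.rpow_le_rpow (h.good i).rpos.le (h.size i).2 hal) (sq_nonneg _)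
        _ ≤ P.G * X / P.l ^ 2 * P.D ^ (2 - al) := by
            rw [← Finset.sum_mul]; exact mul_le_mul_of_nonneg_right s3 Db.le
        _ = P.G ^ 17 * P.S / P.rho ^ al * (P.D ^ (al - 2) * P.D ^ (2 - al)) := by
            rw [hX]; field_simp
        _ = _ := by rw [a2, mul_one]
    have s5 : P.G ^ 10 * P.S / P.rho ^ al ≤ P.G ^ 17 * P.S / P.rho ^ al := by
      gcongr
      · linarith
      · norm_num
    have s6 : 9 * (P.G ^ 17 * P.S / P.rho ^ al) ≤ P.G ^ 18 * P.S / P.rho ^ al := by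
      calc _ ≤ P.G * (P.G ^ 17 * P.S / P.rho ^ al) := by gcongr
        _ = _ := by ring
    have s7 : ∑ j, lam j t ^ 2 * (o j).rho ^ (2 - al) ≤
        3 * (∑ i, ((o i).a t * (o i).u) ^ 2 * (o i).rho ^ (2 - al) +
        ∑ i, ((o i).a t * ‖deriv (o i).x t - V t ((o i).x t)‖) ^ 2 * (o i).rho ^ (2 - al) +
        ∑ i, ((o i).a t * ‖Ot o P.D t ((o i).x t)‖) ^ 2 * (o i).rho ^ (2 - al)) := by
      rw [← Finset.sum_add_distrib, ← Finset.sum_add_distrib, Finset.mul_sum]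
      refine Finset.sum_le_sum fun i _ => ?_
      have a1 : ‖deriv (o i).x t - Vh v o P.D t ((o i).x t)‖ ≤
          ‖deriv (o i).x t - V t ((o i).x t)‖ + ‖Ot o P.D t ((o i).x t)‖ := by
        rw [eV]
        show ‖_ - (_ + _)‖ ≤ _
        rw [← sub_sub]
        exact norm_sub_le _ _
      have a2 : lam i t ≤ (o i).a t * (o i).u + (o i).a t * ‖deriv (o i).x t - V t ((o i).x t)‖ +
          (o i).a t * ‖Ot o P.D t ((o i).x t)‖ := by
        rw [hlam]
        have := mul_le_mul_of_nonneg_left a1 ((h.good i).a0 t)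
        show (o i).a t * _ ≤ _
        linarith
      rw [← add_mul, ← add_mul, ← mul_assoc]
      refine mul_le_mul_of_nonneg_right ((pow_le_pow_left₀ (lpos i t) a2 2).trans ?_)
        (Real.rpow_nonneg (h.good i).rpos.le _)
      generalize (o i).a t * (o i).u = x1
      generalize (o i).a t * ‖deriv (o i).x t - V t ((o i).x t)‖ = x2
      generalize (o i).a t * ‖Ot o P.D t ((o i).x t)‖ = x3
      nlinarith [sq_nonneg (x1 - x2), sq_nonneg (x1 - x3), sq_nonneg (x2 - x3)]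
    rw [Par.Z] at s2
    rw [Par.Xi] at s1
    linarith
  have lsum : ∀ t, ∑ j, (rad P.D (o j).rho * lam j t) ^ 2 ≤
      P.rs ^ 2 * (P.G ^ 18 * P.S / P.rho ^ 2) := fun t => by
    calc _ ≤ ∑ j, P.rs ^ 2 * (P.rho ^ al / P.rho ^ 2) * (lam j t ^ 2 * (o j).rho ^ (2 - al)) := by
          refine Finset.sum_le_sum fun j _ => ?_
          have := mul_le_mul_of_nonneg_right (rad_sq_le r0 (h.size j).1 D0) (sq_nonneg (lam j t))
          rw [mul_pow]
          exact this.trans_eq (by rw [Par.rs]; ring)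
      _ ≤ P.rs ^ 2 * (P.rho ^ al / P.rho ^ 2) * (P.G ^ 18 * P.S / P.rho ^ al) := by
          rw [← Finset.mul_sum]
          exact mul_le_mul_of_nonneg_left (lsum0 t) (by positivity)
      _ = _ := by field_simp
  have mpos : ∀ j t, 0 ≤ rad P.D (o j).rho * lam j t := fun j t => mul_nonneg (rp j).le (lpos j t)
  -- the density
  obtain ⟨L, hL⟩ : ∃ L : ℝ → ℂ → ℝ,
      L = fun t x => ∑ j, rad P.D (o j).rho * lam j t * tau 2 P.l (pn (x - (o j).x t)) := ⟨_, rfl⟩
  have Lc : Continuous fun p : ℝ × ℂ => L p.1 p.2 := by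
    rw [hL]
    exact continuous_finsetSum _ fun j _ => (continuous_const.mul ((lc j).comp continuous_fst)).mul
      ((PREP.tau_cont 2 l0).comp (PREP.pn_cont.comp (continuous_snd.sub
        ((h.good j).xsm.continuous.comp continuous_fst))))
  have LI : ∀ t, (P.kap / P.rs) ^ 2 * IQ (fun x => L t x ^ 2) ≤ P.Y := fun t => by
    have a0 := hmaj1 ι (fun j => rad P.D (o j).rho * lam j t) (fun j => (o j).x t) P.l P.G _ l0
      (by linarith) (fun j => mpos j t) (PREP.mult_mono (mu t) (fun i hi => by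
        rw [hlam] at hi; exact left_ne_zero_of_mul (right_ne_zero_of_mul hi)) le_rfl) (lsum t)
    have a1 : C2 * P.G * lg P.l ^ 2 ≤ P.G * P.G * P.G ^ 2 := by gcongr
    have a2 := mul_le_mul_of_nonneg_right ok.kapp Y0.le
    rw [hL]
    calc _ ≤ (P.kap / P.rs) ^ 2 * (C2 * P.G * lg P.l ^ 2 * P.l ^ 2 *
          (P.rs ^ 2 * (P.G ^ 18 * P.S / P.rho ^ 2))) := by gcongr
      _ ≤ (P.kap / P.rs) ^ 2 * (P.G * P.G * P.G ^ 2 * P.l ^ 2 *
          (P.rs ^ 2 * (P.G ^ 18 * P.S / P.rho ^ 2))) := by gcongr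
      _ = P.G ^ 22 * P.kap ^ 2 * P.l ^ 2 * P.n ^ 2 * P.Y := by rw [Par.Y]; field_simp
      _ ≤ P.G ^ 24 * P.kap ^ 2 * P.l ^ 2 * P.n ^ 2 * P.Y := by
        gcongr
        · linarith
        · norm_num
      _ ≤ _ := by linarith
  obtain ⟨F, hF⟩ : ∃ F : ℝ → ℂ → ℝ,
      F = fun t x => g t x ^ 2 + (P.kap / P.rs) ^ 2 * L t x ^ 2 + ‖q t x‖ / (P.n * P.rho) ^ 2 := ⟨_, rfl⟩
  have nr : 0 < (P.n * P.rho) ^ 2 := by positivity
  have Fc : Continuous fun p : ℝ × ℂ => F p.1 p.2 := by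
    rw [hF]
    exact ((gc.pow 2).add (continuous_const.mul (Lc.pow 2))).add
      (hq.1.continuous.norm.div_const _)
  have Fp : ∀ t, Peri (F t) := fun t n z => by
    rw [hF, hL]
    simp only [(hg t).2.1 n z, hq.2 t n z, add_sub_right_comm, PREP.pn_lat]
  have F1 : ∀ t x, g t x ^ 2 ≤ F t x ∧ (P.kap / P.rs) ^ 2 * L t x ^ 2 ≤ F t x ∧
      ‖q t x‖ / (P.n * P.rho) ^ 2 ≤ F t x := fun t x => by
    rw [hF]
    have a1 := sq_nonneg (g t x)
    have a2 : 0 ≤ (P.kap / P.rs) ^ 2 * L t x ^ 2 := by positivity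
    have a3 : 0 ≤ ‖q t x‖ / (P.n * P.rho) ^ 2 := by positivity
    refine ⟨?_, ?_, ?_⟩ <;> simp only <;> linarith
  have F0 : ∀ t x, 0 ≤ F t x := fun t x => (sq_nonneg _).trans (F1 t x).1
  have FI : ∀ t, IQ (F t) ≤ 6 * P.Y := fun t => by
    have i1 : IntegrableOn (fun x => g t x ^ 2) cell := PREP.intQ ((hg t).1.pow 2)
    have i2 : IntegrableOn (fun x => (P.kap / P.rs) ^ 2 * L t x ^ 2) cell :=
      PREP.intQ (continuous_const.mul ((Lc.comp (Continuous.prodMk_right t)).pow 2))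
    have i3 : IntegrableOn (fun x => ‖q t x‖ / (P.n * P.rho) ^ 2) cell :=
      PREP.intQ ((hq.1.continuous.comp (Continuous.prodMk_right t)).norm.div_const _)
    have a1 : IQ (F t) = IQ (fun x => g t x ^ 2) + (P.kap / P.rs) ^ 2 * IQ (fun x => L t x ^ 2) +
        IQ (fun x => ‖q t x‖) / (P.n * P.rho) ^ 2 := by
      have i4 : IntegrableOn (fun x => g t x ^ 2 + (P.kap / P.rs) ^ 2 * L t x ^ 2) cell := i1.add i2
      rw [hF]
      unfold IQ
      simp only
      rw [integral_add i4 i3, integral_add i1 i2, integral_const_mul, integral_div]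
    have a2 : IQ (fun x => ‖q t x‖) / (P.n * P.rho) ^ 2 ≤ P.Y :=
      div_le_div_of_nonneg_right (hqS t) nr.le
    linarith [(hg t).2.2.2, LI t]
  refine ⟨g, F, lam, Vts, gc, hg, hX ▸ hfar,
    ⟨Vsp, ⟨a, b, Vts⟩, Fc, Fp, F0, FI, fun t x y hxy => le_trans ?_ (F1 t x).1, l0, l1, by linarith⟩,
    fun t x => ?_, lc, lpos, fun j t ht => ?_, fun t z => ?_⟩
  · exact pow_le_pow_left₀ (norm_nonneg _) ((hg t).2.2.1 x y hxy).1 2
  · rw [mul_comm]
    exact (div_le_iff₀ nr).1 (F1 t x).2.2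
  · rw [hlam]
    simp only [(h.good j).aone t ht, one_mul]
    exact ⟨le_add_of_nonneg_left (h.good j).u0, le_add_of_nonneg_right (norm_nonneg _)⟩
  · obtain ⟨A, hA⟩ : ∃ A, A = ∑ j ∈ Finset.univ.filter (fun j => pn ((o j).x t - z) ≤ 53 * P.l),
        rad P.D (o j).rho * lam j t := ⟨_, rfl⟩
    have A0 : 0 ≤ A := hA ▸ Finset.sum_nonneg fun j _ => mpos j t
    have a1 := (hAVG F P.l Fc Fp F0 l0 l1).2.2.2.2.2.2 500 t z z ((P.kap / P.rs * (A / 3721)) ^ 2)
      (by rw [sub_self, norm_zero]; linarith) (fun x hx => by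
        refine le_trans ?_ (F1 t x).2.1
        rw [mul_pow]
        refine mul_le_mul_of_nonneg_left (pow_le_pow_left₀ (by positivity) ?_ 2) (sq_nonneg _)
        rw [hL, hA, Finset.sum_div]
        refine le_trans (Finset.sum_le_sum fun j hj => ?_) (Finset.sum_le_sum_of_subset_of_nonneg
          (Finset.filter_subset _ _) fun j _ _ => mul_nonneg (mpos j t) (PREP.tau_nonneg 2 l0 _))
        rw [div_eq_mul_one_div]
        refine mul_le_mul_of_nonneg_left (PREP.tau_ge l0 ?_) (mpos j t)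
        have b1 := PREP.pn_le ((o j).x t - x) ((o j).x t - z)
        rw [sub_sub_sub_cancel_left, ← PREP.pn_neg, neg_sub] at b1
        rw [norm_sub_rev] at hx
        linarith [(Finset.mem_filter.1 hj).2])
    have a2 := Real.le_sqrt_of_sq_le a1
    rw [← hA]
    calc A = 3721 * P.rs / P.kap * (P.kap / P.rs * (A / 3721)) := by field_simp
      _ ≤ _ := mul_le_mul_of_nonneg_left a2 (by positivity)

end Pool.Agent.Lib.EU2
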