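import Pool.Agent.Lib.EU2.Basic
import Pool.Agent.Lib.EUL.B_ROUND

/-! Block ROUND: one turn along a rounded hexagon, with the dependence on the sides. -/

set_option autoImplicit false

namespace Pool.Agent.Lib.EU2

open MeasureTheory Set Filter Topology Pool.Agent.Lib.EUL
open scoped ContDiff Classical

noncomputable section

namespace ROUND

open Pool.Agent.Lib.EUL.ROUND

/-- extension of the sides by zero -/
def ta (σ : Fin 6 → ℝ) (j : ℕ) : ℝ := if hj : j < 6 then σ ⟨j, hj⟩ else 0

theorem ta_eq (σ : Fin 6 → ℝ) (j : Fin 6) : ta σ j = σ j := by simp [ta, j.2]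

theorem ta_nonneg {σ : Fin 6 → ℝ} (hσ : ∀ j, 0 ≤ σ j) (j : ℕ) : 0 ≤ ta σ j := by
  unfold ta
  split_ifs
  · exact hσ _
  · exact le_rfl

theorem turn_le (h : ℝ) (σ σ' : Fin 6 → ℝ) {j : ℕ} (hj : j < 6) :
    |(aa h (ta σ) j + ta σ j) - (aa h (ta σ') j + ta σ' j)| ≤ ∑ i, |σ i - σ' i| := by
  have e : (aa h (ta σ) j + ta σ j) - (aa h (ta σ') j + ta σ' j) =
      ∑ i ∈ Finset.range (j + 1), (ta σ i - ta σ' i) := by
    have h1 := aa_succ h (ta σ) j
    have h2 := aa_succ h (ta σ') j
    have h3 : aa h (ta σ) (j + 1) - aa h (ta σ') (j + 1) =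
        ∑ i ∈ Finset.range (j + 1), (ta σ i - ta σ' i) := by
      unfold aa
      rw [← Finset.sum_sub_distrib]
      exact Finset.sum_congr rfl fun i _ => by ring
    linarith
  rw [e]
  refine (Finset.abs_sum_le_sum_abs _ _).trans ?_
  refine (Finset.sum_le_sum_of_subset_of_nonneg (Finset.range_mono (show j + 1 ≤ 6 from hj))
    fun _ _ _ => abs_nonneg _).trans ?_
  rw [← Fin.sum_univ_eq_sum_range (fun i => |ta σ i - ta σ' i|)]
  simp only [ta_eq, le_refl]

theorem lip {B : ℝ} (hB : ∀ x, |deriv Real.smoothTransition x| ≤ B) (x y : ℝ) :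
    |Real.smoothTransition x - Real.smoothTransition y| ≤ B * |x - y| :=
  convex_univ.norm_image_sub_le_of_norm_deriv_le (𝕜 := ℝ)
    (fun z _ => (smT.differentiable (by simp)) z) (fun z _ => hB z) (mem_univ y) (mem_univ x)

theorem int_le' {F : ℝ → ℝ} (hc : Continuous F) (hm : Monotone F) (h0 : ∀ x, 0 ≤ F x)
    (h1 : ∀ x, F x ≤ 1) {t t' a b : ℝ} (ht : t ≤ t') :
    ∫ s in a..b, |F (s - t) - F (s - t')| ≤ t' - t := by
  have e : ∀ s, |F (s - t) - F (s - t')| = F (s - t) - F (s - t') := fun s =>
    abs_of_nonneg (sub_nonneg.2 (hm (by linarith)))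
  simp only [e]
  have c1 : ∀ u : ℝ, Continuous fun s => F (s - u) := fun u =>
    hc.comp (continuous_id.sub continuous_const)
  rw [intervalIntegral.integral_sub ((c1 t).intervalIntegrable _ _) ((c1 t').intervalIntegrable _ _),
    intervalIntegral.integral_comp_sub_right, intervalIntegral.integral_comp_sub_right,
    intervalIntegral.integral_interval_sub_interval_comm' (hc.intervalIntegrable _ _)
      (hc.intervalIntegrable _ _) (hc.intervalIntegrable _ _)]
  have h2 : 0 ≤ ∫ x in a - t'..a - t, F x :=
    intervalIntegral.integral_nonneg (by linarith) fun x _ => h0 x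
  have h3 : ∫ x in b - t'..b - t, F x ≤ ∫ _ in b - t'..b - t, (1 : ℝ) :=
    intervalIntegral.integral_mono_on (by linarith) (hc.intervalIntegrable _ _)
      (continuous_const.intervalIntegrable _ _) fun x _ => h1 x
  rw [intervalIntegral.integral_const, smul_eq_mul] at h3
  linarith

theorem int_le {h : ℝ} (hh : 0 < h) (t t' a b : ℝ) :
    ∫ s in a..b, |Real.smoothTransition ((s - t) / h) - Real.smoothTransition ((s - t') / h)| ≤
      |t - t'| := by
  have hc : Continuous fun x => Real.smoothTransition (x / h) :=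
    smT.continuous.comp (continuous_id.div_const h)
  have hm : Monotone fun x => Real.smoothTransition (x / h) := fun x y hxy =>
    Real.smoothTransition.monotone (div_le_div_of_nonneg_right hxy hh.le)
  rcases le_total t t' with ht | ht
  · rw [abs_sub_comm, abs_of_nonneg (sub_nonneg.2 ht)]
    exact int_le' hc hm (fun _ => Real.smoothTransition.nonneg _)
      (fun _ => Real.smoothTransition.le_one _) ht
  · rw [abs_of_nonneg (sub_nonneg.2 ht)]
    simp only [abs_sub_comm (Real.smoothTransition ((_ - t) / h))]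
    exact int_le' hc hm (fun _ => Real.smoothTransition.nonneg _)
      (fun _ => Real.smoothTransition.le_one _) ht

theorem ph_sub (h : ℝ) (τ τ' : ℕ → ℝ) (s : ℝ) : |ph h τ s - ph h τ' s| ≤
    Real.pi / 3 * ∑ j ∈ Finset.range 6, |Real.smoothTransition ((s - (aa h τ j + τ j)) / h) -
      Real.smoothTransition ((s - (aa h τ' j + τ' j)) / h)| := by
  unfold ph sm
  rw [← mul_sub, ← Finset.sum_sub_distrib, abs_mul, abs_of_pos (by positivity : 0 < Real.pi / 3)]
  exact mul_le_mul_of_nonneg_left (Finset.abs_sum_le_sum_abs _ _) (by positivity)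

end ROUND

open ROUND Pool.Agent.Lib.EUL.ROUND in
theorem st_ROUND : St_ROUND := by
  obtain ⟨B, hB0, hB⟩ := bdd
  have hpi := Real.pi_pos
  refine ⟨1 + 2 * Real.pi * (B + 1), le_add_of_nonneg_right (by positivity), fun h hh =>
    ⟨fun σ => ph h (ta σ), fun σ hσ => ?_, fun σ σ' _ _ => ⟨fun s => ?_, fun a b hab => ?_⟩⟩⟩
  · beta_reduce
    set τ := ta σ with hτ
    have hτ0 : ∀ j, 0 ≤ τ j := ta_nonneg hσ
    have hτσ : ∀ j : Fin 6, τ j = σ j := ta_eq σ
    have h6 : ∑ j, σ j + 6 * h = aa h τ 6 := by
      unfold aa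
      rw [Finset.sum_add_distrib, ← Fin.sum_univ_eq_sum_range]
      simp [hτσ]
    have hd0 : Differentiable ℝ Real.smoothTransition := smT.differentiable (by simp)
    have hd1 : Differentiable ℝ (deriv Real.smoothTransition) :=
      (contDiff_infty_iff_deriv.1 smT).2.differentiable (by simp)
    have d1 : deriv (ph h τ) =
        fun s => Real.pi / 3 * (h⁻¹ * sm (deriv Real.smoothTransition) h τ s) := by
      funext s
      exact ((sm_deriv _ hd0 h τ s).const_mul _).deriv
    have d2 : ∀ s, deriv (deriv (ph h τ)) s =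
        Real.pi / 3 * (h⁻¹ * (h⁻¹ * sm (deriv (deriv Real.smoothTransition)) h τ s)) := by
      intro s
      rw [d1]
      exact (((sm_deriv _ hd1 h τ s).const_mul _).const_mul _).deriv
    have hi : 0 < h⁻¹ := inv_pos.2 hh
    refine ⟨ph_smooth h τ, fun s hs => ?_, fun s hs => ?_, fun s => ⟨?_, ?_⟩, ?_, ?_⟩
    · unfold ph sm
      rw [Finset.sum_eq_zero, mul_zero]
      intro j _
      apply Real.smoothTransition.zero_of_nonpos
      apply div_nonpos_of_nonpos_of_nonneg _ hh.le
      have := aa_mono hh hτ0 (Nat.zero_le j)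
      have h0 : aa h τ 0 = 0 := by simp [aa]
      linarith [hτ0 j]
    · rw [h6] at hs
      unfold ph sm
      rw [Finset.sum_congr rfl (g := fun _ => (1 : ℝ))]
      · simp
        ring
      · intro j hj
        apply Real.smoothTransition.one_of_one_le
        rw [le_div_iff₀ hh]
        have := aa_mono hh hτ0 (show j + 1 ≤ 6 from Finset.mem_range.1 hj)
        rw [aa_succ] at this
        linarith
    · rw [d1]
      have := sm_le _ B (fun x => (hB x).1) h τ s
      simp only [abs_mul]
      rw [abs_of_pos (by positivity : 0 < Real.pi / 3), abs_of_pos hi, div_eq_mul_inv _ h]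
      have h2 : Real.pi / 3 * (h⁻¹ * |sm (deriv Real.smoothTransition) h τ s|) ≤
          Real.pi / 3 * (h⁻¹ * (6 * B)) := by gcongr
      nlinarith [mul_pos hpi hi]
    · rw [d2]
      have := sm_le _ B (fun x => (hB x).2) h τ s
      simp only [abs_mul]
      rw [abs_of_pos (by positivity : 0 < Real.pi / 3), abs_of_pos hi, div_eq_mul_inv _ (h ^ 2),
        ← inv_pow]
      have h2 : Real.pi / 3 * (h⁻¹ * (h⁻¹ * |sm (deriv (deriv Real.smoothTransition)) h τ s|)) ≤
          Real.pi / 3 * (h⁻¹ * (h⁻¹ * (6 * B))) := by gcongr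
      nlinarith [pow_pos hi 2, mul_pos hpi (pow_pos hi 2)]
    · have := total hh hτ0 1
      simp only [e1] at this
      simp only [one_mul] at this
      have hz : ∑ j ∈ Finset.range 6, ex (Real.pi / 3) ^ j = 0 := by
        simp only [Finset.sum_range_succ, Finset.sum_range_zero]
        linear_combination (1 + ex (Real.pi / 3) + ex (Real.pi / 3) ^ 2) * cube
      rw [h6, this, hz, mul_zero, add_zero, ← Fin.sum_univ_eq_sum_range
        (fun j => (τ j : ℂ) * ex (Real.pi / 3) ^ j)]
      simp only [hτσ, ej_eq]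
    · have := total hh hτ0 2
      simp only [e2] at this
      have hz : ∑ j ∈ Finset.range 6, (ex (Real.pi / 3) ^ j) ^ 2 = 0 := by
        simp only [Finset.sum_range_succ, Finset.sum_range_zero]
        linear_combination (1 + ex (Real.pi / 3) ^ 6) *
          (ex (Real.pi / 3) ^ 2 + ex (Real.pi / 3) + 1) * quad
      rw [h6, this, hz, mul_zero, add_zero, ← Fin.sum_univ_eq_sum_range
        (fun j => (τ j : ℂ) * (ex (Real.pi / 3) ^ j) ^ 2)]
      simp only [hτσ, ej_eq]
  · set D := ∑ j, |σ j - σ' j| with hD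
    have hD0 : 0 ≤ D := Finset.sum_nonneg fun _ _ => abs_nonneg _
    refine (ph_sub h _ _ s).trans ?_
    have h1 : ∀ j ∈ Finset.range 6,
        |Real.smoothTransition ((s - (aa h (ta σ) j + ta σ j)) / h) -
          Real.smoothTransition ((s - (aa h (ta σ') j + ta σ' j)) / h)| ≤ B * (D / h) := by
      intro j hj
      refine (lip (fun x => (hB x).1) _ _).trans (mul_le_mul_of_nonneg_left ?_ hB0)
      rw [← sub_div, abs_div, abs_of_pos hh, sub_sub_sub_cancel_left, abs_sub_comm]
      exact div_le_div_of_nonneg_right (turn_le h σ σ' (Finset.mem_range.1 hj)) hh.le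
    have h2 := Finset.sum_le_sum h1
    rw [Finset.sum_const, Finset.card_range, nsmul_eq_mul] at h2
    have h3 : 0 ≤ D / h := div_nonneg hD0 hh.le
    refine (mul_le_mul_of_nonneg_left h2 (by positivity)).trans ?_
    rw [mul_div_assoc]
    push_cast
    nlinarith [mul_nonneg hpi.le h3]
  · set D := ∑ j, |σ j - σ' j| with hD
    have hD0 : 0 ≤ D := Finset.sum_nonneg fun _ _ => abs_nonneg _
    have c1 : ∀ t t' : ℝ, Continuous fun s => |Real.smoothTransition ((s - t) / h) -
        Real.smoothTransition ((s - t') / h)| := fun t t' =>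
      ((smT.continuous.comp ((continuous_id.sub continuous_const).div_const h)).sub
        (smT.continuous.comp ((continuous_id.sub continuous_const).div_const h))).abs
    have h1 := intervalIntegral.integral_mono_on (μ := volume) hab
      (((ph_smooth h (ta σ)).continuous.sub (ph_smooth h (ta σ')).continuous).abs.intervalIntegrable
        a b)
      ((continuous_const.mul (continuous_finsetSum (Finset.range 6) fun j _ =>
        c1 (aa h (ta σ) j + ta σ j) (aa h (ta σ') j + ta σ' j))).intervalIntegrable a b)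
      fun s _ => ph_sub h (ta σ) (ta σ') s
    refine h1.trans ?_
    have h2 : ∑ j ∈ Finset.range 6, ∫ s in a..b,
        |Real.smoothTransition ((s - (aa h (ta σ) j + ta σ j)) / h) -
          Real.smoothTransition ((s - (aa h (ta σ') j + ta σ' j)) / h)| ≤
        ∑ _j ∈ Finset.range 6, D := Finset.sum_le_sum fun j hj =>
      (int_le hh _ _ a b).trans (turn_le h σ σ' (Finset.mem_range.1 hj))
    rw [Finset.sum_const, Finset.card_range, nsmul_eq_mul] at h2
    simp only [Pi.mul_apply]
    rw [intervalIntegral.integral_const_mul,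
      intervalIntegral.integral_finsetSum fun j _ => (c1 _ _).intervalIntegrable a b]
    refine (mul_le_mul_of_nonneg_left h2 (by positivity)).trans ?_
    push_cast
    nlinarith [mul_nonneg hpi.le hD0, mul_nonneg (mul_nonneg hpi.le hB0) hD0]

end

end Pool.Agent.Lib.EU2
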