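import Pool.Agent.Lib.EU2.Basic

set_option autoImplicit false

namespace Pool.Agent.Lib.EU2

open MeasureTheory Set Filter Topology Pool.Agent.Lib.EUL
open scoped ContDiff Classical

variable [Al]

namespace SEQ

omit [Al] in
theorem lg_one_le (r : ℝ) : 1 ≤ lg r := by unfold lg; linarith [abs_nonneg (Real.log r)]

theorem ok_mono {P : Par} {C C' : ℝ} (h : P.OK C') (hC : C ≤ C') : P.OK C :=
  { h with big := (mul_le_mul_of_nonneg_right hC (by linarith [lg_one_le P.rho])).trans h.big }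

theorem ts_of_dec {v : ℝ → ℂ → ℂ} {a b l D rho Y Xi Z M : ℝ}
    (h : HasDec v a b l D rho Y Xi Z M) : TS v a b := by
  obtain ⟨ι, _, o, V, H⟩ := h
  intro t ht x
  rw [H.eq, H.Vts t ht, zero_add]
  exact Finset.sum_eq_zero fun i _ => ((H.good i).Wts.mono (H.life i).1 (H.life i).2) t ht x

end SEQ

open SEQ in
theorem st_SEQ (hN : St_NUM) (hS : St_STAGE) (hA : St_ABS) (h0 : St_START) : St_SEQ := by
  intro β hβ1 hβ2
  obtain ⟨C1, hC1, hS⟩ := hS
  obtain ⟨C2, hC2, hA⟩ := hA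
  obtain ⟨C3, hC3, h0⟩ := h0
  obtain ⟨P, B, δ, k, hOK, hcl, hT, hlim, hsum, hδ, hk, hDk, s1, s2, s3, s4⟩ :=
    hN β (C1 + C2 + C3) hβ1 hβ2 (by linarith)
  have hl : ∀ m, 0 < (P m).l ∧ 0 < (P m).D ∧ 1 ≤ (P m).G ∧ (P m).rho ≤ 1 := fun m => by
    have h := hOK m
    have hG : 1 ≤ (P m).G := le_trans (by nlinarith [lg_one_le (P m).rho]) h.big
    have hD : 0 < (P m).D := h.rpos.trans_le h.rD
    have hd : 0 < (P m).d := by linarith [h.Dd2, h.d2d]
    have : (P m).d ≤ (P m).l := by nlinarith [h.dh, h.hl]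
    exact ⟨by linarith, hD, hG, by linarith [h.rD, h.Dd2, h.d2d, h.lsmall]⟩
  have hXi : ∀ m, 0 ≤ (P m).Xi ∧ 0 ≤ (P m).Z ∧ 0 ≤ (P m).T0 := fun m => by
    have h := hOK m
    have := h.rpos; have := h.Spos; have := (hl m).2.2.1; have := h.thpos
    refine ⟨?_, ?_, ?_⟩
    · unfold Par.Xi; positivity
    · unfold Par.Z; positivity
    · unfold Par.T0; positivity
  let St : ℕ → (ℝ → ℂ → ℂ) × (ℝ → ℂ → ℂ) → Prop := fun m w =>
    State w.1 w.2 (1 / 4 - 2 * ∑ j ∈ Finset.range m, (P j).T0)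
      (3 / 4 + 2 * ∑ j ∈ Finset.range m, (P j).T0) (P m).l (P m).D (P m).rho (P m).S (B m)
      (P m).Y (P m).Xi (P m).Z (P m).G
  have step : ∀ m w, St m w → ∃ w', St (m + 1) w' ∧
      Inc (fun t y => w'.1 t y - w.1 t y) ((P m).G ^ 7 * √(P m).S) (P m).rho := by
    intro m w hw
    obtain ⟨v', q', ⟨e1, e2, e3, e4⟩, hi⟩ := hS (P m) w.1 w.2 _ _ _ (ok_mono (hOK m) (by linarith)) hw
    obtain ⟨c1, c2, c3, c4, c5, c6, c7, c8, c9, c10⟩ := hcl m
    have ea : 1 / 4 - 2 * ∑ j ∈ Finset.range (m + 1), (P j).T0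
        = 1 / 4 - 2 * ∑ j ∈ Finset.range m, (P j).T0 - 2 * (P m).T0 := by
      rw [Finset.sum_range_succ]; ring
    have eb : 3 / 4 + 2 * ∑ j ∈ Finset.range (m + 1), (P j).T0
        = 3 / 4 + 2 * ∑ j ∈ Finset.range m, (P j).T0 + 2 * (P m).T0 := by
      rw [Finset.sum_range_succ]; ring
    refine ⟨(v', q'), ?_, hi⟩
    simp only [St, ea, eb]
    have hG := (hl m).2.2.1
    have hD := (hl (m + 1)).2.1
    have hX := (hXi m).1
    refine ⟨e1, e2, fun t => (e3 t).mono c1 c2, hA _ _ _ _ _ _ _ _ _ _ _ _ _ _ _ _ _ e4 hD c3 c4 c5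
      (by linarith [(hOK m).lsmall]) c6 (le_trans ?_ c7) c8 (le_trans ?_ c9) c10⟩
    · gcongr; linarith
    · gcongr; linarith
  have hk0 : (0 : ℝ) < k := by exact_mod_cast hk
  obtain ⟨v0, q0, hs0, hbig⟩ := h0 δ k (P 0).l (P 0).D (P 0).rho (P 0).S (B 0) (P 0).Y (P 0).Xi
    (P 0).Z (P 0).G hδ hk (hl 0).2.1.le hDk (le_trans (by gcongr; linarith) s1)
    (le_trans (by gcongr; linarith) s2) (le_trans (by gcongr; linarith) s3) (hXi 0).1 (hXi 0).2.1
    (by linarith [(hl 0).2.2.1])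
  choose! nxt hn1 hn2 using step
  let w : ℕ → (ℝ → ℂ → ℂ) × (ℝ → ℂ → ℂ) := fun m => Nat.rec (v0, q0) nxt m
  have hw : ∀ m, St m (w m) := fun m => by
    induction m with
    | zero => simpa [St, w] using hs0
    | succ m ih => exact hn1 m _ ih
  refine ⟨fun m => (w m).1, fun m => (w m).2, fun m => (P m).S,
    fun m => (P m).G ^ 7 * √(P m).S, fun m => (P m).rho, fun m => (hw m).1,
    fun m t => ((hw m).2.2.1 t).1, hlim, fun m => (hOK m).rpos, fun m => (hl m).2.2.2,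
    fun m => by have := (hl m).2.2.1; positivity, fun m => hn2 m _ (hw m), hsum,
    fun m => (ts_of_dec (hw m).2.2.2).mono (by linarith [hT m]) (by linarith [hT m]),
    δ / 2, s4, hbig⟩

end Pool.Agent.Lib.EU2
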