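import Pool.Agent.Lib.EU2.Basic
import Pool.Agent.Lib.EUL.B_SHEAR

set_option autoImplicit false

namespace Pool.Agent.Lib.EU2

open MeasureTheory Set Filter Topology Pool.Agent.Lib.EUL
open scoped ContDiff Classical

variable [Al]

open EUL.SHEAR in
theorem st_SHEAR (hCS : St_CS) (hENV : St_ENV) (hPTS : St_PTS) : St_SHEAR := by
  obtain ⟨C, hC1, hC⟩ := hENV
  refine ⟨17 * C, by linarith, ?_⟩
  intro ι _ W p c V g l D Y rho M Z hr hrD hrl hl hV hVp hGM hW hM hZ
  obtain ⟨gc, gp, gm, gY⟩ := hGM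
  have hl0 : 0 < l := lt_of_lt_of_le hr hrl
  have hex : ∀ i, ∃ x ∈ Metric.closedBall (p i) (l / 2), IsMinOn g (Metric.closedBall (p i) (l / 2)) x :=
    fun i => (isCompact_closedBall (p i) (l / 2)).exists_isMinOn
      ⟨p i, Metric.mem_closedBall_self (by linarith)⟩ gc.continuousOn
  choose x hx hmin using hex
  have g0 : ∀ y, 0 ≤ g y := fun y => (nD_nonneg 1 V y).trans (gm y y (by simp [hl0.le])).1
  have hG : ∀ i y, ‖y - p i‖ ≤ l / 2 → nD 1 V y ≤ g (x i) ∧ rho * nD 2 V y ≤ g (x i) := by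
    intro i y hy
    have h1 := hx i
    rw [Metric.mem_closedBall, dist_eq_norm] at h1
    have h2 : ‖x i - y‖ ≤ l := by
      have : x i - y = (x i - p i) - (y - p i) := by ring
      rw [this]
      exact (norm_sub_le _ _).trans (by linarith)
    exact ⟨(gm _ _ h2).1, (mul_le_mul_of_nonneg_right hrD (nD_nonneg 2 V y)).trans (gm _ _ h2).2⟩
  have hM0 : 0 ≤ M := le_trans (Nat.cast_nonneg _) (hM 0)
  have hM' : Mult (fun i => c i ≠ 0) p (l / 2) M := by
    intro y
    refine le_trans (Nat.cast_le.2 (Finset.card_le_card fun i hi => ?_)) (hM y)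
    simp only [Finset.mem_filter] at hi ⊢
    exact ⟨hi.1, hi.2.1, hi.2.2.trans (by linarith)⟩
  obtain ⟨F, hF, hP⟩ : ∃ F : Finset ι, (∀ i, i ∈ F ↔ c i ≠ 0) ∧
      (l / 2) ^ 2 * ∑ i ∈ F, g (x i) ^ 2 ≤ M * IQ fun y => g y ^ 2 :=
    ⟨_, fun i => by simp, hPTS ι (fun i => c i ≠ 0) p (l / 2) M (fun i => g (x i) ^ 2)
      (fun y => g y ^ 2) (by linarith) (by linarith) hM' (gc.pow 2)
      (fun n z => by simp only [gp n z]) (fun y => sq_nonneg _)
      (fun i _ y hy => pow_le_pow_left₀ (g0 _)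
        (hmin i (by rwa [Metric.mem_closedBall, dist_eq_norm])) 2)⟩
  have hMY : M * IQ (fun y => g y ^ 2) ≤ M * Y := mul_le_mul_of_nonneg_left gY hM0
  have hY0 : 0 ≤ M * Y := le_trans (mul_nonneg hM0 (integral_nonneg fun y => sq_nonneg _)) hMY
  have hsum : ∑ i, g (x i) * c i ≤ 2 / l * √(M * Y * Z) := by
    have e1 : ∑ i, g (x i) * c i = ∑ i ∈ F, g (x i) * c i := by
      refine (Finset.sum_subset (Finset.subset_univ F) fun i _ hi => ?_).symm
      rw [not_not.1 (mt (hF i).2 hi), mul_zero]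
    rw [e1]
    refine (Real.sum_mul_le_sqrt_mul_sqrt _ _ _).trans ?_
    have s1 : ∑ i ∈ F, g (x i) ^ 2 ≤ (2 / l) ^ 2 * (M * Y) := by
      have : (2 / l) ^ 2 * (M * Y) = (M * Y) / (l / 2) ^ 2 := by field_simp
      rw [this, le_div_iff₀ (by positivity), mul_comm]
      exact hP.trans hMY
    have s2 : ∑ i ∈ F, c i ^ 2 ≤ Z :=
      (Finset.sum_le_sum_of_subset_of_nonneg (Finset.subset_univ F)
        fun i _ _ => sq_nonneg _).trans hZ
    refine (mul_le_mul (Real.sqrt_le_sqrt s1) (Real.sqrt_le_sqrt s2) (Real.sqrt_nonneg _)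
      (Real.sqrt_nonneg _)).trans (le_of_eq ?_)
    rw [Real.sqrt_mul (sq_nonneg _), Real.sqrt_sq (by positivity), Real.sqrt_mul hY0 Z]
    ring
  set Q := √(M * Y * Z) with hQ
  have hQ0 : 0 ≤ Q := Real.sqrt_nonneg _
  have hsm : ∀ i, ContDiff ℝ ∞ fun y => (V y - V (p i)) * W i y :=
    fun i => (hV.sub contDiff_const).mul (hW i).1
  have hpt := fun i => pt hr hl0 (hW i).2.2.1 (g0 (x i)) hV hVp (hW i).1 (hW i).2.2.2.1
    (hW i).2.2.2.2 (hG i)
  have ha : ∀ i, 0 ≤ g (x i) * c i := fun i => mul_nonneg (g0 _) (hW i).2.2.1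
  have hlg : 1 ≤ lg rho := by unfold lg; linarith [abs_nonneg (Real.log rho)]
  have hr1 : rho ≤ 1 := by linarith
  have i0 : IQ (nD 0 fun y => ∑ i, (V y - V (p i)) * W i y) ≤
      (∑ i, g (x i) * c i * rho) * (C * rho * (l / 2)) :=
    IQ_le (nD_nonneg 0 _) (fun i => mul_nonneg (ha i) hr.le) (fun i => int_tr hr (l / 2) (p i))
      (fun i => (hC rho (p i) hr hr1).2.2.2 (l / 2) (by linarith))
      fun y => (nD_sum_le hsm 0 y).trans (Finset.sum_le_sum fun i _ => (hpt i y).1)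
  have i1 : IQ (nD 1 fun y => ∑ i, (V y - V (p i)) * W i y) ≤
      (∑ i, 2 * (g (x i) * c i)) * (C * rho ^ 2 * lg rho) :=
    IQ_le (nD_nonneg 1 _) (fun i => mul_nonneg zero_le_two (ha i))
      (fun i => int_cont (cont_tau 2 hr (p i))) (fun i => (hC rho (p i) hr hr1).1)
      fun y => (nD_sum_le hsm 1 y).trans (Finset.sum_le_sum fun i _ => (hpt i y).2.1)
  have i2 : IQ (nD 2 fun y => ∑ i, (V y - V (p i)) * W i y) ≤
      (∑ i, 4 * (g (x i) * c i) / rho) * (C * rho ^ 2 * lg rho) :=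
    IQ_le (nD_nonneg 2 _) (fun i => div_nonneg (mul_nonneg (by norm_num) (ha i)) hr.le)
      (fun i => int_cont (cont_tau 2 hr (p i))) (fun i => (hC rho (p i) hr hr1).1)
      fun y => (nD_sum_le hsm 2 y).trans (Finset.sum_le_sum fun i _ => (hpt i y).2.2)
  rw [← Finset.sum_mul] at i0
  rw [← Finset.mul_sum] at i1
  rw [← Finset.sum_div, ← Finset.mul_sum] at i2
  set S := ∑ i, g (x i) * c i with hS
  have hS0 : 0 ≤ S := Finset.sum_nonneg fun i _ => ha i
  have hC0 : 0 < C := by linarith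
  have hlg0 : 0 < lg rho := by linarith
  have key := hCS.2 (fun y => ∑ i, (V y - V (p i)) * W i y) l rho (C * rho ^ 2 * Q)
    (8 * C * lg rho * rho ^ 3 * Q / l) (ContDiff.sum fun i _ => hsm i)
    (fun n z => by simp only [hVp n z, (hW _).2.1 n z]) hr hl0
    (i0.trans (by
      have e : S * rho * (C * rho * (l / 2)) = S * (C * rho ^ 2 * (l / 2)) := by ring
      rw [e]
      refine (mul_le_mul_of_nonneg_right hsum (by positivity)).trans (le_of_eq ?_)
      field_simp))
    (i1.trans (by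
      have e : 2 * S * (C * rho ^ 2 * lg rho) = S * (2 * C * rho ^ 2 * lg rho) := by ring
      rw [e]
      refine (mul_le_mul_of_nonneg_right hsum (by positivity)).trans ?_
      have e2 : 8 * C * lg rho * rho ^ 3 * Q / l / rho
          = 2 * (2 / l * Q * (2 * C * rho ^ 2 * lg rho)) := by
        field_simp; ring
      have : 0 ≤ 2 / l * Q * (2 * C * rho ^ 2 * lg rho) := by positivity
      linarith))
    (i2.trans (by
      have e : 4 * S / rho * (C * rho ^ 2 * lg rho) = S * (4 * C * rho * lg rho) := by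
        field_simp
      rw [e]
      refine (mul_le_mul_of_nonneg_right hsum (by positivity)).trans (le_of_eq ?_)
      field_simp; ring))
  refine Cst.mono key hl0 ?_
  have hlr : 1 ≤ l / rho := (one_le_div hr).2 hrl
  have hp1 : 1 ≤ (l / rho) ^ (al - 1) := Real.one_le_rpow hlr (by linarith [one_le_al])
  have hp : (l / rho) ^ al = (l / rho) ^ (al - 1) * (l / rho) := by
    rw [Real.rpow_sub_one (by positivity)]
    field_simp
  rw [hp]
  set P := (l / rho) ^ (al - 1) with hP'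
  have e : 2 * (8 * C * lg rho * rho ^ 3 * Q / l) * (P * (l / rho))
      = 16 * (C * lg rho * Q * rho ^ 2 * P) := by
    field_simp; ring
  have e' : C * rho ^ 2 * Q ≤ C * lg rho * Q * rho ^ 2 * P := by
    have : C * lg rho * Q * rho ^ 2 * P = C * rho ^ 2 * Q * (lg rho * P) := by ring
    rw [this]
    exact le_mul_of_one_le_right (by positivity) (one_le_mul_of_one_le_of_one_le hlg hp1)
  rw [e]
  linarith

end Pool.Agent.Lib.EU2
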