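import Pool.Agent.Lib.EU2.Basic
import Pool.Agent.Lib.EUL.B_SQ

set_option autoImplicit false

namespace Pool.Agent.Lib.EU2

open MeasureTheory Set Filter Topology Pool.Agent.Lib.EUL
open scoped ContDiff Classical

noncomputable section

variable [Al]

open EUL.SQ in
theorem st_SQ (hCS : St_CS) : St_SQ := by
  refine ⟨8, by norm_num, ?_⟩
  intro B g l s X hs hsl hB hP ⟨hgc, _, hg, hX⟩
  have hBB : ContDiff ℝ ∞ fun y => B y * B y := hB.mul hB
  have e : (fun y => B y ^ 2 / 2) = fun y => (B y * B y) / 2 := by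
    funext y; ring
  have hl : 0 ≤ l := hs.le.trans hsl
  have hf : ContDiff ℝ ∞ fun y => B y ^ 2 / 2 := by
    rw [e]; exact hBB.div_const _
  have b0 : ∀ x, nD 0 B x ≤ g x := fun x => by
    simpa using hg x x (by simpa using hl) 0 (by norm_num)
  have b1 : ∀ x, s * nD 1 B x ≤ g x := fun x => by
    simpa using hg x x (by simpa using hl) 1 (by norm_num)
  have b2 : ∀ x, s ^ 2 * nD 2 B x ≤ g x := fun x => hg x x (by simpa using hl) 2 le_rfl
  have hs2 : 0 < s ^ 2 := by positivity
  have key := hCS.1 (fun y => B y ^ 2 / 2) l s (2 * X) hf (fun n z => by simp only [hP n z]) hs hsl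
    ?_ ?_
  · have e2 : 4 * (2 * X) * (l / s) ^ al = 8 * X * (l / s) ^ al := by ring
    rwa [e2] at key
  · refine le_trans (EUL.SQ.IQ_mono (cont_nD hf 0) (continuous_const.mul (hgc.pow 2))
      (g := fun x => 2 * g x ^ 2) fun x => ?_) ?_
    · rw [e, nD_half hBB, nD_zero_mul]
      have := EUL.SQ.nD_nonneg 0 B x
      have := b0 x
      nlinarith
    · rw [EUL.SQ.IQ_const_mul]; linarith
  · refine le_trans (EUL.SQ.IQ_mono (cont_nD hf 2) (continuous_const.mul (hgc.pow 2))
      (g := fun x => 2 / s ^ 2 * g x ^ 2) fun x => ?_) ?_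
    · rw [e, nD_half hBB]
      have h := nD_two_mul hB hB x
      have p0 := EUL.SQ.nD_nonneg 0 B x
      have p1 := EUL.SQ.nD_nonneg 1 B x
      have p2 := EUL.SQ.nD_nonneg 2 B x
      have q1 : nD 0 B x * (s ^ 2 * nD 2 B x) ≤ g x * g x :=
        mul_le_mul (b0 x) (b2 x) (by positivity) (p0.trans (b0 x))
      have q2 : (s * nD 1 B x) * (s * nD 1 B x) ≤ g x * g x :=
        mul_le_mul (b1 x) (b1 x) (by positivity) (p0.trans (b0 x))
      rw [div_mul_eq_mul_div, le_div_iff₀ hs2]
      nlinarith [mul_le_mul_of_nonneg_right h hs2.le]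
    · rw [EUL.SQ.IQ_const_mul, div_mul_eq_mul_div]
      exact div_le_div_of_nonneg_right (by linarith) hs2.le

end

end Pool.Agent.Lib.EU2
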