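import Pool.Agent.Lib.EU2.Basic
import Pool.Agent.Lib.EUL.B_START

set_option autoImplicit false

namespace Pool.Agent.Lib.EU2

open MeasureTheory Set Filter Topology Pool.Agent.Lib.EUL
open scoped ContDiff Classical

variable [Al]

theorem START.cos_le (b : ℝ) : |Real.cos b - 1| ≤ 2 * |b| ^ al := by
  have h0 : Real.cos b - 1 ≤ 0 := sub_nonpos.2 (Real.cos_le_one b)
  rw [abs_of_nonpos h0]
  rcases le_total |b| 1 with h | h
  · have h1 := Real.one_sub_sq_div_two_le_cos (x := b)
    have h2 : |b| ^ (2 : ℝ) ≤ |b| ^ al :=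
      Real.rpow_le_rpow_of_exponent_ge' (abs_nonneg b) h (zero_le_one.trans one_le_al) al_le_two
    rw [Real.rpow_two, sq_abs] at h2
    nlinarith [sq_nonneg b]
  · have h2 : 1 ≤ |b| ^ al := Real.one_le_rpow h (zero_le_one.trans one_le_al)
    linarith [Real.neg_one_le_cos b]

open EUL.START in
theorem st_START : St_START := by
  obtain ⟨e, E, hE0, he, he1, heE, he0, heone⟩ := exists_e
  refine ⟨40 + 40 * E, by linarith, ?_⟩
  intro δ k l D rho S B Y Xi Z M hδ hk hD hDk hS hB hY hXi hZ hM
  have hk' : (1 : ℝ) ≤ k := by exact_mod_cast hk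
  have hpi := Real.pi_gt_three
  have hpi' := Real.pi_lt_d2
  set a : ℝ := 2 * Real.pi * k with ha
  have ha0 : 0 < a := by positivity
  have hak : k ≤ a := by nlinarith
  have hak' : a ≤ 6.3 * k := by nlinarith
  have he' : ContDiff ℝ ∞ (deriv e) := (contDiff_infty_iff_deriv.1 he).2
  have hed : ∀ t, HasDerivAt e (deriv e t) t := fun t =>
    (he.differentiable (by simp) t).hasDerivAt
  set v : ℝ → ℂ → ℂ := fun t x => ((e t * δ * Real.sin (a * x.im) : ℝ) : ℂ) with hv
  set q : ℝ → ℂ → ℂ := fun t x => -Complex.I * ((deriv e t * δ / a * Real.cos (a * x.im) : ℝ) : ℂ)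
    with hq
  have him : ContDiff ℝ ∞ fun p : ℝ × ℂ => a * p.2.im :=
    contDiff_const.mul (Complex.imCLM.contDiff.comp contDiff_snd)
  have hvsp : SP v := by
    refine ⟨Complex.ofRealCLM.contDiff.comp ?_, fun t n z => ?_⟩
    · exact ((he.comp contDiff_fst).mul contDiff_const).mul him.sin
    · simp only [hv, ha, per_sin]
  have hqsp : SP q := by
    refine ⟨contDiff_const.mul (Complex.ofRealCLM.contDiff.comp ?_), fun t n z => ?_⟩
    · exact (((he'.comp contDiff_fst).mul contDiff_const).div_const _).mul him.cos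
    · simp only [hq, ha, per_cos]
  refine ⟨v, q, ⟨⟨hvsp, hqsp, fun t x => ?_, fun t => ?_⟩, fun t ht x => ?_, fun t => ⟨?_, fun y => ?_⟩,
    Empty, inferInstance, Empty.elim, v, ?_⟩, fun t ht => ?_⟩
  · rw [dz_im (F := fun s => ((e t * δ * Real.sin (a * s) : ℝ) : ℂ)) (d_sin _ a _).ofReal_comp]
    generalize e t * δ * (Real.cos (a * x.im) * a) = w
    simp
  · refine ⟨fun x => -(e t * δ * Real.sin (a * x.im)) ^ 2 / 2, ?_, fun n z => ?_, fun x => ?_⟩
    · have : ContDiff ℝ ∞ fun x : ℂ => a * x.im := contDiff_const.mul Complex.imCLM.contDiff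
      exact ((contDiff_const.mul this.sin).pow 2).neg.div_const _
    · simp only [ha, per_sin]
    · have h1 : dt v t x = ((deriv e t * δ * Real.sin (a * x.im) : ℝ) : ℂ) :=
        (((hed t).mul_const δ).mul_const _).ofReal_comp.deriv
      have h2 := dz_im (F := fun s => ((e t * δ * Real.sin (a * s) : ℝ) : ℂ) ^ 2) (x := x)
        ((d_sin (e t * δ) a _).ofReal_comp.pow 2)
      have h3 := dz_im (F := fun s => -Complex.I * ((deriv e t * δ / a * Real.cos (a * s) : ℝ) : ℂ))
        (x := x) ((d_cos (deriv e t * δ / a) a _).ofReal_comp.const_mul _)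
      have h4 := dzb_im (F := fun s => ((-(e t * δ * Real.sin (a * s)) ^ 2 / 2 : ℝ) : ℂ)) (x := x)
        ((((d_sin (e t * δ) a _).pow 2).neg.div_const 2).ofReal_comp)
      change dt v t x + dz (fun y => ((e t * δ * Real.sin (a * y.im) : ℝ) : ℂ) ^ 2) x -
        2 * dz (fun y => -Complex.I * ((deriv e t * δ / a * Real.cos (a * y.im) : ℝ) : ℂ)) x =
        2 * dzb (fun y => ((-(e t * δ * Real.sin (a * y.im)) ^ 2 / 2 : ℝ) : ℂ)) x
      rw [h1, h2, h3, h4]
      have ha' : (a : ℂ) ≠ 0 := by exact_mod_cast ha0.ne'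
      have e1 : ((deriv e t * δ / a * (-Real.sin (a * x.im) * a) : ℝ) : ℂ) =
          -((deriv e t * δ * Real.sin (a * x.im) : ℝ) : ℂ) := by
        rw [← Complex.ofReal_neg]
        congr 1
        field_simp
      rw [e1]
      generalize ((deriv e t * δ * Real.sin (a * x.im) : ℝ) : ℂ) = w
      push_cast
      linear_combination (w) * Complex.I_mul_I
  · simp [hq, (he0 t ht).2]
  · refine (IQ_le_const (c := E * δ / k) (fun _ => norm_nonneg _) fun x => ?_).trans ?_
    · simp only [hq, norm_mul, norm_neg, Complex.norm_I, one_mul, Complex.norm_real,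
        Real.norm_eq_abs, abs_mul, abs_div, abs_of_pos hδ, abs_of_pos ha0]
      refine (mul_le_of_le_one_right (by positivity) (Real.abs_cos_le_one _)).trans ?_
      gcongr
      exact heE t
    · refine le_trans ?_ hS
      gcongr
      linarith
  · refine IQ_le_const (fun _ => norm_nonneg _) fun x => ?_
    have e1 : q t (x + y) + q t (x - y) - 2 * q t x = -Complex.I *
        ((2 * (deriv e t * δ / a) * Real.cos (a * x.im) * (Real.cos (a * y.im) - 1) : ℝ) : ℂ) := by
      simp only [hq, Complex.add_im, Complex.sub_im, mul_add, mul_sub, Real.cos_add, Real.cos_sub]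
      push_cast
      ring
    rw [e1]
    simp only [norm_mul, norm_neg, Complex.norm_I, one_mul, Complex.norm_real,
      Real.norm_eq_abs, abs_mul, abs_div, abs_of_pos hδ, abs_of_pos ha0, abs_two]
    have h1 := START.cos_le (a * y.im)
    have hal : (0 : ℝ) ≤ al := zero_le_one.trans one_le_al
    have h2 : |a * y.im| ^ al ≤ a * a ^ (al - 1) * ‖y‖ ^ al := by
      rw [abs_mul, abs_of_pos ha0, Real.mul_rpow ha0.le (abs_nonneg _), Real.rpow_sub_one ha0.ne',
        mul_div_cancel₀ _ ha0.ne']
      gcongr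
      exact Complex.abs_im_le_norm y
    have h3 : a ^ (al - 1) ≤ 7 * (k : ℝ) ^ (al - 1) := by
      have h4 : a ^ (al - 1) ≤ (7 * (k : ℝ)) ^ (al - 1) :=
        Real.rpow_le_rpow ha0.le (by linarith) (sub_nonneg.2 one_le_al)
      rw [Real.mul_rpow (x := 7) (by norm_num) (by positivity)] at h4
      refine h4.trans ?_
      gcongr
      calc (7 : ℝ) ^ (al - 1) ≤ 7 ^ (1 : ℝ) :=
            Real.rpow_le_rpow_of_exponent_le (by norm_num) (by linarith [al_le_two])
        _ = 7 := Real.rpow_one 7
    calc 2 * (|deriv e t| * δ / a) * |Real.cos (a * x.im)| * |Real.cos (a * y.im) - 1|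
        ≤ 2 * (E * δ / a) * 1 * (2 * (a * (7 * (k : ℝ) ^ (al - 1)) * ‖y‖ ^ al)) := by
          gcongr
          · exact heE t
          · exact Real.abs_cos_le_one _
          · refine h1.trans ?_
            gcongr
            refine h2.trans ?_
            gcongr
      _ = 28 * E * δ * (k : ℝ) ^ (al - 1) * ‖y‖ ^ al := by
          field_simp
          ring
      _ ≤ B * ‖y‖ ^ al := by
          gcongr
          refine le_trans ?_ hB
          gcongr
          linarith
  · refine ⟨hvsp, fun t ht x => ?_, fun t x => by simp, ?_, fun i => i.elim, fun i => i.elim,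
      fun i => i.elim, fun i => i.elim, fun t y => by simpa using hM, fun t => by simpa using hXi,
      fun t => by simpa using hZ⟩
    · simp [hv, (he0 t ht).1]
    · refine ⟨fun _ _ => 40 * δ * k, continuous_const, fun t => ⟨continuous_const, fun _ _ => rfl,
        fun x y _ => ?_, ?_⟩⟩
      · obtain ⟨h1, h2⟩ := nD_sin (e t * δ) a y
        have h3 : |e t * δ| ≤ δ := by
          rw [abs_mul, abs_of_pos hδ]
          exact mul_le_of_le_one_left hδ.le (he1 t)
        rw [abs_of_pos ha0] at h1
        constructor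
        · refine h1.trans ?_
          calc |e t * δ| * a ≤ δ * (6.3 * k) := by gcongr
            _ ≤ 40 * δ * k := by nlinarith
        · calc D * nD 2 (v t) y ≤ D * (δ * (6.3 * k) ^ 2) := by
                gcongr
                refine h2.trans ?_
                gcongr
            _ = 39.69 * δ * k * (D * k) := by ring
            _ ≤ 40 * δ * k * 1 := by gcongr; norm_num
            _ = 40 * δ * k := mul_one _
      · rw [IQ_const]
        refine le_trans ?_ hY
        gcongr
        linarith
  · have e1 : ∀ x, ‖v t x‖ ^ 2 = δ ^ 2 * Real.sin (2 * Real.pi * k * x.im) ^ 2 := by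
      intro x
      simp only [hv, heone t ht, Complex.norm_real, Real.norm_eq_abs, sq_abs]
      ring
    simp only [e1]
    rw [IQ_const_mul, IQ_sin_sq hk]
    nlinarith

end Pool.Agent.Lib.EU2
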