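import Pool.Agent.Lib.EU2.Blue
import Pool.Agent.Lib.EUL.Steer

/-! Steering. -/

set_option autoImplicit false

namespace Pool.Agent.Lib.EU2

theorem st_STEER : St_STEER := by
  intro N g d0 A Safe En hg hd hA hS hE
  obtain ⟨a, v, h1, h2, h3⟩ := Pool.Agent.Lib.EUL.STEER.steer0 N Safe En hg hd hA hS
    (fun k hk a v v' ha hv hv' => by have := (hE k hk a ha v hv).2 v' hv'; linarith)
    fun k hk a v ha hv => (hE k hk a ha v hv).1
  refine ⟨fun k => a (min k N), v, fun k => ⟨h1 _ (min_le_right _ _), h2 k⟩, fun k hk => ?_⟩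
  simp only [min_eq_left hk.le, min_eq_left (Nat.succ_le_of_lt hk)]
  exact h3 k hk

end Pool.Agent.Lib.EU2
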