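import Pool.Agent.Lib.EU2.Blue
import Pool.Agent.Lib.EUL.B_TOUR

namespace Pool.Agent.Lib.EU2

open MeasureTheory Set Filter Topology Pool.Agent.Lib.EUL Pool.Agent.Lib.EUL.TOUR
open scoped ContDiff

noncomputable section

namespace TOUR

theorem ex_sub_le (a b : ℝ) : ‖ex a - ex b‖ ≤ |a - b| := by
  have e : ex a - ex b = ex b * (Complex.exp (Complex.I * (a - b : ℝ)) - 1) := by
    rw [mul_sub, mul_one, ex, ex, ← Complex.exp_add]
    congr 2
    push_cast
    ring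
  rw [e, norm_mul, ex, Complex.norm_exp_ofReal_mul_I, one_mul]
  exact Real.norm_exp_I_mul_ofReal_sub_one_le

/-- a steerable path from `a` to `b` of length at most `M` -/
def TS (h c0 L C B : ℝ) (a b : ℂ) (M : ℝ) (F : (ℂ → ℂ) → ℂ) : Prop :=
  ∃ (Φ : (ℕ → ℂ) → ℝ → ℝ) (N : ℕ) (sk : ℕ → ℝ) (Λ : ℝ), Str Φ N sk Λ h c0 L C ∧ 0 ≤ Λ ∧ Λ ≤ M ∧
    (∀ k ≤ N, 0 ≤ sk k ∧ sk k ≤ Λ) ∧ (∀ vs, Adm c0 vs → (∀ s ≤ 0, Φ vs s = 0) ∧
      ∀ s, Λ ≤ s → Φ vs s = (N : ℤ) * (2 * Real.pi)) ∧ a + pos (Φ 0) Λ = b ∧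
    (∀ s ∈ Icc 0 Λ, ‖a + pos (Φ 0) s‖ ≤ B) ∧
    ∀ g : ℂ → ℂ, Continuous g → ∫ s in (0 : ℝ)..Λ, ex (2 * Φ 0 s) * g (a + pos (Φ 0) s) = F g

variable {h c0 L C B M M' : ℝ} {a b c : ℂ} {F F' : (ℂ → ℂ) → ℂ}

theorem TS.nil (hh : 0 < h) (h0 : 0 ≤ c0) (hC : 0 ≤ C) (ha : ‖a‖ ≤ B) :
    TS h c0 L C B a a 0 fun _ => 0 :=
  ⟨fun _ _ => 0, 0, fun _ => 0, 0, ⟨rfl, rfl, by simp, by simp, fun _ _ => ⟨contDiff_const,
    fun _ => by simp; exact ⟨by positivity, by positivity, by positivity⟩⟩, by simp, by simp,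
    by simp⟩, le_rfl, le_rfl, by simp, by simp, by simp [pos],
    fun s hs => by simpa [le_antisymm hs.2 hs.1, pos] using ha, by simp⟩

theorem TS.mono (t : TS h c0 L C B a b M F) (hM : M ≤ M') (hF : ∀ g, F g = F' g) :
    TS h c0 L C B a b M' F' := by
  obtain ⟨Φ, N, sk, Λ, h0, h1, h2, h3⟩ := t
  exact (funext hF : F = F') ▸ ⟨Φ, N, sk, Λ, h0, h1, h2.trans hM, h3⟩

theorem TS.app (h0 : 0 ≤ c0) (t : TS h c0 L C B a b M F) (t' : TS h c0 L C B b c M' F') :
    TS h c0 L C B a c (M + M') fun g => F g + F' g := by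
  obtain ⟨Φ, m, sk, Λ, S, a1, a2, a3, a4, a7, a8, a9⟩ := t
  obtain ⟨Ψ, n, tk, Λ', T, b1, b2, b3, b4, b7, b8, b9⟩ := t'
  have z : Adm c0 0 := fun _ => by simpa using h0
  have ad : ∀ {vs}, Adm c0 vs → Adm c0 fun k => vs (m + k) := fun hv k => hv _
  obtain ⟨X, hX⟩ : ∃ X : (ℕ → ℂ) → ℝ → ℝ,
    X = fun vs s => Φ vs s + Ψ (fun k => vs (m + k)) (s - Λ) := ⟨_, rfl⟩
  obtain ⟨uk, hu⟩ : ∃ uk : ℕ → ℝ, uk = fun k => if k ≤ m then sk k else Λ + tk (k - m) := ⟨_, rfl⟩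
  have u1 : ∀ k ≤ m, uk k = sk k := fun k hk => by rw [hu]; exact if_pos hk
  have u2 : ∀ j, uk (m + j) = Λ + tk j := fun j => by
    rcases j with _ | j
    · rw [add_zero, u1 _ le_rfl, T.s0, add_zero, S.sN]
    · rw [hu]
      exact (if_neg (by omega)).trans (by rw [Nat.add_sub_cancel_left])
  have cs : ∀ {P : ℕ → Prop}, (∀ k < m, P k) → (∀ j < n, P (m + j)) → ∀ k < m + n, P k :=
    fun h1 h2 k hk => by
      rcases lt_or_ge k m with h | h
      · exact h1 k h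
      · obtain ⟨j, rfl⟩ := Nat.exists_eq_add_of_le h
        exact h2 j (by omega)
  have c3 : ∀ {vs}, Adm c0 vs → ContDiff ℝ ∞ (X vs) := fun hv => by
    have := (S.sm _ hv).1
    have := (T.sm _ (ad hv)).1
    rw [hX]
    fun_prop
  have dd : ∀ {f g : ℝ → ℝ}, ContDiff ℝ ∞ f → ContDiff ℝ ∞ g →
      (deriv fun s => f s + g (s - Λ)) = fun s => deriv f s + deriv g (s - Λ) := fun hf hg =>
    funext fun s => ((hf.differentiable (by simp) s).hasDerivAt.add
      ((hg.differentiable (by simp) _).hasDerivAt.comp_sub_const s Λ)).deriv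
  have l1 : ∀ {vs}, Adm c0 vs → ∀ s ≤ Λ, X vs s = Φ vs s := fun hv s hs => by
    simp only [hX, (b4 _ (ad hv)).1 _ (sub_nonpos.2 hs), add_zero]
  have r0 : ∀ {vs}, Adm c0 vs → ∀ s, Λ ≤ s →
      X vs s = (m : ℤ) * (2 * Real.pi) + Ψ (fun k => vs (m + k)) (s - Λ) := fun hv s hs => by
    simp only [hX, (a4 _ hv).2 s hs]
  have r1 : ∀ {vs}, Adm c0 vs → ∀ s, Λ ≤ s → ex (X vs s) = ex (Ψ (fun k => vs (m + k)) (s - Λ)) :=
    fun hv s hs => by rw [r0 hv s hs, ex_per]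
  have r1' : ∀ s, Λ ≤ s → ex (X 0 s) = ex (Ψ 0 (s - Λ)) := r1 z
  have l2 : ∀ s ∈ Icc 0 Λ, pos (X 0) s = pos (Φ 0) s := fun s hs =>
    intervalIntegral.integral_congr fun t ht => by
      rw [uIcc_of_le hs.1] at ht
      simp only [l1 z t (ht.2.trans hs.2)]
  have r2 : ∀ s, Λ ≤ s → a + pos (X 0) s = b + pos (Ψ 0) (s - Λ) := fun s hs => by
    rw [pos, ← intervalIntegral.integral_add_adjacent_intervals
      ((cex (c3 z).continuous).intervalIntegrable 0 Λ)
      ((cex (c3 z).continuous).intervalIntegrable Λ s),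
      ← add_assoc, ← a7, ← l2 Λ ⟨a1, le_rfl⟩, pos, pos, ← sub_self Λ,
      ← intervalIntegral.integral_comp_sub_right fun t => ex (Ψ 0 t)]
    congr 1
    exact intervalIntegral.integral_congr fun t ht => r1' t (by rw [uIcc_of_le hs] at ht; exact ht.1)
  have i1 : ∀ {vs vs'}, Adm c0 vs → Adm c0 vs' → ∀ p q, p ≤ q → q ≤ Λ →
      ∫ r in p..q, (ex (X vs r) - ex (X vs' r)) = ∫ r in p..q, (ex (Φ vs r) - ex (Φ vs' r)) :=
    fun hv hv' p q h1 h2 => intervalIntegral.integral_congr fun t ht => by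
      rw [uIcc_of_le h1] at ht
      simp only [l1 hv t (ht.2.trans h2), l1 hv' t (ht.2.trans h2)]
  have i2 : ∀ {vs vs'}, Adm c0 vs → Adm c0 vs' → ∀ p q, 0 ≤ p → Λ + p ≤ q →
      ∫ r in (Λ + p)..q, (ex (X vs r) - ex (X vs' r)) = ∫ r in p..(q - Λ),
        (ex (Ψ (fun k => vs (m + k)) r) - ex (Ψ (fun k => vs' (m + k)) r)) :=
    fun {vs vs'} hv hv' p q h1 h2 => by
      have e := intervalIntegral.integral_comp_sub_right (a := Λ + p) (b := q)
        (fun r => ex (Ψ (fun k => vs (m + k)) r) - ex (Ψ (fun k => vs' (m + k)) r)) Λ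
      rw [add_sub_cancel_left] at e
      rw [← e]
      refine intervalIntegral.integral_congr fun t ht => ?_
      rw [uIcc_of_le h2] at ht
      simp only [r1 hv t (by linarith [ht.1]), r1 hv' t (by linarith [ht.1])]
  refine ⟨X, m + n, uk, Λ + Λ', ⟨(u1 0 (by omega)).trans S.s0, (u2 n).trans (by rw [T.sN]),
    cs (fun k hk => ?_) fun j hj => ?_, cs (fun k hk => ?_) fun j hj => ?_,
    fun vs hv => ⟨c3 hv, fun s => ?_⟩,
    fun vs vs' hv hv' => cs (fun k hk e s hs => ?_) fun j hj e s hs => ?_,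
    fun vs vs' hv hv' => cs (fun k hk s hs => ?_) fun j hj s hs => ?_,
    fun vs vs' hv hv' => cs (fun k hk => ?_) fun j hj => ?_⟩, by positivity, add_le_add a2 b2,
    fun k hk => ?_, fun vs hv => ⟨fun s hs => ?_, fun s hs => ?_⟩, ?_, fun s hs => ?_,
    fun g hg => ?_⟩
  · rw [u1 _ hk.le, u1 _ hk]
    exact S.lt k hk
  · rw [add_assoc, u2, u2]
    linarith [T.lt j hj]
  · rw [u1 _ hk.le, u1 _ hk]
    exact S.len k hk
  · rw [add_assoc, u2, u2]
    linarith [T.len j hj]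
  · obtain ⟨p1, p2⟩ := S.sm _ hv
    obtain ⟨q1, q2⟩ := T.sm _ (ad hv)
    have p1' := (contDiff_infty_iff_deriv.1 p1).2
    have q1' := (contDiff_infty_iff_deriv.1 q1).2
    rw [show deriv (X vs) = _ from (congrArg deriv (congrFun hX vs)).trans (dd p1 q1), dd p1' q1']
    dsimp only
    rcases le_total s Λ with hs | hs
    · have := TOUR.dz q1 (uniqueDiffOn_Iic 0) (b4 _ (ad hv)).1
      rw [this _ (sub_nonpos.2 hs), TOUR.dz q1' (uniqueDiffOn_Iic 0) this _ (sub_nonpos.2 hs),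
        add_zero, add_zero, l1 hv s hs, l1 z s hs]
      exact p2 s
    · have := TOUR.dz p1 (uniqueDiffOn_Ici Λ) (a4 _ hv).2
      rw [this _ hs, TOUR.dz p1' (uniqueDiffOn_Ici Λ) this _ hs, zero_add, zero_add, r0 hv s hs,
        r0 z s hs, add_sub_add_left_eq_sub]
      exact q2 _
  · rw [u1 _ hk.le, u1 _ hk] at hs
    have := hs.2.trans (a3 _ hk).2
    rw [l1 hv s this, l1 hv' s this]
    exact S.loc _ _ hv hv' k hk e s hs
  · rw [add_assoc, u2, u2] at hs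
    have : Λ ≤ s := by linarith [hs.1, (b3 j hj.le).1]
    rw [r0 hv s this, r0 hv' s this, T.loc _ _ (ad hv) (ad hv') j hj e _
      ⟨by linarith [hs.1], by linarith [hs.2]⟩]
  · rw [u1 _ hk.le, u1 _ hk] at hs
    rw [u1 _ hk.le, i1 hv hv' _ _ hs.1 (hs.2.trans (a3 _ hk).2)]
    exact S.lip _ _ hv hv' k hk s hs
  · rw [add_assoc, u2, u2] at hs
    rw [u2, i2 hv hv' _ _ (b3 j hj.le).1 hs.1]
    exact T.lip _ _ (ad hv) (ad hv') j hj _ ⟨by linarith [hs.1], by linarith [hs.2]⟩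
  · rw [u1 _ hk.le, u1 _ hk, i1 hv hv' _ _ (S.lt k hk).le (a3 _ hk).2]
    exact S.fin _ _ hv hv' k hk
  · rw [add_assoc, u2, u2, i2 hv hv' _ _ (b3 j hj.le).1 (by linarith [T.lt j hj]),
      add_sub_cancel_left]
    exact T.fin _ _ (ad hv) (ad hv') j hj
  · rcases le_total k m with h | h
    · rw [u1 k h]
      exact ⟨(a3 k h).1, by linarith [(a3 k h).2]⟩
    · obtain ⟨j, rfl⟩ := Nat.exists_eq_add_of_le h
      rw [u2]
      exact ⟨by linarith [(b3 j (by omega)).1], by linarith [(b3 j (by omega)).2]⟩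
  · rw [l1 hv s (hs.trans a1), (a4 _ hv).1 s hs]
  · rw [r0 hv s (by linarith), (b4 _ (ad hv)).2 _ (by linarith)]
    push_cast
    ring
  · rw [r2 _ (by linarith), add_sub_cancel_left, b7]
  · rcases le_total s Λ with h | h
    · rw [l2 s ⟨hs.1, h⟩]
      exact a8 s ⟨hs.1, h⟩
    · rw [r2 s h]
      exact b8 _ ⟨by linarith, by linarith [hs.2]⟩
  · have ct : Continuous fun s => ex (2 * X 0 s) * g (a + pos (X 0) s) :=
      (cex (continuous_const.mul (c3 z).continuous)).mul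
        (hg.comp (continuous_const.add (cpos (c3 z).continuous)))
    have e := intervalIntegral.integral_comp_sub_right (a := Λ) (b := Λ + Λ')
      (fun s => ex (2 * Ψ 0 s) * g (b + pos (Ψ 0) s)) Λ
    rw [sub_self, add_sub_cancel_left] at e
    dsimp only
    rw [← intervalIntegral.integral_add_adjacent_intervals (ct.intervalIntegrable 0 Λ)
      (ct.intervalIntegrable Λ _), ← a9 g hg, ← b9 g hg, ← e]
    congr 1
    · refine intervalIntegral.integral_congr fun t ht => ?_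
      rw [uIcc_of_le a1] at ht
      simp only [l1 z t ht.2, l2 t ht]
    · refine intervalIntegral.integral_congr fun t ht => ?_
      rw [uIcc_of_le (by linarith)] at ht
      simp only [ex_two, r1' t ht.1, r2 t ht.1]

theorem TS.sum {ι : Type} (hh : 0 < h) (h0 : 0 ≤ c0) (hC : 0 ≤ C) (ha : ‖a‖ ≤ B) {m : ι → ℝ}
    {f : ι → (ℂ → ℂ) → ℂ} (t : ∀ i, TS h c0 L C B a a (m i) (f i)) (s : Finset ι) :
    TS h c0 L C B a a (∑ i ∈ s, m i) fun g => ∑ i ∈ s, f i g := by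
  induction s using Finset.cons_induction with
  | empty => exact TS.nil hh h0 hC ha
  | cons i s hi ih =>
    exact ((t i).app h0 ih).mono (Finset.sum_cons _).ge fun g => by rw [Finset.sum_cons]

/-- the control part of the sides -/
def ctl (r : ℝ) (v : ℂ) (j : Fin 6) : ℝ := (r + (v * (starRingEnd ℂ) (ej j)).re) / 3

theorem re_le (v : ℂ) (j : ℕ) : |(v * (starRingEnd ℂ) (ej j)).re| ≤ ‖v‖ := by
  have := Complex.abs_re_le_norm (v * (starRingEnd ℂ) (ej j))
  rwa [norm_mul, Complex.norm_conj, ej, Complex.norm_exp_ofReal_mul_I, mul_one, ← ej] at this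

theorem ctl_sum (r : ℝ) (v : ℂ) : ∑ j, ctl r v j = 2 * r := by
  refine Complex.ofReal_injective ?_
  rw [Complex.ofReal_sum]
  refine (six fun _ e => (((r + (v * (starRingEnd ℂ) e).re) / 3 : ℝ) : ℂ)).trans ?_
  simp only [map_neg, mul_neg, Complex.neg_re]
  push_cast
  ring

theorem ctl_vec (r : ℝ) (v : ℂ) : ∑ j : Fin 6, ctl r v j * ej j = v := by
  refine (six fun _ e => (((r + (v * (starRingEnd ℂ) e).re) / 3 : ℝ) : ℂ) * e).trans ?_
  rw [ej0, ej1, ej2]
  have := Real.mul_self_sqrt (show (0 : ℝ) ≤ 3 by norm_num)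
  refine Complex.ext ?_ ?_ <;>
    simp only [Complex.add_re, Complex.add_im, Complex.re_ofReal_mul, Complex.im_ofReal_mul] <;>
    simp
  · ring
  · linear_combination v.im / 3 * this

theorem ctl_sq (r : ℝ) : ∑ j : Fin 6, ctl r 0 j * ej j ^ 2 = 0 := by
  refine (six fun _ e => (((r + (0 * (starRingEnd ℂ) e).re) / 3 : ℝ) : ℂ) * e ^ 2).trans ?_
  rw [ej0, ej1, ej2]
  have := Real.mul_self_sqrt (show (0 : ℝ) ≤ 3 by norm_num)
  refine Complex.ext ?_ ?_ <;>
    simp only [Complex.add_re, Complex.add_im, Complex.re_ofReal_mul, Complex.im_ofReal_mul] <;>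
    simp [sq]
  · linear_combination (-r / 3) * this
  · ring

theorem ctl_lip (σ : Fin 6 → ℝ) (r : ℝ) (v w : ℂ) :
    ∑ j, |(σ + ctl r v) j - (σ + ctl r w) j| ≤ 2 * ‖v - w‖ := by
  refine (Finset.sum_le_card_nsmul _ _ (‖v - w‖ / 3) fun j _ => ?_).trans_eq (by simp; ring)
  rw [show (σ + ctl r v) j - (σ + ctl r w) j = ((v - w) * (starRingEnd ℂ) (ej j)).re / 3 by
    simp only [Pi.add_apply, ctl, sub_mul, Complex.sub_re]; ring, abs_div,
    abs_of_pos (show (0 : ℝ) < 3 by norm_num)]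
  linarith [re_le (v - w) j]

end TOUR

open TOUR in
theorem st_TOUR (hR : St_ROUND) : St_TOUR := by
  obtain ⟨C, hC, hR⟩ := hR
  refine ⟨3 * C, by linarith, fun h cc hh c0 c1 => ?_⟩
  have t0 : 0 < h - cc / 3 := by linarith
  obtain ⟨φ, hφ, hl⟩ := hR _ t0
  have rd : ∀ σ : Fin 6 → ℝ, (∀ j, 0 ≤ σ j) → ∃ φ : ℝ → ℝ, Continuous φ ∧
      ∫ s in (0 : ℝ)..(∑ j, σ j + 6 * h), ex (2 * φ s) = ∑ j : Fin 6, σ j * ej j ^ 2 ∧
      ∀ (a : ℂ) (B L : ℝ), ‖a‖ + (∑ j, σ j + 6 * h) ≤ B → ∑ j, σ j + 6 * h ≤ L →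
        TS h cc L (3 * C) B a (a + ∑ j : Fin 6, σ j * ej j) (∑ j, σ j + 6 * h) fun g =>
          ∫ s in (0 : ℝ)..(∑ j, σ j + 6 * h), ex (2 * φ s) * g (a + pos φ s) := fun σ hσ => by
    have s0 := Finset.sum_nonneg fun j (_ : j ∈ Finset.univ) => hσ j
    have nn : ∀ v : ℂ, ‖v‖ ≤ cc → ∀ j, 0 ≤ (σ + ctl cc v) j := fun v hv j =>
      add_nonneg (hσ j) (by rw [ctl]; linarith [(abs_le.1 (re_le v j)).1])
    have ln : ∀ v, ∑ j, (σ + ctl cc v) j + 6 * (h - cc / 3) = ∑ j, σ j + 6 * h := fun v => by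
      simp only [Pi.add_apply, Finset.sum_add_distrib, ctl_sum]
      ring
    have P := fun v hv => hφ _ (nn v hv)
    simp only [ln] at P
    simp only [Pi.add_apply, Complex.ofReal_add, add_mul, Finset.sum_add_distrib, ctl_vec] at P
    have z : ‖(0 : ℂ)‖ ≤ cc := by simpa
    obtain ⟨p1, -, -, -, p5, p6⟩ := P 0 z
    rw [ctl_sq, add_zero] at p6
    rw [add_zero] at p5
    refine ⟨_, p1.continuous, p6, fun a B L hB hL => ⟨fun vs => φ (σ + ctl cc (vs 0)), 1,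
      fun k => if k = 0 then 0 else ∑ j, σ j + 6 * h, ∑ j, σ j + 6 * h,
      ⟨rfl, rfl, fun k hk => ?_, fun k hk => ?_,
      fun vs hv => ⟨(P _ (hv 0)).1, fun s => ?_⟩, fun vs vs' _ _ k hk e s _ => ?_,
      fun vs vs' hv hv' k hk s hs => ?_, fun vs vs' hv hv' k hk => ?_⟩, by positivity, le_rfl,
      fun k _ => ?_, fun vs hv => ⟨(P _ (hv 0)).2.1, by simpa using (P _ (hv 0)).2.2.1⟩,
      congrArg _ p5, fun s hs => (norm_add_le _ _).trans (le_trans (add_le_add le_rfl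
        ((pos_le _ hs.1).trans hs.2)) hB), fun _ _ => rfl⟩⟩
    · obtain rfl : k = 0 := by omega
      simp
      positivity
    · obtain rfl : k = 0 := by omega
      simpa using hL
    · obtain ⟨q1, q2⟩ := (P _ (hv 0)).2.2.2.1 s
      have q3 := (hl _ _ (nn _ (hv 0)) (nn _ z)).1 s
      have q4 := ctl_lip σ cc (vs 0) 0
      rw [sub_zero] at q4
      refine ⟨q1.trans ?_, q2.trans ?_, q3.trans ?_⟩
      · rw [div_le_div_iff₀ t0 hh]
        nlinarith
      · rw [div_le_div_iff₀ (by positivity) (by positivity)]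
        nlinarith [show h ^ 2 ≤ 3 * (h - cc / 3) ^ 2 by nlinarith]
      · calc _ ≤ C * (2 * cc) / (2 * h / 3) := by
              gcongr
              · linarith [hv 0]
              · linarith
          _ = _ := by field_simp
    · obtain rfl : k = 0 := by omega
      rw [e]
    · obtain rfl : k = 0 := by omega
      simp only [if_true, zero_add, one_ne_zero, if_false] at hs ⊢
      have c := (P _ (hv 0)).1.continuous
      have c' := (P _ (hv' 0)).1.continuous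
      refine (intervalIntegral.norm_integral_le_of_norm_le hs.1 (.of_forall fun t _ => ex_sub_le _ _)
        ((c.sub c').abs.intervalIntegrable _ _)).trans
        (((hl _ _ (nn _ (hv 0)) (nn _ (hv' 0))).2 _ _ hs.1).trans ?_)
      nlinarith [ctl_lip σ cc (vs 0) (vs' 0), norm_nonneg (vs 0 - vs' 0)]
    · obtain rfl : k = 0 := by omega
      simp only [if_true, zero_add, one_ne_zero, if_false]
      rw [intervalIntegral.integral_sub ((cex (P _ (hv 0)).1.continuous).intervalIntegrable _ _)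
        ((cex (P _ (hv' 0)).1.continuous).intervalIntegrable _ _), (P _ (hv 0)).2.2.2.2.1,
        (P _ (hv' 0)).2.2.2.2.1, add_sub_add_left_eq_sub]
    · dsimp only
      split_ifs
      exacts [⟨le_rfl, by positivity⟩, ⟨by positivity, le_rfl⟩]
  have st : ∀ k : Fin 3, ∃ φ : ℝ → ℝ, Continuous φ ∧
      ∫ s in (0 : ℝ)..(8 * h), ex (2 * φ s) = 2 * h * ej k ^ 2 ∧
      ∀ (a : ℂ) (B L : ℝ), ‖a‖ + 8 * h ≤ B → 8 * h ≤ L → TS h cc L (3 * C) B a a (8 * h) fun g =>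
          ∫ s in (0 : ℝ)..(8 * h), ex (2 * φ s) * g (a + pos φ s) := fun k => by
    have := rd (fun j => if (j : ℕ) % 3 = k then h else 0) fun j => by split_ifs <;> positivity
    have e1 : ∑ j : Fin 6, (if (j : ℕ) % 3 = k then h else 0) + 6 * h = 8 * h := by
      fin_cases k <;> simp [Fin.sum_univ_six] <;> ring
    have e2 : ∑ j : Fin 6, ((if (j : ℕ) % 3 = k then h else 0 : ℝ) : ℂ) * ej j = 0 := by
      rw [six fun j e => ((if j % 3 = k then h else 0 : ℝ) : ℂ) * e]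
      fin_cases k <;> simp
    have e3 : ∑ j : Fin 6, ((if (j : ℕ) % 3 = k then h else 0 : ℝ) : ℂ) * ej j ^ 2 =
        2 * h * ej k ^ 2 := by
      rw [six fun j e => ((if j % 3 = k then h else 0 : ℝ) : ℂ) * e ^ 2]
      fin_cases k <;> simp <;> ring
    simpa only [e1, e2, e3, add_zero] using this
  choose φk k1 k2 k3 using st
  refine ⟨φk, fun k => pos (φk k), fun k => ⟨k1 k, cpos (k1 k), fun s hs =>
    (pos_le _ hs.1).trans hs.2, k2 k⟩, fun ι _ c N R h0 hc => ?_⟩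
  have sh : ∀ a v : ℂ, ‖a‖ ≤ R → ‖v‖ ≤ R → ∃ (L : ℝ) (ψ : ℝ → ℝ), 0 ≤ L ∧ L ≤ 6 * h + 2 * R ∧
      Continuous ψ ∧ TS h cc (8 * h + 2 * R) (3 * C) (3 * R + 8 * h) a (a + v) L fun g =>
        ∫ s in (0 : ℝ)..L, ex (2 * ψ s) * g (a + pos ψ s) := fun a v ha hv => by
    obtain ⟨σ, s1, s2, s3⟩ := shift v
    obtain ⟨φ, p1, -, p2⟩ := rd σ s1
    rw [s2, s3] at p2
    exact ⟨_, φ, by positivity, by linarith, p1, p2 a _ _ (by linarith) (by linarith)⟩
  have n1 : ∀ j : ι × Bool, ‖if j.2 then 0 else c j.1‖ ≤ R := fun j => by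
    split_ifs
    exacts [by simpa, hc _]
  choose L ψ l1 l2 l3 l4 using fun j : ι × Bool => sh (if j.2 then 0 else c j.1)
    (if j.2 then c j.1 else -c j.1) (n1 j) (by split_ifs <;> simp [hc])
  have K0 : 0 ≤ 3 * C := by positivity
  have cell : ∀ i, TS h cc (8 * h + 2 * R) (3 * C) (3 * R + 8 * h) 0 0
      (8 * h * ∑ k, (N i k : ℝ) + 12 * h + 4 * R) fun g => ∑ k, (N i k : ℂ) *
        (∫ s in (0 : ℝ)..(8 * h), ex (2 * φk k s) * g (c i + pos (φk k) s)) +
        ∑ b, ∫ s in (0 : ℝ)..(L (i, b)), ex (2 * ψ (i, b) s) *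
          g ((if b then 0 else c i) + pos (ψ (i, b)) s) := fun i => by
    have q : ‖c i‖ ≤ 3 * R + 8 * h := by linarith [hc i]
    have t1 := l4 (i, true)
    have t2 := l4 (i, false)
    rw [if_pos rfl, if_pos rfl, zero_add] at t1
    rw [if_neg Bool.false_ne_true, if_neg Bool.false_ne_true, add_neg_cancel] at t2
    refine ((t1.app c0 (TS.sum hh c0 K0 q (fun k => TS.sum hh c0 K0 q (fun _ : ℕ => k3 k (c i) _ _
      (by linarith [hc i]) (by linarith)) (Finset.range (N i k))) Finset.univ)).app c0 t2).mono ?_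
      fun g => ?_
    · simp only [Finset.sum_const, Finset.card_range, nsmul_eq_mul, ← Finset.sum_mul]
      linarith [l2 (i, true), l2 (i, false)]
    · simp only [Finset.sum_const, Finset.card_range, nsmul_eq_mul, Fintype.sum_bool, if_true,
        Bool.false_eq_true, if_false]
      ring
  obtain ⟨Φ, Nr, sk, Λ, S, a1, a2, -, -, -, a8, a9⟩ :=
    TS.sum hh c0 K0 (by rw [norm_zero]; positivity) cell Finset.univ
  simp only [zero_add] at a8 a9
  refine ⟨Λ, Φ, Nr, sk, pos (Φ 0), L, ψ, fun j s => (if j.2 then 0 else c j.1) + pos (ψ j) s, S, a1,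
    a2, pos_deriv (S.sm 0 fun _ => by simpa using c0).1.continuous, a8,
    fun j => ⟨l1 j, l2 j, l3 j, continuous_const.add (cpos (l3 j)),
      fun s hs => (norm_add_le _ _).trans ?_⟩, fun g hg => ?_⟩
  · linarith [n1 j, pos_le (ψ j) hs.1, hs.2, l2 j]
  · rw [a9 g hg, Finset.sum_add_distrib, Fintype.sum_prod_type]

end

end Pool.Agent.Lib.EU2
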