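import Pool.Agent.Lib.EU2.Blue
import Pool.Agent.Lib.EUL.BasicA

set_option autoImplicit false

namespace Pool.Agent.Lib.EU2

open MeasureTheory Set Filter Topology Pool.Agent.Lib.EUL
open scoped ContDiff Classical

noncomputable section

theorem rad_pos {D r : ℝ} (hD : 0 < D) (hr : 0 < r) : 0 < rad D r := by
  unfold rad; positivity

theorem rad_cube {D r : ℝ} (hD : 0 ≤ D) (hr : 0 ≤ r) : rad D r ^ 3 = D ^ 2 * r := by
  unfold rad
  rw [mul_pow, ← Real.rpow_natCast, ← Real.rpow_natCast (r ^ (1 / 3 : ℝ)), ← Real.rpow_mul hD,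
    ← Real.rpow_mul hr]
  norm_num

theorem rad_mono {D r r' : ℝ} (hD : 0 ≤ D) (hr : 0 ≤ r) (h : r ≤ r') : rad D r ≤ rad D r' :=
  mul_le_mul_of_nonneg_left (Real.rpow_le_rpow hr h (by norm_num)) (Real.rpow_nonneg hD _)

theorem rad_self {D : ℝ} (hD : 0 < D) : rad D D = D := by
  unfold rad; rw [← Real.rpow_add hD]; norm_num

theorem rad_le {D r : ℝ} (hr : 0 < r) (h : r ≤ D) : rad D r ≤ D :=
  (rad_mono (hr.le.trans h) hr.le h).trans_eq (rad_self (hr.trans_le h))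

theorem le_rad {D r : ℝ} (hr : 0 < r) (h : r ≤ D) : r ≤ rad D r :=
  (rad_self hr).symm.trans_le
    (mul_le_mul_of_nonneg_right (Real.rpow_le_rpow hr.le h (by norm_num)) (Real.rpow_nonneg hr.le _))

theorem rad_sq {D r : ℝ} (hD : 0 ≤ D) (hr : 0 ≤ r) :
    rad D r ^ 2 = D ^ (4 / 3 : ℝ) * r ^ (2 / 3 : ℝ) := by
  unfold rad
  rw [mul_pow, ← Real.rpow_natCast, ← Real.rpow_natCast (r ^ (1 / 3 : ℝ)), ← Real.rpow_mul hD,
    ← Real.rpow_mul hr]
  norm_num

theorem div_rad_sq {D r : ℝ} (hD : 0 < D) (hr : 0 < r) :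
    (r / rad D r) ^ 2 = (r / D) ^ (4 / 3 : ℝ) := by
  rw [div_pow, rad_sq hD.le hr.le, Real.div_rpow hr.le hD.le]
  have e : r ^ 2 = r ^ (4 / 3 : ℝ) * r ^ (2 / 3 : ℝ) := by
    rw [← Real.rpow_add hr, ← Real.rpow_natCast]; norm_num
  have h1 : 0 < r ^ (2 / 3 : ℝ) := Real.rpow_pos_of_pos hr _
  have h2 : 0 < D ^ (4 / 3 : ℝ) := Real.rpow_pos_of_pos hD _
  rw [e]; field_simp

theorem adm_zero {c : ℝ} (hc : 0 ≤ c) : Adm c 0 := fun _ => by simpa using hc

theorem adm_const {c : ℝ} {v : ℂ} (hv : ‖v‖ ≤ c) : Adm c (fun _ => v) := fun _ => hv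

variable [Al]

theorem one_le_al : 1 ≤ al := le_trans (by norm_num) al_lo

theorem al_le_two : al ≤ 2 := le_trans al_hi.le (by norm_num)

theorem Bes.B_nonneg {f : ℂ → ℂ} {S B : ℝ} (h : Bes f S B) : 0 ≤ B := by
  have := (IQ_nonneg fun _ => norm_nonneg _).trans (h.2 1)
  simpa using this

theorem Bes.S_nonneg {f : ℂ → ℂ} {S B : ℝ} (h : Bes f S B) : 0 ≤ S :=
  (IQ_nonneg fun _ => norm_nonneg _).trans h.1

theorem Bes.mono {f : ℂ → ℂ} {S B S' B' : ℝ} (h : Bes f S B) (hS : S ≤ S') (hB : B ≤ B') :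
    Bes f S' B' :=
  ⟨h.1.trans hS, fun y => (h.2 y).trans (mul_le_mul_of_nonneg_right hB (by positivity))⟩

theorem Bes.add {f g : ℂ → ℂ} {S B S' B' : ℝ} (hf : Continuous f) (hg : Continuous g)
    (h : Bes f S B) (h' : Bes g S' B') : Bes (fun x => f x + g x) (S + S') (B + B') := by
  refine ⟨?_, fun y => ?_⟩
  · refine (IQ_mono (by fun_prop) (by fun_prop) fun x => norm_add_le (f x) (g x)).trans ?_
    rw [IQ_add (by fun_prop) (by fun_prop)]; exact add_le_add h.1 h'.1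
  · refine (IQ_mono (g := fun x => ‖f (x + y) + f (x - y) - 2 * f x‖
      + ‖g (x + y) + g (x - y) - 2 * g x‖) (by fun_prop) (by fun_prop) fun x =>
        (le_of_eq (by congr 1; ring)).trans (norm_add_le _ _)).trans ?_
    rw [IQ_add (by fun_prop) (by fun_prop), add_mul]; exact add_le_add (h.2 y) (h'.2 y)

theorem bes_zero {S B : ℝ} (hS : 0 ≤ S) (hB : 0 ≤ B) : Bes (fun _ => 0) S B :=
  ⟨by simpa [IQ] using hS, fun y => by simpa [IQ] using mul_nonneg hB (by positivity)⟩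

theorem Bes.const_mul {f : ℂ → ℂ} {S B : ℝ} (h : Bes f S B) (c : ℂ) :
    Bes (fun x => c * f x) (‖c‖ * S) (‖c‖ * B) := by
  refine ⟨?_, fun y => ?_⟩
  · simp only [norm_mul]; rw [IQ_const_mul]; exact mul_le_mul_of_nonneg_left h.1 (norm_nonneg _)
  · have e : ∀ x, ‖c * f (x + y) + c * f (x - y) - 2 * (c * f x)‖
        = ‖c‖ * ‖f (x + y) + f (x - y) - 2 * f x‖ := fun x => by
      rw [← norm_mul]; congr 1; ring
    simp only [e]; rw [IQ_const_mul, mul_assoc]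
    exact mul_le_mul_of_nonneg_left (h.2 y) (norm_nonneg _)

theorem Cst.nonneg {l c : ℝ} {f : ℂ → ℂ} (h : Cst l f c) : 0 ≤ c := Bes.S_nonneg h

theorem Cst.mono {l c c' : ℝ} {f : ℂ → ℂ} (h : Cst l f c) (hl : 0 < l) (hc : c ≤ c') :
    Cst l f c' := Bes.mono h hc (div_le_div_of_nonneg_right hc (by positivity))

theorem Cst.add {l c c' : ℝ} {f g : ℂ → ℂ} (hf : Continuous f) (hg : Continuous g)
    (h : Cst l f c) (h' : Cst l g c') : Cst l (fun x => f x + g x) (c + c') := by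
  have := Bes.add hf hg h h'
  rwa [← add_div] at this

theorem cst_zero {l c : ℝ} (hl : 0 < l) (hc : 0 ≤ c) : Cst l (fun _ => 0) c :=
  bes_zero hc (by positivity)

theorem Cst.const_mul {l c : ℝ} {f : ℂ → ℂ} (h : Cst l f c) (a : ℂ) :
    Cst l (fun x => a * f x) (‖a‖ * c) := by
  have := Bes.const_mul h a
  rwa [← mul_div_assoc] at this

theorem Cst.congr {l c : ℝ} {f g : ℂ → ℂ} (h : Cst l f c) (e : ∀ x, g x = f x) : Cst l g c := by
  rwa [show g = f from funext e]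

theorem cst_sum {ι : Type} (s : Finset ι) {l : ℝ} (hl : 0 < l) {f : ι → ℂ → ℂ} {c : ι → ℝ}
    (hf : ∀ i ∈ s, Continuous (f i)) (h : ∀ i ∈ s, Cst l (f i) (c i)) :
    Cst l (fun x => ∑ i ∈ s, f i x) (∑ i ∈ s, c i) := by
  induction s using Finset.induction_on with
  | empty => simpa using cst_zero hl le_rfl
  | insert a s ha ih =>
    simp only [Finset.sum_insert ha]
    exact Cst.add (hf a (Finset.mem_insert_self _ _))
      (continuous_finsetSum _ fun i hi => hf i (Finset.mem_insert_of_mem hi))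
      (h a (Finset.mem_insert_self _ _))
      (ih (fun i hi => hf i (Finset.mem_insert_of_mem hi))
        fun i hi => h i (Finset.mem_insert_of_mem hi))

end

end Pool.Agent.Lib.EU2
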