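import Pool.Agent.Lib.EU2.Defs

set_option autoImplicit false

namespace Pool.Agent.Lib.EU2

open MeasureTheory Set Filter Topology Pool.Agent.Lib.EUL
open scoped ContDiff Classical

noncomputable section

/-! ## Steerable path (no dependence on the exponent) -/

def St_ROUND : Prop :=
  ∃ C : ℝ, 1 ≤ C ∧ ∀ h : ℝ, 0 < h → ∃ φ : (Fin 6 → ℝ) → ℝ → ℝ,
    (∀ σ : Fin 6 → ℝ, (∀ j, 0 ≤ σ j) →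
      ContDiff ℝ ∞ (φ σ) ∧ (∀ s ≤ 0, φ σ s = 0) ∧ (∀ s, ∑ j, σ j + 6 * h ≤ s → φ σ s = 2 * Real.pi) ∧
      (∀ s, |deriv (φ σ) s| ≤ C / h ∧ |deriv (deriv (φ σ)) s| ≤ C / h ^ 2) ∧
      ∫ s in (0 : ℝ)..(∑ j, σ j + 6 * h), ex (φ σ s) = ∑ j : Fin 6, σ j * ej j ∧
      ∫ s in (0 : ℝ)..(∑ j, σ j + 6 * h), ex (2 * φ σ s) = ∑ j : Fin 6, σ j * ej j ^ 2) ∧
    ∀ σ σ' : Fin 6 → ℝ, (∀ j, 0 ≤ σ j) → (∀ j, 0 ≤ σ' j) →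
      (∀ s, |φ σ s - φ σ' s| ≤ C * (∑ j, |σ j - σ' j|) / h) ∧
      ∀ a b : ℝ, a ≤ b → ∫ s in a..b, |φ σ s - φ σ' s| ≤ C * ∑ j, |σ j - σ' j|

def St_TOUR : Prop :=
  ∃ C : ℝ, 1 ≤ C ∧ ∀ h cc : ℝ, 0 < h → 0 ≤ cc → cc ≤ h →
    ∃ (φk : Fin 3 → ℝ → ℝ) (Yk : Fin 3 → ℝ → ℂ),
    (∀ k, Continuous (φk k) ∧ Continuous (Yk k) ∧ (∀ s ∈ Icc 0 (8 * h), ‖Yk k s‖ ≤ 8 * h) ∧
      ∫ s in (0 : ℝ)..(8 * h), ex (2 * φk k s) = 2 * h * ej k ^ 2) ∧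
    ∀ (ι : Type) [Fintype ι] (c : ι → ℂ) (N : ι → Fin 3 → ℕ) (R : ℝ), 0 ≤ R → (∀ i, ‖c i‖ ≤ R) →
      ∃ (Λ : ℝ) (Φ : (ℕ → ℂ) → ℝ → ℝ) (Nr : ℕ) (sk : ℕ → ℝ) (Y : ℝ → ℂ) (L : ι × Bool → ℝ)
        (ψ : ι × Bool → ℝ → ℝ) (Z : ι × Bool → ℝ → ℂ), Str Φ Nr sk Λ h cc (8 * h + 2 * R) C ∧
        0 ≤ Λ ∧ Λ ≤ ∑ i, (8 * h * ∑ k, (N i k : ℝ) + 12 * h + 4 * R) ∧
        (∀ s, HasDerivAt Y (ex (Φ 0 s)) s) ∧ (∀ s ∈ Icc 0 Λ, ‖Y s‖ ≤ 3 * R + 8 * h) ∧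
        (∀ j, 0 ≤ L j ∧ L j ≤ 6 * h + 2 * R ∧ Continuous (ψ j) ∧ Continuous (Z j) ∧
          ∀ s ∈ Icc 0 (L j), ‖Z j s‖ ≤ 3 * R + 8 * h) ∧
        ∀ g : ℂ → ℂ, Continuous g → ∫ s in (0 : ℝ)..Λ, ex (2 * Φ 0 s) * g (Y s) =
          (∑ i, ∑ k, (N i k : ℂ) * ∫ s in (0 : ℝ)..(8 * h), ex (2 * φk k s) * g (c i + Yk k s))
          + ∑ j, ∫ s in (0 : ℝ)..(L j), ex (2 * ψ j s) * g (Z j s)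

def St_PATH0 : Prop :=
  ∃ C : ℝ, 1 ≤ C ∧ ∀ (l h d d2 N0 cc : ℝ) (μ : ℂ → ℂ), 0 < d2 → d2 ≤ d → d ≤ h → h ≤ l →
    l ≤ N0 * h → 0 ≤ cc → cc ≤ h →
    ContDiff ℝ ∞ μ → (∀ y, 3 * l < ‖y‖ → μ y = 0) → (∀ k ≤ 3, ∀ y, l ^ k * nD k μ y ≤ 1 / 2) →
    ∃ (Λ : ℝ) (Φ : (ℕ → ℂ) → ℝ → ℝ) (Nr : ℕ) (sk : ℕ → ℝ) (Y : ℝ → ℂ) (R1 R2 : ℂ → ℂ),
      Str Φ Nr sk Λ h cc (40 * l) C ∧ 0 ≤ Λ ∧ Λ ≤ C * N0 * h * l ^ 2 / d2 ^ 2 ∧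
      (∀ s, HasDerivAt Y (ex (Φ 0 s)) s) ∧ (∀ s ∈ Icc 0 Λ, ‖Y s‖ ≤ 50 * l) ∧
      ContDiff ℝ ∞ R1 ∧ ContDiff ℝ ∞ R2 ∧ (∀ y, 60 * l < ‖y‖ → R1 y = 0 ∧ R2 y = 0) ∧
      (∀ y, ∫ s in (0 : ℝ)..Λ, ex (2 * Φ 0 s) * etas d (y - Y s)
        = (2 * h * N0 / d2 ^ 2 : ℝ) * μ y + R1 y + R2 y) ∧
      ∀ k : ℕ, k = 0 ∨ k = 2 →
        ∫ y, nD k R1 y ≤ C * (N0 * h * l ^ 2 / d2 ^ 2) * (h / l) / l ^ k ∧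
        ∫ y, nD k R2 y ≤ C * (N0 * h * l ^ 2 / d2 ^ 2) * (l / (N0 * h) + d2 / d) / d ^ k

def St_PATH : Prop :=
  ∃ C : ℝ, 1 ≤ C ∧ ∀ (l h d d2 u T τ c0 A t0 cc : ℝ) (m : ℂ → ℂ), 0 < d2 → d2 ≤ d → d ≤ h → h ≤ l →
    0 < u → 0 < τ → τ ≤ T / 4 → 0 < c0 → h ≤ u * τ → C * l ^ 3 ≤ u * T * d2 ^ 2 → 0 ≤ cc → cc ≤ h →
    ContDiff ℝ ∞ m → (∀ y, 3 * l < ‖y‖ → m y = 0) → (∀ k ≤ 3, ∀ y, l ^ k * nD k m y ≤ A) →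
    C * A * l ^ 2 ≤ c0 * u ^ 2 * T →
    ∃ (U : ℝ → ℝ) (Φ : (ℕ → ℂ) → ℝ → ℝ) (N : ℕ) (tk : ℕ → ℝ) (Y : ℝ → ℂ) (e0 : ℝ) (R1 R2 : ℂ → ℂ),
      ContDiff ℝ ∞ U ∧ Ctl (fun vs t => (U t : ℂ) * ex (Φ vs t)) U N tk cc (40 * l) C ∧
      t0 ≤ tk 0 ∧ tk N ≤ e0 ∧
      ContDiff ℝ ∞ Y ∧ t0 + τ ≤ e0 ∧ e0 ≤ t0 + T ∧ (∀ t, 0 ≤ U t ∧ U t ≤ u) ∧
      (∀ t, t ∉ Icc t0 e0 → U t = 0) ∧ (∀ t, |deriv U t| ≤ C * u / τ) ∧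
      (∀ vs, Adm cc vs → ContDiff ℝ ∞ (Φ vs) ∧ ∀ t, |deriv (Φ vs) t| * h ≤ C * U t ∧
        |deriv (deriv (Φ vs)) t| ≤ C * u ^ 2 / h ^ 2 ∧ |Φ vs t - Φ 0 t| ≤ C * cc / h) ∧
      (∀ t, HasDerivAt Y (U t * ex (Φ 0 t)) t) ∧ (∀ t, ‖Y t‖ ≤ 50 * l) ∧
      ContDiff ℝ ∞ R1 ∧ ContDiff ℝ ∞ R2 ∧ (∀ y, 60 * l < ‖y‖ → R1 y = 0 ∧ R2 y = 0) ∧
      (∀ y, m y + c0 * ∫ t, U t ^ 2 * ex (2 * Φ 0 t) * etas d (y - Y t) = R1 y + R2 y) ∧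
      ∀ k : ℕ, k = 0 ∨ k = 2 →
        ∫ y, nD k R1 y ≤ C * c0 * u ^ 2 * T * (h / l) / l ^ k ∧
        ∫ y, nD k R2 y ≤ C * c0 * u ^ 2 * T * (l ^ 3 / (u * T * d2 ^ 2) + d2 / d + τ / T) / d ^ k

/-! ## Placement (no dependence on the exponent) -/

def St_GR2 : Prop :=
  ∀ (u : ℝ → ℂ → ℂ) (z x y ξ η : ℝ → ℂ) (G μ : ℝ → ℝ) (a b s R r0 r : ℝ), Sm u → Continuous G →
    Continuous μ → (∀ t, 0 ≤ μ t) → Continuous ξ → Continuous η →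
    (∀ t, HasDerivAt x (u t (x t) + ξ t) t) → (∀ t, HasDerivAt y (u t (y t) + η t) t) →
    s ∈ Icc a b → 0 < r → (∀ t ∈ Icc a b, ‖x t - z t‖ ≤ R) →
    (∀ t ∈ Icc a b, ∀ w, ‖w - z t‖ ≤ R + r → nD 1 (u t) w ≤ G t) →
    (∀ t ∈ Icc a b, ‖x t - y t‖ ≤ r → ‖ξ t - η t‖ ≤ μ t) → ‖x s - y s‖ ≤ r0 →
    r0 + (∫ t in a..b, μ t) + r * (∫ t in a..b, G t) < r →
    ∀ t ∈ Icc a b, ‖x t - y t‖ ≤ r0 + (∫ t in a..b, μ t) + r * ∫ t in a..b, G t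

def St_COV : Prop :=
  ∀ (u : ℝ → ℂ → ℂ) (z y ξ η : ℝ → ℂ) (X : ℂ → ℝ → ℂ) (G μ : ℝ → ℝ) (p : ℂ) (l d0 r t0 t1 s e : ℝ),
    SP u → Continuous G → Continuous μ → (∀ t, 0 ≤ μ t) → Continuous ξ → Continuous η →
    0 < r → 12 * r ≤ l → l ≤ 1 / 10000 → t0 ≤ s → s ≤ e → e ≤ t1 →
    (∀ t, HasDerivAt y (u t (y t) + η t) t) →
    (∀ a, ‖a‖ ≤ d0 → X a t0 = p + a ∧ (∀ t, HasDerivAt (X a) (u t (X a t) + ξ t) t) ∧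
      ∀ t ∈ Icc t0 t1, ‖X a t - z t‖ ≤ 51 * l) →
    (∀ t w, ‖w - z t‖ ≤ 400 * l → nD 1 (u t) w ≤ G t) → ∫ t in t0..t1, G t ≤ 1 / 10 →
    (∀ t ∈ Icc s e, pn (y t - z t) ≤ 52 * l → ‖η t - ξ t‖ ≤ μ t) →
    (∃ A : Finset ℂ, (A.card : ℝ) ≤ 1 + (∫ t in s..e, μ t) / r ∧
      ∀ a, ‖a‖ ≤ d0 → (∃ t ∈ Icc s e, pn (X a t - y t) < 4 * r) → ∃ b ∈ A, ‖a - b‖ ≤ 12 * r) ∧
    ((∃ a, ‖a‖ ≤ d0 ∧ ∃ t ∈ Icc s e, pn (X a t - y t) < 4 * r) →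
      r ≤ ∫ t in s..e, μ t ∨ ∀ t ∈ Icc s e, pn (y t - z t) ≤ 52 * l)

def St_STEER : Prop :=
  ∀ (N : ℕ) (g d0 A : ℝ) (Safe : ℕ → ℂ → ℂ → Prop) (En : ℕ → ℂ → ℂ → ℂ), 0 < g → 5 * g ≤ d0 →
    400000 * A ≤ d0 ^ 2 →
    (∀ k < N, ∀ v, ‖v‖ ≤ 3 * d0 → ∃ J : Finset (ℂ × ℝ), (∀ j ∈ J, g ≤ j.2) ∧ ∑ j ∈ J, j.2 ^ 2 ≤ A ∧
      ∀ a, ‖a‖ ≤ d0 → ¬ Safe k a v → ∃ j ∈ J, ‖a - j.1‖ ≤ j.2) →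
    (∀ k < N, ∀ a, ‖a‖ ≤ d0 → ∀ v, ‖v‖ ≤ 3 * d0 → ‖En k a v - a - v‖ ≤ d0 / 2 ∧
      ∀ v', ‖v'‖ ≤ 3 * d0 → ‖v - v'‖ ≤ 2 * ‖En k a v - En k a v'‖) →
    ∃ a v : ℕ → ℂ, (∀ k, ‖a k‖ ≤ d0 ∧ ‖v k‖ ≤ 3 * d0) ∧
      ∀ k < N, a (k + 1) = En k (a k) (v k) ∧ Safe k (a k) (v k)

/-- placement of one box -/
def St_PL1 : Prop :=
  ∃ C : ℝ, 1 ≤ C ∧ ∀ (u : ℝ → ℂ → ℂ) (κ : Type) [Fintype κ] (y : κ → ℝ → ℂ) (so eo r : κ → ℝ)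
    (act lam : κ → ℝ → ℝ) (z Y : ℝ → ℂ) (ξ : (ℕ → ℂ) → ℝ → ℂ) (U : ℝ → ℝ) (N : ℕ) (tk : ℕ → ℝ)
    (G H : ℝ → ℝ) (l D d0 g th1 LL L K M ta tb : ℝ),
    SP u → (∃ a b, TS u a b) → 0 < g → g ≤ D → 12 * D ≤ d0 → 1 ≤ K → (2 + 3 * K) * d0 ≤ l →
    l ≤ 1 / 10000 → 104 * l * th1 ≤ d0 → 0 ≤ L →
    (∀ o, ContDiff ℝ ∞ (y o) ∧ so o ≤ eo o ∧ g ≤ r o ∧ r o ≤ D ∧ Continuous (act o) ∧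
      Continuous (lam o) ∧ (∀ t, 0 ≤ act o t ∧ act o t ≤ 1 ∧ 0 ≤ lam o t) ∧
      (∀ t ∈ Icc (so o) (eo o), act o t = 1 ∧ ‖deriv (y o) t - u t (y o t)‖ ≤ lam o t) ∧
      r o ≤ ∫ t in (so o)..(eo o), lam o t) →
    Ctl ξ U N tk (3 * d0) L K → ta ≤ tk 0 → tk N ≤ tb →
    (∀ t, HasDerivAt z (u t (z t)) t) → (∀ t, HasDerivAt Y (ξ 0 t) t) → (∀ t, ‖Y t‖ ≤ 50 * l) →
    Continuous G → Continuous H → (∀ t w, ‖w - z t‖ ≤ 400 * l → nD 1 (u t) w ≤ G t) →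
    ∫ t in ta..tb, G t ≤ th1 →
    (∀ t ∈ Icc ta tb,
      ((Finset.univ.filter fun o => act o t ≠ 0 ∧ pn (y o t - z t) ≤ 53 * l).card : ℝ) ≤ M) →
    (∀ t ∈ Icc ta tb, ∑ o ∈ Finset.univ.filter (fun o => pn (y o t - z t) ≤ 53 * l),
      act o t * (r o * lam o t) ≤ H t) →
    ∫ t in ta..tb, H t ≤ LL → C * (LL + M * D * L + M * D ^ 2) ≤ d0 ^ 2 →
    ∃ (vs : ℕ → ℂ) (x : ℝ → ℂ), Adm (3 * d0) vs ∧ ContDiff ℝ ∞ x ∧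
      (∀ t, HasDerivAt x (u t (x t) + ξ vs t) t) ∧
      (∀ t ∈ Icc ta tb, ‖x t - z t - Y t‖ ≤ (2 + 3 * K) * d0) ∧
      ∀ o, ∀ t ∈ Icc (so o) (eo o), U t ≠ 0 → 4 * r o ≤ pn (x t - y o t)

def St_PLACE : Prop :=
  ∃ C : ℝ, 1 ≤ C ∧ ∀ (u : ℝ → ℂ → ℂ) (ι β : Type) [Fintype ι] [Fintype β] (o : ι → Ob)
    (ro : ι → ℝ) (lam : ι → ℝ → ℝ) (tb Tb s e ub : β → ℝ) (z Y : β → ℝ → ℂ)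
    (ξ : β → (ℕ → ℂ) → ℝ → ℂ) (U : β → ℝ → ℝ) (N : β → ℕ) (tk : β → ℕ → ℝ) (G H : β → ℝ → ℝ)
    (l D d0 rN th1 LL L K Lam M : ℝ),
    SP u → (∃ a b, TS u a b) → 0 < rN → rN ≤ D → 12 * D ≤ d0 → 1 ≤ K → (2 + 3 * K) * d0 ≤ l →
    l ≤ 1 / 10000 → 104 * l * th1 ≤ d0 → 0 ≤ L →
    (∀ j, (o j).Good) → (∀ j, rN ≤ ro j ∧ ro j ≤ D) → (∀ j, Continuous (lam j)) →
    (∀ j t, 0 ≤ lam j t) →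
    (∀ j, ∀ t ∈ Icc (o j).s (o j).e, ‖deriv (o j).x t - u t ((o j).x t)‖ ≤ lam j t ∧ (o j).u ≤ lam j t) →
    (∀ j, D ≤ (o j).u * ((o j).e - (o j).s)) →
    (∀ t, Mult (fun j => (o j).a t ≠ 0) (fun j => (o j).x t) (60 * l) M) →
    (∀ i, 0 < Tb i) → (∀ i, tb i - Tb i ≤ s i ∧ s i ≤ tk i 0 ∧ tk i (N i) ≤ e i ∧ e i ≤ tb i + Tb i) →
    (∀ i t, HasDerivAt (z i) (u t (z i t)) t) → (∀ i, Ctl (ξ i) (U i) (N i) (tk i) (3 * d0) L K) →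
    (∀ i t, HasDerivAt (Y i) (ξ i 0 t) t) → (∀ i t, U i t ≤ ub i ∧ ‖Y i t‖ ≤ 50 * l) →
    (∀ i, D ≤ ub i * (e i - s i)) → (∀ i, ub i * Tb i ≤ Lam) →
    (∀ i, Continuous (G i)) → (∀ i, Continuous (H i)) →
    (∀ i t y, ‖y - z i t‖ ≤ 400 * l → nD 1 (u t) y ≤ G i t) →
    (∀ i, ∫ t in (tb i - 2 * Tb i)..(tb i + 2 * Tb i), G i t ≤ th1) →
    (∀ i t, ∑ j ∈ Finset.univ.filter (fun j => pn ((o j).x t - z i t) ≤ 53 * l), ro j * lam j t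
      ≤ H i t) →
    (∀ i, ∫ t in (tb i - 2 * Tb i)..(tb i + 2 * Tb i), H i t ≤ LL) →
    (∀ t, Mult (fun i => |t - tb i| ≤ 2 * Tb i) (fun i => z i t) (110 * l) M) →
    C * (LL + M * rN * Lam + M * D * L + M * D ^ 2) ≤ d0 ^ 2 →
    ∃ (vs : β → ℕ → ℂ) (x : β → ℝ → ℂ), (∀ i, Adm (3 * d0) (vs i) ∧ ContDiff ℝ ∞ (x i) ∧
        ∀ t, HasDerivAt (x i) (u t (x i t) + ξ i (vs i) t) t) ∧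
      (∀ i t, |t - tb i| ≤ 2 * Tb i → ‖x i t - z i t - Y i t‖ ≤ (2 + 3 * K) * d0) ∧
      (∀ i j t, U i t ≠ 0 → t ∈ Icc (o j).s (o j).e → 4 * ro j ≤ pn (x i t - (o j).x t)) ∧
      ∀ i j t, i ≠ j → U i t ≠ 0 → U j t ≠ 0 → 4 * rN ≤ pn (x i t - x j t)

/-- the `H^β` bound of one smooth increment -/
def St_HS1 : Prop :=
  ∀ (β : ℝ) (f : ℂ → ℂ) (A rho : ℝ) (i : Fin 3), 0 ≤ β → β ≤ 1 → ContDiff ℝ ∞ f → Peri f →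
    0 < rho → rho ≤ 1 → 0 ≤ A →
    IQ (fun x => ‖f x‖ ^ 2) ≤ A ^ 2 → IQ (fun x => nD 1 f x ^ 2) ≤ A ^ 2 / rho ^ 2 →
    MP_fea353_an.HsNormSq β (fun x => liftU f x i) ≤ ENNReal.ofReal ((2 * A * rho ^ (-β)) ^ 2)

def St_HS : Prop :=
  ∀ (β : ℝ) (v q : ℕ → ℝ → ℂ → ℂ) (S A rho : ℕ → ℝ) (u : ℝ → ℂ → ℂ), 0 ≤ β → β ≤ 1 →
    Seq β v q S A rho →
    (∀ t, MemLp (u t) 2 (volume.restrict cell) ∧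
      Tendsto (fun N => IQ fun x => ‖u t x - v N t x‖ ^ 2) atTop (𝓝 0)) →
    ∃ M : ℝ, ∀ t i, MP_fea353_an.HsNormSq β (fun x => liftU (u t) x i) ≤ ENNReal.ofReal M

def Concl (β : ℝ) : Prop :=
  ∃ (v : ℝ → MP_fea353_an.T3 → Fin 3 → ℝ) (p : ℝ → MP_fea353_an.T3 → ℝ),
    MP_fea353_an.WeakEuler 1 v p ∧
    (∃ M : ℝ, ∀ t i, MP_fea353_an.HsNormSq β (fun x => v t x i) ≤ ENNReal.ofReal M) ∧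
    (∀ t < (1 / 8 : ℝ), MP_fea353_an.energy (v t) = 0) ∧
    ∃ c : ℝ, 0 < c ∧ ∀ t ∈ Icc (9 / 20 : ℝ) (11 / 20), c ≤ MP_fea353_an.energy (v t)

def St_MAIN : Prop := ∀ β : ℝ, β < 2 / 3 → Concl β

variable [Al]

/-! ## Tools, copied with the exponent as a parameter -/

def St_CS : Prop :=
  (∀ (f : ℂ → ℂ) (l s a : ℝ), ContDiff ℝ ∞ f → Peri f → 0 < s → s ≤ l →
    IQ (nD 0 f) ≤ a → IQ (nD 2 f) ≤ a / s ^ 2 → Cst l f (4 * a * (l / s) ^ al)) ∧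
  (∀ (f : ℂ → ℂ) (l s a0 A : ℝ), ContDiff ℝ ∞ f → Peri f → 0 < s → 0 < l →
    IQ (nD 0 f) ≤ a0 → IQ (nD 1 f) ≤ A / s → IQ (nD 2 f) ≤ A / s ^ 2 →
    Cst l f (a0 + 2 * A * (l / s) ^ al))

def St_MOL : Prop :=
  ∀ (q : ℝ → ℂ → ℂ) (l : ℝ), SP q → 0 < l → SP (fun t => mol l (q t)) ∧
    ∀ t S B, Bes (q t) S B → Bes (fun x => q t x - mol l (q t) x) (B * l ^ al / 2) (2 * B)

def St_CSC : Prop :=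
  ∀ (K : ℂ → ℂ) (CK : ℝ), IsKer K CK → ∃ C : ℝ, 1 ≤ C ∧
    ∀ (f : ℂ → ℂ) (r s l A : ℝ) (p : ℂ), ContDiff ℝ ∞ f → (∀ y, r < ‖y‖ → f y = 0) →
      0 < s → s ≤ r → r ≤ l → l ≤ 1 / 4 → ∫ y, f y = 0 → ∫ y, nD 0 f y ≤ A → ∫ y, nD 1 f y ≤ A / s →
      Cst l (Cau K fun y => Per f (y - p)) (C * A * lg s * l * (l / s) ^ (al - 1))

def St_SHEAR : Prop :=
  ∃ C : ℝ, 1 ≤ C ∧ ∀ (ι : Type) [Fintype ι] (W : ι → ℂ → ℂ) (p : ι → ℂ) (c : ι → ℝ) (V : ℂ → ℂ)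
    (g : ℂ → ℝ) (l D Y rho M Z : ℝ), 0 < rho → rho ≤ D → rho ≤ l → l ≤ 1 / 4 →
    ContDiff ℝ ∞ V → Peri V → GM V g l D Y → (∀ i, ContDiff ℝ ∞ (W i) ∧ Peri (W i) ∧ 0 ≤ c i ∧
      Env (W i) (p i) (c i) rho ∧ Supp (W i) (p i) (l / 2)) →
    Mult (fun i => c i ≠ 0) p l M → ∑ i, c i ^ 2 ≤ Z →
    Cst l (fun y => ∑ i, (V y - V (p i)) * W i y)
      (C * lg rho * √(M * Y * Z) * rho ^ 2 * (l / rho) ^ (al - 1))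

def St_FAR : Prop :=
  ∃ C : ℝ, 1 ≤ C ∧ ∀ (ι : Type) [Fintype ι] (B : ι → ℂ → ℂ) (p : ι → ℂ) (c : ι → ℝ) (V : ℂ → ℂ)
    (g : ℂ → ℝ) (l d D Y M Z : ℝ), 0 < D → D ≤ d → d ≤ l → l ≤ 1 / 4 →
    ContDiff ℝ ∞ V → Peri V → GM V g l D Y → (∀ i, ContDiff ℝ ∞ (B i) ∧ Peri (B i) ∧ 0 ≤ c i ∧
      Dom 3 (B i) (p i) (c i) l d) → Mult (fun i => c i ≠ 0) p l M → ∑ i, c i ^ 2 ≤ Z →
    Cst l (fun y => ∑ i, (V y - V (p i)) * B i y)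
      (C * lg l * l ^ 2 * √(M * Y * Z) * (l / d) * (l / D) ^ (al - 1))

def St_SQ : Prop :=
  ∃ C : ℝ, 1 ≤ C ∧ ∀ (B : ℂ → ℂ) (g : ℂ → ℝ) (l s X : ℝ), 0 < s → s ≤ l → ContDiff ℝ ∞ B → Peri B →
    GM0 B g l s X → Cst l (fun y => B y ^ 2 / 2) (C * X * (l / s) ^ al)

def St_FF : Prop :=
  ∃ C : ℝ, 1 ≤ C ∧ ∀ (ι : Type) [Fintype ι] (W : ι → ℂ → ℂ) (p : ι → ℂ) (c r : ι → ℝ) (B : ℂ → ℂ)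
    (g : ℂ → ℝ) (l s X M L Om : ℝ), 0 ≤ L → s ≤ l → 0 < l → l ≤ 1 / 4 → ContDiff ℝ ∞ B → Peri B →
    GM0 B g l s X → (∀ i, ContDiff ℝ ∞ (W i) ∧ Peri (W i) ∧ 0 ≤ c i ∧ 0 < r i ∧ r i ≤ s ∧
      lg (r i) ≤ L ∧ Dom 2 (W i) (p i) (c i) (r i) (r i) ∧ Supp (W i) (p i) (l / 2)) →
    Mult (fun i => c i ≠ 0) p l M → ∑ i, (c i * r i ^ (2 - al)) ^ 2 ≤ Om →
    Cst l (fun y => (∑ i, W i y) * B y) (C * L * l ^ al * √(Om * M * X) / l)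

def St_PAIR : Prop :=
  ∃ C : ℝ, 1 ≤ C ∧ ∀ (ι κ : Type) [Fintype ι] [Fintype κ] (W : ι → ℂ → ℂ) (p : ι → ℂ) (c r : ι → ℝ)
    (W' : κ → ℂ → ℂ) (p' : κ → ℂ) (c' : κ → ℝ) (A : Finset (ι × κ)) (l D rho R M L Om Z : ℝ),
    0 < rho → rho ≤ D → D ≤ l → l ≤ 1 / 4 → R ≤ l / 2 → lg rho ≤ L →
    (∀ i, ContDiff ℝ ∞ (W i) ∧ Peri (W i) ∧ 0 ≤ c i ∧ 0 < r i ∧ r i ≤ D ∧ lg (r i) ≤ L ∧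
      Dom 2 (W i) (p i) (c i) (r i) (r i) ∧ Supp (W i) (p i) R) →
    (∀ k, ContDiff ℝ ∞ (W' k) ∧ Peri (W' k) ∧ 0 ≤ c' k ∧ Env (W' k) (p' k) (c' k) rho ∧
      Supp (W' k) (p' k) (l / 2)) →
    (R ≤ 2 * D ∨ ∀ i, r i = rho) →
    (∀ a ∈ A, (∀ y, W a.1 y = 0) ∨ (∀ y, W' a.2 y = 0) ∨ 4 * D ≤ pn (p a.1 - p' a.2)) →
    Mult (fun i => c i ≠ 0) p l M → Mult (fun k => c' k ≠ 0) p' l M →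
    ∑ i, (c i * r i ^ (2 - al)) ^ 2 ≤ Om → ∑ k, c' k ^ 2 ≤ Z →
    Cst l (fun y => ∑ a ∈ A, W a.1 y * W' a.2 y) (C * L * M * (rho / D) ^ 2 * l ^ al * √(Om * Z))

/-- interaction of cores cut at individual radii with separated dipoles -/
def St_PAIR2 : Prop :=
  ∃ C : ℝ, 1 ≤ C ∧ ∀ (ι κ : Type) [Fintype ι] [Fintype κ] (W : ι → ℂ → ℂ) (p : ι → ℂ) (c r R : ι → ℝ)
    (W' : κ → ℂ → ℂ) (p' : κ → ℂ) (c' : κ → ℝ) (l rho M L Om Z : ℝ),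
    0 < rho → 0 < l → l ≤ 1 / 4 → 0 ≤ L →
    (∀ i, ContDiff ℝ ∞ (W i) ∧ Peri (W i) ∧ 0 ≤ c i ∧ 0 < r i ∧ r i ≤ R i ∧ rho ≤ R i ∧
      4 * R i ≤ l ∧ lg (r i) ≤ L ∧ Dom 2 (W i) (p i) (c i) (r i) (r i) ∧ Supp (W i) (p i) (2 * R i)) →
    (∀ k, ContDiff ℝ ∞ (W' k) ∧ Peri (W' k) ∧ 0 ≤ c' k ∧ Env (W' k) (p' k) (c' k) rho ∧
      Supp (W' k) (p' k) (l / 2)) →
    (∀ i k, (∀ y, W i y = 0) ∨ (∀ y, W' k y = 0) ∨ 4 * R i ≤ pn (p i - p' k)) →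
    Mult (fun i => c i ≠ 0) p l M → Mult (fun k => c' k ≠ 0) p' l M →
    ∑ i, (c i * r i ^ (2 - al) / R i ^ 2) ^ 2 ≤ Om → ∑ k, c' k ^ 2 ≤ Z →
    Cst l (fun y => (∑ i, W i y) * ∑ k, W' k y) (C * L * M * rho ^ 2 * l ^ al * √(Om * Z))

/-! ## One box -/

def St_CELL : Prop :=
  ∃ C : ℝ, 1 ≤ C ∧ ∀ (l rho d h d2 del cc e1 f u T tb L : ℝ) (S : ℝ → ℂ → ℂ), 0 < rho → C * rho ≤ d →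
    0 < d2 → d2 ≤ d → C * d ≤ h → h ≤ l → l ≤ 1 / 10000 → 0 ≤ cc → cc ≤ del → cc ≤ h → del ≤ l →
    0 < e1 → e1 ≤ 1 →
    0 < f → f ≤ 1 / 4 → 0 < u → 0 < T → h ≤ f * (u * T) → C * l ^ 3 ≤ u * T * d2 ^ 2 → lg rho ≤ L →
    Loc S (3 * l) → TS S (tb - T) (tb + T) →
    (∀ k ≤ 4, ∀ y, C * l ^ 2 * (l ^ k * ∫ t, nD k (S t) y) ≤ rho ^ 2 * u ^ 2 * T) →
    ∃ (ξ : (ℕ → ℂ) → ℝ → ℂ) (U : ℝ → ℝ) (N : ℕ) (tk : ℕ → ℝ) (Y : ℝ → ℂ) (s e : ℝ),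
      Ctl ξ U N tk cc (40 * l) C ∧ (∀ t, HasDerivAt Y (ξ 0 t) t) ∧
      (∀ t, U t ≤ u ∧ ‖Y t‖ ≤ 50 * l) ∧ tb - T ≤ s ∧ s + f * T ≤ e ∧ e ≤ tb + T ∧
      s ≤ tk 0 ∧ tk N ≤ e ∧
      ∀ vs, Adm cc vs → ∀ x z c : ℝ → ℂ, ContDiff ℝ ∞ x → ContDiff ℝ ∞ z → ContDiff ℝ ∞ c →
        (∀ t, HasDerivAt x (c t + ξ vs t) t) → (∀ t, |t - tb| ≤ T → ‖x t - z t - Y t‖ ≤ del) →
        ∃ w wb E : ℝ → ℂ → ℂ, SP w ∧ SP wb ∧ SP E ∧ DivF w ∧ DivF wb ∧ TS w s e ∧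
          (∀ t, U t = 0 → ∀ y, w t y = 0) ∧
          TS wb (tb - T) (tb + T) ∧ TS E (tb - T) (tb + T) ∧
          (∀ t, Env (w t) (x t) (C * L * u) rho ∧ Supp (w t) (x t) (2 * d) ∧
            Dom 3 (wb t) (z t) (C * rho ^ 2 * u ^ 2 * T * l / d ^ 4) l d ∧
            Cst l (E t) (C * L ^ 3 * u ^ 2 * rho ^ 2 * Gam l rho d h d2 del e1 f (u * T))) ∧
          CellEq w wb E (mv S z) c (deriv z)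

/-! ## The stage -/

def St_PREP : Prop :=
  ∃ C : ℝ, 1 ≤ C ∧ ∀ (P : Par) (v q V : ℝ → ℂ → ℂ) (ι : Type) [Fintype ι] (o : ι → Ob) (a b : ℝ),
    P.OK C → SP q → (∀ t, IQ (fun x => ‖q t x‖) ≤ P.S) →
    Dec v V o a b P.l P.D P.rho P.Y P.Xi P.Z P.G →
    ∃ (g F : ℝ → ℂ → ℝ) (lam : ι → ℝ → ℝ), TS (Vh v o P.D) a b ∧
      Continuous (fun p : ℝ × ℂ => g p.1 p.2) ∧ (∀ t, GM (Vh v o P.D t) (g t) P.l P.D (4 * P.Y)) ∧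
      Maj0 (Ot o P.D) P.l P.D (P.G ^ 16 * P.l ^ 2 * P.D ^ (al - 2) * P.S / P.rho ^ al) ∧
      BoxIn (Vh v o P.D) F P.l (6 * P.Y) ∧ (∀ t x, ‖q t x‖ ≤ (P.n * P.rho) ^ 2 * F t x) ∧
      (∀ j, Continuous (lam j)) ∧ (∀ j t, 0 ≤ lam j t) ∧
      (∀ j, ∀ t ∈ Icc (o j).s (o j).e,
        ‖deriv (o j).x t - Vh v o P.D t ((o j).x t)‖ ≤ lam j t ∧ (o j).u ≤ lam j t) ∧
      ∀ t z, ∑ j ∈ Finset.univ.filter (fun j => pn ((o j).x t - z) ≤ 53 * P.l),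
        rad P.D (o j).rho * lam j t ≤ 3721 * P.rs / P.kap * √(avg F 500 P.l t z)

def St_BUILD : Prop :=
  ∃ C : ℝ, 1 ≤ C ∧ ∀ (P : Par) (v q V : ℝ → ℂ → ℂ) (ι : Type) [Fintype ι] (o : ι → Ob) (a b : ℝ),
    P.OK C → SP q → TS q a b → (∀ t, IQ (fun x => ‖q t x‖) ≤ P.S) →
    Dec v V o a b P.l P.D P.rho P.Y P.Xi P.Z P.G →
    ∃ (N : ℕ) (B : BD (Fin N)), Built P v q o a b B

/-- majorants of the new fields -/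
def St_NMAJ : Prop :=
  ∃ C : ℝ, 1 ≤ C ∧ ∀ (P : Par) (v q : ℝ → ℂ → ℂ) (ι : Type) [Fintype ι] (o : ι → Ob) (a b : ℝ)
    (β : Type) [Fintype β] (B : BD β), P.OK C → Built P v q o a b B →
    Maj0 B.Wb P.l P.d (P.G ^ 12 * P.bt ^ 2 * P.l ^ 2 * P.S / P.rho ^ 2) ∧
    Maj0 B.W P.rho P.rho (P.G ^ 13 * P.S) ∧
    ∀ t, Mult (fun i => B.act i t) (fun i => B.x i t) P.l P.G

def St_C78 : Prop :=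
  ∃ C : ℝ, 1 ≤ C ∧ ∀ (P : Par) (v q : ℝ → ℂ → ℂ) (ι : Type) [Fintype ι] (o : ι → Ob) (a b : ℝ)
    (β : Type) [Fintype β] (B : BD β), P.OK C → Built P v q o a b B → ∀ t,
    Cst P.l (fun y => ∑ i, B.E i t y)
      (P.S * P.G ^ 15 * Gam P.l P.rho P.d P.h P.d2 (P.G * P.d2) P.e1 P.f P.Lam) ∧
    Cst P.l (fun y => ∑ i, (Vh v o P.D t y - Vh v o P.D t (B.x i t)) * B.w i t y)
      (P.S * P.G ^ 15 * ((P.l / P.rho) ^ (al - 1) / P.n)) ∧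
    Cst P.l (fun y => ∑ i, (Vh v o P.D t y - Vh v o P.D t (B.z i t)) * B.wb i t y)
      (P.S * P.G ^ 15 * (P.bt * (P.l / P.rho) ^ 2 / P.n * (P.l / P.d) * (P.l / P.D) ^ (al - 1))) ∧
    Cst P.l (fun y => B.Wb t y ^ 2 / 2)
      (P.S * P.G ^ 15 * (P.bt ^ 2 * (P.l / P.rho) ^ 2 * (P.l / P.d) ^ al)) ∧
    Cst P.l (fun y => B.W t y * B.Wb t y) (P.S * P.G ^ 15 * (P.bt * (P.l / P.rho) ^ al))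

def St_C13 : Prop :=
  ∃ C : ℝ, 1 ≤ C ∧ ∀ (P : Par) (v q V : ℝ → ℂ → ℂ) (ι : Type) [Fintype ι] (o : ι → Ob) (a b : ℝ)
    (β : Type) [Fintype β] (B : BD β), P.OK C → Dec v V o a b P.l P.D P.rho P.Y P.Xi P.Z P.G →
    Built P v q o a b B → ∀ t,
    Cst P.l (fun y => Core o P.D t y * B.Wb t y)
      (P.S * P.G ^ 15 * (P.bt * P.l ^ al * √(P.D ^ (2 - al) / P.rho ^ al) / P.rho)) ∧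
    Cst P.l (fun y => Core o P.D t y * B.W t y)
      (P.S * P.G ^ 15 * ((P.rho / P.D) ^ (4 / 3 : ℝ) * (P.l / P.rho) ^ al)) ∧
    Cst P.l (fun y => (B.W t y ^ 2 - ∑ i, B.w i t y ^ 2) / 2)
      (P.S * P.G ^ 15 * ((P.rho / P.D) ^ (4 / 3 : ℝ) * (P.l / P.rho) ^ al))

def St_NEWD : Prop :=
  ∃ C : ℝ, 1 ≤ C ∧ ∀ (P : Par) (v q V : ℝ → ℂ → ℂ) (ι : Type) [Fintype ι] (o : ι → Ob) (a b : ℝ)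
    (β : Type) [Fintype β] (B : BD β), P.OK C → Dec v V o a b P.l P.D P.rho P.Y P.Xi P.Z P.G →
    Built P v q o a b B →
    HasDec (fun t y => v t y + B.W t y + B.Wb t y) (a - 2 * P.T0) (b + 2 * P.T0) (P.l / 60) P.D P.rho
      (4 * P.Y) (2 * P.Xi) (P.G ^ 19 * P.S / P.rho ^ al) (2 * P.G) ∧
    Inc (fun t y => B.W t y + B.Wb t y) (P.G ^ 7 * √P.S) P.rho

def St_STAGE : Prop :=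
  ∃ C : ℝ, 1 ≤ C ∧ ∀ (P : Par) (v q : ℝ → ℂ → ℂ) (a b B : ℝ), P.OK C →
    State v q a b P.l P.D P.rho P.S B P.Y P.Xi P.Z P.G →
    ∃ v' q' : ℝ → ℂ → ℂ, State v' q' (a - 2 * P.T0) (b + 2 * P.T0) (P.l / 60) P.D P.rho
        (B * P.l ^ al / 2 + P.S * P.G ^ 15 * P.tot) (2 * B + P.S * P.G ^ 15 * P.tot / P.l ^ al)
        (4 * P.Y) (2 * P.Xi) (P.G ^ 19 * P.S / P.rho ^ al) (2 * P.G) ∧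
      Inc (fun t y => v' t y - v t y) (P.G ^ 7 * √P.S) P.rho

def St_ABS : Prop :=
  ∃ C : ℝ, 1 ≤ C ∧ ∀ (v : ℝ → ℂ → ℂ) (a b l D rho Y Xi Z M l' D' rho' Y' Xi' Z' M' : ℝ),
    HasDec v a b l D rho Y Xi Z M → 0 < D' → D' ≤ D → D ≤ l' → l' ≤ l → l ≤ 1 / 4 → rho' ≤ rho →
    2 * Y + C * M * lg l' ^ 2 * l' ^ 2 * D' ^ (al - 4) * Xi ≤ Y' → Xi ≤ Xi' →
    2 * Z + C * M ^ 2 * lg l' ^ 2 * Xi ≤ Z' → M ≤ M' →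
    HasDec v a b l' D' rho' Y' Xi' Z' M'

def St_START : Prop :=
  ∃ C : ℝ, 1 ≤ C ∧ ∀ (δ : ℝ) (k : ℕ) (l D rho S B Y Xi Z M : ℝ), 0 < δ → 1 ≤ k → 0 ≤ D → D * k ≤ 1 →
    C * δ / k ≤ S → C * δ * (k : ℝ) ^ (al - 1) ≤ B → (C * δ * k) ^ 2 ≤ Y → 0 ≤ Xi → 0 ≤ Z → 0 ≤ M →
    ∃ v q : ℝ → ℂ → ℂ, State v q (1 / 4) (3 / 4) l D rho S B Y Xi Z M ∧
      ∀ t ∈ Icc (9 / 20 : ℝ) (11 / 20), (δ / 2) ^ 2 ≤ IQ fun x => ‖v t x‖ ^ 2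

def St_NUM : Prop :=
  ∀ β C : ℝ, 1 / 2 ≤ β → 2 * β < al → 1 ≤ C → ∃ (P : ℕ → Par) (B : ℕ → ℝ) (δ : ℝ) (k : ℕ), (∀ m, (P m).OK C) ∧
    (∀ m, B m * (P m).l ^ al / 2 + (P m).S * (P m).G ^ 15 * (P m).tot ≤ (P (m + 1)).S ∧
      2 * B m + (P m).S * (P m).G ^ 15 * (P m).tot / (P m).l ^ al ≤ B (m + 1) ∧
      (P (m + 1)).D ≤ (P m).D ∧ (P m).D ≤ (P (m + 1)).l ∧ (P (m + 1)).l ≤ (P m).l / 60 ∧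
      (P (m + 1)).rho ≤ (P m).rho ∧
      2 * (4 * (P m).Y) + C * (2 * (P m).G) * lg (P (m + 1)).l ^ 2 * (P (m + 1)).l ^ 2
        * (P (m + 1)).D ^ (al - 4) * (2 * (P m).Xi) ≤ (P (m + 1)).Y ∧
      2 * (P m).Xi ≤ (P (m + 1)).Xi ∧
      2 * ((P m).G ^ 19 * (P m).S / (P m).rho ^ al) + C * (2 * (P m).G) ^ 2 * lg (P (m + 1)).l ^ 2
        * (2 * (P m).Xi) ≤ (P (m + 1)).Z ∧
      2 * (P m).G ≤ (P (m + 1)).G) ∧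
    (∀ N, ∑ m ∈ Finset.range N, (P m).T0 ≤ 1 / 16) ∧
    Tendsto (fun m => (P m).S) atTop (𝓝 0) ∧
    Summable (fun m => (P m).G ^ 7 * √(P m).S * (P m).rho ^ (-β)) ∧
    0 < δ ∧ 1 ≤ k ∧ (P 0).D * k ≤ 1 ∧ C * δ / k ≤ (P 0).S ∧ C * δ * (k : ℝ) ^ (al - 1) ≤ B 0 ∧
    (C * δ * k) ^ 2 ≤ (P 0).Y ∧ ∑' m, (P m).G ^ 7 * √(P m).S < δ / 2

def St_SEQ : Prop :=
  ∀ β : ℝ, 1 / 2 ≤ β → 2 * β < al → ∃ (v q : ℕ → ℝ → ℂ → ℂ) (S A rho : ℕ → ℝ), Seq β v q S A rho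

end

theorem Seq.old {β : ℝ} {v q : ℕ → ℝ → ℂ → ℂ} {S A rho : ℕ → ℝ} (H : Seq β v q S A rho)
    (hβ : 11 / 20 ≤ β) : EUL.Seq v q S A rho :=
  ⟨H.er, H.small, H.lim, H.rpos, H.r1, H.A0, H.inc,
    Summable.of_nonneg_of_le (fun m => mul_nonneg (H.A0 m) (Real.rpow_nonneg (H.rpos m).le _))
      (fun m => mul_le_mul_of_nonneg_left
        (Real.rpow_le_rpow_of_exponent_ge (H.rpos m) (H.r1 m) (by linarith)) (H.A0 m)) H.sum,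
    H.ts, H.big⟩

theorem hs_mono {s s' : ℝ} (h : s ≤ s') (f : MP_fea353_an.T3 → ℝ) :
    MP_fea353_an.HsNormSq s f ≤ MP_fea353_an.HsNormSq s' f := by
  refine ENNReal.tsum_le_tsum fun k => ENNReal.ofReal_le_ofReal ?_
  refine mul_le_mul_of_nonneg_right (Real.rpow_le_rpow_of_exponent_le ?_ h) (by positivity)
  have : 0 ≤ ∑ j, (k j : ℝ) ^ 2 := by positivity
  linarith

theorem st_main (h1 : ∀ _ : Al, St_SEQ) (h2 : St_LIM) (h3 : St_T3) (h4 : St_HS) (h5 : St_EN) :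
    St_MAIN := by
  have key : ∀ β : ℝ, 11 / 20 ≤ β → β < 2 / 3 → Concl β := by
    intro β h0 hβ
    obtain ⟨v, q, S, A, rho, H⟩ := h1 ⟨β + 2 / 3, by linarith, by linarith⟩ β (by linarith)
      (by show 2 * β < β + 2 / 3; linarith)
    obtain ⟨u, p, hw, hl⟩ := h2 v q S A rho (H.old h0)
    exact ⟨_, _, h3 u p hw, h4 β v q S A rho u (by linarith) (by linarith) H hl,
      h5 v q S A rho u (H.old h0) hl⟩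
  intro β hβ
  rcases le_total (11 / 20) β with h | h
  · exact key β h hβ
  · obtain ⟨v, p, hw, ⟨M, hM⟩, he⟩ := key (11 / 20) le_rfl (by norm_num)
    exact ⟨v, p, hw, ⟨M, fun t i => (hs_mono h _).trans (hM t i)⟩, he⟩

end Pool.Agent.Lib.EU2
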