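import Pool.Agent.Lib.EUL.Blue

set_option autoImplicit false

namespace Pool.Agent.Lib.EU2

open MeasureTheory Set Pool.Agent.Lib.EUL
open scoped ContDiff Classical

noncomputable section

/-- the Besov exponent of the stress, a parameter in `[10/9, 4/3)` -/
class Al where
  a : ℝ
  lo : 10 / 9 ≤ a
  hi : a < 4 / 3

def al [h : Al] : ℝ := h.a

theorem al_lo [h : Al] : 10 / 9 ≤ al := h.lo

theorem al_hi [h : Al] : al < 4 / 3 := h.hi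

/-- class radius of an obstacle of thickness `r` -/
def rad (D r : ℝ) : ℝ := D ^ (2 / 3 : ℝ) * r ^ (1 / 3 : ℝ)

/-- admissible control sequences -/
def Adm (c0 : ℝ) (vs : ℕ → ℂ) : Prop := ∀ k, ‖vs k‖ ≤ c0

/-- a steerable direction function, in arc length -/
structure Str (Φ : (ℕ → ℂ) → ℝ → ℝ) (N : ℕ) (sk : ℕ → ℝ) (Λ h c0 L C : ℝ) : Prop where
  s0 : sk 0 = 0
  sN : sk N = Λ
  lt : ∀ k < N, sk k < sk (k + 1)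
  len : ∀ k < N, sk (k + 1) - sk k ≤ L
  sm : ∀ vs, Adm c0 vs → ContDiff ℝ ∞ (Φ vs) ∧ ∀ s, |deriv (Φ vs) s| ≤ C / h ∧
    |deriv (deriv (Φ vs)) s| ≤ C / h ^ 2 ∧ |Φ vs s - Φ 0 s| ≤ C * c0 / h
  loc : ∀ vs vs', Adm c0 vs → Adm c0 vs' → ∀ k < N, vs k = vs' k →
    ∀ s ∈ Icc (sk k) (sk (k + 1)), Φ vs s = Φ vs' s
  lip : ∀ vs vs', Adm c0 vs → Adm c0 vs' → ∀ k < N, ∀ s ∈ Icc (sk k) (sk (k + 1)),
    ‖∫ r in (sk k)..s, (ex (Φ vs r) - ex (Φ vs' r))‖ ≤ C * ‖vs k - vs' k‖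
  fin : ∀ vs vs', Adm c0 vs → Adm c0 vs' → ∀ k < N,
    ∫ r in (sk k)..(sk (k + 1)), (ex (Φ vs r) - ex (Φ vs' r)) = vs k - vs' k

/-- a steerable forcing, in time -/
structure Ctl (ξ : (ℕ → ℂ) → ℝ → ℂ) (U : ℝ → ℝ) (N : ℕ) (tk : ℕ → ℝ) (c0 L K : ℝ) : Prop where
  mono : ∀ k < N, tk k ≤ tk (k + 1)
  Ucont : Continuous U
  U0 : ∀ t, 0 ≤ U t
  off : ∀ t, t ∉ Icc (tk 0) (tk N) → U t = 0
  len : ∀ k < N, ∫ t in (tk k)..(tk (k + 1)), U t ≤ L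
  sm : ∀ vs, Adm c0 vs → ContDiff ℝ ∞ (ξ vs) ∧ ∀ t, ‖ξ vs t‖ ≤ U t
  loc : ∀ vs vs', Adm c0 vs → Adm c0 vs' → ∀ k < N, vs k = vs' k →
    ∀ t ∈ Icc (tk k) (tk (k + 1)), ξ vs t = ξ vs' t
  lip : ∀ vs vs', Adm c0 vs → Adm c0 vs' → ∀ k < N, ∀ t ∈ Icc (tk k) (tk (k + 1)),
    ‖∫ r in (tk k)..t, (ξ vs r - ξ vs' r)‖ ≤ K * ‖vs k - vs' k‖
  fin : ∀ vs vs', Adm c0 vs → Adm c0 vs' → ∀ k < N,
    ∫ r in (tk k)..(tk (k + 1)), (ξ vs r - ξ vs' r) = vs k - vs' k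

/-- sum of the cores, each cut at its class radius -/
def Core {ι : Type} [Fintype ι] (o : ι → Ob) (D t : ℝ) (y : ℂ) : ℂ :=
  ∑ i, (o i).core (rad D (o i).rho) t y

/-- velocity without the cores -/
def Vh {ι : Type} [Fintype ι] (v : ℝ → ℂ → ℂ) (o : ι → Ob) (D t : ℝ) (y : ℂ) : ℂ :=
  v t y - Core o D t y

/-- far field of the obstacles -/
def Ot {ι : Type} [Fintype ι] (o : ι → Ob) (D t : ℝ) (y : ℂ) : ℂ :=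
  ∑ i, (o i).W t y - Core o D t y

/-- parameters of a stage -/
structure Par where
  l : ℝ
  rho : ℝ
  D : ℝ
  d : ℝ
  h : ℝ
  d2 : ℝ
  th0 : ℝ
  kap : ℝ
  f : ℝ
  e1 : ℝ
  n : ℝ
  G : ℝ
  S : ℝ

def Par.Lam (P : Par) : ℝ := P.G * P.n * P.th0 * P.l
def Par.bt (P : Par) : ℝ := P.rho ^ 2 * P.Lam * P.l / P.d ^ 4
def Par.Y (P : Par) : ℝ := P.S / (P.n * P.rho) ^ 2
def Par.T0 (P : Par) : ℝ := P.th0 / √(6 * P.Y)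
def Par.rs (P : Par) : ℝ := rad P.D P.rho

/-- the objects attached to the boxes of a stage -/
structure BD (β : Type) where
  tb : β → ℝ
  Tb : β → ℝ
  s : β → ℝ
  e : β → ℝ
  z : β → ℝ → ℂ
  x : β → ℝ → ℂ
  w : β → ℝ → ℂ → ℂ
  wb : β → ℝ → ℂ → ℂ
  E : β → ℝ → ℂ → ℂ
  Sg : β → ℝ → ℂ → ℂ
  g : ℝ → ℂ → ℝ

def BD.W {β : Type} [Fintype β] (B : BD β) (t : ℝ) (y : ℂ) : ℂ := ∑ i, B.w i t y
def BD.Wb {β : Type} [Fintype β] (B : BD β) (t : ℝ) (y : ℂ) : ℂ := ∑ i, B.wb i t y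
def BD.u {β : Type} (B : BD β) (P : Par) (i : β) : ℝ := P.Lam / B.Tb i
def BD.act {β : Type} (B : BD β) (i : β) (t : ℝ) : Prop := |t - B.tb i| ≤ 2 * B.Tb i

/-- the sequence produced by the iteration -/
structure Seq (β : ℝ) (v q : ℕ → ℝ → ℂ → ℂ) (S A rho : ℕ → ℝ) : Prop where
  er : ∀ m, ER (v m) (q m)
  small : ∀ m t, IQ (fun x => ‖q m t x‖) ≤ S m
  lim : Filter.Tendsto S Filter.atTop (nhds 0)
  rpos : ∀ m, 0 < rho m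
  r1 : ∀ m, rho m ≤ 1
  A0 : ∀ m, 0 ≤ A m
  inc : ∀ m, Inc (fun t x => v (m + 1) t x - v m t x) (A m) (rho m)
  sum : Summable fun m => A m * rho m ^ (-β)
  ts : ∀ m, TS (v m) (1 / 8) (7 / 8)
  big : ∃ c : ℝ, ∑' m, A m < c ∧ ∀ t ∈ Icc (9 / 20 : ℝ) (11 / 20), c ^ 2 ≤ IQ fun x => ‖v 0 t x‖ ^ 2

variable [Al]

def Bes (f : ℂ → ℂ) (S B : ℝ) : Prop :=
  IQ (fun x => ‖f x‖) ≤ S ∧ ∀ y : ℂ, IQ (fun x => ‖f (x + y) + f (x - y) - 2 * f x‖) ≤ B * ‖y‖ ^ al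

def Cst (l : ℝ) (f : ℂ → ℂ) (c : ℝ) : Prop := Bes f c (c / l ^ al)

/-- decomposition of the velocity into a tame part and obstacles -/
structure Dec (v V : ℝ → ℂ → ℂ) {ι : Type} [Fintype ι] (o : ι → Ob)
    (a b l D rho Y Xi Z M : ℝ) : Prop where
  Vsp : SP V
  Vts : TS V a b
  eq : ∀ t x, v t x = V t x + ∑ i, (o i).W t x
  maj : Maj V l D Y
  good : ∀ i, (o i).Good
  life : ∀ i, a ≤ (o i).s ∧ (o i).e ≤ b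
  size : ∀ i, rho ≤ (o i).rho ∧ (o i).rho ≤ D
  long : ∀ i, D ≤ (o i).u * ((o i).e - (o i).s)
  mult : ∀ t, Mult (fun i => (o i).a t ≠ 0) (fun i => (o i).x t) (60 * l) M
  xi : ∀ t, ∑ i, ((o i).a t * (o i).u) ^ 2 * (o i).rho ^ (2 - al) ≤ Xi
  drift : ∀ t, ∑ i, ((o i).a t * ‖deriv (o i).x t - V t ((o i).x t)‖) ^ 2 * (o i).rho ^ (2 - al) ≤ Z

def HasDec (v : ℝ → ℂ → ℂ) (a b l D rho Y Xi Z M : ℝ) : Prop :=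
  ∃ (ι : Type) (_ : Fintype ι) (o : ι → Ob) (V : ℝ → ℂ → ℂ), Dec v V o a b l D rho Y Xi Z M

def State (v q : ℝ → ℂ → ℂ) (a b l D rho S B Y Xi Z M : ℝ) : Prop :=
  ER v q ∧ TS q a b ∧ (∀ t, Bes (q t) S B) ∧ HasDec v a b l D rho Y Xi Z M

/-- relative cost of the errors made inside one box; `Lam` is speed times life -/
def Gam (l rho d h d2 del e1 f Lam : ℝ) : ℝ :=
  h / l + (l ^ 3 / (Lam * d2 ^ 2) + (d2 + del) / d + f + rho / d) * (l / d) ^ al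
    + e1 * (l / (rho * √e1)) ^ al + (rho / d) ^ 2 * (l / rho) ^ al
    + l * (l / rho) ^ (al - 1) / (f * Lam) + d * l * (l / d) ^ (al - 1) / h ^ 2

def Par.Xi (P : Par) : ℝ := P.G ^ 10 * P.S / P.rho ^ al
def Par.Z (P : Par) : ℝ := P.G ^ 10 * P.S / P.rho ^ al

/-- relative cost of the whole stage -/
def Par.tot (P : Par) : ℝ :=
  Gam P.l P.rho P.d P.h P.d2 (P.G * P.d2) P.e1 P.f P.Lam
    + (P.l / P.rho) ^ (al - 1) / P.n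
    + P.bt * (P.l / P.rho) ^ 2 / P.n * (P.l / P.d) * (P.l / P.D) ^ (al - 1)
    + P.bt ^ 2 * (P.l / P.rho) ^ 2 * (P.l / P.d) ^ al
    + P.bt * (P.l / P.rho) ^ al
    + P.bt * P.l ^ al * √(P.D ^ (2 - al) / P.rho ^ al) / P.rho
    + (P.rho / P.D) ^ (4 / 3 : ℝ) * (P.l / P.rho) ^ al
    + (P.rho / P.D) ^ (4 / 3 : ℝ) * (P.l / P.rho) ^ al

structure Par.OK (P : Par) (C : ℝ) : Prop where
  rpos : 0 < P.rho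
  Spos : 0 < P.S
  n1 : 1 ≤ P.n
  big : C * lg P.rho ≤ P.G
  rD : P.rho ≤ P.D
  Dd2 : 12 * P.D ≤ P.d2
  d2d : P.d2 ≤ P.d
  dh : P.G * P.d ≤ P.h
  hl : P.h ≤ P.l
  lsmall : P.l ≤ 1 / 10000
  rd : P.G * P.n * P.rho ≤ P.d
  thpos : 0 < P.th0
  thD : P.G ^ 2 * P.l * P.th0 ≤ P.d2
  fpos : 0 < P.f
  f4 : P.f ≤ 1 / 4
  e1pos : 0 < P.e1
  e11 : P.e1 ≤ 1
  kpos : 0 < P.kap
  ramp : P.l ≤ P.f * P.Lam
  rounds : P.G * P.l ^ 3 ≤ P.Lam * P.d2 ^ 2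
  far : P.G ^ 16 * P.l ^ 2 * P.D ^ (al - 4) * P.rho ^ (2 - al) * P.n ^ 2 ≤ 1
  kapp : P.G ^ 24 * P.kap ^ 2 * P.l ^ 2 * P.n ^ 2 ≤ 1
  grid : P.G ^ 3 * (P.D ^ 2 + P.D * P.l + P.rs * (P.th0 / P.kap + P.Lam)) ≤ P.d2 ^ 2
  corr : P.G ^ 12 * P.bt ^ 2 * P.l ^ 2 ≤ P.rho ^ 2

structure Built (P : Par) (v q : ℝ → ℂ → ℂ) {ι : Type} [Fintype ι] (o : ι → Ob) (a b : ℝ)
    {β : Type} [Fintype β] (B : BD β) : Prop where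
  Vsp : SP (Vh v o P.D)
  gcont : Continuous (fun p : ℝ × ℂ => B.g p.1 p.2)
  gm : ∀ t, GM (Vh v o P.D t) (B.g t) P.l P.D (4 * P.Y)
  far : Maj0 (Ot o P.D) P.l P.D (P.G ^ 16 * P.l ^ 2 * P.D ^ (al - 2) * P.S / P.rho ^ al)
  Tpos : ∀ i, 0 < B.Tb i
  Tle : ∀ i, B.Tb i ≤ P.T0
  tmem : ∀ i, B.tb i ∈ Icc (a - P.T0) (b + P.T0)
  life : ∀ i, B.tb i - B.Tb i ≤ B.s i ∧ B.s i ≤ B.e i ∧ B.e i ≤ B.tb i + B.Tb i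
  long : ∀ i, P.l ≤ B.u P i * (B.e i - B.s i)
  zsm : ∀ i, ContDiff ℝ ∞ (B.z i)
  xsm : ∀ i, ContDiff ℝ ∞ (B.x i)
  xdrift : ∀ i t, ‖deriv (B.x i) t - Vh v o P.D t (B.x i t)‖ ≤ B.u P i
  near : ∀ i t, B.act i t → ‖B.x i t - B.z i t‖ ≤ 52 * P.l
  sumU : ∀ t, ∑ i ∈ Finset.univ.filter (fun i => B.act i t), B.u P i ^ 2 ≤ P.G ^ 5 * P.S / P.rho ^ 2
  mult : ∀ t, Mult (fun i => B.act i t) (fun i => B.z i t) (110 * P.l) P.G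
  sepO : ∀ i j t, t ∈ Icc (o j).s (o j).e →
    (∀ y, B.w i t y = 0) ∨ 4 * rad P.D (o j).rho ≤ pn (B.x i t - (o j).x t)
  sepN : ∀ i j t, i ≠ j →
    (∀ y, B.w i t y = 0) ∨ (∀ y, B.w j t y = 0) ∨ 4 * P.rs ≤ pn (B.x i t - B.x j t)
  wsp : ∀ i, SP (B.w i)
  wbsp : ∀ i, SP (B.wb i)
  Esp : ∀ i, SP (B.E i)
  Ssp : ∀ i, SP (B.Sg i)
  wdiv : ∀ i, DivF (B.w i)
  wbdiv : ∀ i, DivF (B.wb i)
  wts : ∀ i, TS (B.w i) (B.s i) (B.e i)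
  wbts : ∀ i, TS (B.wb i) (B.tb i - B.Tb i) (B.tb i + B.Tb i)
  Ets : ∀ i, TS (B.E i) (B.tb i - B.Tb i) (B.tb i + B.Tb i)
  env : ∀ i t, Env (B.w i t) (B.x i t) (P.G ^ 2 * B.u P i) P.rho
  supp : ∀ i t, Supp (B.w i t) (B.x i t) (2 * P.d)
  dom : ∀ i t, Dom 3 (B.wb i t) (B.z i t) (P.G * P.bt * B.u P i) P.l P.d
  cost : ∀ i t, Cst P.l (B.E i t)
    (P.G ^ 5 * B.u P i ^ 2 * P.rho ^ 2 * Gam P.l P.rho P.d P.h P.d2 (P.G * P.d2) P.e1 P.f P.Lam)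
  src : ∀ t y, ∑ i, B.Sg i t y = mol P.l (q t) y
  eq : ∀ i, CellEq (B.w i) (B.wb i) (B.E i) (B.Sg i) (fun t => Vh v o P.D t (B.x i t))
    (fun t => Vh v o P.D t (B.z i t))

end

end Pool.Agent.Lib.EU2
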