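import Pool.Agent.Lib.EU2.Final

/-! The solutions of the assembly are planar. -/

set_option autoImplicit false

namespace Pool.Agent.Lib.EU2

open MeasureTheory Set Filter Topology Pool.Agent.Lib.EUL
open scoped ContDiff Classical

theorem pr_shift (x : MP_fea353_an.T3) (s : UnitAddCircle) :
    pr (x + (Pi.single 2 s : Fin 3 → UnitAddCircle)) = pr x := by
  have h0 : (x + (Pi.single 2 s : Fin 3 → UnitAddCircle)) 0 = x 0 := by
    rw [Pi.add_apply, Pi.single_eq_of_ne (by decide), add_zero]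
  have h1 : (x + (Pi.single 2 s : Fin 3 → UnitAddCircle)) 1 = x 1 := by
    rw [Pi.add_apply, Pi.single_eq_of_ne (by decide), add_zero]
  unfold pr
  rw [h0, h1]

open Final MP_fea353_an Scale in
theorem main_planar (T β : ℝ) (hT : 0 < T) (hβ : β < 2 / 3) :
    ∃ (v : ℝ → T3 → Fin 3 → ℝ) (p : ℝ → T3 → ℝ), WeakEuler T v p ∧
      (∀ t x, v t x 2 = 0 ∧
        ∀ s : UnitAddCircle, v t (x + (Pi.single 2 s : Fin 3 → UnitAddCircle)) = v t x) ∧
      (∀ t i, MemLp (fun x => v t x i) 2 mu) ∧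
      (∃ M : ℝ, ∀ t i, HsNormSq β (fun x => v t x i) ≤ ENNReal.ofReal M) ∧
      ¬ ∃ e : ℝ, ∀ᵐ t ∂(volume.restrict (Ioo 0 T)), energy (v t) = e := by
  have h0 : 11 / 20 ≤ max β (11 / 20) := le_max_right _ _
  have h1 : max β (11 / 20) < 2 / 3 := max_lt hβ (by norm_num)
  obtain ⟨v, q, S, A, rho, H⟩ := @sequence ⟨max β (11 / 20) + 2 / 3, by linarith, by linarith⟩
    (max β (11 / 20)) (by linarith) (by show 2 * max β (11 / 20) < max β (11 / 20) + 2 / 3; linarith)
  obtain ⟨u, p, hw, hl⟩ := lim v q S A rho (H.old h0)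
  obtain ⟨M, hM⟩ := st_HS st_PR (st_HS1 st_PR) _ v q S A rho u (by linarith) (by linarith) H hl
  obtain ⟨e0, c, hc, e1⟩ := st_EN st_PR v q S A rho u (H.old h0) hl
  have hi : 0 < T⁻¹ := inv_pos.2 hT
  have e : T⁻¹ * T = 1 := inv_mul_cancel₀ hT.ne'
  refine ⟨_, _, weak_scale hT (st_T3 st_PR u p hw), fun t x => ⟨?_, fun s => ?_⟩,
    fun t i => (memLp_lift (hl _).1 i).const_mul _, ⟨T⁻¹ ^ 2 * M, fun t i => ?_⟩, ?_⟩
  · show T⁻¹ * (0 : ℝ) = 0
    exact mul_zero _
  · funext i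
    unfold liftU
    rw [pr_shift]
  · rw [hs_mul, ENNReal.ofReal_mul (sq_nonneg _)]
    exact mul_le_mul_right ((hs_mono (le_max_left _ _) _).trans (hM _ i)) _
  · refine not_const (a := T / 8) (b := 9 / 20 * T) (b' := 11 / 20 * T) (c := T⁻¹ ^ 2 * c) _
      (by positivity) (by linarith) (by positivity) (by linarith) (by linarith)
      (fun t ht => ?_) fun t ht => ?_
    · rw [energy_mul, e0 _ (by nlinarith), mul_zero]
    · rw [energy_mul]
      exact mul_le_mul_of_nonneg_left (e1 _ ⟨by nlinarith [ht.1], by nlinarith [ht.2]⟩) (sq_nonneg _)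

end Pool.Agent.Lib.EU2
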